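import Pool.Agent.Lib.MP_d77862_gt.AngA

noncomputable section

namespace Pool.Agent.Zig

open Set Filter Topology Complex Real

/-! The action of the diagonal group on lifted angles. -/

theorem ang_w_re (s θ : ℝ) : (dir (-θ) * Dg s (dir θ)).re =
    Real.exp s * Real.cos θ ^ 2 + Real.exp (-s) * Real.sin θ ^ 2 := by
  simp only [Complex.mul_re, Dg, dir_re, dir_im, Real.cos_neg, Real.sin_neg]
  ring

theorem ang_w_im (s θ : ℝ) : (dir (-θ) * Dg s (dir θ)).im =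
    (Real.exp (-s) - Real.exp s) * (Real.sin θ * Real.cos θ) := by
  simp only [Complex.mul_im, Dg, dir_re, dir_im, Real.cos_neg, Real.sin_neg]
  ring

theorem ang_w_re_pos (s θ : ℝ) : 0 < (dir (-θ) * Dg s (dir θ)).re := by
  rw [ang_w_re]
  have h1 := Real.exp_pos s
  have h2 := Real.exp_pos (-s)
  have h3 := Real.sin_sq_add_cos_sq θ
  have h4 := sq_nonneg (Real.sin θ)
  have h5 := sq_nonneg (Real.cos θ)
  rcases h4.eq_or_lt with h | h
  · have : 0 < Real.cos θ ^ 2 := by linarith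
    positivity
  · positivity

theorem ang_dir_zero : dir 0 = 1 := by simp [dir]

theorem ang_w_norm (s θ : ℝ) : ‖dir (-θ) * Dg s (dir θ)‖ = nrm s θ := by
  rw [norm_mul, norm_dir, one_mul, nrm]

theorem ang_congr {s s' θ θ' : ℝ}
    (h1 : Real.exp s * Real.cos θ ^ 2 + Real.exp (-s) * Real.sin θ ^ 2 =
      Real.exp s' * Real.cos θ' ^ 2 + Real.exp (-s') * Real.sin θ' ^ 2)
    (h2 : (Real.exp (-s) - Real.exp s) * (Real.sin θ * Real.cos θ) =
      (Real.exp (-s') - Real.exp s') * (Real.sin θ' * Real.cos θ')) :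
    dir (-θ) * Dg s (dir θ) = dir (-θ') * Dg s' (dir θ') :=
  Complex.ext (by rw [ang_w_re, ang_w_re, h1]) (by rw [ang_w_im, ang_w_im, h2])

theorem nrm_pos (s θ : ℝ) : 0 < nrm s θ := by
  rw [← ang_w_norm]
  exact (ang_w_re_pos s θ).trans_le (Complex.re_le_norm _)

theorem ang_cont_Dg : Continuous fun a : ℝ × ℝ => Dg a.1 (dir a.2) :=
  continuous_Dg.comp (continuous_fst.prodMk (continuous_dir.comp continuous_snd))

theorem continuous_nrm : Continuous fun a : ℝ × ℝ => nrm a.1 a.2 := ang_cont_Dg.norm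

theorem nrm_zero (θ : ℝ) : nrm 0 θ = 1 := by rw [nrm, Dg_zero, norm_dir]

theorem nrm_add_pi (s θ : ℝ) : nrm s (θ + π) = nrm s θ := by
  rw [nrm, dir_add_pi, Dg_neg, norm_neg, nrm]

theorem Dg_dir (s θ : ℝ) : Dg s (dir θ) = (nrm s θ : ℂ) * dir (ang s θ) := by
  have h := norm_mul_dir_arg (dir (-θ) * Dg s (dir θ))
  rw [ang_w_norm] at h
  have h2 : dir θ * dir (-θ) = 1 := by rw [← dir_add, add_neg_cancel, ang_dir_zero]
  rw [ang, dir_add, mul_left_comm, h, ← mul_assoc, h2, one_mul]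

theorem abs_ang_sub_lt (s θ : ℝ) : |ang s θ - θ| < π / 2 := by
  rw [ang, add_sub_cancel_left]
  exact Complex.abs_arg_lt_pi_div_two_iff.mpr (Or.inl (ang_w_re_pos s θ))

theorem continuous_ang : Continuous fun a : ℝ × ℝ => ang a.1 a.2 := by
  have h : Continuous fun a : ℝ × ℝ => dir (-a.2) * Dg a.1 (dir a.2) :=
    (continuous_dir.comp continuous_snd.neg).mul ang_cont_Dg
  refine continuous_snd.add (continuous_iff_continuousAt.mpr fun a => ?_)
  exact (Complex.continuousAt_arg (Or.inl (ang_w_re_pos a.1 a.2))).comp (f := fun a : ℝ × ℝ =>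
    dir (-a.2) * Dg a.1 (dir a.2)) h.continuousAt

theorem ang_zero (θ : ℝ) : ang 0 θ = θ := by
  rw [ang, Dg_zero, ← dir_add, neg_add_cancel, ang_dir_zero, Complex.arg_one, add_zero]

theorem ang_comp_polar (s s' θ : ℝ) :
    ((nrm s (ang s' θ) * nrm s' θ : ℝ) : ℂ) * dir (ang s (ang s' θ)) =
      (nrm (s + s') θ : ℂ) * dir (ang (s + s') θ) := by
  rw [← Dg_dir, ← Dg_Dg, Dg_dir s' θ, Dg_real_mul, Dg_dir s]
  push_cast
  ring

theorem ang_ang (s s' θ : ℝ) : ang s (ang s' θ) = ang (s + s') θ := by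
  refine eq_of_polar (mul_pos (nrm_pos _ _) (nrm_pos _ _)) (nrm_pos _ _) (ang_comp_polar s s' θ) ?_
  have h1 := abs_lt.mp (abs_ang_sub_lt s (ang s' θ))
  have h2 := abs_lt.mp (abs_ang_sub_lt s' θ)
  have h3 := abs_lt.mp (abs_ang_sub_lt (s + s') θ)
  have := Real.pi_pos
  rw [abs_lt]
  constructor <;> linarith [h1.1, h1.2, h2.1, h2.2, h3.1, h3.2]

theorem nrm_ang (s s' θ : ℝ) : nrm s (ang s' θ) * nrm s' θ = nrm (s + s') θ :=
  (polar_unique (mul_pos (nrm_pos _ _) (nrm_pos _ _)) (nrm_pos _ _) (ang_comp_polar s s' θ)).1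

theorem ang_add_pi (s θ : ℝ) : ang s (θ + π) = ang s θ + π := by
  have h : dir (-(θ + π)) * Dg s (dir (θ + π)) = dir (-θ) * Dg s (dir θ) :=
    ang_congr (by rw [Real.cos_add_pi, Real.sin_add_pi]; ring)
      (by rw [Real.cos_add_pi, Real.sin_add_pi]; ring)
  rw [ang, ang, h]
  ring

theorem ang_add_int_pi (s θ : ℝ) (k : ℤ) : ang s (θ + k * π) = ang s θ + k * π := by
  induction k using Int.induction_on with
  | zero => simp
  | succ k ih =>
    have : θ + ((k : ℤ) + 1 : ℤ) * π = θ + ((k : ℤ) : ℝ) * π + π := by push_cast; ring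
    rw [this, ang_add_pi, ih]
    push_cast
    ring
  | pred k ih =>
    have h := ang_add_pi s (θ + (-(k : ℤ) - 1 : ℤ) * π)
    have : θ + (-(k : ℤ) - 1 : ℤ) * π + π = θ + ((-(k : ℤ) : ℤ) : ℝ) * π := by push_cast; ring
    rw [this, ih] at h
    push_cast at h ⊢
    linarith

theorem ang_add_half_pi (s θ : ℝ) : ang s (θ + π / 2) = ang (-s) θ + π / 2 := by
  have h : dir (-(θ + π / 2)) * Dg s (dir (θ + π / 2)) = dir (-θ) * Dg (-s) (dir θ) :=
    ang_congr (by rw [Real.cos_add_pi_div_two, Real.sin_add_pi_div_two, neg_neg]; ring)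
      (by rw [Real.cos_add_pi_div_two, Real.sin_add_pi_div_two, neg_neg]; ring)
  rw [ang, ang, h]
  ring

theorem ang_int_half_pi (s : ℝ) (k : ℤ) : ang s (k * (π / 2)) = k * (π / 2) := by
  have h : Real.sin (k * (π / 2)) * Real.cos (k * (π / 2)) = 0 := by
    have h1 := Real.sin_two_mul (k * (π / 2))
    have h2 : 2 * (k * (π / 2)) = k * π := by ring
    rw [h2, Real.sin_int_mul_pi] at h1
    linarith
  rw [ang, Complex.arg_eq_zero_iff.mpr ⟨(ang_w_re_pos _ _).le, by rw [ang_w_im, h, mul_zero]⟩,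
    add_zero]

theorem strictMono_ang (s : ℝ) : StrictMono (ang s) := by
  have hc : Continuous (ang s) := continuous_ang.comp (continuous_const.prodMk continuous_id)
  have hi : Function.Injective (ang s) := Function.LeftInverse.injective (g := ang (-s))
    fun θ => by rw [ang_ang, neg_add_cancel, ang_zero]
  rcases hc.strictMono_of_inj hi with h | h
  · exact h
  · have h1 := h (show (0 : ℝ) < 0 + π by linarith [Real.pi_pos])
    rw [ang_add_pi] at h1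
    linarith [Real.pi_pos]

theorem ang_le_iff (s θ : ℝ) (k : ℤ) : k * (π / 2) ≤ ang s θ ↔ k * (π / 2) ≤ θ := by
  conv_lhs => rw [← ang_int_half_pi s k]
  exact (strictMono_ang s).le_iff_le

theorem floor_ang (s θ : ℝ) : ⌊ang s θ / π⌋ = ⌊θ / π⌋ := by
  refine eq_of_forall_le_iff fun k => ?_
  have h := ang_le_iff s θ (2 * k)
  have e : ((2 * k : ℤ) : ℝ) * (π / 2) = k * π := by push_cast; ring
  rw [e] at h
  rw [Int.le_floor, Int.le_floor, le_div_iff₀ Real.pi_pos, le_div_iff₀ Real.pi_pos, h]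

theorem floor_ang_half (s θ : ℝ) : ⌊ang s θ / π + 1 / 2⌋ = ⌊θ / π + 1 / 2⌋ := by
  refine eq_of_forall_le_iff fun k => ?_
  have h := ang_le_iff s θ (2 * k - 1)
  have e : ((2 * k - 1 : ℤ) : ℝ) * (π / 2) = (k - 1 / 2) * π := by push_cast; ring
  rw [e] at h
  rw [Int.le_floor, Int.le_floor, ← sub_le_iff_le_add, ← sub_le_iff_le_add,
    le_div_iff₀ Real.pi_pos, le_div_iff₀ Real.pi_pos, h]

theorem floor_ang_quad (s θ : ℝ) : ⌊ang s θ / (π / 2)⌋ = ⌊θ / (π / 2)⌋ := by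
  refine eq_of_forall_le_iff fun k => ?_
  have hp : 0 < π / 2 := by linarith [Real.pi_pos]
  rw [Int.le_floor, Int.le_floor, le_div_iff₀ hp, le_div_iff₀ hp, ang_le_iff]

theorem ang_lt {s θ : ℝ} (hs : 0 < s) (h0 : 0 < θ) (h1 : θ < π / 2) : ang s θ < θ := by
  have hp := Real.pi_pos
  have h2 : 0 < Real.sin θ := Real.sin_pos_of_pos_of_lt_pi h0 (by linarith)
  have h3 : 0 < Real.cos θ := Real.cos_pos_of_mem_Ioo ⟨by linarith, h1⟩
  have h4 : Real.exp (-s) < Real.exp s := Real.exp_lt_exp.mpr (by linarith)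
  have : arg (dir (-θ) * Dg s (dir θ)) < 0 := by
    rw [Complex.arg_neg_iff, ang_w_im]
    exact mul_neg_of_neg_of_pos (by linarith) (mul_pos h2 h3)
  rw [ang]
  linarith

theorem lt_ang {s θ : ℝ} (hs : s < 0) (h0 : 0 < θ) (h1 : θ < π / 2) : θ < ang s θ := by
  have h := (strictMono_ang s) (ang_lt (s := -s) (by linarith) h0 h1)
  have h2 : ang s (ang (-s) θ) = θ := by rw [ang_ang, add_neg_cancel, ang_zero]
  rwa [h2] at h

theorem ang_floor_near (x : ℝ) : ∀ᶠ y in 𝓝 x, ⌊y⌋ = ⌊x⌋ ∨ ⌊y⌋ = ⌊x⌋ - 1 := by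
  have h : Ioo ((⌊x⌋ : ℝ) - 1) (⌊x⌋ + 1) ∈ 𝓝 x :=
    Ioo_mem_nhds (by linarith [Int.floor_le x]) (Int.lt_floor_add_one x)
  filter_upwards [h] with y hy
  have h1 : ⌊x⌋ - 1 ≤ ⌊y⌋ := Int.le_floor.mpr (by push_cast; exact hy.1.le)
  have h2 : ⌊y⌋ < ⌊x⌋ + 1 := Int.floor_lt.mpr (by push_cast; exact hy.2)
  omega

theorem ang_floor_const {x : ℝ} (hx : (⌊x⌋ : ℝ) ≠ x) : ∀ᶠ y in 𝓝 x, ⌊y⌋ = ⌊x⌋ := by
  have h : Ioo (⌊x⌋ : ℝ) (⌊x⌋ + 1) ∈ 𝓝 x :=
    Ioo_mem_nhds (lt_of_le_of_ne (Int.floor_le x) hx) (Int.lt_floor_add_one x)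
  filter_upwards [h] with y hy
  exact Int.floor_eq_iff.mpr ⟨hy.1.le, hy.2⟩

/-- The parameter may jump where the angle is a multiple of `π / 2`. -/
theorem continuous_ang_floor (α β : ℝ) :
    Continuous fun a : ℝ × ℝ =>
      ang (a.1 + α * (⌊a.2 / π⌋ : ℤ) + β * (⌊a.2 / π + 1 / 2⌋ : ℤ)) a.2 := by
  refine continuous_iff_continuousAt.mpr fun a => ?_
  have hg : ∀ m n : ℤ, Continuous fun b : ℝ × ℝ => ang (b.1 + α * m + β * n) b.2 := fun m n =>
    continuous_ang.comp (((continuous_fst.add continuous_const).add continuous_const).prodMk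
      continuous_snd)
  have t1 : Tendsto (fun b : ℝ × ℝ => b.2 / π) (𝓝 a) (𝓝 (a.2 / π)) :=
    (continuous_snd.div_const π).tendsto a
  have t2 : Tendsto (fun b : ℝ × ℝ => b.2 / π + 1 / 2) (𝓝 a) (𝓝 (a.2 / π + 1 / 2)) :=
    ((continuous_snd.div_const π).add continuous_const).tendsto a
  have hp := Real.pi_pos
  by_cases hk : ∃ k : ℤ, a.2 = k * (π / 2)
  · obtain ⟨k, hk⟩ := hk
    have hfix : ∀ s, ang s a.2 = a.2 := fun s => by rw [hk, ang_int_half_pi]
    have hg' : ∀ m n : ℤ, Tendsto (fun b : ℝ × ℝ => ang (b.1 + α * m + β * n) b.2) (𝓝 a)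
        (𝓝 a.2) := fun m n => by
      have := (hg m n).tendsto a
      rwa [hfix] at this
    rw [ContinuousAt, hfix, tendsto_nhds]
    intro U hU ha
    have hU' := hU.mem_nhds ha
    filter_upwards [t1.eventually (ang_floor_near _), t2.eventually (ang_floor_near _),
      hg' ⌊a.2 / π⌋ ⌊a.2 / π + 1 / 2⌋ hU', hg' ⌊a.2 / π⌋ (⌊a.2 / π + 1 / 2⌋ - 1) hU',
      hg' (⌊a.2 / π⌋ - 1) ⌊a.2 / π + 1 / 2⌋ hU',
      hg' (⌊a.2 / π⌋ - 1) (⌊a.2 / π + 1 / 2⌋ - 1) hU'] with b h1 h2 h3 h4 h5 h6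
    rcases h1 with h1 | h1 <;> rcases h2 with h2 | h2 <;>
      simp only [mem_preimage, h1, h2] <;> assumption
  · have e1 : (⌊a.2 / π⌋ : ℝ) ≠ a.2 / π := fun h => hk ⟨2 * ⌊a.2 / π⌋, by
      push_cast
      rw [h]
      field_simp⟩
    have e2 : (⌊a.2 / π + 1 / 2⌋ : ℝ) ≠ a.2 / π + 1 / 2 := fun h =>
      hk ⟨2 * ⌊a.2 / π + 1 / 2⌋ - 1, by
        push_cast
        rw [h]
        field_simp
        ring⟩
    refine (hg ⌊a.2 / π⌋ ⌊a.2 / π + 1 / 2⌋).continuousAt.congr ?_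
    filter_upwards [t1.eventually (ang_floor_const e1), t2.eventually (ang_floor_const e2)]
      with b h1 h2
    rw [h1, h2]

theorem norm_DD_polar (t r θ : ℝ) (hr : 0 ≤ r) : ‖DD t (r * dir θ)‖ = r * nrm (LL * t) θ := by
  rw [DD, Dg_real_mul, norm_mul, Complex.norm_real, Real.norm_of_nonneg hr, nrm]

theorem rho_polar (c : ℤ × ℤ) (t r θ : ℝ) (hr : 0 ≤ r) :
    rho c (cor c + r * dir θ, t) = r * nrm (LL * t) θ := by
  rw [rho, add_sub_cancel_left, norm_DD_polar _ _ _ hr]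

end Pool.Agent.Zig
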