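import Pool.Agent.Lib.MP_d77862_gt.Lat

noncomputable section

namespace Pool.Agent.Zig

open Set Filter Topology Complex Real

/-! The action of the diagonal group on lifted angles. -/

theorem dir_re (θ : ℝ) : (dir θ).re = Real.cos θ := by
  unfold dir
  exact Complex.exp_ofReal_mul_I_re θ
theorem dir_im (θ : ℝ) : (dir θ).im = Real.sin θ := by
  unfold dir
  exact Complex.exp_ofReal_mul_I_im θ
theorem norm_dir (θ : ℝ) : ‖dir θ‖ = 1 := by
  unfold dir
  exact Complex.norm_exp_ofReal_mul_I θ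
theorem dir_add (θ θ' : ℝ) : dir (θ + θ') = dir θ * dir θ' := by
  unfold dir
  rw [← Complex.exp_add]
  congr 1
  push_cast
  ring
theorem dir_add_pi (θ : ℝ) : dir (θ + π) = -dir θ := by
  rw [dir_add]
  have : dir π = -1 := by
    unfold dir
    exact Complex.exp_pi_mul_I
  rw [this]
  ring
theorem dir_add_int_two_pi (θ : ℝ) (k : ℤ) : dir (θ + k * (2 * π)) = dir θ := by
  rw [dir_add]
  have : dir (k * (2 * π)) = 1 := by
    unfold dir
    have h := Complex.exp_int_mul_two_pi_mul_I k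
    rw [← h]
    congr 1
    push_cast
    ring
  rw [this, mul_one]
theorem dir_add_int_pi (θ : ℝ) (k : ℤ) : dir (θ + k * π) = (-1 : ℂ) ^ k * dir θ := by
  rw [dir_add]
  have : dir (k * π) = (-1 : ℂ) ^ k := by
    unfold dir
    rw [← Complex.exp_pi_mul_I, ← Complex.exp_int_mul]
    congr 1
    push_cast
    ring
  rw [this, mul_comm]
theorem continuous_dir : Continuous dir := by
  unfold dir
  fun_prop
theorem coe_circle_exp (θ : ℝ) : ((Circle.exp θ : Circle) : ℂ) = dir θ := by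
  unfold dir
  exact Circle.coe_exp θ
theorem norm_mul_dir_arg (z : ℂ) : (‖z‖ : ℂ) * dir (arg z) = z := by
  unfold dir
  exact Complex.norm_mul_exp_arg_mul_I z

theorem anga_norm (r θ : ℝ) (hr : 0 < r) : ‖(r : ℂ) * dir θ‖ = r := by
  rw [norm_mul, norm_dir, mul_one, Complex.norm_real, Real.norm_eq_abs, abs_of_pos hr]

theorem anga_dir_ne (θ : ℝ) : dir θ ≠ 0 := by
  unfold dir
  exact Complex.exp_ne_zero _

theorem polar_unique {r r' θ θ' : ℝ} (hr : 0 < r) (hr' : 0 < r')
    (h : (r : ℂ) * dir θ = r' * dir θ') : r = r' ∧ ∃ k : ℤ, θ' = θ + k * (2 * π) := by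
  have h1 : r = r' := by
    have := congrArg norm h
    rwa [anga_norm r θ hr, anga_norm r' θ' hr'] at this
  refine ⟨h1, ?_⟩
  subst h1
  have hr0 : (r : ℂ) ≠ 0 := by exact_mod_cast hr.ne'
  have h2 : dir θ' = dir θ := (mul_left_cancel₀ hr0 h).symm
  unfold dir at h2
  obtain ⟨k, hk⟩ := Complex.exp_eq_exp_iff_exists_int.1 h2
  refine ⟨k, ?_⟩
  have h3 := congrArg Complex.im hk
  simpa using h3
theorem eq_of_polar {r r' θ θ' : ℝ} (hr : 0 < r) (hr' : 0 < r')
    (h : (r : ℂ) * dir θ = r' * dir θ') (hd : |θ - θ'| < 2 * π) : θ = θ' := by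
  obtain ⟨-, k, hk⟩ := polar_unique hr hr' h
  have hpi := Real.pi_pos
  rw [abs_lt] at hd
  have h1 : (k : ℝ) < 1 := by
    by_contra hc
    push Not at hc
    nlinarith [hd.1]
  have h2 : (-1 : ℝ) < k := by
    by_contra hc
    push Not at hc
    nlinarith [hd.2]
  have h3 : k < 1 := by exact_mod_cast h1
  have h4 : -1 < k := by exact_mod_cast h2
  have h5 : k = 0 := by omega
  rw [hk, h5]
  simp
/-- Polar coordinates are an open map. -/
theorem isOpen_polar_image {U : Set (ℝ × ℝ)} (hU : IsOpen U) (h : ∀ a ∈ U, 0 < a.1) :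
    IsOpen ((fun a : ℝ × ℝ => (a.1 : ℂ) * dir a.2) '' U) := by
  have hc : Continuous (fun z : ℂ => ((Real.exp z.re, z.im) : ℝ × ℝ)) := by fun_prop
  have key : ∀ z : ℂ, Complex.exp z = ((Real.exp z.re : ℝ) : ℂ) * dir z.im := by
    intro z
    unfold dir
    rw [Complex.ofReal_exp, ← Complex.exp_add, Complex.re_add_im]
  have he : (fun a : ℝ × ℝ => (a.1 : ℂ) * dir a.2) '' U =
      Complex.exp '' ((fun z : ℂ => ((Real.exp z.re, z.im) : ℝ × ℝ)) ⁻¹' U) := by
    ext w
    constructor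
    · rintro ⟨a, ha, rfl⟩
      refine ⟨⟨Real.log a.1, a.2⟩, ?_, ?_⟩
      · simp only [mem_preimage]
        rw [Real.exp_log (h a ha)]
        exact ha
      · rw [key]
        simp only
        rw [Real.exp_log (h a ha)]
    · rintro ⟨z, hz, rfl⟩
      exact ⟨_, hz, (key z).symm⟩
  rw [he]
  exact Complex.isOpenMap_exp _ (hU.preimage hc)
/-- Close vectors have close lifted angles. -/
theorem exists_close_angle {δ : ℝ} (hδ : 0 < δ) : ∃ η > 0, ∀ (r θ : ℝ) (w : ℂ), 0 < r →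
    ‖w - r * dir θ‖ ≤ η * r → ∃ r' θ' : ℝ, 0 < r' ∧ w = r' * dir θ' ∧ |θ' - θ| < δ := by
  have hc : ContinuousAt arg (1 : ℂ) := Complex.continuousAt_arg Complex.one_mem_slitPlane
  rw [Metric.continuousAt_iff] at hc
  obtain ⟨e, he, hce⟩ := hc δ hδ
  refine ⟨min (e / 2) (1 / 2), by positivity, ?_⟩
  intro r θ w hr hw
  have hr0 : (r : ℂ) ≠ 0 := by exact_mod_cast hr.ne'
  have hne : (r : ℂ) * dir θ ≠ 0 := mul_ne_zero hr0 (anga_dir_ne θ)
  set u : ℂ := w / (r * dir θ) with hu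
  have hwu : w = u * (r * dir θ) := by
    rw [hu, div_mul_cancel₀ _ hne]
  have hd : ‖u - 1‖ ≤ min (e / 2) (1 / 2) := by
    have h1 : w - r * dir θ = (u - 1) * (r * dir θ) := by
      rw [sub_mul, one_mul, ← hwu]
    rw [h1, norm_mul, anga_norm r θ hr] at hw
    exact le_of_mul_le_mul_right hw hr
  have hd1 : ‖u - 1‖ < e := lt_of_le_of_lt (hd.trans (min_le_left _ _)) (by linarith)
  have hd2 : ‖u - 1‖ ≤ 1 / 2 := hd.trans (min_le_right _ _)
  have hu0 : u ≠ 0 := by
    intro h0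
    rw [h0] at hd2
    norm_num at hd2
  have harg : |arg u| < δ := by
    have := hce (x := u) (by rwa [dist_eq_norm])
    rwa [Complex.arg_one, Real.dist_eq, sub_zero] at this
  refine ⟨‖u‖ * r, θ + arg u, mul_pos (norm_pos_iff.2 hu0) hr, ?_, by simpa using harg⟩
  rw [dir_add]
  have h2 := norm_mul_dir_arg u
  calc w = u * (r * dir θ) := hwu
    _ = ((‖u‖ : ℂ) * dir (arg u)) * (r * dir θ) := by rw [h2]
    _ = _ := by
      push_cast
      ring

end Pool.Agent.Zig
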