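import Pool.Agent.Lib.MP_d77862_gt.Jmap

noncomputable section

namespace Pool.Agent.Zig

open Set Filter Topology Complex Real

/-! Consequences of the fields of a model. -/

theorem modell_eps_lt_one : eps < 1 := by unfold eps; norm_num

theorem modell_mem_of_rel {p q : ℂ × ℝ} (hp : p ∈ XX) (h : Rel p q) : q ∈ XX := by
  obtain ⟨n, e, c, -, rfl⟩ := h
  exact (act_mem_XX n e c).2 hp

namespace Model

variable {E : Fin 2 → End} {M : Type} [TopologicalSpace M] (m : Model E M)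

theorem tau_cov (i : Fin 2) {a : ℝ × ℝ × ℝ} (h : 0 < a.1) :
    m.τ i (cov a) = m.ι ((E i).pt i a) := by
  have hn : 0 < nrm (LL * ((E i).phi.symm a.2).2) ((E i).phi.symm a.2).1 := nrm_pos _ _
  have h1 : 0 < eps * a.1 / (1 + a.1) := div_pos (mul_pos eps_pos h) (by linarith)
  obtain ⟨-, h2, h3⟩ := rad_inv h.le
  have hr : eps * a.1 / (1 + a.1) / nrm (LL * ((E i).phi.symm a.2).2) ((E i).phi.symm a.2).1 *
      nrm (LL * ((E i).phi.symm a.2).2) ((E i).phi.symm a.2).1 = eps * a.1 / (1 + a.1) :=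
    div_mul_cancel₀ _ hn.ne'
  have key := m.tau_eq i _ ((E i).phi.symm a.2).1 ((E i).phi.symm a.2).2 (div_pos h1 hn)
    (by rw [hr]; exact h2)
  have hphi := (E i).phi_apply ((E i).phi.symm a.2).1 ((E i).phi.symm a.2).2
  rw [Prod.mk.eta, Homeomorph.apply_symm_apply] at hphi
  have ha : (E i).aa ((E i).phi.symm a.2).1 ((E i).phi.symm a.2).2 = a.2.1 :=
    (congrArg Prod.fst hphi).symm
  have hb : (E i).bb ((E i).phi.symm a.2).1 ((E i).phi.symm a.2).2 = a.2.2 :=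
    (congrArg Prod.snd hphi).symm
  rw [hr, h3, ha, hb] at key
  exact key.symm

theorem ι_not_core {p : ℂ × ℝ} (hp : p ∈ XX) : m.ι p ∉ core m.τ := by
  have : m.ι p ∈ m.ι '' XX := mem_image_of_mem _ hp
  rw [m.img] at this
  exact this

theorem cases (x : M) : (∃ p ∈ XX, x = m.ι p) ∨ ∃ i u, x = m.τ i (0, u) := by
  by_cases hx : x ∈ core m.τ
  · exact Or.inr hx
  · have : x ∈ m.ι '' XX := by rw [m.img]; exact hx
    obtain ⟨p, hp, rfl⟩ := this
    exact Or.inl ⟨p, hp, rfl⟩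

theorem tau_inj {i j : Fin 2} {w w' : ℂ × Circle} (h : m.τ i w = m.τ j w') : i = j ∧ w = w' := by
  have hij : i = j := by
    by_contra hne
    exact Set.disjoint_left.1 (m.tube.2 i j hne) (mem_range_self w) ⟨w', h.symm⟩
  subst hij
  exact ⟨rfl, (m.tube.1 i).injective h⟩

theorem tau_mem_core_iff (i : Fin 2) (w : ℂ × Circle) : m.τ i w ∈ core m.τ ↔ w.1 = 0 := by
  constructor
  · rintro ⟨j, u, h⟩
    rw [(m.tau_inj h).2]
  · intro h
    refine ⟨i, w.2, ?_⟩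
    rw [← h]

theorem ι_act {n : ℤ} (e : ℤˣ) {c : ℤ × ℤ} (h : Adm n c) {p : ℂ × ℝ} (hp : p ∈ XX) :
    m.ι (act n e c p) = m.ι p :=
  ((m.eq_iff p hp _ ((act_mem_XX n e c).2 hp)).2 ⟨n, e, c, h, rfl⟩).symm

/-- Tube coordinates near an arbitrary corner. -/
theorem tau_corner (c : ℤ × ℤ) {r θ t : ℝ} (hr : 0 < r)
    (h : rho c (cor c + r * dir θ, t) < eps) :
    ∃ w : ℂ, ‖w‖ = rad (rho c (cor c + r * dir θ, t)) ∧
      m.ι (cor c + r * dir θ, t) =
        m.τ (idx c) (w, Circle.exp (π * (E (idx c)).P * Bc E c θ t)) := by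
  obtain ⟨hrel, heq⟩ := rel_bc c r θ t
  have hrho := rho_polar c t r θ hr.le
  have hpos : 0 < r * nrm (LL * t) θ := mul_pos hr (nrm_pos _ _)
  have hp : ((cor c + r * dir θ, t) : ℂ × ℝ) ∈ XX :=
    mem_XX_of_rho (c := c) (by rw [hrho]; exact hpos) (h.trans modell_eps_lt_one)
  have hq := modell_mem_of_rel hp hrel
  have h1 := (m.eq_iff _ hp _ hq).2 hrel
  rw [hrho] at h ⊢
  have h2 := m.tau_eq (idx c) (r * nrm (-(LL * c.2)) θ) (ang (-(LL * c.2)) θ) (t + c.2)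
    (mul_pos hr (nrm_pos _ _)) (by rw [heq]; exact h)
  rw [heq] at h2
  refine ⟨(rad (r * nrm (LL * t) θ) : ℂ) *
    dir (2 * π * (E (idx c)).aa (ang (-(LL * c.2)) θ) (t + c.2)), ?_, ?_⟩
  · rw [norm_mul, norm_dir, mul_one, Complex.norm_real, Real.norm_of_nonneg (rad_pos hpos h).le]
  · rw [h1, h2]
    congr 3
    unfold End.bb Bc
    ring

theorem ι_mem_range_iff {p : ℂ × ℝ} (hp : p ∈ XX) (i : Fin 2) :
    m.ι p ∈ range (m.τ i) ↔ ∃ c, idx c = i ∧ rho c p < eps := by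
  constructor
  · rintro ⟨w, hw⟩
    have hw0 : w.1 ≠ 0 := fun h0 =>
      m.ι_not_core hp (hw ▸ (m.tau_mem_core_iff i w).2 h0)
    obtain ⟨a, ha, rfl⟩ := cov_surj w
    have ha0 : 0 < a.1 := by rw [ha]; exact norm_pos_iff.2 hw0
    rw [m.tau_cov i ha0] at hw
    obtain ⟨n, e, c, hadm, rfl⟩ := (m.eq_iff _ ((E i).pt_mem i ha0) _ hp).1 hw
    obtain ⟨d, -, hd, -, hrho⟩ := act_cor e hadm (bc i)
    refine ⟨d, by rw [hd, idx_bc], ?_⟩
    rw [hrho, (E i).rho_pt i ha0.le]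
    exact (rad_inv ha0.le).2.1
  · rintro ⟨c, rfl, hc⟩
    have hne : p.1 - cor c ≠ 0 := sub_ne_zero.2 (hp c)
    have hpe : p = (cor c + (‖p.1 - cor c‖ : ℝ) * dir (arg (p.1 - cor c)), p.2) := by
      rw [norm_mul_dir_arg]
      ext <;> simp
    rw [hpe] at hc ⊢
    obtain ⟨w, -, hw⟩ := m.tau_corner c (norm_pos_iff.2 hne) hc
    exact ⟨_, hw.symm⟩

theorem continuousAt_ι {p : ℂ × ℝ} (hp : p ∈ XX) : ContinuousAt m.ι p :=
  m.cont.continuousAt (isOpen_XX.mem_nhds hp)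

theorem map_nhds_ι {p : ℂ × ℝ} (hp : p ∈ XX) : map m.ι (𝓝 p) = 𝓝 (m.ι p) := by
  refine le_antisymm (m.continuousAt_ι hp) fun s hs => ?_
  obtain ⟨U, hU, hUo, hpU⟩ := mem_nhds_iff.1 (inter_mem (mem_map.1 hs) (isOpen_XX.mem_nhds hp))
  refine mem_of_superset ((m.opn U hUo fun q hq => (hU hq).2).mem_nhds (mem_image_of_mem _ hpU)) ?_
  rintro _ ⟨q, hq, rfl⟩
  exact (hU hq).1

theorem isOpen_range_ι : IsOpen (m.ι '' XX) := m.opn XX isOpen_XX subset_rfl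

/-- Convergence to a core point. -/
theorem tendsto_core {T : Type} {l : Filter T} {i : Fin 2} {u : Circle} {w : T → ℂ}
    {b : T → Circle} (hw : Tendsto w l (𝓝 0)) (hb : Tendsto b l (𝓝 u)) :
    Tendsto (fun a => m.τ i (w a, b a)) l (𝓝 (m.τ i (0, u))) :=
  ((m.tube.1 i).continuous.tendsto (0, u)).comp (hw.prodMk_nhds hb)

theorem dense_range_ι : Dense (m.ι '' XX) := by
  intro x
  rcases m.cases x with ⟨p, hp, rfl⟩ | ⟨i, u, rfl⟩
  · exact subset_closure (mem_image_of_mem _ hp)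
  · have ht : Tendsto (fun z : ℂ => m.τ i (z, u)) (𝓝[≠] 0) (𝓝 (m.τ i (0, u))) :=
      m.tendsto_core (tendsto_id.mono_left nhdsWithin_le_nhds) tendsto_const_nhds
    refine mem_closure_of_tendsto ht ?_
    filter_upwards [self_mem_nhdsWithin] with z hz
    rw [m.img]
    exact fun hc => hz ((m.tau_mem_core_iff i (z, u)).1 hc)

/-- A local inverse of `ι`. -/
theorem exists_chart {p : ℂ × ℝ} (hp : p ∈ XX) {W : Set (ℂ × ℝ)} (hW : W ∈ 𝓝 p) :
    ∃ e : OpenPartialHomeomorph M (ℂ × ℝ), p ∈ e.target ∧ e.target ⊆ W ∧ e.target ⊆ XX ∧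
      e.source = m.ι '' e.target ∧ ∀ q ∈ e.target, e (m.ι q) = q := by
  obtain ⟨U, hUo, hpU, hUX, hinj⟩ := exists_inj_nhds hp
  obtain ⟨W', hW', hW'o, hpW'⟩ := mem_nhds_iff.1 hW
  have hsub : U ∩ W' ⊆ XX := fun q hq => hUX hq.1
  obtain ⟨e, hs, ht, he⟩ := exists_oph (f := m.ι) (hUo.inter hW'o) (m.cont.mono hsub)
    (fun q hq q' hq' h => hinj q hq.1 q' hq'.1 ((m.eq_iff q (hsub hq) q' (hsub hq')).1 h))
    (fun V hV hVs => m.opn V hV (hVs.trans hsub))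
  refine ⟨e.symm, ?_, ?_, ?_, ?_, ?_⟩
  · rw [e.symm_target, hs]; exact ⟨hpU, hpW'⟩
  · rw [e.symm_target, hs]; exact fun q hq => hW' hq.2
  · rw [e.symm_target, hs]; exact hsub
  · rw [e.symm_target, e.symm_source, hs, ht]
  · intro q hq
    rw [e.symm_target] at hq
    rw [← he q]
    exact e.left_inv hq

end Model

end Pool.Agent.Zig
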