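import Pool.Agent.Lib.MP_d77862_gt.Exp1
import Pool.Agent.Lib.MP_d77862_gt.ModelL

noncomputable section

namespace Pool.Agent.Zig

open Set Filter Topology Complex Real

/-! The neighbourhood of the diagonal used for expansivity. -/

/-- A continuous function with values near a lattice stays near one lattice point. -/
theorem near_lattice {T : Type} [TopologicalSpace T] {s : Set T} (hs : IsPreconnected s)
    {D : T → ℝ} (hD : ContinuousOn D s) {a δ : ℝ} (ha : 2 * δ ≤ a)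
    (h : ∀ t ∈ s, ∃ k : ℤ, |D t - k * a| < δ) {t0 : T} (ht : t0 ∈ s) {k0 : ℤ}
    (h0 : |D t0 - k0 * a| < δ) : ∀ t ∈ s, |D t - k0 * a| < δ := by
  have hδ : 0 < δ := (abs_nonneg _).trans_lt h0
  have hop : ∀ k : ℤ, IsOpen {y : ℝ | |y - k * a| < δ} := fun k =>
    isOpen_lt (by fun_prop) continuous_const
  have key : D '' s ⊆ {y : ℝ | |y - k0 * a| < δ} := by
    refine IsPreconnected.subset_left_of_subset_union
      (v := ⋃ (k : ℤ) (_ : k ≠ k0), {y : ℝ | |y - k * a| < δ}) (hop k0)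
      (isOpen_iUnion fun k => isOpen_iUnion fun _ => hop k) ?_ ?_ ⟨D t0, ⟨t0, ht, rfl⟩, h0⟩
      (hs.image D hD)
    · rw [Set.disjoint_left]
      intro y hy hy'
      simp only [mem_iUnion, mem_ofPred_eq] at hy hy'
      obtain ⟨k, hk, hy'⟩ := hy'
      have h1 : (1 : ℝ) ≤ |(k : ℝ) - k0| := by
        have : (1 : ℤ) ≤ |k - k0| := Int.one_le_abs (sub_ne_zero.2 hk)
        exact_mod_cast this
      have h2 : |((k : ℝ) - k0) * a| < 2 * δ := by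
        have h3 : ((k : ℝ) - k0) * a = (y - k0 * a) - (y - k * a) := by ring
        rw [h3]
        have := abs_sub (y - k0 * a) (y - k * a)
        linarith
      rw [abs_mul, abs_of_pos (by linarith : 0 < a)] at h2
      nlinarith
    · rintro _ ⟨t, hts, rfl⟩
      obtain ⟨k, hk⟩ := h t hts
      by_cases hkk : k = k0
      · exact Or.inl (hkk ▸ hk)
      · exact Or.inr (mem_iUnion.2 ⟨k, mem_iUnion.2 ⟨hkk, hk⟩⟩)
  exact fun t hts => key ⟨t, hts, rfl⟩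

/-- A vertical line cannot stay near the corner lines for all time. -/
theorem not_forall_rho {x : ℂ} (hx : (x, (0 : ℝ)) ∈ XX) {h : ℝ → ℝ} (hc : Continuous h)
    (h1 : ∀ T, ∃ t, T ≤ h t) (h2 : ∀ T, ∃ t, h t ≤ T) :
    ¬ ∀ t, ∃ c, rho c (x, h t) < eps := by
  intro H
  obtain ⟨c0, hc0⟩ := H 0
  have key := exists_corner_of_path (s := (univ : Set ℝ)) isPreconnected_univ
    (f := fun t => (x, h t)) (by fun_prop) (r := eps) (by norm_num [eps]) (fun a _ => H a)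
    (mem_univ 0) hc0
  have hz : x - cor c0 = 0 := by
    refine eq_zero_of_bounded (K := eps) (fun T => ?_) fun T => ?_
    · obtain ⟨t, ht⟩ := h1 T
      exact ⟨h t, ht, (key t (mem_univ t)).le⟩
    · obtain ⟨t, ht⟩ := h2 T
      exact ⟨h t, ht, (key t (mem_univ t)).le⟩
  exact hx c0 (sub_eq_zero.1 hz)

theorem exp2_polar {p : ℂ × ℝ} (hp : p ∈ XX) (c : ℤ × ℤ) :
    ∃ r θ : ℝ, 0 < r ∧ p.1 = cor c + r * dir θ :=
  ⟨‖p.1 - cor c‖, arg (p.1 - cor c), norm_pos_iff.2 (sub_ne_zero.2 (hp c)), by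
    rw [norm_mul_dir_arg]; ring⟩

theorem exp2_rad_lt {r : ℝ} (h : r < eps) : rad r < 1 ↔ r < eps / 2 := by
  rw [← rad_half]
  exact rad_strictMonoOn.lt_iff_lt h (show eps / 2 < eps by linarith [eps_pos])

theorem exp2_lattice {P : ℤ} (hP : 0 < P) {x y : ℝ}
    (h : Circle.exp (π * P * x) = Circle.exp (π * P * y)) : ∃ k : ℤ, x - y - k * (2 / (P : ℝ)) = 0 := by
  obtain ⟨k, hk⟩ := Circle.exp_eq_exp.1 h
  have hP' : (0 : ℝ) < P := by exact_mod_cast hP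
  refine ⟨k, ?_⟩
  have h1 : π * (P * x) = π * (P * y + k * 2) := by linarith
  have h2 := mul_left_cancel₀ Real.pi_ne_zero h1
  field_simp
  linarith

namespace Model

variable {E : Fin 2 → End} {M : Type} [TopologicalSpace M] (m : Model E M)

/-- Pairs that are close in the thick part. -/
def WI (δ : ℝ) : Set (M × M) := {a | ∃ p ∈ XX, ∃ q ∈ XX, CI δ p q ∧ a = (m.ι p, m.ι q)}

/-- Pairs in the same thin tube with close core coordinates. -/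
def WII (δ : ℝ) : Set (M × M) :=
  {a | ∃ (i : Fin 2) (w w' : ℂ) (u : Circle) (β : ℝ), ‖w‖ < 1 ∧ ‖w'‖ < 1 ∧ |β| < δ ∧
    a = (m.τ i (w, u), m.τ i (w', Circle.exp (π * (E i).P * β) * u))}

theorem isOpen_WI (δ : ℝ) : IsOpen (m.WI δ) := by
  rw [isOpen_iff_forall_mem_open]
  rintro _ ⟨p, hp, q, hq, hpq, rfl⟩
  have hO : IsOpen ((XX ×ˢ XX) ∩ {a : (ℂ × ℝ) × (ℂ × ℝ) | CI δ a.1 a.2}) :=
    (isOpen_XX.prod isOpen_XX).inter (isOpen_CI δ)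
  obtain ⟨u, v, hu, hv, hpu, hqv, huv⟩ := isOpen_prod_iff.1 hO p q ⟨⟨hp, hq⟩, hpq⟩
  have huX : u ⊆ XX := fun x hx => (huv (mk_mem_prod hx hqv)).1.1
  have hvX : v ⊆ XX := fun y hy => (huv (mk_mem_prod hpu hy)).1.2
  refine ⟨(m.ι '' u) ×ˢ (m.ι '' v), ?_, (m.opn u hu huX).prod (m.opn v hv hvX),
    ⟨p, hpu, rfl⟩, ⟨q, hqv, rfl⟩⟩
  rintro ⟨_, _⟩ ⟨⟨x, hx, rfl⟩, ⟨y, hy, rfl⟩⟩
  exact ⟨x, huX hx, y, hvX hy, (huv (mk_mem_prod hx hy)).2, rfl⟩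

theorem isOpen_WII (δ : ℝ) : IsOpen (m.WII δ) := by
  have h1 : m.WII δ = ⋃ i : Fin 2, Prod.map (m.τ i) (m.τ i) ''
      {a : (ℂ × Circle) × (ℂ × Circle) | ‖a.1.1‖ < 1 ∧ ‖a.2.1‖ < 1 ∧
        a.2.2 * a.1.2⁻¹ ∈ (fun β : ℝ => Circle.exp (π * (E i).P * β)) '' Ioo (-δ) δ} := by
    ext a
    simp only [mem_iUnion]
    constructor
    · rintro ⟨i, w, w', u, β, hw, hw', hβ, rfl⟩
      exact ⟨i, ((w, u), (w', Circle.exp (π * (E i).P * β) * u)),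
        ⟨hw, hw', β, abs_lt.1 hβ, by simp⟩, rfl⟩
    · rintro ⟨i, ⟨⟨w, u⟩, ⟨w', u'⟩⟩, ⟨hw, hw', β, hβ, hu⟩, rfl⟩
      refine ⟨i, w, w', u, β, hw, hw', abs_lt.2 hβ, ?_⟩
      have h2 : Circle.exp (π * (E i).P * β) = u' * u⁻¹ := hu
      rw [h2, inv_mul_cancel_right]
      rfl
  rw [h1]
  refine isOpen_iUnion fun i => ((m.tube.1 i).isOpenMap.prodMap (m.tube.1 i).isOpenMap) _ ?_
  have hP : π * ((E i).P : ℝ) ≠ 0 := mul_ne_zero Real.pi_ne_zero (by exact_mod_cast (E i).hP.ne')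
  have h3 : IsOpenMap fun β : ℝ => Circle.exp (π * (E i).P * β) :=
    Circle.isCoveringMap_exp.isLocalHomeomorph.isOpenMap.comp (Homeomorph.mulLeft₀ _ hP).isOpenMap
  have h4 : IsOpen {a : (ℂ × Circle) × (ℂ × Circle) | ‖a.1.1‖ < 1} :=
    isOpen_lt (by fun_prop) continuous_const
  have h5 : IsOpen {a : (ℂ × Circle) × (ℂ × Circle) | ‖a.2.1‖ < 1} :=
    isOpen_lt (by fun_prop) continuous_const
  exact h4.inter (h5.inter ((h3 _ isOpen_Ioo).preimage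
    (f := fun a : (ℂ × Circle) × (ℂ × Circle) => a.2.2 * a.1.2⁻¹) (by fun_prop)))

theorem diagonal_subset {δ δ' : ℝ} (h : 0 < δ) (h' : 0 < δ') :
    diagonal M ⊆ m.WI δ ∪ m.WII δ' := by
  rintro ⟨x, y⟩ (hxy : x = y)
  subst hxy
  rcases m.cases x with ⟨p, hp, rfl⟩ | ⟨i, u, rfl⟩
  · by_cases hth : ∀ c, eps / 4 < rho c p
    · refine Or.inl ⟨p, hp, p, hp, ⟨by simpa using h, ?_, hth⟩, rfl⟩
      have h0 : DD p.2 (p.1 - p.1) = 0 := by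
        unfold DD
        rw [sub_self, Dg_eq_zero]
      rw [h0, norm_zero]
      exact h
    · push Not at hth
      obtain ⟨c, hc⟩ := hth
      obtain ⟨r, θ, hr, hpe⟩ := exp2_polar hp c
      obtain ⟨x, t⟩ := p
      obtain rfl : x = cor c + r * dir θ := hpe
      have hlt : rho c (cor c + r * dir θ, t) < eps := by linarith [eps_pos]
      obtain ⟨w, hw, hι⟩ := m.tau_corner c hr hlt
      have hw1 : ‖w‖ < 1 := by
        rw [hw, exp2_rad_lt hlt]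
        linarith [eps_pos]
      exact Or.inr ⟨idx c, w, w, Circle.exp (π * (E (idx c)).P * Bc E c θ t), 0, hw1, hw1,
        by simpa using h', by rw [hι]; simp⟩
  · exact Or.inr ⟨i, 0, 0, u, 0, by simp, by simp, by simpa using h', by simp⟩

theorem WI_lift {δ : ℝ} {p q : ℂ × ℝ} (hp : p ∈ XX) (hq : q ∈ XX)
    (h : (m.ι p, m.ι q) ∈ m.WI δ) : ∃ q', Rel q q' ∧ CI δ p q' := by
  obtain ⟨p0, hp0, q0, hq0, hci, he⟩ := h
  obtain ⟨h1, h2⟩ := Prod.mk.inj he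
  obtain ⟨n, e, c, hadm, rfl⟩ := (m.eq_iff p0 hp0 p hp).1 h1.symm
  exact ⟨act n e c q0, rel_trans ((m.eq_iff q hq q0 hq0).1 h2) ⟨n, e, c, hadm, rfl⟩,
    CI_act e hadm hci⟩

theorem WI_not_core {δ : ℝ} {a : M × M} (h : a ∈ m.WI δ) :
    a.1 ∉ core m.τ ∧ a.2 ∉ core m.τ := by
  obtain ⟨p, hp, q, hq, -, rfl⟩ := h
  exact ⟨m.ι_not_core hp, m.ι_not_core hq⟩

/-- Tube coordinates of a point of the cover. -/
theorem rho_of_tau {p : ℂ × ℝ} (hp : p ∈ XX) {i : Fin 2} {w : ℂ} {u : Circle}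
    (h : m.ι p = m.τ i (w, u)) : ∃ c, idx c = i ∧ rho c p < eps ∧ ‖w‖ = rad (rho c p) ∧
      ∀ r θ : ℝ, 0 < r → p.1 = cor c + r * dir θ →
        u = Circle.exp (π * (E i).P * Bc E c θ p.2) := by
  obtain ⟨c, rfl, hc⟩ := (m.ι_mem_range_iff hp i).1 ⟨_, h.symm⟩
  have key : ∀ r θ : ℝ, 0 < r → p.1 = cor c + r * dir θ → ‖w‖ = rad (rho c p) ∧
      u = Circle.exp (π * (E (idx c)).P * Bc E c θ p.2) := by
    intro r θ hr hpe
    obtain ⟨x, t⟩ := p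
    obtain rfl : x = cor c + r * dir θ := hpe
    obtain ⟨w', hw', hι⟩ := m.tau_corner c hr hc
    obtain ⟨h1, h2⟩ := Prod.mk.inj (m.tau_inj (h.symm.trans hι)).2
    exact ⟨h1 ▸ hw', h2⟩
  obtain ⟨r, θ, hr, hpe⟩ := exp2_polar hp c
  exact ⟨c, rfl, hc, (key r θ hr hpe).1, fun r θ hr hpe => (key r θ hr hpe).2⟩

theorem WII_fst {δ : ℝ} {p : ℂ × ℝ} (hp : p ∈ XX) {y : M} (h : (m.ι p, y) ∈ m.WII δ) :
    ∃ c, rho c p < eps / 2 := by
  obtain ⟨i, w, w', u, β, hw, -, -, he⟩ := h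
  obtain ⟨c, -, hc, hn, -⟩ := m.rho_of_tau hp (Prod.mk.inj he).1
  exact ⟨c, (exp2_rad_lt hc).1 (hn ▸ hw)⟩

theorem WII_snd {δ : ℝ} {q : ℂ × ℝ} (hq : q ∈ XX) {x : M} (h : (x, m.ι q) ∈ m.WII δ) :
    ∃ c, rho c q < eps / 2 := by
  obtain ⟨i, w, w', u, β, -, hw, -, he⟩ := h
  obtain ⟨c, -, hc, hn, -⟩ := m.rho_of_tau hq (Prod.mk.inj he).2
  exact ⟨c, (exp2_rad_lt hc).1 (hn ▸ hw)⟩

theorem WII_lattice {δ : ℝ} {c : ℤ × ℤ} {r θ t r' θ' t' : ℝ} (hr : 0 < r) (hr' : 0 < r')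
    (h1 : rho c (cor c + r * dir θ, t) < eps) (h2 : rho c (cor c + r' * dir θ', t') < eps)
    (h : (m.ι (cor c + r * dir θ, t), m.ι (cor c + r' * dir θ', t')) ∈ m.WII δ) :
    ∃ k : ℤ, |Bc E c θ t - Bc E c θ' t' - k * (2 / ((E (idx c)).P : ℝ))| < δ := by
  obtain ⟨i, w, w', u, β, -, -, hβ, he⟩ := h
  obtain ⟨he1, he2⟩ := Prod.mk.inj he
  obtain ⟨w1, -, hι1⟩ := m.tau_corner c hr h1
  obtain ⟨w2, -, hι2⟩ := m.tau_corner c hr' h2
  obtain ⟨rfl, h3⟩ := m.tau_inj (hι1.symm.trans he1)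
  have h4 := (Prod.mk.inj (m.tau_inj (hι2.symm.trans he2)).2).2
  rw [← (Prod.mk.inj h3).2, ← Circle.exp_add, ← mul_add] at h4
  obtain ⟨k, hk⟩ := exp2_lattice (E (idx c)).hP h4.symm
  refine ⟨k, ?_⟩
  have h5 : Bc E c θ t - Bc E c θ' t' - k * (2 / ((E (idx c)).P : ℝ)) = -β := by linarith
  rw [h5, abs_neg]
  exact hβ

theorem WII_core {δ : ℝ} {i : Fin 2} {b : ℝ} {c : ℤ × ℤ} {r θ t : ℝ} (hr : 0 < r)
    (h1 : rho c (cor c + r * dir θ, t) < eps)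
    (h : (m.τ i (0, Circle.exp (π * (E i).P * b)), m.ι (cor c + r * dir θ, t)) ∈ m.WII δ) :
    ∃ k : ℤ, |Bc E c θ t - b - k * (2 / ((E i).P : ℝ))| < δ := by
  obtain ⟨j, w, w', u, β, -, -, hβ, he⟩ := h
  obtain ⟨he1, he2⟩ := Prod.mk.inj he
  obtain ⟨rfl, h3⟩ := m.tau_inj he1
  obtain ⟨w2, -, hι2⟩ := m.tau_corner c hr h1
  obtain ⟨rfl, h4⟩ := m.tau_inj (hι2.symm.trans he2)
  have h5 := (Prod.mk.inj h4).2
  rw [← (Prod.mk.inj h3).2, ← Circle.exp_add, ← mul_add] at h5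
  obtain ⟨k, hk⟩ := exp2_lattice (E (idx c)).hP h5
  refine ⟨k, ?_⟩
  have h6 : Bc E c θ t - b - k * (2 / ((E (idx c)).P : ℝ)) = β := by linarith
  rw [h6]
  exact hβ

end Model

end Pool.Agent.Zig
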