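import Pool.Agent.Lib.MP_d77862_gt.FlowA

noncomputable section

namespace Pool.Agent.Zig

open Set Filter Topology Complex Real

/-! Properties of the surgered flow. -/

theorem flowl_delta {U : Set (ℂ × ℝ)} (hU : IsOpen U) {x : ℂ} {η : ℝ → ℝ} (hη : Continuous η)
    (h : (x, η 0) ∈ U) : ∃ δ > 0, ∀ s ∈ Ioo (-δ) δ, (x, η s) ∈ U := by
  obtain ⟨δ, h0, h1⟩ := Metric.isOpen_iff.1 (hU.preimage (Continuous.prodMk_right x |>.comp hη)) 0 h
  exact ⟨δ, h0, fun s hs => h1 (by simpa [abs_lt] using hs)⟩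

variable {E : Fin 2 → End} {M : Type} [TopologicalSpace M]

namespace FlowM

variable {m : Model E M} (f : FlowM m)

theorem along : Along f.φ m.τ := by
  intro i
  have : (0 : ℝ) < (E i).P := by exact_mod_cast (E i).hP
  exact ⟨π * (E i).P, by positivity, f.hτ i⟩
theorem prong_flow {i : Fin 2} (R : Prong m i) {z : ℂ} {b s : ℝ}
    (h : ∀ s' ∈ uIcc 0 s, (z, b + s') ∈ R.V) : f.φ s (R.F (z, b)) = R.F (z, b + s) := by
  by_cases hz : z = 0
  · subst hz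
    obtain ⟨w, h1, h2⟩ := R.lev 0 b (R.axis _)
    obtain ⟨w', h3, h4⟩ := R.lev 0 (b + s) (R.axis _)
    rw [h1, h3, h2.2 rfl, h4.2 rfl, f.hτ, ← Circle.exp_add, ← mul_add, add_comm]
  · obtain ⟨x, t, t', h1, h2, h3, h4⟩ := R.time f.C hz h
    rw [h2, h3, ← h4, f.hι x t t' h1]
/-- The height along an orbit, as an order isomorphism. -/
theorem exists_height {x : ℂ} {t : ℝ} (h : (x, t) ∈ XX) :
    ∃ η : ℝ ≃o ℝ, η 0 = t ∧ (∀ s, f.C.c x t (η s) = s) ∧
      ∀ s, f.φ s (m.ι (x, t)) = m.ι (x, η s) := by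
  let ζ := (f.C.mono x t h).orderIsoOfSurjective _ (f.C.surj x t h)
  have h1 : ∀ s, f.C.c x t (ζ.symm s) = s := ζ.apply_symm_apply
  refine ⟨ζ.symm, (f.C.mono x t h).injective ?_, h1, fun s => ?_⟩
  · have := f.C.add x t t t h
    rw [h1]
    linarith
  · rw [← f.hι x t (ζ.symm s) h, h1]
theorem no_fixed (y : M) : ∃ s, f.φ s y ≠ y := by
  rcases m.cases y with ⟨⟨x, t⟩, hp, rfl⟩ | ⟨i, u, rfl⟩
  · obtain ⟨η, -, -, h⟩ := f.exists_height hp
    refine ⟨η.symm (t + 1 / 2), fun hc => ?_⟩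
    rw [h, η.apply_symm_apply, m.eq_iff _ ((mem_XX_iff x t _).1 hp) _ hp] at hc
    obtain ⟨n, e, c, -, hc⟩ := hc
    have h1 : t = t + 1 / 2 - n := congrArg Prod.snd hc
    have h2 : ((2 * n : ℤ) : ℝ) = (1 : ℤ) := by
      push_cast
      linarith
    have := Int.cast_injective h2
    omega
  · have : (0 : ℝ) < (E i).P := by exact_mod_cast (E i).hP
    refine ⟨1 / (E i).P, fun hc => ?_⟩
    rw [f.hτ, mul_one_div, mul_div_cancel_right₀ _ this.ne'] at hc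
    have h1 := congrArg (fun v : Circle => (v : ℂ))
      (mul_eq_right.1 (congrArg Prod.snd (m.tau_inj hc).2))
    simp only [Circle.coe_exp, exp_pi_mul_I, Circle.coe_one] at h1
    norm_num at h1
/-- Vertical charts are flow boxes. -/
theorem flowBox_vertical {e : OpenPartialHomeomorph M (ℂ × ℝ)} {U : Set (ℂ × ℝ)} (hU : IsOpen U)
    (hX : U ⊆ XX) (hs : e.source = m.ι '' U) {K : ℂ × ℝ → ℝ} {g : ℂ → ℂ}
    (hm : ∀ x, StrictMono fun t => K (x, t)) (he : ∀ q ∈ U, e (m.ι q) = (g q.1, K q)) :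
    FlowBox f.φ e := by
  intro y hy
  rw [hs] at hy
  obtain ⟨⟨x, t⟩, hp, rfl⟩ := hy
  obtain ⟨η, h0, -, h⟩ := f.exists_height (hX hp)
  obtain ⟨δ, h1, h2⟩ := flowl_delta hU η.continuous (h0 ▸ hp)
  refine ⟨δ, h1, fun s hs' => ?_, fun s hs' s' hs'' hl => ?_⟩
  · rw [h, hs, he _ (h2 s hs'), he _ hp]
    exact ⟨mem_image_of_mem _ (h2 s hs'), rfl⟩
  · simp only [h, he _ (h2 s hs'), he _ (h2 s' hs'')]
    exact hm x (η.strictMono hl)
/-- Prong charts are flow boxes. -/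
theorem flowBox_prong {i : Fin 2} (R : Prong m i) {e : OpenPartialHomeomorph M (ℂ × ℝ)}
    (hV : e.target ⊆ R.V) (hs : e.source = R.F '' e.target)
    (he : ∀ a ∈ e.target, e (R.F a) = a) : FlowBox f.φ e := by
  intro y hy
  rw [hs] at hy
  obtain ⟨⟨z, b⟩, hp, rfl⟩ := hy
  obtain ⟨δ, h1, h2⟩ := flowl_delta e.open_target (x := z) (η := fun s => b + s) (by fun_prop)
    (by simpa using hp)
  have h : ∀ s ∈ Ioo (-δ) δ, f.φ s (R.F (z, b)) = R.F (z, b + s) := fun s hs' =>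
    f.prong_flow R fun s' h3 => hV (h2 s'
      (ordConnected_Ioo.uIcc_subset ⟨neg_lt_zero.2 h1, h1⟩ hs' h3))
  refine ⟨δ, h1, fun s hs' => ?_, fun s hs' s' hs'' hl => ?_⟩
  · rw [h s hs', hs, he _ (h2 s hs'), he _ hp]
    exact ⟨mem_image_of_mem _ (h2 s hs'), rfl⟩
  · simp only [h s hs', h s' hs'', he _ (h2 s hs'), he _ (h2 s' hs'')]
    linarith

end FlowM

end Pool.Agent.Zig
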