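import Pool.Agent.Lib.MP_d77862_gt.Asym1
import Pool.Agent.Lib.MP_d77862_gt.Exp2
import Pool.Agent.Lib.MP_d77862_gt.FlowL

noncomputable section

namespace Pool.Agent.Zig

open Set Filter Topology Complex Real

/-! Asymptotic orbits. -/

variable {E : Fin 2 → End} {M : Type} [TopologicalSpace M] {m : Model E M}

/-- A point of `XX` keeps a positive distance from all corner lines. -/
theorem asym_thick {p : ℂ × ℝ} (hp : p ∈ XX) : ∃ ρ > 0, ∀ c, ρ < rho c p := by
  by_cases h : ∃ c0, rho c0 p < 1 / 2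
  · obtain ⟨c0, h0⟩ := h
    have hpos := rho_pos c0 hp
    refine ⟨rho c0 p / 2, by linarith, fun c => ?_⟩
    by_contra hc
    have : c = c0 := eq_of_rho_add_lt (p := p) (by linarith)
    subst this
    linarith
  · refine ⟨1 / 4, by norm_num, fun c => ?_⟩
    have := not_exists.mp h c
    linarith

theorem asym_rho_tri (c : ℤ × ℤ) (z z' : ℂ) (t : ℝ) :
    rho c (z', t) ≤ rho c (z, t) + ‖DD t (z - z')‖ := by
  have h : DD t (z' - cor c) = DD t (z - cor c) - DD t (z - z') := by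
    unfold DD
    rw [← Dg_sub]
    congr 1
    ring
  unfold rho
  simp only
  rw [h]
  exact norm_sub_le _ _

theorem asym_tendsto_rad {T : Type} {U : Filter T} {β : T → ℝ} (h : Tendsto β U (𝓝 0)) :
    Tendsto (fun t => rad (β t)) U (𝓝 0) := by
  have h1 : Tendsto (fun t => β t / (eps - β t)) U (𝓝 (0 / (eps - 0))) :=
    h.div (tendsto_const_nhds.sub h) (by simpa using eps_pos.ne')
  simpa [rad] using h1

theorem asym_regular (m : Model E M) {l : Filter ℝ} {z z' : ℂ}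
    (hz : (z, (0 : ℝ)) ∈ XX) (hz' : (z', (0 : ℝ)) ∈ XX)
    (hl : Tendsto (fun t => ‖DD t (z - z')‖) l (𝓝 0)) {h : ℝ → ℝ}
    (hs : ∀ ρ > 0, ∀ η > 0, ∃ δ > 0, ∀ t, (∀ c, ρ ≤ rho c (z, t)) → ‖DD t (z - z')‖ < δ →
      |h t - t| < η) {U : Filter ℝ} (hU : U ≤ l) {p0 : ℂ × ℝ} (hp0 : p0 ∈ XX)
    (hy : Tendsto (fun t => m.ι (z, t)) U (𝓝 (m.ι p0))) :
    Tendsto (fun t => m.ι (z', h t)) U (𝓝 (m.ι p0)) := by
  obtain ⟨e, he0, -, heX, hes, hee⟩ := m.exists_chart hp0 (W := univ) univ_mem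
  have hsrc : m.ι p0 ∈ e.source := hes ▸ mem_image_of_mem _ he0
  have hq : Tendsto (fun t => e (m.ι (z, t))) U (𝓝 p0) := by
    have := (e.continuousAt hsrc).tendsto.comp hy
    rwa [hee p0 he0] at this
  have hev : ∀ᶠ t in U, m.ι (z, t) ∈ e.source := hy (e.open_source.mem_nhds hsrc)
  have hex : ∀ t, ∃ q' : ℂ × ℝ, m.ι (z, t) ∈ e.source →
      m.ι q' = m.ι (z', h t) ∧ q'.2 = (e (m.ι (z, t))).2 + (h t - t) ∧
      ‖DD (e (m.ι (z, t))).2 ((e (m.ι (z, t))).1 - q'.1)‖ = ‖DD t (z - z')‖ ∧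
      ∀ ρ, (∀ c, ρ < rho c (e (m.ι (z, t)))) → ∀ c, ρ ≤ rho c (z, t) := by
    intro t
    by_cases ht : m.ι (z, t) ∈ e.source
    · rw [hes] at ht
      obtain ⟨q, hq1, hq2⟩ := ht
      have hzt : (z, t) ∈ XX := (mem_XX_iff z 0 t).mp hz
      obtain ⟨n, ε, d, hA, hqa⟩ := (m.eq_iff _ hzt _ (heX hq1)).mp hq2.symm
      refine ⟨act n ε d (z', h t), fun _ => ?_⟩
      rw [← hq2, hee q hq1, hqa]
      refine ⟨m.ι_act ε hA ((mem_XX_iff z' 0 _).mp hz'), ?_, norm_DD_act n ε d z z' t, ?_⟩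
      · simp only [act]
        ring
      · intro ρ hρ c
        obtain ⟨d', -, -, -, hd⟩ := act_cor ε hA c
        rw [← hd]
        exact (hρ d').le
    · exact ⟨p0, fun h => absurd h ht⟩
  choose q' hq' using hex
  obtain ⟨ρ, hρ, hth⟩ := asym_thick hp0
  have hev2 : ∀ᶠ t in U, ∀ c, ρ < rho c (e (m.ι (z, t))) :=
    hq ((isOpen_thick ρ).mem_nhds hth)
  have hlU := hl.mono_left hU
  have hh : Tendsto (fun t => h t - t) U (𝓝 0) := by
    rw [Metric.tendsto_nhds]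
    intro η hη
    obtain ⟨δ, hδ, hδ'⟩ := hs ρ hρ η hη
    filter_upwards [hev, hev2, hlU.eventually (gt_mem_nhds hδ)] with t h1 h2 h3
    rw [Real.dist_eq, sub_zero]
    exact hδ' t ((hq' t h1).2.2.2 ρ h2) h3
  have hq2 : Tendsto (fun t => (e (m.ι (z, t))).2) U (𝓝 p0.2) := (continuous_snd.tendsto _).comp hq
  have hq1 : Tendsto (fun t => (e (m.ι (z, t))).1) U (𝓝 p0.1) := (continuous_fst.tendsto _).comp hq
  have h2 : Tendsto (fun t => (q' t).2) U (𝓝 p0.2) := by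
    have := hq2.add hh
    rw [add_zero] at this
    refine this.congr' ?_
    filter_upwards [hev] with t ht
    exact (hq' t ht).2.1.symm
  have h1 : Tendsto (fun t => (q' t).1) U (𝓝 p0.1) := by
    have hb : Tendsto (fun t => Real.exp (LL * |0 - (e (m.ι (z, t))).2|) * ‖DD t (z - z')‖) U
        (𝓝 (Real.exp (LL * |0 - p0.2|) * 0)) := by
      refine Tendsto.mul ?_ hlU
      exact (Real.continuous_exp.tendsto _).comp
        (((tendsto_const_nhds.sub hq2).abs).const_mul LL)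
    rw [mul_zero] at hb
    have hd : Tendsto (fun t => (e (m.ι (z, t))).1 - (q' t).1) U (𝓝 0) := by
      refine squeeze_zero_norm' ?_ hb
      filter_upwards [hev] with t ht
      rw [← (hq' t ht).2.2.1]
      have := norm_DD_le (e (m.ι (z, t))).2 0 ((e (m.ι (z, t))).1 - (q' t).1)
      rwa [DD_zero] at this
    have := hq1.sub hd
    simpa using this
  have h3 : Tendsto q' U (𝓝 p0) := h1.prodMk_nhds h2
  refine ((m.continuousAt_ι hp0).tendsto.comp h3).congr' ?_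
  filter_upwards [hev] with t ht
  exact (hq' t ht).1

theorem asym_at_core (m : Model E M) {l : Filter ℝ} {z z' : ℂ}
    (hz : (z, (0 : ℝ)) ∈ XX) (hz' : (z', (0 : ℝ)) ∈ XX)
    (hl : Tendsto (fun t => ‖DD t (z - z')‖) l (𝓝 0)) {h : ℝ → ℝ} {K : ℝ}
    (hK : ∀ t, |h t - t| ≤ K)
    (hB : ∀ t c, rho c (z, t) ≤ eps / 4 →
      Bc E c (shw c z z') (h t) = Bc E c (arg (z - cor c)) t)
    {U : Filter ℝ} (hU : U ≤ l) {i : Fin 2} {u : Circle}
    (hy : Tendsto (fun t => m.ι (z, t)) U (𝓝 (m.τ i (0, u)))) :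
    Tendsto (fun t => m.ι (z', h t)) U (𝓝 (m.τ i (0, u))) := by
  have hemb := m.tube.1 i
  have hev : ∀ᶠ t in U, m.ι (z, t) ∈ range (m.τ i) :=
    hy (hemb.isOpen_range.mem_nhds (mem_range_self _))
  have hex : ∀ t, ∃ a : ℂ × Circle, m.ι (z, t) ∈ range (m.τ i) → m.τ i a = m.ι (z, t) := by
    intro t
    by_cases ht : m.ι (z, t) ∈ range (m.τ i)
    · obtain ⟨a, ha⟩ := ht
      exact ⟨a, fun _ => ha⟩
    · exact ⟨(0, u), fun h => absurd h ht⟩
  choose a ha using hex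
  have hat : Tendsto a U (𝓝 (0, u)) := by
    rw [hemb.isEmbedding.tendsto_nhds_iff]
    refine hy.congr' ?_
    filter_upwards [hev] with t ht
    exact (ha t ht).symm
  have ha1 : Tendsto (fun t => ‖(a t).1‖) U (𝓝 0) := by
    have := ((continuous_fst.tendsto _).comp hat).norm
    simpa using this
  have ha2 : Tendsto (fun t => (a t).2) U (𝓝 u) := (continuous_snd.tendsto _).comp hat
  have hα : Tendsto (fun t => eps * ‖(a t).1‖ / (1 + ‖(a t).1‖)) U (𝓝 0) := by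
    have : Tendsto (fun t => eps * ‖(a t).1‖ / (1 + ‖(a t).1‖)) U (𝓝 (eps * 0 / (1 + 0))) :=
      (ha1.const_mul eps).div (tendsto_const_nhds.add ha1) (by norm_num)
    simpa using this
  have hβ : Tendsto (fun t => Real.exp (LL * K) *
      (eps * ‖(a t).1‖ / (1 + ‖(a t).1‖) + ‖DD t (z - z')‖)) U (𝓝 0) := by
    have := (hα.add (hl.mono_left hU)).const_mul (Real.exp (LL * K))
    simpa using this
  have he := eps_pos
  have hgood : ∀ᶠ t in U, ∃ w : ℂ, ‖w‖ ≤ rad (Real.exp (LL * K) *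
      (eps * ‖(a t).1‖ / (1 + ‖(a t).1‖) + ‖DD t (z - z')‖)) ∧
      m.ι (z', h t) = m.τ i (w, (a t).2) := by
    filter_upwards [hev, hα.eventually (gt_mem_nhds (show (0 : ℝ) < eps / 4 by linarith)),
      hβ.eventually (gt_mem_nhds he)] with t h1 h2 h3
    have hzt : (z, t) ∈ XX := (mem_XX_iff z 0 t).mp hz
    obtain ⟨c, hci, hc1, hc2, hc3⟩ :=
      m.rho_of_tau hzt (i := i) (w := (a t).1) (u := (a t).2) (ha t h1).symm
    have hzc : z ≠ cor c := hz c
    have hzc' : z' ≠ cor c := hz' c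
    have e1 : eps * ‖(a t).1‖ / (1 + ‖(a t).1‖) = rho c (z, t) := by
      rw [hc2]
      exact rad_inv' hc1
    have e2 : rho c (z', h t) ≤ Real.exp (LL * K) *
        (eps * ‖(a t).1‖ / (1 + ‖(a t).1‖) + ‖DD t (z - z')‖) := by
      rw [e1]
      refine (rho_le c z' t (h t)).trans (mul_le_mul ?_ (asym_rho_tri c z z' t)
        (norm_nonneg _) (Real.exp_pos _).le)
      exact Real.exp_le_exp.mpr (mul_le_mul_of_nonneg_left (hK t) LL_pos.le)
    have e3 : (a t).2 = Circle.exp (π * (E i).P * Bc E c (arg (z - cor c)) t) := by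
      refine hc3 ‖z - cor c‖ (arg (z - cor c)) (norm_pos_iff.mpr (sub_ne_zero.mpr hzc)) ?_
      rw [norm_mul_dir_arg]
      simp
    have e4 := (shw_spec c hzc z').1
    have e5 : rho c (cor c + (‖z' - cor c‖ : ℝ) * dir (shw c z z'), h t) < eps := by
      rw [← e4]
      exact e2.trans_lt h3
    obtain ⟨w, hw1, hw2⟩ := m.tau_corner c (norm_pos_iff.mpr (sub_ne_zero.mpr hzc')) e5
    rw [← e4] at hw1 hw2
    refine ⟨w, ?_, ?_⟩
    · rw [hw1]
      exact rad_strictMonoOn.monotoneOn (e2.trans_lt h3) h3 e2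
    · rw [hw2, hB t c (by rw [← e1]; exact h2.le), hci, e3]
  have hex2 : ∀ t, ∃ w : ℂ, (∃ w : ℂ, ‖w‖ ≤ rad (Real.exp (LL * K) *
      (eps * ‖(a t).1‖ / (1 + ‖(a t).1‖) + ‖DD t (z - z')‖)) ∧
      m.ι (z', h t) = m.τ i (w, (a t).2)) → ‖w‖ ≤ rad (Real.exp (LL * K) *
      (eps * ‖(a t).1‖ / (1 + ‖(a t).1‖) + ‖DD t (z - z')‖)) ∧
      m.ι (z', h t) = m.τ i (w, (a t).2) := by
    intro t
    by_cases ht : ∃ w : ℂ, ‖w‖ ≤ rad (Real.exp (LL * K) *
        (eps * ‖(a t).1‖ / (1 + ‖(a t).1‖) + ‖DD t (z - z')‖)) ∧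
        m.ι (z', h t) = m.τ i (w, (a t).2)
    · exact ⟨ht.choose, fun _ => ht.choose_spec⟩
    · exact ⟨0, fun h => absurd h ht⟩
  choose w hw using hex2
  have hw0 : Tendsto w U (𝓝 0) := by
    refine squeeze_zero_norm' ?_ (asym_tendsto_rad hβ)
    filter_upwards [hgood] with t ht
    exact (hw t ht).1
  refine (m.tendsto_core hw0 ha2).congr' ?_
  filter_upwards [hgood] with t ht
  exact (hw t ht).2.symm

/-- Two vertical lines whose invariant distance tends to zero approach each other in the model. -/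
theorem Model.tendsto_of_shift (m : Model E M) {l : Filter ℝ} {z z' : ℂ}
    (hz : (z, (0 : ℝ)) ∈ XX) (hz' : (z', (0 : ℝ)) ∈ XX)
    (hl : Tendsto (fun t => ‖DD t (z - z')‖) l (𝓝 0)) {h : ℝ → ℝ} {K : ℝ}
    (hK : ∀ t, |h t - t| ≤ K)
    (hB : ∀ t c, rho c (z, t) ≤ eps / 4 →
      Bc E c (shw c z z') (h t) = Bc E c (arg (z - cor c)) t)
    (hs : ∀ ρ > 0, ∀ η > 0, ∃ δ > 0, ∀ t, (∀ c, ρ ≤ rho c (z, t)) → ‖DD t (z - z')‖ < δ →
      |h t - t| < η) {U : Filter ℝ} (hU : U ≤ l) {y : M}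
    (hy : Tendsto (fun t => m.ι (z, t)) U (𝓝 y)) :
    Tendsto (fun t => m.ι (z', h t)) U (𝓝 y) := by
  rcases m.cases y with ⟨p0, hp0, rfl⟩ | ⟨i, u, rfl⟩
  · exact asym_regular m hz hz' hl hs hU hp0 hy
  · exact asym_at_core m hz hz' hl hK hB hU hy

theorem asym_iso {l : Filter ℝ} (hl : l = atTop ∨ l = atBot) (η : ℝ ≃o ℝ) : Tendsto η l l := by
  rcases hl with rfl | rfl
  · exact η.tendsto_atTop
  · exact η.tendsto_atBot

theorem asym_near {l : Filter ℝ} (hl : l = atTop ∨ l = atBot) {h : ℝ → ℝ} {K : ℝ}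
    (hK : ∀ t, |h t - t| ≤ K) : Tendsto h l l := by
  rcases hl with rfl | rfl
  · refine tendsto_atTop_mono (f := fun t => t + -K) (fun t => ?_)
      (tendsto_atTop_add_const_right _ _ tendsto_id)
    have := (abs_le.mp (hK t)).1
    linarith
  · refine tendsto_atBot_mono (f := fun t => t + K) (fun t => ?_)
      (tendsto_atBot_add_const_right _ _ tendsto_id)
    have := (abs_le.mp (hK t)).2
    linarith

namespace FlowM

variable (f : FlowM m) {l : Filter ℝ}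

theorem asym_of_tendsto (hl : l = atTop ∨ l = atBot) {z z' : ℂ} {t t' : ℝ} (hz : (z, t) ∈ XX)
    (hz' : (z', t') ∈ XX) (h : Tendsto (fun s => ‖DD s (z - z')‖) l (𝓝 0)) :
    Asym f.φ l (m.ι (z, t)) (m.ι (z', t')) := by
  have : CompactSpace M := m.cl3.2.1
  have hz0 : (z, (0 : ℝ)) ∈ XX := (mem_XX_iff z t 0).mp hz
  have hz0' : (z', (0 : ℝ)) ∈ XX := (mem_XX_iff z' t' 0).mp hz'
  obtain ⟨η, -, -, hη⟩ := f.exists_height hz
  obtain ⟨η', -, -, hη'⟩ := f.exists_height hz'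
  obtain ⟨g, hg, ⟨K, hK⟩, hB, hs⟩ := exists_shift E hz0 hz0'
  refine ⟨fun s => η'.symm (g (η s)), η'.symm.continuous.comp (hg.comp η.continuous),
    (asym_iso hl η'.symm).comp ((asym_near hl hK).comp (asym_iso hl η)), ?_⟩
  refine eventually_diag fun U hU y hy => ?_
  simp only [hη, hη', OrderIso.apply_symm_apply] at hy ⊢
  have hU' : map η (U : Filter ℝ) ≤ l := (map_mono hU).trans (asym_iso hl η)
  exact m.tendsto_of_shift hz0 hz0' h hK hB hs hU' (tendsto_map' hy)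

theorem asym_orbit (hl : l = atTop ∨ l = atBot) (y : M) (u : ℝ) : Asym f.φ l y (f.φ u y) := by
  refine ⟨fun t => t - u, by fun_prop, asym_near hl (K := |u|) fun t => by simp, ?_⟩
  intro W hW
  refine Eventually.of_forall fun t => subset_of_mem_nhdsSet hW ?_
  rw [← f.φ.map_add, sub_add_cancel]
  exact mem_diagonal _

theorem asym_core (hl : l = atTop ∨ l = atBot) (i : Fin 2) (u : Circle) {r θ : ℝ} (hr : 0 < r)
    (t : ℝ) (h : Tendsto (fun s => ‖DD s (r * dir θ)‖) l (𝓝 0)) :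
    Asym f.φ l (m.τ i (0, u)) (m.ι (cor (bc i) + r * dir θ, t)) := by
  have : CompactSpace M := m.cl3.2.1
  have : T2Space M := m.cl3.1
  have : l.NeBot := by rcases hl with rfl | rfl <;> infer_instance
  simp only [norm_DD_polar _ r θ hr.le] at h
  have hP : (0 : ℝ) < (E i).P := by exact_mod_cast (E i).hP
  have hX : (cor (bc i) + r * dir θ, t) ∈ XX := by
    obtain ⟨s, hs⟩ := (h.eventually (gt_mem_nhds one_pos)).exists
    refine (mem_XX_iff _ s t).mp (mem_XX_of_rho (c := bc i) ?_ ?_)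
    · rw [rho_polar _ _ _ _ hr.le]
      exact mul_pos hr (nrm_pos _ _)
    · rw [rho_polar _ _ _ _ hr.le]
      exact hs
  obtain ⟨η, -, -, hη⟩ := f.exists_height hX
  obtain ⟨b0, hb0⟩ : ∃ b0 : ℝ, u = Circle.exp (π * (E i).P * b0) := by
    refine ⟨arg (u : ℂ) / (π * (E i).P), ?_⟩
    rw [mul_div_cancel₀ _ (mul_pos Real.pi_pos hP).ne', Circle.exp_arg]
  set Φ : ℝ ≃o ℝ := ((E i).mono θ).orderIsoOfSurjective _ ((E i).surj θ) with hΦ
  have hΦB : ∀ b, (E i).B θ (Φ.symm b) = b := fun b => Φ.apply_symm_apply b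
  have hH : Tendsto (fun s => Φ.symm (s + b0)) l l :=
    (asym_iso hl Φ.symm).comp (asym_near hl (K := |b0|) fun t => by simp)
  refine ⟨fun s => η.symm (Φ.symm (s + b0)),
    η.symm.continuous.comp (Φ.symm.continuous.comp (by fun_prop)),
    (asym_iso hl η.symm).comp hH, ?_⟩
  refine eventually_diag fun U hU y hy => ?_
  simp only [hη, f.hτ, OrderIso.apply_symm_apply] at hy ⊢
  obtain ⟨u', -, hu'⟩ := isCompact_univ.ultrafilter_le_nhds
    (U.map fun s => Circle.exp (π * (E i).P * s) * u) (by simp)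
  have hu : Tendsto (fun s => Circle.exp (π * (E i).P * s) * u) U (𝓝 u') := hu'
  have hyy : y = m.τ i (0, u') :=
    tendsto_nhds_unique hy (m.tendsto_core (w := fun _ => 0) tendsto_const_nhds hu)
  have hρ : Tendsto (fun s => r * nrm (LL * Φ.symm (s + b0)) θ) U (𝓝 0) :=
    (h.comp hH).mono_left hU
  have hw : Tendsto (fun s => (rad (r * nrm (LL * Φ.symm (s + b0)) θ) : ℂ) *
      dir (2 * π * (E i).aa θ (Φ.symm (s + b0)))) U (𝓝 0) := by
    rw [tendsto_zero_iff_norm_tendsto_zero]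
    have := (asym_tendsto_rad hρ).abs
    simpa [norm_dir] using this
  rw [hyy]
  refine (m.tendsto_core hw hu).congr' ?_
  filter_upwards [hρ.eventually (gt_mem_nhds eps_pos)] with s hs
  rw [m.tau_eq i r θ _ hr hs, hb0, ← Circle.exp_add]
  congr 3
  unfold End.bb
  rw [hΦB]
  ring

end FlowM

end Pool.Agent.Zig
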