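import Pool.Agent.Lib.MP_d77862_gt.Exp1

noncomputable section

namespace Pool.Agent.Zig

open Set Filter Topology Complex Real

/-! The change of height that matches the core coordinates of two vertical lines. -/

/-- The angle of `z'` seen from the corner `c`, measured the short way from the angle of `z`. -/
def shw (c : ℤ × ℤ) (z z' : ℂ) : ℝ := arg (z - cor c) + arg ((z' - cor c) / (z - cor c))

theorem shw_spec (c : ℤ × ℤ) {z : ℂ} (hz : z ≠ cor c) (z' : ℂ) :
    z' = cor c + (‖z' - cor c‖ : ℝ) * dir (shw c z z') ∧ |shw c z z' - arg (z - cor c)| ≤ π := by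
  have h0 : z - cor c ≠ 0 := sub_ne_zero.2 hz
  refine ⟨?_, ?_⟩
  · have h1 := norm_mul_dir_arg (z - cor c)
    have h2 := norm_mul_dir_arg ((z' - cor c) / (z - cor c))
    have h3 : ‖z' - cor c‖ = ‖z - cor c‖ * ‖(z' - cor c) / (z - cor c)‖ := by
      rw [← norm_mul, mul_div_cancel₀ _ h0]
    rw [shw, dir_add, h3, Complex.ofReal_mul, mul_mul_mul_comm, h1, h2, mul_div_cancel₀ _ h0]
    ring
  · rw [shw, add_sub_cancel_left]
    exact Complex.abs_arg_le_pi _

/-- The cutoff. -/
def asym1_chi (r : ℝ) : ℝ := max 0 (min 1 (3 - 128 * r))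

theorem asym1_chi_cont : Continuous asym1_chi := by
  unfold asym1_chi
  fun_prop

theorem asym1_chi_abs (r : ℝ) : |asym1_chi r| ≤ 1 := by
  rw [asym1_chi, abs_of_nonneg (le_max_left _ _)]
  exact max_le zero_le_one (min_le_left _ _)

theorem asym1_chi_one {r : ℝ} (h : r ≤ eps / 4) : asym1_chi r = 1 := by
  rw [eps] at h
  rw [asym1_chi, min_eq_left (by linarith), max_eq_right zero_le_one]

theorem asym1_chi_ne {r : ℝ} (h : asym1_chi r ≠ 0) : r < 1 / 2 := by
  by_contra h1
  apply h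
  rw [asym1_chi]
  exact max_eq_left ((min_le_right _ _).trans (by linarith))

variable (E : Fin 2 → End)

/-- Take `h t = t + χ (rho c (z, t)) * (t_c - t)` summed over the corners `c` (at most one term is
not zero), where `Bc E c (shw c z z') t_c = Bc E c (arg (z - cor c)) t` and `χ` is a
cutoff equal to `1` on `[0, eps / 4]` and to `0` on `[3 eps / 8, ∞)`. -/
theorem exists_shift {z z' : ℂ} (hz : (z, (0 : ℝ)) ∈ XX) (hz' : (z', (0 : ℝ)) ∈ XX) :
    ∃ h : ℝ → ℝ, Continuous h ∧ (∃ K, ∀ t, |h t - t| ≤ K) ∧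
      (∀ t c, rho c (z, t) ≤ eps / 4 →
        Bc E c (shw c z z') (h t) = Bc E c (arg (z - cor c)) t) ∧
      ∀ ρ > 0, ∀ η > 0, ∃ δ > 0, ∀ t, (∀ c, ρ ≤ rho c (z, t)) → ‖DD t (z - z')‖ < δ →
        |h t - t| < η := by
  have hT : ∀ c : ℤ × ℤ, ∃ T : ℝ → ℝ, Continuous T ∧
      ∀ t, Bc E c (shw c z z') (T t) = Bc E c (arg (z - cor c)) t := by
    intro c
    let F : ℝ ≃o ℝ := StrictMono.orderIsoOfSurjective _ (strictMono_Bc E c (shw c z z'))
      (surj_Bc E c _)
    refine ⟨fun t => F.symm (Bc E c (arg (z - cor c)) t), F.symm.continuous.comp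
      ((continuous_Bc E c).comp (continuous_const.prodMk continuous_id)), fun t => ?_⟩
    exact F.apply_symm_apply _
  choose T hTc hT using hT
  set f : ℤ × ℤ → ℝ → ℝ := fun c t => asym1_chi (rho c (z, t)) * (T c t - t) with hf
  have hsupp : ∀ c t, f c t ≠ 0 → rho c (z, t) < 1 / 2 := fun c t h =>
    asym1_chi_ne (left_ne_zero_of_mul h)
  have hsingle : ∀ c t, rho c (z, t) < 1 / 2 → ∑ᶠ d, f d t = f c t := by
    intro c t hc
    refine finsum_eq_single _ c fun d hd => ?_
    by_contra h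
    have h1 := hsupp d t h
    exact hd (eq_of_rho_add_lt (p := (z, t)) (by linarith))
  have hone : ∀ t, ∃ c, ∑ᶠ d, f d t = f c t := by
    intro t
    by_cases h : ∃ c, f c t ≠ 0
    · obtain ⟨c, hc⟩ := h
      exact ⟨c, hsingle c t (hsupp c t hc)⟩
    · refine ⟨0, finsum_eq_single _ 0 fun d _ => ?_⟩
      by_contra h1
      exact h ⟨d, h1⟩
  have habs : ∀ t, ∃ c, |t + ∑ᶠ d, f d t - t| ≤ |T c t - t| := by
    intro t
    obtain ⟨c, hc⟩ := hone t
    refine ⟨c, ?_⟩
    rw [add_sub_cancel_left, hc, hf, abs_mul]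
    exact mul_le_of_le_one_left (abs_nonneg _) (asym1_chi_abs _)
  refine ⟨fun t => t + ∑ᶠ c, f c t, continuous_id.add (continuous_finsum (fun c => ?_) ?_), ?_,
    fun t c hc => ?_, fun ρ hρ η hη => ?_⟩
  · exact (asym1_chi_cont.comp ((continuous_rho c).comp
      (continuous_const.prodMk continuous_id))).mul ((hTc c).sub continuous_id)
  · intro t0
    refine ⟨Metric.ball t0 1, Metric.ball_mem_nhds _ one_pos,
      (finite_rho (‖z‖ + |t0| + 1)).subset ?_⟩
    rintro c ⟨t, h1, h2⟩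
    have h3 := hsupp c t h1
    have h4 : |t - t0| < 1 := h2
    have h5 : |t| ≤ |t - t0| + |t0| := by
      have := abs_add_le (t - t0) t0
      rwa [sub_add_cancel] at this
    have h6 := norm_nonneg z
    have h7 := abs_nonneg t0
    refine ⟨(z, t), ?_, by linarith⟩
    rw [Prod.norm_def]
    refine max_le (by dsimp only; linarith) ?_
    change |t| ≤ _
    linarith
  · obtain ⟨K, hK⟩ := Bc_bound E
    refine ⟨K, fun t => ?_⟩
    obtain ⟨c, hc⟩ := habs t
    refine hc.trans ?_
    have h1 := hK c (arg (z - cor c)) (shw c z z') t (T c t)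
      (by rw [abs_sub_comm]; exact (shw_spec c (hz c) z').2)
    rwa [hT, sub_sub_sub_cancel_left] at h1
  · have h1 : rho c (z, t) < 1 / 2 := by
      rw [eps] at hc
      linarith
    have h2 : t + ∑ᶠ d, f d t = T c t := by
      rw [hsingle c t h1, hf]
      dsimp only
      rw [asym1_chi_one hc]
      ring
    exact (congrArg _ h2).trans (hT c t)
  · obtain ⟨η1, hη1, h1⟩ := Bc_unif_inv E η hη
    obtain ⟨δ, hδ, h2⟩ := exists_angles E hρ hη1
    refine ⟨δ, hδ, fun t h3 h4 => ?_⟩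
    obtain ⟨c, hc⟩ := habs t
    refine hc.trans_lt ?_
    have h5 : cor c + (‖z - cor c‖ : ℝ) * dir (arg (z - cor c)) = z := by
      rw [norm_mul_dir_arg]
      ring
    obtain ⟨r', θ', hr', h6, h7, h8⟩ := h2 c ‖z - cor c‖ (arg (z - cor c)) t z' t
      (norm_pos_iff.2 (sub_ne_zero.2 (hz c))) (by rw [h5]; exact h3 c) (by simpa using hδ)
      (by rw [h5]; exact h4)
    obtain ⟨h9, h10⟩ := shw_spec c (hz c) z'
    have h11 := abs_sub_lt_pi_of_quad h7
    have h12 : θ' = shw c z z' := by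
      refine eq_of_polar hr' (norm_pos_iff.2 (sub_ne_zero.2 (hz' c)))
        (add_left_cancel (h6.symm.trans h9)) ?_
      rw [abs_lt] at h11 ⊢
      rw [abs_le] at h10
      constructor <;> linarith [h10.1, h10.2, h11.1, h11.2]
    refine h1 c (shw c z z') _ _ ?_
    rw [hT, ← h12]
    exact h8

end Pool.Agent.Zig
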