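import Pool.Agent.Lib.MP_d77862_gt.Defs

/-!
The model. The plane is `ℂ` with `re` the unstable and `im` the stable coordinate. The corners are
the points `cor (a, b) = (a + b √2, a - b √2)`. The group is generated by `x ↦ -x`, the
translations by `2 ℤ[√2]` and `(x, t) ↦ (DD 1 x + cor (0, 1), t - 1)`.
-/

noncomputable section

namespace Pool.Agent.Zig

open Set Filter Topology Complex Real

/-- `log (1 + √2)`. -/
def lg : ℝ := Real.log (1 + √2)

/-- `log` of the dilatation `(1 + √2)^2`. -/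
def LL : ℝ := 2 * lg

/-- The diagonal map `diag (e^s, e^(-s))`. -/
def Dg (s : ℝ) (z : ℂ) : ℂ := ⟨Real.exp s * z.re, Real.exp (-s) * z.im⟩

/-- The real power `A^t` of the Anosov matrix. -/
def DD (t : ℝ) (z : ℂ) : ℂ := Dg (LL * t) z

/-- The corner points. -/
def cor (c : ℤ × ℤ) : ℂ := ⟨c.1 + c.2 * √2, c.1 - c.2 * √2⟩

/-- The complement of the vertical lines over the corners. -/
def XX : Set (ℂ × ℝ) := {p | ∀ c, p.1 ≠ cor c}

/-- The affine maps of the group. -/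
def act (n : ℤ) (e : ℤˣ) (c : ℤ × ℤ) (p : ℂ × ℝ) : ℂ × ℝ :=
  ((((e : ℤ) : ℂ)) * DD n p.1 + cor c, p.2 - n)

/-- Admissible translation parts. -/
def Adm (n : ℤ) (c : ℤ × ℤ) : Prop := Even c.1 ∧ Even (c.2 - n)

/-- The orbit relation. -/
def Rel (p q : ℂ × ℝ) : Prop := ∃ n e c, Adm n c ∧ q = act n e c p

/-- Invariant distance to the corner line. -/
def rho (c : ℤ × ℤ) (p : ℂ × ℝ) : ℝ := ‖DD p.2 (p.1 - cor c)‖

/-- Radius of the tubes. -/
def eps : ℝ := 1 / 16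

/-- Radial coordinate of the tubes. -/
def rad (r : ℝ) : ℝ := r / (eps - r)

/-- Unit vector of angle `θ`. -/
def dir (θ : ℝ) : ℂ := Complex.exp (θ * I)

/-- The action of `Dg s` on lifted angles. -/
def ang (s θ : ℝ) : ℝ := θ + arg (dir (-θ) * Dg s (dir θ))

/-- The stretch factor of `Dg s` in direction `θ`. -/
def nrm (s θ : ℝ) : ℝ := ‖Dg s (dir θ)‖

/-- The two base corners. -/
def bc (i : Fin 2) : ℤ × ℤ := ((i : ℕ), 0)

/-- The cusp to which a corner belongs. -/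
def idx (c : ℤ × ℤ) : Fin 2 := if Even c.1 then 0 else 1

/-- Filling datum at a cusp: `B θ t` is the coordinate along the new core, on the universal cover
of the boundary torus (`θ` labels the flow lines, `t` is the height). -/
structure End where
  B : ℝ → ℝ → ℝ
  P : ℤ
  Q : ℤ
  u : ℤ
  v : ℤ
  hP : 0 < P
  det : u * P - v * Q = 1
  cont : Continuous fun a : ℝ × ℝ => B a.1 a.2
  mono : ∀ θ, StrictMono (B θ)
  mu : ∀ θ t, B (θ + π) t = B θ t + 2 * (Q : ℝ) / P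
  del : ∀ θ t, B (ang (-(2 * LL)) θ) (t + 2) = B θ t + 2

/-- The translation length of the meridian of the puncture. -/
def End.sig (E : End) : ℝ := 2 * (E.Q : ℝ) / E.P

/-- Angular coordinate on which the deck group acts by translations. -/
def End.kap (E : End) (θ t : ℝ) : ℝ := ang (LL * (E.B θ t - E.sig * (⌊θ / π⌋ : ℤ))) θ

/-- Meridional coordinate of the new solid torus (period 1). -/
def End.aa (E : End) (θ t : ℝ) : ℝ := E.kap θ t / (π * E.P) + E.v * E.B θ t / 2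

/-- Longitudinal coordinate of the new solid torus (period 1). -/
def End.bb (E : End) (θ t : ℝ) : ℝ := E.P * E.B θ t / 2

/-- The coordinate along the core near an arbitrary corner. -/
def Bc (E : Fin 2 → End) (c : ℤ × ℤ) (θ t : ℝ) : ℝ :=
  (E (idx c)).B (ang (-(LL * c.2)) θ) (t + c.2)

/-- A closed manifold obtained by filling the two cusps with the data `E`. -/
structure Model (E : Fin 2 → End) (M : Type) [TopologicalSpace M] where
  ι : ℂ × ℝ → M
  τ : Fin 2 → ℂ × Circle → M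
  cl3 : Closed3 M
  cont : ContinuousOn ι XX
  opn : ∀ U, IsOpen U → U ⊆ XX → IsOpen (ι '' U)
  eq_iff : ∀ p ∈ XX, ∀ q ∈ XX, ι p = ι q ↔ Rel p q
  img : ι '' XX = (core τ)ᶜ
  tube : Tubes τ
  tau_eq : ∀ (i : Fin 2) (r θ t : ℝ), 0 < r → r * nrm (LL * t) θ < eps →
    ι (cor (bc i) + r * dir θ, t) =
      τ i ((rad (r * nrm (LL * t) θ) : ℂ) * dir (2 * π * (E i).aa θ t),
        Circle.exp (2 * π * (E i).bb θ t))

/-- A time change of the vertical flow that equals the core coordinate near the corners. -/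
structure Coc (E : Fin 2 → End) where
  c : ℂ → ℝ → ℝ → ℝ
  cont : ContinuousOn (fun a : (ℂ × ℝ) × ℝ => c a.1.1 a.1.2 a.2) (XX ×ˢ univ)
  add : ∀ x t t' t'', (x, t) ∈ XX → c x t t' + c x t' t'' = c x t t''
  mono : ∀ x t, (x, t) ∈ XX → StrictMono (c x t)
  surj : ∀ x t, (x, t) ∈ XX → Function.Surjective (c x t)
  inv : ∀ n e d x t t', Adm n d → (x, t) ∈ XX →
    c (act n e d (x, t)).1 (t - n) (t' - n) = c x t t'
  near : ∀ (d : ℤ × ℤ) (r θ t t' : ℝ), 0 < r →
    (∀ s ∈ uIcc t t', rho d (cor d + r * dir θ, s) ≤ eps) →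
    c (cor d + r * dir θ) t t' = Bc E d θ t' - Bc E d θ t
  small : ∀ η > 0, ∃ δ > 0, ∀ x t t', (x, t) ∈ XX → |t - t'| < δ → |c x t t'| < η

/-- The surgered flow on a model. -/
structure FlowM {E : Fin 2 → End} {M : Type} [TopologicalSpace M] (m : Model E M) where
  φ : Flow ℝ M
  C : Coc E
  hι : ∀ x t t', (x, t) ∈ XX → φ (C.c x t t') (m.ι (x, t)) = m.ι (x, t')
  hτ : ∀ i (s : ℝ) (u : Circle),
    φ s (m.τ i (0, u)) = m.τ i (0, Circle.exp (π * (E i).P * s) * u)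

/-- Stretch of the unstable coordinate in the prong chart. -/
def End.al (E : End) (θ : ℝ) : ℝ := Real.exp (-(LL * E.sig * (⌊θ / π + 1 / 2⌋ : ℤ)))

/-- Stretch of the stable coordinate in the prong chart. -/
def End.be (E : End) (θ : ℝ) : ℝ := Real.exp (LL * E.sig * (⌊θ / π⌋ : ℤ))

/-- Flat coordinate of the prong chart. -/
def End.flat (E : End) (r θ : ℝ) : ℂ := ⟨E.al θ * (r * Real.cos θ), E.be θ * (r * Real.sin θ)⟩

/-- Lifted angle of the flat coordinate. -/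
def End.fang (E : End) (θ : ℝ) : ℝ :=
  ang (-(LL * E.sig * ((⌊θ / π + 1 / 2⌋ + ⌊θ / π⌋ : ℤ) : ℝ) / 2)) θ

/-- The transverse coordinate of the prong chart: `zf ^ P = flat ^ 2`. -/
def End.zf (E : End) (r θ : ℝ) : ℂ :=
  ((‖E.flat r θ‖ ^ (2 / (E.P : ℝ)) : ℝ) : ℂ) * dir (2 * E.fang θ / E.P)

/-- Prong coordinates around the `i`-th core. -/
structure Prong {E : Fin 2 → End} {M : Type} [TopologicalSpace M] (m : Model E M) (i : Fin 2) where
  F : ℂ × ℝ → M
  V : Set (ℂ × ℝ)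
  opnV : IsOpen V
  axis : ∀ b, ((0 : ℂ), b) ∈ V
  cont : ContinuousOn F V
  opn : ∀ U, IsOpen U → U ⊆ V → IsOpen (F '' U)
  img : F '' V = range (m.τ i)
  lev : ∀ z b, (z, b) ∈ V → ∃ w, F (z, b) = m.τ i (w, Circle.exp (π * (E i).P * b)) ∧
    (w = 0 ↔ z = 0)
  inj : ∀ z z' b, (z, b) ∈ V → (z', b) ∈ V → F (z, b) = F (z', b) → z = z'
  spec : ∀ r θ t, 0 < r → r * nrm (LL * t) θ < eps →
    ((E i).zf r θ, (E i).B θ t) ∈ V ∧
      F ((E i).zf r θ, (E i).B θ t) = m.ι (cor (bc i) + r * dir θ, t)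
  onto : ∀ z b, (z, b) ∈ V → z ≠ 0 → ∃ r θ t, 0 < r ∧ r * nrm (LL * t) θ < eps ∧
    z = (E i).zf r θ ∧ b = (E i).B θ t

/-- Local first integrals of a foliation transverse to the vertical lines, invariant under the
group and compatible with the filling data. -/
structure Leaf (E : Fin 2 → End) where
  K : ℂ × ℝ → ℂ × ℝ → ℝ
  cont : ∀ p ∈ XX, ∀ᶠ q in 𝓝 p, ContinuousAt (K p) q
  mono : ∀ p x, StrictMono fun t => K p (x, t)
  compat : ∀ p ∈ XX, ∀ᶠ q in 𝓝 p, ∃ g : ℝ → ℝ, Function.Injective g ∧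
    ∀ᶠ w in 𝓝 q, K p w = g (K q w)
  inv : ∀ n e c, Adm n c → ∀ p ∈ XX, ∀ᶠ w in 𝓝 p,
    K (act n e c p) (act n e c w) = K p w - n
  cusp : ∀ (i : Fin 2) (r θ t : ℝ), 0 < r → r * nrm (LL * t) θ < eps →
    ∃ g : ℝ → ℝ, Function.Injective g ∧ ∀ᶠ a : ℝ × ℝ × ℝ in 𝓝 (r, θ, t),
      (E i).B a.2.1 a.2.2 =
        g (K (cor (bc i) + r * dir θ, t) (cor (bc i) + a.1 * dir a.2.1, a.2.2))

end Pool.Agent.Zig
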