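import Pool.Agent.Lib.MP_d77862_gt.FlowL

noncomputable section

namespace Pool.Agent.Zig

open Set Filter Topology Complex Real

/-! Local form of the prong charts. -/

theorem chart_polar (x0 : ℂ) {r : ℝ} (hr : 0 < r) (θ : ℝ) :
    map (fun a : ℝ × ℝ => x0 + a.1 * dir a.2) (𝓝 (r, θ)) = 𝓝 (x0 + r * dir θ) := by
  have hc : Continuous fun a : ℝ × ℝ => x0 + a.1 * dir a.2 :=
    continuous_const.add ((Complex.continuous_ofReal.comp continuous_fst).mul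
      (continuous_dir.comp continuous_snd))
  refine le_antisymm (hc.tendsto (r, θ)) (Filter.le_map fun s hs => ?_)
  have h1 : {a : ℝ × ℝ | 0 < a.1} ∈ 𝓝 (r, θ) :=
    (isOpen_lt continuous_const continuous_fst).mem_nhds hr
  obtain ⟨U, hUs, hU, hmem⟩ := mem_nhds_iff.1 (inter_mem hs h1)
  have h2 := isOpen_polar_image hU fun a ha => (hUs ha).2
  have h3 := (Homeomorph.addLeft x0).isOpenMap _ h2
  refine mem_of_superset (h3.mem_nhds ⟨_, ⟨(r, θ), hmem, rfl⟩, rfl⟩) ?_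
  rintro _ ⟨_, ⟨a, ha, rfl⟩, rfl⟩
  exact ⟨a, (hUs ha).1, rfl⟩

theorem map_nhds_polar (x0 : ℂ) {r : ℝ} (hr : 0 < r) (θ t : ℝ) :
    map (fun a : ℝ × ℝ × ℝ => (x0 + a.1 * dir a.2.1, a.2.2)) (𝓝 (r, θ, t)) =
      𝓝 (x0 + r * dir θ, t) := by
  have h1 : map (Homeomorph.prodAssoc ℝ ℝ ℝ).symm (𝓝 (r, θ, t)) = 𝓝 ((r, θ), t) :=
    (Homeomorph.prodAssoc ℝ ℝ ℝ).symm.map_nhds_eq (r, θ, t)
  have h2 : (fun a : ℝ × ℝ × ℝ => (x0 + a.1 * dir a.2.1, a.2.2)) =
      (fun p : (ℝ × ℝ) × ℝ => (x0 + p.1.1 * dir p.1.2, p.2)) ∘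
        (Homeomorph.prodAssoc ℝ ℝ ℝ).symm := rfl
  rw [h2, ← map_map, h1, nhds_prod_eq, nhds_prod_eq (x := x0 + r * dir θ), ← chart_polar x0 hr θ]
  have h3 := Filter.prod_map_map_eq (f₁ := 𝓝 (r, θ)) (f₂ := 𝓝 t)
    (m₁ := fun a : ℝ × ℝ => x0 + a.1 * dir a.2) (m₂ := fun s : ℝ => s)
  rw [map_id'] at h3
  exact h3.symm

variable {E : Fin 2 → End} {M : Type} [TopologicalSpace M] {m : Model E M} {i : Fin 2}

namespace Prong

variable (R : Prong m i) {e : OpenPartialHomeomorph M (ℂ × ℝ)}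

theorem F_axis (b : ℝ) : R.F (0, b) = m.τ i (0, Circle.exp (π * (E i).P * b)) := by
  obtain ⟨w, h1, h2⟩ := R.lev 0 b (R.axis b)
  rw [h1, h2.2 rfl]
theorem exists_F_axis (u : Circle) : ∃ b, m.τ i (0, u) = R.F (0, b) := by
  refine ⟨arg u / (π * (E i).P), ?_⟩
  have hP : ((E i).P : ℝ) ≠ 0 := by exact_mod_cast (E i).hP.ne'
  have h : π * (E i).P * (arg u / (π * (E i).P)) = arg u := by
    have := Real.pi_ne_zero
    field_simp
  rw [R.F_axis, h, Circle.exp_arg]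
/-- A point of a prong chart is on the core or has polar coordinates, and then the chart is given
by the formula near the point. -/
theorem chart_cases (hV : e.target ⊆ R.V) (hs : e.source = R.F '' e.target)
    (he : ∀ a ∈ e.target, e (R.F a) = a) {y : M} (hy : y ∈ e.source) :
    (∃ b, y = R.F (0, b) ∧ e y = (0, b)) ∨
      ∃ r θ t : ℝ, 0 < r ∧ r * nrm (LL * t) θ < eps ∧ y = m.ι (cor (bc i) + r * dir θ, t) ∧
        ∀ᶠ a : ℝ × ℝ × ℝ in 𝓝 (r, θ, t),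
          e (m.ι (cor (bc i) + a.1 * dir a.2.1, a.2.2)) =
            ((E i).zf a.1 a.2.1, (E i).B a.2.1 a.2.2) := by
  rw [hs] at hy
  obtain ⟨⟨z, b⟩, ha, rfl⟩ := hy
  by_cases hz : z = 0
  · subst hz
    exact Or.inl ⟨b, rfl, he _ ha⟩
  · obtain ⟨r, θ, t, hr, hlt, rfl, rfl⟩ := R.onto z b (hV ha) hz
    refine Or.inr ⟨r, θ, t, hr, hlt, (R.spec r θ t hr hlt).2, ?_⟩
    have c1 : Continuous fun a : ℝ × ℝ × ℝ => a.1 * nrm (LL * a.2.2) a.2.1 :=
      continuous_fst.mul (continuous_nrm.comp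
        ((continuous_const.mul continuous_snd.snd).prodMk continuous_snd.fst))
    have c2 : Continuous fun a : ℝ × ℝ × ℝ => ((E i).zf a.1 a.2.1, (E i).B a.2.1 a.2.2) :=
      ((E i).continuous_zf.comp (continuous_fst.prodMk continuous_snd.fst)).prodMk
        ((E i).cont.comp continuous_snd)
    have h1 : ∀ᶠ a : ℝ × ℝ × ℝ in 𝓝 (r, θ, t), 0 < a.1 :=
      (isOpen_lt continuous_const continuous_fst).mem_nhds hr
    have h2 : ∀ᶠ a : ℝ × ℝ × ℝ in 𝓝 (r, θ, t), a.1 * nrm (LL * a.2.2) a.2.1 < eps :=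
      (isOpen_lt c1 continuous_const).mem_nhds hlt
    have h3 : ∀ᶠ a : ℝ × ℝ × ℝ in 𝓝 (r, θ, t),
        ((E i).zf a.1 a.2.1, (E i).B a.2.1 a.2.2) ∈ e.target :=
      (e.open_target.preimage c2).mem_nhds ha
    filter_upwards [h1, h2, h3] with a a1 a2 a3
    rw [← (R.spec a.1 a.2.1 a.2.2 a1 a2).2, he _ a3]
/-- In a prong chart the height determines the core coordinate. -/
theorem chart_snd (hV : e.target ⊆ R.V) (hs : e.source = R.F '' e.target)
    (he : ∀ a ∈ e.target, e (R.F a) = a) {w : ℂ × Circle} (hw : m.τ i w ∈ e.source) :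
    w.2 = Circle.exp (π * (E i).P * (e (m.τ i w)).2) := by
  rw [hs] at hw
  obtain ⟨⟨z, b⟩, ha, hF⟩ := hw
  obtain ⟨w', h1, -⟩ := R.lev z b (hV ha)
  have h2 := (m.tau_inj (hF.symm.trans h1)).2
  rw [← hF, he _ ha, h2]
theorem chart_subset (hV : e.target ⊆ R.V) (hs : e.source = R.F '' e.target) :
    e.source ⊆ range (m.τ i) := by
  rw [hs, ← R.img]
  exact image_mono hV

end Prong

end Pool.Agent.Zig
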