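import Pool.Agent.Lib.MP_d77862_gt.EndL

noncomputable section

namespace Pool.Agent.Zig

open Set Filter Topology Complex Real

/-! The projection of the heights onto the time interval spent in the box around a corner. -/

/-- The box condition. -/
def Box (c : ℤ × ℤ) (x : ℂ) (t : ℝ) : Prop :=
  |(DD t (x - cor c)).re| ≤ eps ∧ |(DD t (x - cor c)).im| ≤ eps

/-- `max t₋ (min t t₊)` where `[t₋, t₊]` is the interval of the box condition. -/
def cl (c : ℤ × ℤ) (x : ℂ) (t : ℝ) : ℝ :=
  Real.log (max (|(x - cor c).im| / eps)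
    (Real.exp (LL * t) / max 1 (Real.exp (LL * t) * |(x - cor c).re| / eps))) / LL

theorem coc0_eps_pos : 0 < eps := by unfold eps; norm_num

theorem coc0_pos (A k : ℝ) {T : ℝ} (hT : 0 < T) : 0 < max A (T / max 1 (T * k)) :=
  lt_max_of_lt_right (div_pos hT (lt_max_of_lt_left one_pos))

theorem coc0_mono (A k : ℝ) {T T' : ℝ} (hT : 0 < T) (h : T ≤ T') :
    max A (T / max 1 (T * k)) ≤ max A (T' / max 1 (T' * k)) := by
  apply max_le_max le_rfl
  have h1 : (0:ℝ) < max 1 (T * k) := lt_max_of_lt_left one_pos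
  have h2 : (0:ℝ) < max 1 (T' * k) := lt_max_of_lt_left one_pos
  have hT' : 0 < T' := lt_of_lt_of_le hT h
  rw [div_le_div_iff₀ h1 h2]
  have a1 : (1:ℝ) ≤ max 1 (T * k) := le_max_left _ _
  have a2 : T * k ≤ max 1 (T * k) := le_max_right _ _
  rcases max_choice 1 (T' * k) with e | e <;> rw [e]
  · nlinarith
  · nlinarith

theorem coc0_sub {A k : ℝ} (hA : 0 ≤ A) (hk : 0 ≤ k) {T T' : ℝ} (hT : 0 < T) (h : T ≤ T') :
    max A (T' / max 1 (T' * k)) * T ≤ T' * max A (T / max 1 (T * k)) := by
  have h1 : (0:ℝ) < max 1 (T * k) := lt_max_of_lt_left one_pos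
  have hT' : 0 < T' := lt_of_lt_of_le hT h
  have hm : max 1 (T * k) ≤ max 1 (T' * k) :=
    max_le_max le_rfl (mul_le_mul_of_nonneg_right h hk)
  have a1 : A ≤ max A (T / max 1 (T * k)) := le_max_left _ _
  have a2 : T / max 1 (T * k) ≤ max A (T / max 1 (T * k)) := le_max_right _ _
  rcases max_choice A (T' / max 1 (T' * k)) with e | e <;> rw [e]
  · nlinarith
  · have b1 : T' / max 1 (T' * k) ≤ T' / max 1 (T * k) :=
      div_le_div_of_nonneg_left hT'.le h1 hm
    calc T' / max 1 (T' * k) * T ≤ T' / max 1 (T * k) * T :=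
          mul_le_mul_of_nonneg_right b1 hT.le
      _ = T' * (T / max 1 (T * k)) := by ring
      _ ≤ _ := mul_le_mul_of_nonneg_left a2 hT'.le

theorem coc0_const {A k : ℝ} (hk : 0 ≤ k) {T T' : ℝ} (hT : 0 < T) (h : T ≤ T')
    (hn : ∀ S, T ≤ S → S ≤ T' → ¬ (S * k ≤ 1 ∧ A ≤ S)) :
    max A (T / max 1 (T * k)) = max A (T' / max 1 (T' * k)) := by
  have hT' : 0 < T' := lt_of_lt_of_le hT h
  have small : ∀ S : ℝ, 0 < S → S ≤ A → max A (S / max 1 (S * k)) = A := by
    intro S hS hSA
    apply max_eq_left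
    exact le_trans (div_le_self hS.le (le_max_left _ _)) hSA
  have big : ∀ S : ℝ, 0 < S → 1 < S * k → max A (S / max 1 (S * k)) = max A (1 / k) := by
    intro S hS h1
    have hk0 : k ≠ 0 := by
      rintro rfl
      simp at h1
      linarith
    rw [max_eq_right h1.le]
    congr 1
    field_simp
  by_cases h1 : 1 < T * k
  · rw [big T hT h1, big T' hT' (lt_of_lt_of_le h1 (mul_le_mul_of_nonneg_right h hk))]
  · have hTA : T < A := by
      by_contra hc
      exact hn T le_rfl h ⟨not_lt.1 h1, not_lt.1 hc⟩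
    rw [small T hT hTA.le]
    by_cases h2 : T' ≤ A
    · rw [small T' hT' h2]
    · have h3 : A < T' := not_le.1 h2
      have h4 : 1 < A * k := by
        by_contra hc
        exact hn A hTA.le h3.le ⟨not_lt.1 hc, le_rfl⟩
      have h5 : 1 < T' * k := lt_of_lt_of_le h4 (mul_le_mul_of_nonneg_right h3.le hk)
      rw [big T' hT' h5]
      have hkpos : 0 < k := by
        rcases hk.lt_or_eq with hk' | hk'
        · exact hk'
        · rw [← hk'] at h4; simp at h4; linarith
      symm
      apply max_eq_left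
      rw [div_le_iff₀ hkpos]
      exact h4.le

theorem coc0_cl (c : ℤ × ℤ) (x : ℂ) (t : ℝ) :
    cl c x t = Real.log (max (|(x - cor c).im| / eps)
      (Real.exp (LL * t) / max 1 (Real.exp (LL * t) * (|(x - cor c).re| / eps)))) / LL := by
  unfold cl
  rw [mul_div_assoc]

theorem coc0_box (c : ℤ × ℤ) (x : ℂ) (t : ℝ) :
    Box c x t ↔ Real.exp (LL * t) * (|(x - cor c).re| / eps) ≤ 1 ∧
      |(x - cor c).im| / eps ≤ Real.exp (LL * t) := by
  have he := coc0_eps_pos
  have hT := Real.exp_pos (LL * t)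
  unfold Box DD Dg
  simp only [abs_mul, abs_of_pos (Real.exp_pos _)]
  rw [← mul_div_assoc, div_le_one he, div_le_iff₀ he, Real.exp_neg, inv_mul_le_iff₀ hT]

theorem continuous_cl (c : ℤ × ℤ) : Continuous fun a : ℂ × ℝ => cl c a.1 a.2 := by
  simp only [coc0_cl]
  have hc : Continuous fun a : ℂ × ℝ => Real.exp (LL * a.2) := by fun_prop
  have hre : Continuous fun a : ℂ × ℝ => |(a.1 - cor c).re| / eps := by fun_prop
  have him : Continuous fun a : ℂ × ℝ => |(a.1 - cor c).im| / eps := by fun_prop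
  refine Continuous.div_const (Continuous.log (him.max (hc.div (continuous_const.max (hc.mul hre))
    ?_)) ?_) _
  · intro a
    exact (lt_max_of_lt_left one_pos).ne'
  · intro a
    exact (coc0_pos _ _ (Real.exp_pos _)).ne'

theorem monotone_cl (c : ℤ × ℤ) (x : ℂ) : Monotone (cl c x) := by
  intro t t' h
  simp only [coc0_cl]
  apply div_le_div_of_nonneg_right _ LL_pos.le
  apply Real.log_le_log (coc0_pos _ _ (Real.exp_pos _))
  exact coc0_mono _ _ (Real.exp_pos _)
    (Real.exp_le_exp.2 (mul_le_mul_of_nonneg_left h LL_pos.le))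

theorem monotone_sub_cl (c : ℤ × ℤ) (x : ℂ) : Monotone fun t => t - cl c x t := by
  intro t t' h
  simp only [coc0_cl]
  have hL := LL_pos
  have he := coc0_eps_pos
  have key := coc0_sub (A := |(x - cor c).im| / eps) (k := |(x - cor c).re| / eps)
    (by positivity) (by positivity) (Real.exp_pos (LL * t))
    (Real.exp_le_exp.2 (mul_le_mul_of_nonneg_left h LL_pos.le))
  have p1 := coc0_pos (|(x - cor c).im| / eps) (|(x - cor c).re| / eps) (Real.exp_pos (LL * t))
  have p2 := coc0_pos (|(x - cor c).im| / eps) (|(x - cor c).re| / eps) (Real.exp_pos (LL * t'))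
  have k2 := Real.log_le_log (mul_pos p2 (Real.exp_pos _)) key
  rw [Real.log_mul p2.ne' (Real.exp_pos _).ne', Real.log_mul (Real.exp_pos _).ne' p1.ne',
    Real.log_exp, Real.log_exp] at k2
  have e1 : ∀ s u : ℝ, s - u / LL = (LL * s - u) / LL := by
    intro s u
    field_simp
  rw [e1, e1]
  apply div_le_div_of_nonneg_right _ hL.le
  linarith

theorem cl_of_box {c : ℤ × ℤ} {x : ℂ} {t : ℝ} (h : Box c x t) : cl c x t = t := by
  rw [coc0_box] at h
  rw [coc0_cl, max_eq_left h.1, div_one, max_eq_right h.2, Real.log_exp]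
  have := LL_pos
  field_simp

theorem cl_eq_of_not_box {c : ℤ × ℤ} {x : ℂ} {t t' : ℝ} (h : ∀ s ∈ uIcc t t', ¬ Box c x s) :
    cl c x t = cl c x t' := by
  have he := coc0_eps_pos
  have hL := LL_pos
  have main : ∀ t t' : ℝ, t ≤ t' → (∀ s ∈ Icc t t', ¬ Box c x s) → cl c x t = cl c x t' := by
    intro t t' hle h
    rw [coc0_cl, coc0_cl]
    rw [coc0_const (A := |(x - cor c).im| / eps) (k := |(x - cor c).re| / eps) (by positivity)
      (Real.exp_pos (LL * t)) (Real.exp_le_exp.2 (mul_le_mul_of_nonneg_left hle hL.le))]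
    intro S h1 h2
    have hS : 0 < S := lt_of_lt_of_le (Real.exp_pos _) h1
    have e : Real.exp (LL * (Real.log S / LL)) = S := by
      rw [mul_div_cancel₀ _ hL.ne', Real.exp_log hS]
    have hm : Real.log S / LL ∈ Icc t t' := by
      constructor
      · rw [le_div_iff₀ hL, mul_comm]
        exact (Real.le_log_iff_exp_le hS).2 h1
      · rw [div_le_iff₀ hL, mul_comm]
        exact (Real.log_le_iff_le_exp hS).2 h2
    have := h _ hm
    rwa [coc0_box, e] at this
  rcases le_total t t' with hle | hle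
  · rw [uIcc_of_le hle] at h
    exact main t t' hle h
  · rw [uIcc_of_ge hle] at h
    exact (main t' t hle h).symm

theorem box_of_rho {c : ℤ × ℤ} {x : ℂ} {t : ℝ} (h : rho c (x, t) ≤ eps) : Box c x t := by
  exact ⟨le_trans (Complex.abs_re_le_norm _) h, le_trans (Complex.abs_im_le_norm _) h⟩

/-- Visits to different boxes are more than three time units apart. -/
theorem box_unique {c d : ℤ × ℤ} {x : ℂ} {t t' : ℝ} (h : Box c x t) (h' : Box d x t')
    (ht : |t - t'| ≤ 3) : c = d := by
  by_contra hne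
  have h0 : c - d ≠ 0 := sub_ne_zero.2 hne
  have h1 := one_le_re_mul_im h0
  rw [cor_sub] at h1
  have he := coc0_eps_pos
  have hL := LL_pos
  rw [coc0_box] at h h'
  obtain ⟨a1, a2⟩ := h
  obtain ⟨b1, b2⟩ := h'
  have hT := Real.exp_pos (LL * t)
  have hT' := Real.exp_pos (LL * t')
  have e6 : Real.exp (LL * 3) < 216 := by
    have : Real.exp (LL * 3) = Real.exp LL ^ 3 := by
      rw [← Real.exp_nat_mul]; congr 1; push_cast; ring
    rw [this]
    have := pow_lt_pow_left₀ exp_LL_lt (Real.exp_pos _).le (n := 3) (by norm_num)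
    linarith
  have r1 : Real.exp (LL * t) ≤ 216 * Real.exp (LL * t') := by
    have : Real.exp (LL * t) ≤ Real.exp (LL * 3) * Real.exp (LL * t') := by
      rw [← Real.exp_add]
      apply Real.exp_le_exp.2
      have := (abs_le.1 ht).2
      nlinarith
    nlinarith
  have r2 : Real.exp (LL * t') ≤ 216 * Real.exp (LL * t) := by
    have : Real.exp (LL * t') ≤ Real.exp (LL * 3) * Real.exp (LL * t) := by
      rw [← Real.exp_add]
      apply Real.exp_le_exp.2
      have := (abs_le.1 ht).1
      nlinarith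
    nlinarith
  generalize Real.exp (LL * t) = T at *
  generalize Real.exp (LL * t') = T' at *
  have ew : cor c - cor d = (x - cor d) - (x - cor c) := by ring
  rw [ew, Complex.sub_re (x - cor d), Complex.sub_im (x - cor d)] at h1
  have c1 := abs_sub (x - cor d).re (x - cor c).re
  have c2 := abs_sub (x - cor d).im (x - cor c).im
  have ee : eps = 1 / 16 := rfl
  rw [ee] at a1 a2 b1 b2
  have a1' : |(x - cor c).re| ≤ 1 / (16 * T) := by
    rw [le_div_iff₀ (by positivity)]; linarith
  have b1' : |(x - cor d).re| ≤ 1 / (16 * T') := by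
    rw [le_div_iff₀ (by positivity)]; linarith
  have a2' : |(x - cor c).im| ≤ T / 16 := by linarith
  have b2' : |(x - cor d).im| ≤ T' / 16 := by linarith
  have m1 : |(x - cor d).re - (x - cor c).re| * |(x - cor d).im - (x - cor c).im| ≤
      (1 / (16 * T') + 1 / (16 * T)) * (T' / 16 + T / 16) :=
    mul_le_mul (by linarith) (by linarith) (abs_nonneg _) (by positivity)
  have m2 : (1 / (16 * T') + 1 / (16 * T)) * (T' / 16 + T / 16) =
      (2 + T / T' + T' / T) / 256 := by
    field_simp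
    ring
  have m3 : T / T' + T' / T ≤ 217 := by
    rcases le_total T T' with hle | hle
    · have u1 : T / T' ≤ 1 := (div_le_one hT').2 hle
      have u2 : T' / T ≤ 216 := (div_le_iff₀ hT).2 r2
      linarith
    · have u1 : T' / T ≤ 1 := (div_le_one hT).2 hle
      have u2 : T / T' ≤ 216 := (div_le_iff₀ hT').2 r1
      linarith
  rw [m2] at m1
  linarith

theorem finite_box (R : ℝ) :
    {c : ℤ × ℤ | ∃ x t, ‖x‖ ≤ R ∧ |t| ≤ R ∧ Box c x t}.Finite := by
  apply (finite_cor (R + Real.exp (LL * R) * (2 * eps))).subset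
  rintro c ⟨x, t, hx, ht, hb⟩
  have h1 := norm_DD_le t 0 (x - cor c)
  rw [DD_zero, zero_sub, abs_neg] at h1
  have h2 : ‖DD t (x - cor c)‖ ≤ 2 * eps := by
    have := Complex.norm_le_abs_re_add_abs_im (DD t (x - cor c))
    have := hb.1
    have := hb.2
    linarith
  have h3 : Real.exp (LL * |t|) ≤ Real.exp (LL * R) :=
    Real.exp_le_exp.2 (mul_le_mul_of_nonneg_left ht LL_pos.le)
  have h4 : ‖x - cor c‖ ≤ Real.exp (LL * R) * (2 * eps) :=
    le_trans h1 (mul_le_mul h3 h2 (norm_nonneg _) (Real.exp_pos _).le)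
  have h5 : ‖cor c‖ ≤ ‖x‖ + ‖x - cor c‖ := by
    have := norm_sub_le x (x - cor c)
    rwa [sub_sub_cancel] at this
  show ‖cor c‖ ≤ _
  linarith

theorem cl_act {n : ℤ} {e : ℤˣ} {d c c' : ℤ × ℤ}
    (h : cor c' = ((e : ℤ) : ℂ) * DD n (cor c) + cor d) (x : ℂ) (t0 t : ℝ) :
    cl c' (act n e d (x, t0)).1 (t - n) = cl c x t - n := by
  have hL := LL_pos
  have he := coc0_eps_pos
  have e1 : (act n e d (x, t0)).1 - cor c' = ((e : ℤ) : ℂ) * DD n (x - cor c) := by
    rw [h]
    unfold act DD
    simp only [Dg_sub]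
    ring
  have hre : |((act n e d (x, t0)).1 - cor c').re| = Real.exp (LL * n) * |(x - cor c).re| := by
    rw [e1]
    rcases Int.units_eq_one_or e with rfl | rfl <;>
      simp [DD, Dg, abs_mul, abs_of_pos (Real.exp_pos _)]
  have him : |((act n e d (x, t0)).1 - cor c').im| =
      Real.exp (-(LL * n)) * |(x - cor c).im| := by
    rw [e1]
    rcases Int.units_eq_one_or e with rfl | rfl <;>
      simp [DD, Dg, abs_mul, abs_of_pos (Real.exp_pos _)]
  have eT : Real.exp (LL * (t - n)) = Real.exp (-(LL * n)) * Real.exp (LL * t) := by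
    rw [← Real.exp_add]; congr 1; ring
  have eq : Real.exp (-(LL * n)) * Real.exp (LL * n) = 1 := by
    rw [← Real.exp_add]; simp
  have hq := Real.exp_pos (-(LL * n))
  rw [coc0_cl, coc0_cl, hre, him, eT]
  have e2 : Real.exp (-(LL * n)) * Real.exp (LL * t) *
      (Real.exp (LL * n) * |(x - cor c).re| / eps) =
      Real.exp (LL * t) * (|(x - cor c).re| / eps) := by
    calc _ = (Real.exp (-(LL * n)) * Real.exp (LL * n)) *
          (Real.exp (LL * t) * (|(x - cor c).re| / eps)) := by ring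
      _ = _ := by rw [eq, one_mul]
  rw [e2, mul_div_assoc, mul_div_assoc, ← mul_max_of_nonneg _ _ hq.le,
    Real.log_mul hq.ne' (coc0_pos _ _ (Real.exp_pos _)).ne', Real.log_exp]
  field_simp
  ring


end Pool.Agent.Zig
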