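import Pool.Agent.Lib.MP_d77862_gt.Coc0

noncomputable section

namespace Pool.Agent.Zig

open Set Filter Topology Complex Real

/-! The correction of the time at one corner. -/

variable (E : Fin 2 → End)

/-- The correction of the time at the corner `c`. -/
def ec (c : ℤ × ℤ) (x : ℂ) (t t' : ℝ) : ℝ :=
  (Bc E c (arg (x - cor c)) (cl c x t') - cl c x t') -
    (Bc E c (arg (x - cor c)) (cl c x t) - cl c x t)

theorem coc1_arg {r : ℝ} (hr : 0 < r) (θ : ℝ) :
    ∃ k : ℤ, arg ((r : ℂ) * dir θ) = θ + k * π := by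
  have hn : ‖(r : ℂ) * dir θ‖ = r := by
    rw [norm_mul, norm_dir, mul_one, Complex.norm_real, Real.norm_eq_abs, abs_of_pos hr]
  have h := norm_mul_dir_arg ((r : ℂ) * dir θ)
  rw [hn] at h
  obtain ⟨-, k, hk⟩ := polar_unique hr hr h.symm
  refine ⟨2 * k, ?_⟩
  rw [hk]; push_cast; ring

theorem coc1_abs_cl (c : ℤ × ℤ) (x : ℂ) (t t' : ℝ) : |cl c x t - cl c x t'| ≤ |t - t'| := by
  rcases le_total t t' with h | h
  · have h1 := monotone_cl c x h
    have h2 : t - cl c x t ≤ t' - cl c x t' := monotone_sub_cl c x h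
    rw [abs_of_nonpos (by linarith), abs_of_nonpos (by linarith)]
    linarith
  · have h1 := monotone_cl c x h
    have h2 : t' - cl c x t' ≤ t - cl c x t := monotone_sub_cl c x h
    rw [abs_of_nonneg (by linarith), abs_of_nonneg (by linarith)]
    linarith

theorem ec_polar (c : ℤ × ℤ) {r : ℝ} (hr : 0 < r) (θ t t' : ℝ) :
    ec E c (cor c + r * dir θ) t t' =
      (Bc E c θ (cl c (cor c + r * dir θ) t') - cl c (cor c + r * dir θ) t') -
        (Bc E c θ (cl c (cor c + r * dir θ) t) - cl c (cor c + r * dir θ) t) := by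
  obtain ⟨k, hk⟩ := coc1_arg hr θ
  unfold ec
  rw [add_sub_cancel_left, hk, Bc_mu, Bc_mu]
  ring

theorem continuousOn_ec (c : ℤ × ℤ) :
    ContinuousOn (fun a : (ℂ × ℝ) × ℝ => ec E c a.1.1 a.1.2 a.2) (XX ×ˢ univ) := by
  have hB := continuous_Bc E c
  have hF : Continuous fun a : ℝ × (ℝ × ℝ) => Bc E c a.1 a.2.2 - Bc E c a.1 a.2.1 :=
    (hB.comp (continuous_fst.prodMk (continuous_snd.comp continuous_snd))).sub
      (hB.comp (continuous_fst.prodMk (continuous_fst.comp continuous_snd)))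
  have hp : ∀ (θ : ℝ) (z : ℝ × ℝ),
      (fun a : ℝ × (ℝ × ℝ) => Bc E c a.1 a.2.2 - Bc E c a.1 a.2.1) (θ + 2 * π, z) =
        (fun a : ℝ × (ℝ × ℝ) => Bc E c a.1 a.2.2 - Bc E c a.1 a.2.1) (θ, z) := by
    intro θ z
    have h2 : θ + 2 * π = θ + ((2 : ℤ) : ℝ) * π := by push_cast; ring
    simp only []
    rw [h2, Bc_mu, Bc_mu]
    ring
  have h1 := continuousOn_comp_arg hF hp
  have hc1 : Continuous fun a : (ℂ × ℝ) × ℝ => cl c a.1.1 a.1.2 :=
    (continuous_cl c).comp continuous_fst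
  have hc2 : Continuous fun a : (ℂ × ℝ) × ℝ => cl c a.1.1 a.2 :=
    (continuous_cl c).comp ((continuous_fst.comp continuous_fst).prodMk continuous_snd)
  have hg : Continuous fun a : (ℂ × ℝ) × ℝ =>
      ((a.1.1 - cor c, (cl c a.1.1 a.1.2, cl c a.1.1 a.2)) : ℂ × (ℝ × ℝ)) :=
    ((continuous_fst.comp continuous_fst).sub continuous_const).prodMk (hc1.prodMk hc2)
  have h3 := h1.comp (s := XX ×ˢ univ) hg.continuousOn (by
    intro a ha
    exact sub_ne_zero.mpr (ha.1 c))
  refine (h3.sub (hc2.sub hc1).continuousOn).congr ?_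
  intro a _
  simp only [ec, Function.comp, Pi.sub_apply]
  ring

theorem coc1_unit_dir (e : ℤˣ) (θ : ℝ) : ∃ m : ℤ, ((e : ℤ) : ℂ) * dir θ = dir (θ + m * π) := by
  rcases Int.units_eq_one_or e with h | h
  · exact ⟨0, by simp [h]⟩
  · refine ⟨1, ?_⟩
    have := dir_add_pi θ
    simp [h, this]

theorem ec_act {n : ℤ} (e : ℤˣ) {d : ℤ × ℤ} (h : Adm n d) :
    ∃ f : ℤ × ℤ ≃ ℤ × ℤ, ∀ c x t t', (x, t) ∈ XX →
      ec E (f c) (act n e d (x, t)).1 (t - n) (t' - n) = ec E c x t t' := by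
  choose f hf hi hev _ using act_cor e h
  have he : ((e : ℤ) : ℂ) ≠ 0 := by exact_mod_cast e.ne_zero
  have hinj : Function.Injective f := by
    intro c c' hcc
    have h1 := hf c
    rw [hcc, hf c'] at h1
    have h2 : DD n (cor c') = DD n (cor c) := mul_left_cancel₀ he (add_right_cancel h1)
    have h3 : Dg (LL * n) (cor c' - cor c) = 0 := by
      rw [Dg_sub]; exact sub_eq_zero.mpr h2
    exact cor_injective (sub_eq_zero.mp (Dg_eq_zero.mp h3)).symm
  have hsurj : Function.Surjective f := by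
    intro c1
    obtain ⟨c', hc', -, h2⟩ := act_inv e h
    obtain ⟨c0, hc0, -⟩ := act_cor e hc' c1
    refine ⟨c0, cor_injective ?_⟩
    have h3 := congrArg Prod.fst (h2 (cor c1, 0))
    rw [hf c0, hc0]
    exact h3
  refine ⟨Equiv.ofBijective f ⟨hinj, hsurj⟩, ?_⟩
  intro c x t t' hx
  change ec E (f c) _ _ _ = _
  have hne : x - cor c ≠ 0 := sub_ne_zero.mpr (hx c)
  have hr : 0 < ‖x - cor c‖ := norm_pos_iff.mpr hne
  have hpol := norm_mul_dir_arg (x - cor c)
  generalize ‖x - cor c‖ = r at hr hpol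
  generalize arg (x - cor c) = θ at hpol
  obtain rfl : x = cor c + r * dir θ := by rw [hpol]; ring
  obtain ⟨m, hm⟩ := coc1_unit_dir e (ang (LL * n) θ)
  obtain ⟨k, hk⟩ := hev c
  have hk' : (f c).2 - c.2 - n = 2 * k := by rw [hk]; ring
  have hr' : 0 < r * nrm (LL * n) θ := mul_pos hr (nrm_pos _ _)
  have hx' : (act n e d (cor c + r * dir θ, t)).1 =
      cor (f c) + ((r * nrm (LL * n) θ : ℝ) : ℂ) * dir (ang (LL * n) θ + m * π) := by
    rw [← hm, hf c]
    simp only [act, DD]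
    rw [Dg_add, Dg_real_mul, Dg_dir]
    push_cast
    ring
  have h1 := cl_act (hf c) (cor c + r * dir θ) t t
  have h2 := cl_act (hf c) (cor c + r * dir θ) t t'
  rw [hx'] at h1 h2
  rw [hx', ec_polar E (f c) hr', ec_polar E c hr, h1, h2, Bc_mu, Bc_mu,
    Bc_act E (hi c) hk', Bc_act E (hi c) hk']
  ring

theorem strictMono_ec (c : ℤ × ℤ) (x : ℂ) (t : ℝ) :
    StrictMono fun t' => t' + ec E c x t t' := by
  intro a b hab
  have h1 := monotone_cl c x hab.le
  have h2 : a - cl c x a ≤ b - cl c x b := monotone_sub_cl c x hab.le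
  simp only [ec]
  rcases h1.lt_or_eq with h | h
  · have h3 := strictMono_Bc E c (arg (x - cor c)) h
    linarith
  · rw [h]
    linarith

theorem ec_gain : ∃ η > 0, ∀ c x t, η ≤ 2 + ec E c x t (t + 2) := by
  obtain ⟨η, hη, h⟩ := Bc_gain E
  refine ⟨min 1 η, lt_min one_pos hη, fun c x t => ?_⟩
  have ht : t ≤ t + 2 := by linarith
  have h1 := monotone_cl c x ht
  have h2 : t - cl c x t ≤ t + 2 - cl c x (t + 2) := monotone_sub_cl c x ht
  have hm := (strictMono_Bc E c (arg (x - cor c))).monotone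
  simp only [ec]
  rcases le_total (cl c x (t + 2)) (cl c x t + 1) with h3 | h3
  · have h4 := hm h1
    have h5 := min_le_left 1 η
    linarith
  · have h4 := hm h3
    have h5 := min_le_right 1 η
    have h6 := h c (arg (x - cor c)) (cl c x t)
    linarith

theorem ec_small : ∀ η > 0, ∃ δ > 0, ∀ c x t t', |t - t'| < δ → |ec E c x t t'| < η := by
  intro η hη
  obtain ⟨δ, hδ, h⟩ := Bc_unif_t E (η / 2) (by positivity)
  refine ⟨min δ (η / 2), lt_min hδ (by positivity), fun c x t t' htt => ?_⟩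
  have h1 := coc1_abs_cl c x t t'
  have h2 := lt_of_le_of_lt h1 (lt_of_lt_of_le htt (min_le_left _ _))
  have h3 := lt_of_le_of_lt h1 (lt_of_lt_of_le htt (min_le_right _ _))
  have h4 := h c (arg (x - cor c)) _ _ h2
  rw [abs_lt] at h3 h4 ⊢
  simp only [ec]
  constructor <;> linarith [h3.1, h3.2, h4.1, h4.2]

end Pool.Agent.Zig
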