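import Pool.Agent.Lib.MP_d77862_gt.Coc1

noncomputable section

namespace Pool.Agent.Zig

open Set Filter Topology Complex Real

/-! The time change: `c x t t' = t' - t + ∑ᶠ d, ec E d x t t'`. On a time window of length at most
three only one corner contributes (`box_unique`, `cl_eq_of_not_box`). -/

/-- The time change. -/
def coc2_c (E : Fin 2 → End) (x : ℂ) (t t' : ℝ) : ℝ := t' - t + ∑ᶠ d, ec E d x t t'

theorem coc2_zero (E : Fin 2 → End) {d : ℤ × ℤ} {x : ℂ} {t t' : ℝ}
    (h : ∀ s ∈ uIcc t t', ¬ Box d x s) : ec E d x t t' = 0 := by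
  unfold ec
  rw [cl_eq_of_not_box h, sub_self]

theorem coc2_supp (E : Fin 2 → End) {R : ℝ} {x : ℂ} {t t' : ℝ} (hx : ‖x‖ ≤ R) (ht : |t| ≤ R)
    (ht' : |t'| ≤ R) : Function.support (fun d => ec E d x t t') ⊆
      {c : ℤ × ℤ | ∃ x t, ‖x‖ ≤ R ∧ |t| ≤ R ∧ Box c x t} := by
  intro d hd
  by_contra hn
  apply hd
  apply coc2_zero
  intro s hs hb
  apply hn
  refine ⟨x, s, hx, ?_, hb⟩
  rw [abs_le] at ht ht' ⊢
  rcases mem_uIcc.1 hs with h | h <;> constructor <;> linarith [h.1, h.2, ht.1, ht.2, ht'.1, ht'.2]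

theorem coc2_fin (E : Fin 2 → End) (x : ℂ) (t t' : ℝ) :
    (Function.support (fun d => ec E d x t t')).Finite :=
  (finite_box (max ‖x‖ (max |t| |t'|))).subset (coc2_supp E (le_max_left _ _)
    ((le_max_left _ _).trans (le_max_right _ _)) ((le_max_right _ _).trans (le_max_right _ _)))

theorem coc2_add (E : Fin 2 → End) (x : ℂ) (t t' t'' : ℝ) :
    coc2_c E x t t' + coc2_c E x t' t'' = coc2_c E x t t'' := by
  unfold coc2_c
  have h := finsum_add_distrib (coc2_fin E x t t') (coc2_fin E x t' t'')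
  have h2 : (∑ᶠ d, (ec E d x t t' + ec E d x t' t'')) = ∑ᶠ d, ec E d x t t'' := by
    apply finsum_congr
    intro d
    unfold ec
    ring
  rw [h2] at h
  rw [h]
  ring

theorem coc2_one (E : Fin 2 → End) (x : ℂ) {t t' : ℝ} (h : |t - t'| ≤ 3) :
    ∃ d, coc2_c E x t t' = t' - t + ec E d x t t' := by
  unfold coc2_c
  by_cases hex : ∃ d, ∃ s ∈ uIcc t t', Box d x s
  · obtain ⟨d, s, hs, hb⟩ := hex
    refine ⟨d, ?_⟩
    rw [finsum_eq_single _ d]
    intro d' hd'
    apply coc2_zero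
    intro s' hs' hb'
    apply hd'
    refine box_unique hb' hb ?_
    refine le_trans ?_ h
    rw [abs_sub_comm t t']
    exact abs_sub_le_of_uIcc_subset_uIcc (uIcc_subset_uIcc hs hs')
  · refine ⟨0, ?_⟩
    have h0 : ∀ d, ec E d x t t' = 0 := fun d =>
      coc2_zero E (fun s hs hb => hex ⟨d, s, hs, hb⟩)
    simp [h0]

theorem coc2_pos_near (E : Fin 2 → End) (x : ℂ) {a b : ℝ} (hab : a < b) (h : b - a ≤ 3) :
    0 < coc2_c E x a b := by
  obtain ⟨d, hd⟩ := coc2_one E x (t := a) (t' := b)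
    (by rw [abs_sub_comm, abs_of_pos (sub_pos.2 hab)]; exact h)
  have h1 := strictMono_ec E d x a hab
  have h2 : ec E d x a a = 0 := by unfold ec; rw [sub_self]
  simp only [h2] at h1
  rw [hd]
  linarith

theorem coc2_pos (E : Fin 2 → End) (x : ℂ) (n : ℕ) :
    ∀ a b : ℝ, a < b → b - a ≤ 3 * (n + 1) → 0 < coc2_c E x a b := by
  induction n with
  | zero => intro a b hab h; exact coc2_pos_near E x hab (by simpa using h)
  | succ n ih =>
    intro a b hab h
    by_cases h3 : b - a ≤ 3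
    · exact coc2_pos_near E x hab h3
    · have h4 := coc2_pos_near E x (a := a) (b := a + 3) (by linarith) (by linarith)
      have h5 := ih (a + 3) b (by linarith) (by push_cast at h; linarith)
      rw [← coc2_add E x a (a + 3) b]
      linarith

theorem coc2_mono (E : Fin 2 → End) (x : ℂ) (t : ℝ) : StrictMono (coc2_c E x t) := by
  intro a b hab
  obtain ⟨n, hn⟩ := exists_nat_ge (b - a)
  have h := coc2_pos E x n a b hab (by have : (0 : ℝ) ≤ n := Nat.cast_nonneg n; linarith)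
  rw [← coc2_add E x t a b]
  linarith

theorem coc2_cont (E : Fin 2 → End) :
    ContinuousOn (fun a : (ℂ × ℝ) × ℝ => coc2_c E a.1.1 a.1.2 a.2) (XX ×ˢ univ) := by
  intro a0 ha0
  set R : ℝ := max ‖a0.1.1‖ (max |a0.1.2| |a0.2|) + 1 with hR
  have hfin := finite_box R
  have hsum : ContinuousOn (fun a : (ℂ × ℝ) × ℝ =>
      a.2 - a.1.2 + ∑ d ∈ hfin.toFinset, ec E d a.1.1 a.1.2 a.2) (XX ×ˢ univ) := by
    apply ContinuousOn.add
    · exact (continuous_snd.sub (continuous_snd.comp continuous_fst)).continuousOn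
    · exact continuousOn_finset_sum _ (fun d _ => continuousOn_ec E d)
  have hev : ∀ᶠ a : (ℂ × ℝ) × ℝ in 𝓝 a0, ‖a.1.1‖ < R ∧ |a.1.2| < R ∧ |a.2| < R := by
    have e1 : ‖a0.1.1‖ < R := by
      have := le_max_left ‖a0.1.1‖ (max |a0.1.2| |a0.2|); linarith
    have e2 : |a0.1.2| < R := by
      have := (le_max_left |a0.1.2| |a0.2|).trans (le_max_right ‖a0.1.1‖ _); linarith
    have e3 : |a0.2| < R := by
      have := (le_max_right |a0.1.2| |a0.2|).trans (le_max_right ‖a0.1.1‖ _); linarith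
    have c1 : Continuous fun a : (ℂ × ℝ) × ℝ => ‖a.1.1‖ := by fun_prop
    have c2 : Continuous fun a : (ℂ × ℝ) × ℝ => |a.1.2| := by fun_prop
    have c3 : Continuous fun a : (ℂ × ℝ) × ℝ => |a.2| := by fun_prop
    exact (c1.continuousAt.eventually_lt continuousAt_const e1).and
      ((c2.continuousAt.eventually_lt continuousAt_const e2).and
        (c3.continuousAt.eventually_lt continuousAt_const e3))
  have heq : ∀ᶠ a : (ℂ × ℝ) × ℝ in 𝓝 a0, coc2_c E a.1.1 a.1.2 a.2 =
      a.2 - a.1.2 + ∑ d ∈ hfin.toFinset, ec E d a.1.1 a.1.2 a.2 := by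
    filter_upwards [hev] with a ha
    unfold coc2_c
    rw [finsum_eq_sum_of_support_subset _ (s := hfin.toFinset)]
    rw [hfin.coe_toFinset]
    exact coc2_supp E ha.1.le ha.2.1.le ha.2.2.le
  exact (hsum a0 ha0).congr_of_eventuallyEq (heq.filter_mono nhdsWithin_le_nhds) heq.self_of_nhds

theorem coc2_gain (E : Fin 2 → End) : ∃ η > 0, ∀ x t, η ≤ coc2_c E x t (t + 2) := by
  obtain ⟨η, hη, h⟩ := ec_gain E
  refine ⟨η, hη, fun x t => ?_⟩
  obtain ⟨d, hd⟩ := coc2_one E x (t := t) (t' := t + 2)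
    (by rw [abs_le]; constructor <;> linarith)
  have := h d x t
  rw [hd]
  linarith

theorem coc2_self (E : Fin 2 → End) (x : ℂ) (t : ℝ) : coc2_c E x t t = 0 := by
  have := coc2_add E x t t t
  linarith

theorem coc2_surj (E : Fin 2 → End) {x : ℂ} {t : ℝ} (h : (x, t) ∈ XX) :
    Function.Surjective (coc2_c E x t) := by
  obtain ⟨η, hη, hg⟩ := coc2_gain E
  have hc : Continuous (coc2_c E x t) := by
    have c1 : Continuous fun s : ℝ => (((x, t), s) : (ℂ × ℝ) × ℝ) := by fun_prop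
    exact (coc2_cont E).comp_continuous c1 (fun s => ⟨h, mem_univ _⟩)
  have hup : ∀ n : ℕ, n * η ≤ coc2_c E x t (t + 2 * n) := by
    intro n
    induction n with
    | zero => simp [coc2_self]
    | succ n ih =>
      have h1 := hg x (t + 2 * n)
      have h2 := coc2_add E x t (t + 2 * n) (t + 2 * n + 2)
      have h3 : t + 2 * ((n + 1 : ℕ) : ℝ) = t + 2 * n + 2 := by push_cast; ring
      rw [h3]
      push_cast
      linarith
  have hdn : ∀ n : ℕ, coc2_c E x t (t - 2 * n) ≤ -(n * η) := by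
    intro n
    induction n with
    | zero => simp [coc2_self]
    | succ n ih =>
      have h1 := hg x (t - 2 * n - 2)
      have h2 := coc2_add E x t (t - 2 * n - 2) (t - 2 * n - 2 + 2)
      have h3 : t - 2 * ((n + 1 : ℕ) : ℝ) = t - 2 * n - 2 := by push_cast; ring
      have h4 : t - 2 * n - 2 + 2 = t - 2 * (n : ℝ) := by ring
      rw [h3]
      rw [h4] at h1 h2
      push_cast
      linarith
  apply hc.surjective
  · refine tendsto_atTop_atTop_of_monotone (coc2_mono E x t).monotone (fun b => ?_)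
    obtain ⟨n, hn⟩ := exists_nat_ge (b / η)
    rw [div_le_iff₀ hη] at hn
    exact ⟨_, hn.trans (hup n)⟩
  · refine tendsto_atBot_atBot_of_monotone (coc2_mono E x t).monotone (fun b => ?_)
    obtain ⟨n, hn⟩ := exists_nat_ge (-b / η)
    rw [div_le_iff₀ hη] at hn
    exact ⟨_, (hdn n).trans (by linarith)⟩

theorem coc2_inv (E : Fin 2 → End) (n : ℤ) (e : ℤˣ) (d : ℤ × ℤ) (x : ℂ) (t t' : ℝ) (h : Adm n d)
    (hx : (x, t) ∈ XX) :
    coc2_c E (act n e d (x, t)).1 (t - n) (t' - n) = coc2_c E x t t' := by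
  obtain ⟨f, hf⟩ := ec_act E e h
  unfold coc2_c
  rw [← finsum_comp_equiv f (f := fun c => ec E c (act n e d (x, t)).1 (t - n) (t' - n))]
  rw [finsum_congr (fun c => hf c x t t' hx)]
  ring

theorem coc2_near (E : Fin 2 → End) (d : ℤ × ℤ) (r θ t t' : ℝ) (hr : 0 < r)
    (h : ∀ s ∈ uIcc t t', rho d (cor d + r * dir θ, s) ≤ eps) :
    coc2_c E (cor d + r * dir θ) t t' = Bc E d θ t' - Bc E d θ t := by
  unfold coc2_c
  rw [finsum_eq_single _ d]
  · rw [ec_polar E d hr, cl_of_box (box_of_rho (h t left_mem_uIcc)),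
      cl_of_box (box_of_rho (h t' right_mem_uIcc))]
    ring
  · intro d' hd'
    apply coc2_zero
    intro s hs hb
    exact hd' (box_unique hb (box_of_rho (h s hs)) (by simp))

theorem coc2_small (E : Fin 2 → End) (η : ℝ) (hη : 0 < η) :
    ∃ δ > 0, ∀ x t t', |t - t'| < δ → |coc2_c E x t t'| < η := by
  obtain ⟨δ, hδ, h⟩ := ec_small E (η / 2) (by linarith)
  refine ⟨min δ (min (η / 2) 3), lt_min hδ (lt_min (by linarith) (by norm_num)), ?_⟩
  intro x t t' ht
  rw [lt_min_iff, lt_min_iff] at ht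
  obtain ⟨d, hd⟩ := coc2_one E x ht.2.2.le
  have h1 := h d x t t' ht.1
  have h2 := abs_add_le (t' - t) (ec E d x t t')
  rw [abs_sub_comm t' t] at h2
  rw [hd]
  linarith [ht.2.1]

theorem exists_coc (E : Fin 2 → End) : Nonempty (Coc E) :=
  ⟨{ c := coc2_c E
     cont := coc2_cont E
     add := fun x t t' t'' _ => coc2_add E x t t' t''
     mono := fun x t _ => coc2_mono E x t
     surj := fun _ _ h => coc2_surj E h
     inv := coc2_inv E
     near := coc2_near E
     small := fun η hη => by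
       obtain ⟨δ, hδ, h⟩ := coc2_small E η hη
       exact ⟨δ, hδ, fun x t t' _ ht => h x t t' ht⟩ }⟩

end Pool.Agent.Zig
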