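import Pool.Agent.Lib.MP_d77862_gt.Defs

noncomputable section

namespace Pool.Agent.Zig

open Set Filter Topology Complex Real

/-! Corners of a closed set that contains two crossing segments. -/

theorem isClosed_hull (T : Set (Fin 2 → ℝ)) : IsClosed (hull T) := by
  exact isClosed_sInter fun _ hS => hS.1
theorem mem_hull_of_lt {T : Set (Fin 2 → ℝ)} {x z y : Fin 2 → ℝ} (hx : x ∈ T) (hz : z ∈ T)
    (h : ∀ i, x i < y i ∧ y i < z i) : y ∈ hull T := by
  intro S hS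
  exact hS.2.2 x (hS.2.1 hx) z (hS.2.1 hz) y h
theorem mem_hull_of_le {T : Set (Fin 2 → ℝ)} {x z y : Fin 2 → ℝ} (hx : x ∈ T) (hz : z ∈ T)
    (hxz : ∀ i, x i < z i) (h : ∀ i, x i ≤ y i ∧ y i ≤ z i) : y ∈ hull T := by
  have hc : Continuous fun t : ℝ => fun i => y i + t * ((x i + z i) / 2 - y i) := by fun_prop
  have ht : Tendsto (fun t : ℝ => fun i => y i + t * ((x i + z i) / 2 - y i)) (𝓝[>] 0) (𝓝 y) := by
    have h1 := (hc.tendsto 0).mono_left (nhdsWithin_le_nhds (s := Ioi 0))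
    simpa using h1
  refine (isClosed_hull T).mem_of_tendsto ht ?_
  filter_upwards [Ioo_mem_nhdsGT (show (0 : ℝ) < 1 by norm_num)] with t ht
  refine mem_hull_of_lt hx hz fun i => ?_
  have h1 := hxz i
  have h2 := h i
  constructor <;> nlinarith [ht.1, ht.2, h2.1, h2.2, mul_pos ht.1 (sub_pos.2 h1),
    mul_nonneg (sub_pos.2 ht.2).le (sub_nonneg.2 h2.1),
    mul_nonneg (sub_pos.2 ht.2).le (sub_nonneg.2 h2.2)]
theorem hull_empty : hull (∅ : Set (Fin 2 → ℝ)) = ∅ := by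
  refine eq_empty_of_subset_empty (sInter_subset_of_mem ?_)
  exact ⟨isClosed_empty, Subset.rfl, fun x hx => hx.elim⟩

/-- No corner lies near the centre of a cross. -/
theorem not_accPt_corners {Z : Set (Fin 2 → ℝ)} {r : Fin 2 → ℝ} {η : ℝ} (hη : 0 < η)
    (h : ∀ i, Function.update r i (r i + η) ∈ Z ∧ Function.update r i (r i - η) ∈ Z) :
    ¬ AccPt r (𝓟 (corners Z)) := by
  have h1 : ∃ ρ > 0, ∀ p ∈ Z, (∀ i, r i < p i) → ∃ u ∈ Z, ∀ i, r i + ρ ≤ u i := by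
    by_cases hex : ∃ u ∈ Z, ∀ i, r i < u i
    · obtain ⟨u, hu, hlt⟩ := hex
      refine ⟨min (u 0 - r 0) (u 1 - r 1), lt_min (sub_pos.2 (hlt 0)) (sub_pos.2 (hlt 1)),
        fun _ _ _ => ⟨u, hu, ?_⟩⟩
      rw [Fin.forall_fin_two]
      constructor
      · linarith [min_le_left (u 0 - r 0) (u 1 - r 1)]
      · linarith [min_le_right (u 0 - r 0) (u 1 - r 1)]
    · exact ⟨1, one_pos, fun p hp hlt => absurd ⟨p, hp, hlt⟩ hex⟩
  have h2 : ∃ ρ > 0, ∀ p ∈ Z, (∀ i, p i < r i) → ∃ u ∈ Z, ∀ i, u i ≤ r i - ρ := by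
    by_cases hex : ∃ u ∈ Z, ∀ i, u i < r i
    · obtain ⟨u, hu, hlt⟩ := hex
      refine ⟨min (r 0 - u 0) (r 1 - u 1), lt_min (sub_pos.2 (hlt 0)) (sub_pos.2 (hlt 1)),
        fun _ _ _ => ⟨u, hu, ?_⟩⟩
      rw [Fin.forall_fin_two]
      constructor
      · linarith [min_le_left (r 0 - u 0) (r 1 - u 1)]
      · linarith [min_le_right (r 0 - u 0) (r 1 - u 1)]
    · exact ⟨1, one_pos, fun p hp hlt => absurd ⟨p, hp, hlt⟩ hex⟩
  obtain ⟨ρ₁, hρ₁, h1⟩ := h1
  obtain ⟨ρ₂, hρ₂, h2⟩ := h2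
  obtain ⟨ρ, hρ, hρη, hρ1, hρ2⟩ : ∃ ρ > 0, ρ ≤ η ∧ ρ ≤ ρ₁ ∧ ρ ≤ ρ₂ :=
    ⟨min η (min ρ₁ ρ₂), lt_min hη (lt_min hρ₁ hρ₂), min_le_left _ _,
      (min_le_right _ _).trans (min_le_left _ _), (min_le_right _ _).trans (min_le_right _ _)⟩
  have hN : ∀ y : Fin 2 → ℝ, y ∈ Metric.ball r ρ ↔
      (r 0 - ρ < y 0 ∧ y 0 < r 0 + ρ) ∧ (r 1 - ρ < y 1 ∧ y 1 < r 1 + ρ) := by
    intro y
    rw [Metric.mem_ball, dist_pi_lt_iff hρ, Fin.forall_fin_two, Real.dist_eq, Real.dist_eq,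
      abs_lt, abs_lt]
    constructor
    · rintro ⟨⟨a, b⟩, c, d⟩
      exact ⟨⟨by linarith, by linarith⟩, by linarith, by linarith⟩
    · rintro ⟨⟨a, b⟩, c, d⟩
      exact ⟨⟨by linarith, by linarith⟩, by linarith, by linarith⟩
  intro hacc
  obtain ⟨p, ⟨hpN, hpZ, hp⟩, -⟩ := accPt_iff_nhds.1 hacc _ (Metric.ball_mem_nhds r hρ)
  apply hp _ Metric.isOpen_ball hpN
  have hA : Function.update r 0 (r 0 - η) ∈ Z \ Metric.ball r ρ :=
    ⟨(h 0).2, fun h0 => by
      have := ((hN _).1 h0).1.1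
      simp only [Function.update_self] at this
      linarith⟩
  have hB : Function.update r 1 (r 1 + η) ∈ Z \ Metric.ball r ρ :=
    ⟨(h 1).1, fun h0 => by
      have := ((hN _).1 h0).2.2
      simp only [Function.update_self] at this
      linarith⟩
  have hA' : Function.update r 1 (r 1 - η) ∈ Z \ Metric.ball r ρ :=
    ⟨(h 1).2, fun h0 => by
      have := ((hN _).1 h0).2.1
      simp only [Function.update_self] at this
      linarith⟩
  have hB' : Function.update r 0 (r 0 + η) ∈ Z \ Metric.ball r ρ :=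
    ⟨(h 0).1, fun h0 => by
      have := ((hN _).1 h0).1.2
      simp only [Function.update_self] at this
      linarith⟩
  obtain ⟨⟨a1, a2⟩, a3, a4⟩ := (hN p).1 hpN
  have u01 : ∀ c : ℝ, Function.update r 0 c 1 = r 1 := fun c => Function.update_of_ne (by decide) _ _
  have u10 : ∀ c : ℝ, Function.update r 1 c 0 = r 0 := fun c => Function.update_of_ne (by decide) _ _
  by_cases c1 : p 0 ≤ r 0 ∧ r 1 ≤ p 1
  · refine mem_hull_of_le hA hB ?_ ?_ <;> rw [Fin.forall_fin_two] <;>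
      simp only [Function.update_self, u01, u10]
    · exact ⟨by linarith, by linarith⟩
    · exact ⟨⟨by linarith, c1.1⟩, c1.2, by linarith⟩
  by_cases c2 : r 0 ≤ p 0 ∧ p 1 ≤ r 1
  · refine mem_hull_of_le hA' hB' ?_ ?_ <;> rw [Fin.forall_fin_two] <;>
      simp only [Function.update_self, u01, u10]
    · exact ⟨by linarith, by linarith⟩
    · exact ⟨⟨c2.1, by linarith⟩, by linarith, c2.2⟩
  rw [not_and_or, not_le, not_le] at c1 c2
  rcases lt_trichotomy (p 0) (r 0) with c | c | c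
  · have d : p 1 < r 1 := c1.resolve_left (by linarith)
    obtain ⟨u, hu, hle⟩ := h2 p hpZ (by rw [Fin.forall_fin_two]; exact ⟨c, d⟩)
    have hu' : u ∈ Z \ Metric.ball r ρ :=
      ⟨hu, fun h0 => by linarith [((hN _).1 h0).1.1, hle 0]⟩
    refine mem_hull_of_lt hu' hB' ?_
    rw [Fin.forall_fin_two]
    simp only [Function.update_self, u01]
    exact ⟨⟨by linarith [hle 0], by linarith⟩, by linarith [hle 1], d⟩
  · exfalso
    have d1 : p 1 < r 1 := c1.resolve_left (by linarith)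
    have d2 : r 1 < p 1 := c2.resolve_left (by linarith)
    linarith
  · have d : r 1 < p 1 := c2.resolve_left (by linarith)
    obtain ⟨u, hu, hle⟩ := h1 p hpZ (by rw [Fin.forall_fin_two]; exact ⟨c, d⟩)
    have hu' : u ∈ Z \ Metric.ball r ρ :=
      ⟨hu, fun h0 => by linarith [((hN _).1 h0).1.2, hle 0]⟩
    refine mem_hull_of_lt hA hu' ?_
    rw [Fin.forall_fin_two]
    simp only [Function.update_self, u01]
    exact ⟨⟨by linarith, by linarith [hle 0]⟩, d, by linarith [hle 1]⟩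

theorem corner_closure {x : Fin 2 → ℝ} (hx : x 0 * x 1 ≤ 0) :
    x ∈ closure {y : Fin 2 → ℝ | y 0 * y 1 < 0 ∧ ∀ j, ∃ a : ℚ, y j = a} := by
  rw [Metric.mem_closure_iff]
  intro ε hε
  obtain ⟨a, ha, ha'⟩ := exists_rat_btwn (show x 0 < x 0 + ε by linarith)
  obtain ⟨b, hb, hb'⟩ := exists_rat_btwn (show x 0 - ε < x 0 by linarith)
  obtain ⟨c, hc, hc'⟩ := exists_rat_btwn (show x 1 < x 1 + ε by linarith)
  obtain ⟨d, hd, hd'⟩ := exists_rat_btwn (show x 1 - ε < x 1 by linarith)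
  rcases mul_nonpos_iff.1 hx with h | h
  · refine ⟨![a, d], ⟨?_, ?_⟩, ?_⟩
    · exact mul_neg_of_pos_of_neg (show (0 : ℝ) < a by linarith [h.1])
        (show (d : ℝ) < 0 by linarith [h.2])
    · rw [Fin.forall_fin_two]
      exact ⟨⟨a, rfl⟩, ⟨d, rfl⟩⟩
    · rw [dist_pi_lt_iff hε, Fin.forall_fin_two, Real.dist_eq, Real.dist_eq, abs_lt, abs_lt]
      simp only [Matrix.cons_val_zero, Matrix.cons_val_one]
      exact ⟨⟨by linarith, by linarith⟩, by linarith, by linarith⟩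
  · refine ⟨![b, c], ⟨?_, ?_⟩, ?_⟩
    · exact mul_neg_of_neg_of_pos (show (b : ℝ) < 0 by linarith [h.1])
        (show (0 : ℝ) < c by linarith [h.2])
    · rw [Fin.forall_fin_two]
      exact ⟨⟨b, rfl⟩, ⟨c, rfl⟩⟩
    · rw [dist_pi_lt_iff hε, Fin.forall_fin_two, Real.dist_eq, Real.dist_eq, abs_lt, abs_lt]
      simp only [Matrix.cons_val_zero, Matrix.cons_val_one]
      exact ⟨⟨by linarith, by linarith⟩, by linarith, by linarith⟩

theorem corner_mem (g : Fin 2 → Matrix (Fin 2) (Fin 2) ℤ)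
    {R : (Fin 2 → ℤ) → (Fin 2 → ℤ) → Prop}
    (hR : ∀ p q : Fin 2 → ℤ, (∀ i, IsCoprime (p i) (q i)) → (∀ i, 5 * |p i| < q i) →
      p 0 * p 1 < 0 → R p q) {Z : Set (Fin 2 → ℝ)} (hZ : IsClosed Z) (h : slopes g R ⊆ Z)
    {x : Fin 2 → ℝ} (hx : x 0 * x 1 ≤ 0)
    (hx' : ∀ j, |x j| < 1 / 5 ∧ (g j 1 0 : ℝ) * x j + g j 1 1 ≠ 0) :
    (fun j => ((g j 0 0 : ℝ) * x j + g j 0 1) / ((g j 1 0 : ℝ) * x j + g j 1 1)) ∈ Z := by
  have hlin : ∀ (a b : ℝ) (j : Fin 2), Continuous fun y : Fin 2 → ℝ => a * y j + b :=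
    fun a b j => by fun_prop
  have hV : IsOpen {y : Fin 2 → ℝ | ∀ j, |y j| < 1 / 5 ∧ (g j 1 0 : ℝ) * y j + g j 1 1 ≠ 0} := by
    simp only [ofPred_forall]
    refine isOpen_iInter_of_finite fun j => IsOpen.inter ?_ ?_
    · exact isOpen_lt (continuous_apply j).abs continuous_const
    · exact isOpen_ne_fun (hlin _ _ j) continuous_const
  have hcl := hV.inter_closure ⟨hx', corner_closure hx⟩
  have hc : ContinuousAt (fun y : Fin 2 → ℝ => fun j =>
      ((g j 0 0 : ℝ) * y j + g j 0 1) / ((g j 1 0 : ℝ) * y j + g j 1 1)) x :=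
    continuousAt_pi.2 fun j => ContinuousAt.div (hlin _ _ j).continuousAt (hlin _ _ j).continuousAt
      (hx' j).2
  refine hZ.closure_subset (hc.continuousWithinAt.mem_closure hcl ?_)
  rintro y ⟨hy, hy0, hy1⟩
  choose a ha using hy1
  have hq : ∀ j, (0 : ℝ) < (a j).den := fun j => by exact_mod_cast (a j).den_pos
  have hya : ∀ j, ((a j).num : ℝ) = y j * (a j).den := fun j => by
    rw [ha j, Rat.cast_def, div_mul_cancel₀ _ (hq j).ne']
  have hcop : ∀ j, IsCoprime (a j).num ((a j).den : ℤ) := fun j =>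
    Int.isCoprime_iff_gcd_eq_one.2 (a j).reduced
  refine h ⟨fun j => (a j).num, fun j => (a j).den, hR _ _ hcop (fun j => ?_) ?_,
    fun j => ⟨hcop j, ?_, ?_⟩⟩
  · have h1 : (5 : ℝ) * |((a j).num : ℝ)| < (a j).den := by
      rw [hya, abs_mul, abs_of_pos (hq j)]
      nlinarith [(hy j).1, hq j]
    exact_mod_cast h1
  · have h1 : ((a 0).num : ℝ) * (a 1).num < 0 := by
      rw [hya, hya]
      nlinarith [mul_pos (hq 0) (hq 1)]
    exact_mod_cast h1
  · have h1 : (g j 1 0 : ℝ) * (a j).num + g j 1 1 * (a j).den ≠ 0 := by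
      rw [hya, ← mul_assoc, ← add_mul]
      exact mul_ne_zero (hy j).2 (hq j).ne'
    exact_mod_cast h1
  · push_cast
    rw [hya, ← mul_assoc, ← add_mul, ← mul_assoc, ← add_mul, mul_div_mul_right _ _ (hq j).ne']

theorem corner_inv {α β γ δ : ℝ} (hd : α * δ - β * γ ≠ 0) (hδ : δ ≠ 0) :
    ∀ᶠ s in 𝓝 (0 : ℝ), ∃ x : ℝ, |x| < 1 / 5 ∧ γ * x + δ ≠ 0 ∧
      (α * x + β) / (γ * x + δ) = β / δ + s := by
  have h0 : α - γ * (β / δ + 0) ≠ 0 := by
    intro h
    apply hd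
    field_simp at h
    linarith
  have h1 : ContinuousAt (fun s : ℝ => α - γ * (β / δ + s)) 0 := by fun_prop
  have h2 : ContinuousAt (fun s : ℝ => |(δ * s) / (α - γ * (β / δ + s))|) 0 :=
    (ContinuousAt.div (by fun_prop) h1 h0).abs
  have h3 := h2.eventually_lt (g := fun _ => (1 / 5 : ℝ)) continuousAt_const (by simp)
  filter_upwards [h1.eventually_ne h0, h3] with s hs hs'
  have e1 : γ * (δ * s / (α - γ * (β / δ + s))) + δ =
      (α * δ - β * γ) / (α - γ * (β / δ + s)) := by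
    rw [eq_div_iff hs, add_mul, mul_assoc, div_mul_cancel₀ _ hs]
    field_simp
    ring
  have e2 : α * (δ * s / (α - γ * (β / δ + s))) + β =
      (β / δ + s) * ((α * δ - β * γ) / (α - γ * (β / δ + s))) := by
    rw [← mul_div_assoc (β / δ + s), eq_div_iff hs, add_mul, mul_assoc, div_mul_cancel₀ _ hs]
    field_simp
    ring
  refine ⟨_, hs', ?_, ?_⟩
  · rw [e1]
    exact div_ne_zero hd hs
  · rw [e1, e2, mul_div_cancel_right₀ _ (div_ne_zero hd hs)]

/-- The closure of the small rational slopes of opposite signs contains a cross. -/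
theorem exists_cross (g : Fin 2 → Matrix (Fin 2) (Fin 2) ℤ)
    (hg : ∀ i, (g i).det ≠ 0 ∧ g i 1 1 ≠ 0) {R : (Fin 2 → ℤ) → (Fin 2 → ℤ) → Prop}
    (hR : ∀ p q : Fin 2 → ℤ, (∀ i, IsCoprime (p i) (q i)) → (∀ i, 5 * |p i| < q i) →
      p 0 * p 1 < 0 → R p q) {Z : Set (Fin 2 → ℝ)} (hZ : IsClosed Z) (h : slopes g R ⊆ Z) :
    ∃ η > 0, ∀ (i : Fin 2) (s : ℝ), |s| ≤ η →
      Function.update (fun j => (g j 0 1 : ℝ) / (g j 1 1 : ℝ)) i
        ((g i 0 1 : ℝ) / (g i 1 1 : ℝ) + s) ∈ Z := by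
  have hδ : ∀ i, (g i 1 1 : ℝ) ≠ 0 := fun i => by exact_mod_cast (hg i).2
  have hev : ∀ᶠ s in 𝓝 (0 : ℝ), ∀ i, ∃ x : ℝ, |x| < 1 / 5 ∧ (g i 1 0 : ℝ) * x + g i 1 1 ≠ 0 ∧
      ((g i 0 0 : ℝ) * x + g i 0 1) / ((g i 1 0 : ℝ) * x + g i 1 1) =
        (g i 0 1 : ℝ) / (g i 1 1 : ℝ) + s := by
    refine eventually_all.2 fun i => corner_inv ?_ (hδ i)
    have h1 := (hg i).1
    rw [Matrix.det_fin_two] at h1
    exact_mod_cast h1
  obtain ⟨ε, hε, hev⟩ := Metric.eventually_nhds_iff.1 hev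
  refine ⟨ε / 2, by positivity, fun i s hs => ?_⟩
  obtain ⟨x, h1, h2, h3⟩ := hev (y := s) (by rw [Real.dist_eq, sub_zero]; linarith) i
  have h4 := corner_mem g hR hZ h (x := Function.update 0 i x)
    (by fin_cases i <;> simp) (fun j => by
      by_cases hj : j = i
      · subst hj
        rw [Function.update_self]
        exact ⟨h1, h2⟩
      · rw [Function.update_of_ne hj]
        simpa using (hg j).2)
  convert h4 using 1
  funext j
  by_cases hj : j = i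
  · subst hj
    rw [Function.update_self, Function.update_self, h3]
  · rw [Function.update_of_ne hj, Function.update_of_ne hj]
    simp

/-- A segment with a rational end point has an accumulation point that is not a slope. -/
theorem exists_accPt_not_slope (g : Fin 2 → Matrix (Fin 2) (Fin 2) ℤ)
    (R : (Fin 2 → ℤ) → (Fin 2 → ℤ) → Prop) {Z : Set (Fin 2 → ℝ)} {r : Fin 2 → ℝ} {η : ℝ}
    (hη : 0 < η) (h : ∀ s : ℝ, |s| ≤ η → Function.update r 0 (r 0 + s) ∈ Z) :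
    ∃ x, AccPt x (𝓟 Z) ∧ x ∉ slopes g R := by
  obtain ⟨c, hc, hc1, hc2⟩ := exists_irrational_btwn (show r 0 - η < r 0 + η by linarith)
  refine ⟨Function.update r 0 c, accPt_iff_nhds.2 fun U hU => ?_, ?_⟩
  · have hcont : Continuous fun s : ℝ => Function.update r 0 s :=
      continuous_const.update 0 continuous_id
    have h1 : ∀ᶠ s in 𝓝[≠] c, Function.update r 0 s ∈ U :=
      mem_nhdsWithin_of_mem_nhds (hcont.continuousAt.preimage_mem_nhds hU)
    have h2 : ∀ᶠ s in 𝓝[≠] c, s ∈ Ioo (r 0 - η) (r 0 + η) :=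
      mem_nhdsWithin_of_mem_nhds (Ioo_mem_nhds hc1 hc2)
    obtain ⟨s, ⟨hs1, hs2⟩, hs3⟩ := ((h1.and h2).and self_mem_nhdsWithin).exists
    refine ⟨_, ⟨hs1, ?_⟩, fun e => hs3 ?_⟩
    · have h3 := h (s - r 0) (abs_le.2 ⟨by linarith [hs2.1], by linarith [hs2.2]⟩)
      rwa [add_sub_cancel] at h3
    · simpa using congrFun e 0
  · rintro ⟨p, q, -, hpq⟩
    have h1 := (hpq 0).2.2
    rw [Function.update_self] at h1
    exact hc.ne_rational _ _ h1

end Pool.Agent.Zig
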