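import Pool.Agent.Lib.MP_d77862_gt.Corner

noncomputable section

namespace Pool.Agent.Zig

open Set Filter Topology

/-! Corners read with an arbitrary family of open sets. -/

/-- A point of `Z` near the centre of a cross lies in a closed box spanned by points of `Z`. -/
theorem exists_box {Z : Set (Fin 2 → ℝ)} {r p : Fin 2 → ℝ} {η : ℝ} (hη : 0 < η)
    (h : ∀ i, Function.update r i (r i + η) ∈ Z ∧ Function.update r i (r i - η) ∈ Z)
    (hp : p ∈ Z) (hpr : ∀ i, r i - η < p i ∧ p i < r i + η) :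
    ∃ x ∈ Z, ∃ z ∈ Z, ∀ i, x i < z i ∧ x i ≤ p i ∧ p i ≤ z i := by
  have u01 : ∀ c : ℝ, Function.update r 0 c 1 = r 1 := fun c => Function.update_of_ne (by decide) _ _
  have u10 : ∀ c : ℝ, Function.update r 1 c 0 = r 0 := fun c => Function.update_of_ne (by decide) _ _
  obtain ⟨a1, a2⟩ := hpr 0
  obtain ⟨a3, a4⟩ := hpr 1
  rcases lt_trichotomy (p 1) (r 1) with c | c | c
  · refine ⟨p, hp, _, (h 0).1, ?_⟩
    rw [Fin.forall_fin_two]
    simp only [Function.update_self, u01]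
    exact ⟨⟨a2, le_rfl, a2.le⟩, c, le_rfl, c.le⟩
  · rcases le_total (p 0) (r 0) with d | d
    · refine ⟨_, (h 0).2, _, (h 1).1, ?_⟩
      rw [Fin.forall_fin_two]
      simp only [Function.update_self, u01, u10]
      exact ⟨⟨by linarith, a1.le, d⟩, by linarith, c.ge, a4.le⟩
    · refine ⟨_, (h 1).2, _, (h 0).1, ?_⟩
      rw [Fin.forall_fin_two]
      simp only [Function.update_self, u01, u10]
      exact ⟨⟨by linarith, d, a2.le⟩, by linarith, a3.le, c.le⟩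
  · refine ⟨_, (h 0).2, p, hp, ?_⟩
    rw [Fin.forall_fin_two]
    simp only [Function.update_self, u01]
    exact ⟨⟨a1, a1.le, le_rfl⟩, c, c.le, le_rfl⟩

/-- A nonempty open set contains an accumulation point of itself that is not a slope. -/
theorem exists_accPt_of_isOpen (g : Fin 2 → Matrix (Fin 2) (Fin 2) ℤ)
    (R : (Fin 2 → ℤ) → (Fin 2 → ℤ) → Prop) {W : Set (Fin 2 → ℝ)} (hW : IsOpen W)
    {y : Fin 2 → ℝ} (hy : y ∈ W) : ∃ x, AccPt x (𝓟 W) ∧ x ∉ slopes g R := by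
  obtain ⟨ε, hε, hb⟩ := Metric.isOpen_iff.1 hW y hy
  refine exists_accPt_not_slope g R (r := y) (η := ε / 2) (by positivity) fun s hs => hb ?_
  rw [Metric.mem_ball, dist_pi_lt_iff hε, Fin.forall_fin_two, Function.update_self,
    Function.update_of_ne (by decide), dist_self, Real.dist_eq, add_sub_cancel_left]
  exact ⟨by linarith, hε⟩

theorem accPt_family_ne (g : Fin 2 → Matrix (Fin 2) (Fin 2) ℤ)
    (R : (Fin 2 → ℤ) → (Fin 2 → ℤ) → Prop) {Z : Set (Fin 2 → ℝ)} {r : Fin 2 → ℝ} {η : ℝ}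
    (hη : 0 < η) (hr : r ∈ slopes g R)
    (h : ∀ i, Function.update r i (r i + η) ∈ Z ∧ Function.update r i (r i - η) ∈ Z)
    (hZ : hull Z ⊆ Z) {F : Set (Set (Fin 2 → ℝ))} (hF : ∀ U ∈ F, IsOpen U) :
    {x | AccPt x (𝓟 {p | p ∈ Z ∧ ∃ U ∈ F, p ∈ U ∧ p ∉ hull (Z \ U)})} ≠ slopes g R := by
  intro he
  have hacc : AccPt r (𝓟 {p | p ∈ Z ∧ ∃ U ∈ F, p ∈ U ∧ p ∉ hull (Z \ U)}) := by
    rw [← he] at hr
    exact hr
  obtain ⟨p, ⟨hpN, hpZ, U, hU, hpU, hp⟩, -⟩ :=
    accPt_iff_nhds.1 hacc _ (Metric.ball_mem_nhds r hη)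
  rw [Metric.mem_ball, dist_pi_lt_iff hη] at hpN
  obtain ⟨x, hx, z, hz, hxz⟩ := exists_box hη h hpZ fun i => by
    have := abs_lt.1 ((Real.dist_eq _ _).symm ▸ hpN i)
    exact ⟨by linarith [this.1], by linarith [this.2]⟩
  have hV : IsOpen (U \ hull (Z \ U)) := (hF U hU).sdiff (isClosed_hull _)
  have hB : IsOpen {y : Fin 2 → ℝ | ∀ i, x i < y i ∧ y i < z i} := by
    simp only [ofPred_forall]
    exact isOpen_iInter_of_finite fun i =>
      (isOpen_lt continuous_const (continuous_apply i)).inter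
        (isOpen_lt (continuous_apply i) continuous_const)
  have hc : Continuous fun t : ℝ => fun i => p i + t * ((x i + z i) / 2 - p i) := by fun_prop
  have ht : Tendsto (fun t : ℝ => fun i => p i + t * ((x i + z i) / 2 - p i)) (𝓝[>] 0) (𝓝 p) := by
    have h1 := (hc.tendsto 0).mono_left (nhdsWithin_le_nhds (s := Ioi 0))
    simpa using h1
  obtain ⟨t, ht1, ht2⟩ := ((ht.eventually (hV.mem_nhds ⟨hpU, hp⟩)).and
    (Ioo_mem_nhdsGT (show (0 : ℝ) < 1 by norm_num))).exists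
  obtain ⟨y, hy, hy'⟩ := exists_accPt_of_isOpen g R (hV.inter hB)
    (y := fun i => p i + t * ((x i + z i) / 2 - p i)) ⟨ht1, fun i => by
      obtain ⟨h1, h2, h3⟩ := hxz i
      constructor <;> nlinarith [ht2.1, ht2.2, mul_pos ht2.1 (sub_pos.2 h1),
        mul_nonneg (sub_pos.2 ht2.2).le (sub_nonneg.2 h2),
        mul_nonneg (sub_pos.2 ht2.2).le (sub_nonneg.2 h3)]⟩
  apply hy'
  rw [← he]
  refine hy.mono (principal_mono.2 ?_)
  rintro w ⟨⟨hw1, hw2⟩, hw3⟩
  exact ⟨hZ (mem_hull_of_lt hx hz hw3), U, hU, hw1, hw2⟩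

end Pool.Agent.Zig
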