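import Mathlib

/-!
Definitions used in the statement: closed 3-manifolds, pseudo-Anosov flows, tubular
neighbourhoods of closed orbits, Dehn and Fried surgery, transverse foliations, corners.
-/

noncomputable section

namespace Pool.Agent.Zig

open Set Filter Topology

variable {M : Type} [TopologicalSpace M] {M' : Type} [TopologicalSpace M'] {k : ℕ}

/-- A closed connected topological 3-manifold. -/
def Closed3 (M : Type) [TopologicalSpace M] : Prop :=
  T2Space M ∧ CompactSpace M ∧ ConnectedSpace M ∧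
    Nonempty (ChartedSpace (EuclideanSpace ℝ (Fin 3)) M)

/-- Expansive flow (Bowen and Walters); on a compact Hausdorff space the neighbourhoods of the
diagonal are the entourages of every compatible metric. -/
def Expansive (φ : Flow ℝ M) : Prop :=
  ∀ ε > 0, ∃ W ∈ 𝓝ˢ (diagonal M), ∀ (x y : M) (s : ℝ → ℝ), Continuous s → s 0 = 0 →
    (∀ t, (φ t x, φ (s t) y) ∈ W) → ∃ u : ℝ, |u| < ε ∧ y = φ u x

/-- The orbits of `x` and `y` are asymptotic along `l` (forward for `atTop`, backward for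
`atBot`) after a continuous change of time. -/
def Asym (φ : Flow ℝ M) (l : Filter ℝ) (x y : M) : Prop :=
  ∃ s : ℝ → ℝ, Continuous s ∧ Tendsto s l l ∧
    ∀ W ∈ 𝓝ˢ (diagonal M), ∀ᶠ t in l, (φ t x, φ (s t) y) ∈ W

/-- A chart in which the flow lines are vertical and run upwards. -/
def FlowBox (φ : Flow ℝ M) (e : OpenPartialHomeomorph M (ℂ × ℝ)) : Prop :=
  ∀ x ∈ e.source, ∃ δ > 0, (∀ t ∈ Ioo (-δ) δ, φ t x ∈ e.source ∧ (e (φ t x)).1 = (e x).1) ∧
    StrictMonoOn (fun t => (e (φ t x)).2) (Ioo (-δ) δ)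

/-- Pseudo-Anosov flow: no fixed point, expansive, and every point lies in a flow box modelled on
the `n`-prong singularity, `n ≥ 2` (`n = 2` is a regular point): the local leaves
`Re (z^(n/2)) = const` are forward asymptotic and the local leaves `Im (z^(n/2)) = const` are
backward asymptotic. Note `‖z‖^n + Re (z^n) = 2 (Re (z^(n/2)))^2` and
`‖z‖^n - Re (z^n) = 2 (Im (z^(n/2)))^2`. -/
def PA (φ : Flow ℝ M) : Prop :=
  (∀ x, ∃ t, φ t x ≠ x) ∧ Expansive φ ∧
    ∀ x, ∃ (e : OpenPartialHomeomorph M (ℂ × ℝ)) (n : ℕ), 2 ≤ n ∧ x ∈ e.source ∧ FlowBox φ e ∧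
      ∀ y ∈ e.source, ∀ᶠ y' in 𝓝 y,
        (‖(e y').1‖ ^ n + ((e y').1 ^ n).re = ‖(e y).1‖ ^ n + ((e y).1 ^ n).re →
          Asym φ atTop y y') ∧
        (‖(e y').1‖ ^ n - ((e y').1 ^ n).re = ‖(e y).1‖ ^ n - ((e y).1 ^ n).re →
          Asym φ atBot y y')

/-- Pairwise disjoint open solid tori. The meridian of `τ i` is the circle in the first factor,
the longitude is the circle in the second factor. -/
def Tubes (τ : Fin k → ℂ × Circle → M) : Prop :=
  (∀ i, IsOpenEmbedding (τ i)) ∧ ∀ i j, i ≠ j → Disjoint (range (τ i)) (range (τ j))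

/-- The union of the core circles. -/
def core (τ : Fin k → ℂ × Circle → M) : Set M := {x | ∃ i u, x = τ i (0, u)}

/-- Each core circle is a closed orbit, run in the direction of the longitude. -/
def Along (φ : Flow ℝ M) (τ : Fin k → ℂ × Circle → M) : Prop :=
  ∀ i, ∃ c > 0, ∀ (t : ℝ) (u : Circle), φ t (τ i (0, u)) = τ i (0, Circle.exp (c * t) * u)

/-- `M'` is obtained from `M` by Dehn surgery on the cores with slopes `p i μ + q i λ`:
`h` is a homeomorphism of the complements of the cores, it maps a deleted neighbourhood of the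
`i`-th core into the `i`-th new solid torus, and there the curve `p i μ + q i λ` is
null-homotopic. -/
def Surg (τ : Fin k → ℂ × Circle → M) (τ' : Fin k → ℂ × Circle → M')
    (h : OpenPartialHomeomorph M M') (p q : Fin k → ℤ) : Prop :=
  Tubes τ' ∧ h.source = (core τ)ᶜ ∧ h.target = (core τ')ᶜ ∧
    ∀ i, ∃ ε > 0, (∀ z u, z ≠ 0 → ‖z‖ ≤ ε → h (τ i (z, u)) ∈ range (τ' i)) ∧
      ∃ H : ℝ × ℝ → M', Continuous H ∧ (∀ a, H a ∈ range (τ' i)) ∧
        (∀ s r, H (s + 2 * Real.pi, r) = H (s, r)) ∧ (∀ s, H (s, 0) = H (0, 0)) ∧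
        ∀ s, H (s, 1) = h (τ i ((ε : ℂ) * Circle.exp (p i * s), Circle.exp (q i * s)))

/-- A codimension one foliation transverse to the flow: an atlas of flow boxes whose
horizontal plaques agree on overlaps. -/
def TransFol (φ : Flow ℝ M) : Prop :=
  ∃ A : Set (OpenPartialHomeomorph M (ℂ × ℝ)), (∀ x, ∃ e ∈ A, x ∈ e.source) ∧
    (∀ e ∈ A, FlowBox φ e) ∧
    ∀ e ∈ A, ∀ e' ∈ A, ∀ x ∈ e.source ∩ e'.source, ∀ᶠ y in 𝓝 (x, x),
      ((e y.1).2 = (e y.2).2 ↔ (e' y.1).2 = (e' y.2).2)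

/-- The flow obtained from `φ` by surgery with slopes `p i μ + q i λ` is pseudo-Anosov and some
foliation is transverse to it: there is a pseudo-Anosov flow `φ'` on the surgered manifold, the
new cores are closed orbits, the surgery map sends oriented orbits to oriented orbits
(Fried surgery), and `φ'` has a transverse foliation. -/
def Realised (φ : Flow ℝ M) (τ : Fin k → ℂ × Circle → M) (p q : Fin k → ℤ) : Prop :=
  ∃ (N : Type) (_ : TopologicalSpace N) (φ' : Flow ℝ N) (τ' : Fin k → ℂ × Circle → N)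
    (h : OpenPartialHomeomorph M N), Closed3 N ∧ PA φ' ∧ Along φ' τ' ∧ Surg τ τ' h p q ∧
      (∀ x ∈ h.source, ∃ η : ℝ ≃o ℝ, ∀ t, h (φ t x) = φ' (η t) (h x)) ∧ TransFol φ'

/-- The surgery with slopes `p i μ + q i λ` gives `S¹ × S²`. -/
def S1S2 (τ : Fin k → ℂ × Circle → M) (p q : Fin k → ℤ) : Prop :=
  ∃ (τ' : Fin k → ℂ × Circle → Circle × Metric.sphere (0 : EuclideanSpace ℝ (Fin 3)) 1)
    (h : OpenPartialHomeomorph M (Circle × Metric.sphere (0 : EuclideanSpace ℝ (Fin 3)) 1)),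
      Surg τ τ' h p q

/-- The multislopes with property `R`, the slope of `p μ + q λ` on the `i`-th torus being recorded
as `(a p + b q) / (c p + d q)` for the matrix `g i` with rows `(a, b)`, `(c, d)`. The identity
matrix records `p / q`. -/
def slopes (g : Fin k → Matrix (Fin 2) (Fin 2) ℤ) (R : (Fin k → ℤ) → (Fin k → ℤ) → Prop) :
    Set (Fin k → ℝ) :=
  {r | ∃ p q : Fin k → ℤ, R p q ∧ ∀ i, IsCoprime (p i) (q i) ∧
    g i 1 0 * p i + g i 1 1 * q i ≠ 0 ∧
    r i = ((g i 0 0 * p i + g i 0 1 * q i : ℤ) : ℝ) / ((g i 1 0 * p i + g i 1 1 * q i : ℤ) : ℝ)}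

/-- The smallest closed set with property (C) containing `T`. -/
def hull (T : Set (Fin k → ℝ)) : Set (Fin k → ℝ) :=
  ⋂₀ {S | IsClosed S ∧ T ⊆ S ∧
    ∀ x ∈ S, ∀ z ∈ S, ∀ y : Fin k → ℝ, (∀ i, x i < y i ∧ y i < z i) → y ∈ S}

/-- The corners of `Z`: points of `Z` that the rest of `Z` does not generate. -/
def corners (Z : Set (Fin k → ℝ)) : Set (Fin k → ℝ) :=
  {p | p ∈ Z ∧ ∀ U, IsOpen U → p ∈ U → p ∉ hull (Z \ U)}

end Pool.Agent.Zig
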