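import Pool.Agent.Lib.MP_d77862_gt.EllA

noncomputable section

namespace Pool.Agent.Zig

open Set Filter Topology Complex Real

/-! Conjugating two square roots of a translation. -/

/-- The broken line through `(0, y)`, `(1/2, x)`, `(1, z)`. -/
def ell_line (y x z r : ℝ) : ℝ := if r ≤ 1 / 2 then y + 2 * r * (x - y) else x + (2 * r - 1) * (z - x)

theorem ell_line_strictMono {y x z : ℝ} (h1 : y < x) (h2 : x < z) : StrictMono (ell_line y x z) := by
  intro r s hrs
  unfold ell_line
  by_cases hr : r ≤ 1 / 2 <;> by_cases hs : s ≤ 1 / 2 <;> simp only [hr, hs, if_true, if_false]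
  · nlinarith
  · push Not at hs
    nlinarith [mul_nonneg (sub_nonneg.2 hr) (sub_pos.2 h1).le, mul_pos (sub_pos.2 hs) (sub_pos.2 h2)]
  · push Not at hr
    linarith
  · nlinarith

theorem ell_line_zero (y x z : ℝ) : ell_line y x z 0 = y := by
  unfold ell_line; norm_num

theorem ell_line_half (y x z : ℝ) : ell_line y x z (1 / 2) = x := by
  unfold ell_line; rw [if_pos le_rfl]; ring

theorem ell_line_one (y x z : ℝ) : ell_line y x z 1 = z := by
  unfold ell_line; rw [if_neg (by norm_num)]; ring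

theorem ell_line_surj {y x z : ℝ} (h1 : y < x) (h2 : x < z) {u : ℝ} (hu : y ≤ u) (hu' : u < z) :
    ∃ r, 0 ≤ r ∧ r < 1 ∧ ell_line y x z r = u := by
  have hxy : 0 < x - y := sub_pos.2 h1
  have hzx : 0 < z - x := sub_pos.2 h2
  by_cases hux : u ≤ x
  · have hle : (u - y) / (2 * (x - y)) ≤ 1 / 2 := by
      rw [div_le_iff₀ (by positivity)]; linarith
    refine ⟨(u - y) / (2 * (x - y)), div_nonneg (by linarith) (by positivity), by linarith, ?_⟩
    unfold ell_line
    rw [if_pos hle]
    field_simp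
    ring
  · push Not at hux
    have hq : 0 < (u - x) / (z - x) := div_pos (by linarith) hzx
    have hq1 : (u - x) / (z - x) < 1 := by rw [div_lt_one hzx]; linarith
    refine ⟨(1 + (u - x) / (z - x)) / 2, by linarith, by linarith, ?_⟩
    unfold ell_line
    rw [if_neg (by linarith)]
    field_simp
    ring

theorem ell_zpow_succ (T : ℝ ≃o ℝ) (k : ℤ) (u : ℝ) : (T ^ (k + 1)) u = T ((T ^ k) u) := by
  rw [add_comm, zpow_add, zpow_one]; rfl

theorem ell_zpow_succ' (T : ℝ ≃o ℝ) (k : ℤ) (u : ℝ) : (T ^ (k + 1)) u = (T ^ k) (T u) := by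
  rw [zpow_add, zpow_one]; rfl

theorem ell_zpow_two (T : ℝ ≃o ℝ) {p : ℝ} (hT : ∀ x, T (T x) = x + p) (y : ℝ) (j : ℤ) :
    (T ^ (2 * j)) y = y + j * p := by
  induction j using Int.induction_on with
  | zero => simp
  | succ j ih =>
    have : (2 * ((j : ℤ) + 1)) = 2 * j + 1 + 1 := by ring
    rw [this, ell_zpow_succ, ell_zpow_succ, hT, ih]
    push_cast; ring
  | pred j ih =>
    have h : (2 * (-(j : ℤ))) = 2 * (-(j : ℤ) - 1) + 1 + 1 := by ring
    rw [h, ell_zpow_succ, ell_zpow_succ, hT] at ih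
    push_cast at ih ⊢
    linarith

/-- A square root of a translation is conjugate to the unit translation. -/
theorem ell_exists_norm (T : ℝ ≃o ℝ) {p : ℝ} (hp : 0 < p) (hT : ∀ x, T (T x) = x + p) {y x : ℝ}
    (h1 : y < x) (h2 : x < T y) :
    ∃ h : ℝ ≃o ℝ, h 0 = y ∧ h (1 / 2) = x ∧ ∀ s, h (s + 1) = T (h s) := by
  have hl := ell_line_strictMono h1 h2
  have hy : StrictMono fun k : ℤ => (T ^ k) y := by
    refine strictMono_int_of_lt_succ fun k => ?_
    rw [ell_zpow_succ']
    exact (T ^ k).strictMono (h1.trans h2)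
  set g : ℝ → ℝ := fun s => (T ^ ⌊s⌋) (ell_line y x (T y) (Int.fract s)) with hg
  have hlow : ∀ s, (T ^ ⌊s⌋) y ≤ g s := fun s => by
    refine (T ^ ⌊s⌋).monotone ?_
    have := hl.monotone (Int.fract_nonneg s)
    rwa [ell_line_zero] at this
  have hup : ∀ s, g s < (T ^ (⌊s⌋ + 1)) y := fun s => by
    rw [ell_zpow_succ']
    refine (T ^ ⌊s⌋).strictMono ?_
    have := hl (Int.fract_lt_one s)
    rwa [ell_line_one] at this
  have hmono : StrictMono g := by
    intro s s' hss
    rcases (Int.floor_le_floor hss.le).eq_or_lt with h | h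
    · simp only [hg]
      rw [← h]
      refine (T ^ ⌊s⌋).strictMono (hl ?_)
      unfold Int.fract
      rw [← h]
      linarith
    · exact (hup s).trans_le ((hy.monotone (Int.add_one_le_of_lt h)).trans (hlow s'))
  have hsurj : Function.Surjective g := by
    intro t
    obtain ⟨k, hk, hmax⟩ := Int.exists_greatest_of_bdd (P := fun k : ℤ => (T ^ k) y ≤ t)
      (by
        obtain ⟨j, hj⟩ := exists_int_gt ((t - y) / p)
        refine ⟨2 * j, fun z hz => ?_⟩
        by_contra hc
        push Not at hc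
        have h3 := hy hc
        simp only at h3
        rw [ell_zpow_two T hT] at h3
        rw [div_lt_iff₀ hp] at hj
        linarith)
      (by
        obtain ⟨j, hj⟩ := exists_int_lt ((t - y) / p)
        refine ⟨2 * j, ?_⟩
        rw [ell_zpow_two T hT]
        rw [lt_div_iff₀ hp] at hj
        linarith)
    have hk' : t < (T ^ (k + 1)) y := by
      by_contra hc
      push Not at hc
      have := hmax _ hc
      omega
    rw [ell_zpow_succ'] at hk'
    obtain ⟨r, hr0, hr1, hr⟩ := ell_line_surj h1 h2 (u := (T ^ k).symm t)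
      (by rw [OrderIso.le_symm_apply]; exact hk) (by rw [OrderIso.symm_apply_lt]; exact hk')
    have hf : ⌊(k : ℝ) + r⌋ = k := by
      rw [Int.floor_eq_iff]; constructor <;> linarith
    have hfr : Int.fract ((k : ℝ) + r) = r := by
      unfold Int.fract; rw [hf]; ring
    refine ⟨k + r, ?_⟩
    simp only [hg]
    rw [hf, hfr, hr, OrderIso.apply_symm_apply]
  refine ⟨hmono.orderIsoOfSurjective g hsurj, ?_, ?_, fun s => ?_⟩
  · change g 0 = y
    simp [hg, ell_line_zero]
  · change g (1 / 2) = x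
    have hf : ⌊(1 / 2 : ℝ)⌋ = 0 := by rw [Int.floor_eq_iff]; norm_num
    have hfr : Int.fract (1 / 2 : ℝ) = 1 / 2 := by unfold Int.fract; rw [hf]; norm_num
    simp only [hg]
    rw [hf, hfr, ell_line_half]
    simp
  · change g (s + 1) = T (g s)
    simp only [hg]
    rw [Int.floor_add_one, Int.fract_add_one, ell_zpow_succ]

/-- Extension of an increasing bijection of intervals that conjugates `T` to `T'`. -/
theorem exists_conj (T T' : ℝ ≃o ℝ) {p p' : ℝ} (hp : 0 < p) (hp' : 0 < p')
    (hT : ∀ x, T (T x) = x + p) (hT' : ∀ x, T' (T' x) = x + p') {y x y' x' : ℝ}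
    (h1 : y < x) (h2 : x < T y) (h1' : y' < x') (h2' : x' < T' y') :
    ∃ f : ℝ ≃o ℝ, f y = y' ∧ f x = x' ∧ ∀ t, f (T t) = T' (f t) := by
  obtain ⟨h, h0, hh, hs⟩ := ell_exists_norm T hp hT h1 h2
  obtain ⟨h', h0', hh', hs'⟩ := ell_exists_norm T' hp' hT' h1' h2'
  refine ⟨h.symm.trans h', ?_, ?_, fun t => ?_⟩
  · rw [OrderIso.trans_apply, ← h0, OrderIso.symm_apply_apply, h0']
  · rw [OrderIso.trans_apply, ← hh, OrderIso.symm_apply_apply, hh']
  · obtain ⟨s, rfl⟩ := h.surjective t
    rw [← hs, OrderIso.trans_apply, OrderIso.trans_apply, OrderIso.symm_apply_apply,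
      OrderIso.symm_apply_apply, hs']

end Pool.Agent.Zig
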