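import Pool.Agent.Lib.MP_d77862_gt.Ang

noncomputable section

namespace Pool.Agent.Zig

open Set Filter Topology Complex Real

/-! An elliptic element of the universal cover of `SL₂(ℝ)` is conjugate to a rotation. -/

/-- `ang s` as an order isomorphism. -/
def angIso (s : ℝ) : ℝ ≃o ℝ where
  toFun := ang s
  invFun := ang (-s)
  left_inv := fun θ => by rw [ang_ang]; simp [ang_zero]
  right_inv := fun θ => by rw [ang_ang]; simp [ang_zero]
  map_rel_iff' := by intro a b; exact (strictMono_ang s).le_iff_le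

theorem ella_re {A A' B B' c s c₂ s₂ k : ℝ} (q x y : ℝ) (hA : A * A' = 1)
    (h1 : c₂ + k = c * A ^ 2) (h2 : c₂ - k = c * A' ^ 2) (h3 : s₂ * B' = B * (s - k)) :
    B * (q * (A' * (A ^ 2 * (c * x - s * y))) - q * (A * (A' ^ 2 * (c * y + s * x)))) =
      c₂ * (B * (q * (A' * x) - q * (A * y))) - s₂ * (B' * (q * (A * y) + q * (A' * x))) := by
  linear_combination (-B * q * s * (y * A + x * A')) * hA - (B * q * x * A') * h1 +
    (B * q * y * A) * h2 + (q * (A' * x + A * y)) * h3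

theorem ella_im {A A' B B' c s c₂ s₂ k : ℝ} (q x y : ℝ) (hA : A * A' = 1)
    (h1 : c₂ + k = c * A ^ 2) (h2 : c₂ - k = c * A' ^ 2) (h4 : s₂ * B = B' * (s + k)) :
    B' * (q * (A * (A' ^ 2 * (c * y + s * x))) + q * (A' * (A ^ 2 * (c * x - s * y)))) =
      c₂ * (B' * (q * (A * y) + q * (A' * x))) + s₂ * (B * (q * (A' * x) - q * (A * y))) := by
  linear_combination (B' * q * s * (A' * x - A * y)) * hA - (B' * q * x * A') * h1 -
    (B' * q * y * A) * h2 - (q * (A' * x - A * y)) * h4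

theorem ella_conj {θ₁ θ₂ η d : ℝ} (hc : Real.cosh η * Real.cos θ₁ = Real.cos θ₂)
    (h3 : Real.sin θ₂ * Real.exp (-d) = Real.exp d * (Real.sin θ₁ - Real.sinh η * Real.cos θ₁))
    (h4 : Real.sin θ₂ * Real.exp d = Real.exp (-d) * (Real.sin θ₁ + Real.sinh η * Real.cos θ₁))
    (v : ℂ) :
    Dg d (dir (π / 4) * Dg (-(η / 2)) (Dg η (dir θ₁ * v))) =
      dir θ₂ * Dg d (dir (π / 4) * Dg (-(η / 2)) v) := by
  have hA : Real.exp (η / 2) * Real.exp (-(η / 2)) = 1 := by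
    rw [← Real.exp_add]; simp
  have e1 : Real.exp η = Real.exp (η / 2) ^ 2 := by
    rw [sq, ← Real.exp_add]; congr 1; ring
  have e2 : Real.exp (-η) = Real.exp (-(η / 2)) ^ 2 := by
    rw [sq, ← Real.exp_add]; congr 1; ring
  have h1 : Real.cos θ₂ + Real.sinh η * Real.cos θ₁ = Real.cos θ₁ * Real.exp (η / 2) ^ 2 := by
    rw [← e1, ← hc, ← Real.cosh_add_sinh]; ring
  have h2 : Real.cos θ₂ - Real.sinh η * Real.cos θ₁ = Real.cos θ₁ * Real.exp (-(η / 2)) ^ 2 := by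
    rw [← e2, ← hc, ← Real.cosh_sub_sinh]; ring
  have hq : Real.sin (π / 4) = Real.cos (π / 4) := by
    rw [Real.sin_pi_div_four, Real.cos_pi_div_four]
  apply Complex.ext
  · simp only [Dg, Complex.mul_re, Complex.mul_im, dir_re, dir_im, neg_neg, hq]
    rw [e1, e2]
    exact ella_re _ _ _ hA h1 h2 h3
  · simp only [Dg, Complex.mul_re, Complex.mul_im, dir_re, dir_im, neg_neg, hq]
    rw [e1, e2]
    exact ella_im _ _ _ hA h1 h2 h4

theorem ella_dir (a d x : ℝ) : ∃ r : ℝ, 0 < r ∧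
    Dg d (dir (π / 4) * Dg a (dir x)) = (r : ℂ) * dir (ang d (ang a x + π / 4)) := by
  refine ⟨nrm a x * nrm d (ang a x + π / 4), mul_pos (nrm_pos _ _) (nrm_pos _ _), ?_⟩
  rw [Dg_dir, show dir (π / 4) * ((nrm a x : ℂ) * dir (ang a x)) =
    (nrm a x : ℂ) * dir (ang a x + π / 4) by rw [dir_add]; ring, Dg_real_mul, Dg_dir]
  push_cast
  ring

theorem ella_par {θ₁ θ₂ : ℝ} (h0 : 0 < θ₂) (h1 : θ₂ ≤ θ₁) (h2 : θ₁ < π / 2) :
    ∃ η d : ℝ, 0 ≤ η ∧ Real.cosh η * Real.cos θ₁ = Real.cos θ₂ ∧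
      Real.sin θ₂ * Real.exp (-d) = Real.exp d * (Real.sin θ₁ - Real.sinh η * Real.cos θ₁) ∧
      Real.sin θ₂ * Real.exp d = Real.exp (-d) * (Real.sin θ₁ + Real.sinh η * Real.cos θ₁) := by
  have hpi := Real.pi_pos
  have hc1 : 0 < Real.cos θ₁ := Real.cos_pos_of_mem_Ioo ⟨by linarith, h2⟩
  have hle : Real.cos θ₁ ≤ Real.cos θ₂ :=
    Real.cos_le_cos_of_nonneg_of_le_pi h0.le (by linarith) h1
  have hs1 : 0 < Real.sin θ₁ := Real.sin_pos_of_pos_of_lt_pi (by linarith) (by linarith)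
  have hs2 : 0 < Real.sin θ₂ := Real.sin_pos_of_pos_of_lt_pi h0 (by linarith)
  have hx : 1 ≤ Real.cos θ₂ / Real.cos θ₁ := (one_le_div hc1).2 hle
  obtain ⟨η, hη0, hη⟩ : ∃ η : ℝ, 0 ≤ η ∧ Real.cosh η * Real.cos θ₁ = Real.cos θ₂ :=
    ⟨Real.arcosh (Real.cos θ₂ / Real.cos θ₁), Real.arcosh_nonneg hx, by
      rw [Real.cosh_arcosh hx]; field_simp⟩
  have hk : 0 ≤ Real.sinh η * Real.cos θ₁ := mul_nonneg (Real.sinh_nonneg_iff.2 hη0) hc1.le
  have hsq : (Real.sin θ₁ + Real.sinh η * Real.cos θ₁) *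
      (Real.sin θ₁ - Real.sinh η * Real.cos θ₁) = Real.sin θ₂ ^ 2 := by
    have a1 := Real.sin_sq_add_cos_sq θ₁
    have a2 := Real.sin_sq_add_cos_sq θ₂
    have a3 := Real.cosh_sq η
    linear_combination a1 - a2 + Real.cos θ₁ ^ 2 * a3 -
      (Real.cosh η * Real.cos θ₁ + Real.cos θ₂) * hη
  have hp : 0 < Real.sin θ₁ + Real.sinh η * Real.cos θ₁ := by linarith
  obtain ⟨d, hd⟩ : ∃ d : ℝ, Real.sin θ₂ * Real.exp d ^ 2 =
      Real.sin θ₁ + Real.sinh η * Real.cos θ₁ := by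
    refine ⟨Real.log ((Real.sin θ₁ + Real.sinh η * Real.cos θ₁) / Real.sin θ₂) / 2, ?_⟩
    rw [sq, ← Real.exp_add, add_halves, Real.exp_log (div_pos hp hs2)]
    field_simp
  have hB : Real.exp d * Real.exp (-d) = 1 := by
    rw [← Real.exp_add]; simp
  refine ⟨η, d, hη0, hη, ?_, ?_⟩
  · apply mul_left_cancel₀ hs2.ne'
    rw [← hd] at hsq
    linear_combination (-Real.exp (-d)) * hsq +
      (Real.sin θ₂ * Real.exp d * (Real.sin θ₁ - Real.sinh η * Real.cos θ₁)) * hB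
  · linear_combination Real.exp (-d) * hd - (Real.sin θ₂ * Real.exp d) * hB

/-- With `cosh η * cos θ₁ = cos θ₂`, take
`C = ang d ∘ (· + π / 4) ∘ ang (-η / 2)`, `exp (4 d) = (s + k) / (s - k)`, `s = sin θ₁`,
`k = sinh η * cos θ₁`. -/
theorem elliptic {θ₁ θ₂ : ℝ} (h0 : 0 < θ₂) (h1 : θ₂ ≤ θ₁) (h2 : θ₁ < π / 2) :
    ∃ η : ℝ, 0 ≤ η ∧ ∃ C : ℝ ≃o ℝ, (∀ x, C (x + π) = C x + π) ∧
      ∀ x, C (ang η (x + θ₁)) = C x + θ₂ := by
  obtain ⟨η, d, hη0, hη, h3, h4⟩ := ella_par h0 h1 h2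
  have hpi := Real.pi_pos
  let C : ℝ ≃o ℝ := ((angIso (-(η / 2))).trans (OrderIso.addRight (π / 4))).trans (angIso d)
  have hC : ∀ x, C x = ang d (ang (-(η / 2)) x + π / 4) := fun x => rfl
  have hper : ∀ x, C (x + π) = C x + π := by
    intro x
    rw [hC, hC, ang_add_pi, add_right_comm, ang_add_pi]
  refine ⟨η, hη0, C, hper, fun x => ?_⟩
  obtain ⟨r, hr, er⟩ := ella_dir (-(η / 2)) d x
  obtain ⟨r', hr', er'⟩ := ella_dir (-(η / 2)) d (ang η (x + θ₁))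
  have key := ella_conj hη h3 h4 (dir x)
  rw [← dir_add, add_comm θ₁ x, Dg_dir, Dg_real_mul, mul_left_comm, Dg_real_mul, er', er,
    ← hC, ← hC] at key
  have hb := abs_lt.1 (abs_ang_sub_lt η (x + θ₁))
  have hu : C (ang η (x + θ₁)) < C x + π := by
    rw [← hper]; exact C.strictMono (by linarith [hb.2])
  have hl : C x < C (ang η (x + θ₁)) + π := by
    rw [← hper]; exact C.strictMono (by linarith [hb.1])
  refine eq_of_polar (r := nrm η (x + θ₁) * r') (r' := r) (mul_pos (nrm_pos _ _) hr') hr ?_ ?_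
  · rw [dir_add]
    push_cast
    linear_combination key
  · rw [abs_lt]; constructor <;> linarith

end Pool.Agent.Zig
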