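import Pool.Agent.Lib.MP_d77862_gt.GrpA

noncomputable section

namespace Pool.Agent.Zig

open Set Filter Topology Complex Real

/-! Topological properties of the action. -/

/-- Only finitely many corners are close to a bounded set. -/
theorem finite_rho (R : ℝ) :
    {c : ℤ × ℤ | ∃ p : ℂ × ℝ, ‖p‖ ≤ R ∧ rho c p ≤ R}.Finite := by
  refine (finite_cor (R + Real.exp (LL * R) * R)).subset ?_
  rintro c ⟨p, hp, hc⟩
  have h1 : ‖p.1‖ ≤ R := (norm_fst_le p).trans hp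
  have h2 : |p.2| ≤ R := by
    have := (norm_snd_le p).trans hp
    rwa [Real.norm_eq_abs] at this
  have h3 := norm_DD_le p.2 0 (p.1 - cor c)
  rw [DD_zero, zero_sub, abs_neg] at h3
  have h4 : Real.exp (LL * |p.2|) ≤ Real.exp (LL * R) :=
    Real.exp_le_exp.2 (mul_le_mul_of_nonneg_left h2 LL_pos.le)
  have h5 : ‖p.1 - cor c‖ ≤ Real.exp (LL * R) * R :=
    h3.trans (mul_le_mul h4 hc (norm_nonneg _) (Real.exp_pos _).le)
  have h6 : ‖cor c‖ ≤ ‖p.1‖ + ‖p.1 - cor c‖ := by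
    have := norm_sub_le p.1 (p.1 - cor c)
    rwa [sub_sub_cancel] at this
  show ‖cor c‖ ≤ _
  linarith

theorem isOpen_thick (r : ℝ) : IsOpen {p : ℂ × ℝ | ∀ c, r < rho c p} := by
  rw [isOpen_iff_mem_nhds]
  intro p hp
  have hF := finite_rho (max (‖p‖ + 1) r)
  have h1 : ∀ᶠ q in 𝓝 p, ∀ c ∈ {c : ℤ × ℤ | ∃ p' : ℂ × ℝ, ‖p'‖ ≤ max (‖p‖ + 1) r ∧
      rho c p' ≤ max (‖p‖ + 1) r}, r < rho c q := by
    rw [Filter.eventually_all_finite hF]
    intro c _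
    exact (isOpen_lt continuous_const (continuous_rho c)).mem_nhds (hp c)
  have h2 : ∀ᶠ q in 𝓝 p, ‖q‖ < ‖p‖ + 1 :=
    (isOpen_lt continuous_norm continuous_const).mem_nhds (by simp)
  filter_upwards [h1, h2] with q hq1 hq2
  intro c
  by_contra hc
  exact hc (hq1 c ⟨q, hq2.le.trans (le_max_left _ _), (not_lt.1 hc).trans (le_max_right _ _)⟩)

theorem isClosed_thick (r : ℝ) : IsClosed {p : ℂ × ℝ | ∀ c, r ≤ rho c p} := by
  rw [ofPred_forall]
  exact isClosed_iInter fun c => isClosed_le continuous_const (continuous_rho c)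

theorem grp_XX_eq : XX = {p : ℂ × ℝ | ∀ c, 0 < rho c p} := by
  ext p
  constructor
  · intro hp c
    exact rho_pos c hp
  · intro hp c hc
    have h := hp c
    have h0 : DD p.2 0 = 0 := Dg_eq_zero.2 rfl
    rw [rho, hc, sub_self, h0, norm_zero] at h
    exact lt_irrefl _ h

theorem grp_XX_prod : XX = (range cor)ᶜ ×ˢ (univ : Set ℝ) := by
  ext p
  simp only [XX, mem_ofPred_eq, mem_prod, mem_compl_iff, mem_range, not_exists, mem_univ, and_true]
  exact ⟨fun h c hc => h c hc.symm, fun h c hc => h c hc.symm⟩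

theorem isOpen_XX : IsOpen XX := by
  rw [grp_XX_eq]
  exact isOpen_thick 0

theorem isPreconnected_XX : IsPreconnected XX := by
  rw [grp_XX_prod]
  have h : 1 < Module.rank ℝ ℂ := by
    rw [Complex.rank_real_complex]
    exact Cardinal.one_lt_two
  exact ((countable_range cor).isConnected_compl_of_one_lt_rank h).isPreconnected.prod
    isPreconnected_univ

theorem dense_XX : Dense XX := by
  rw [grp_XX_prod]
  exact ((countable_range cor).dense_compl ℝ).prod dense_univ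

/-- A continuous path that stays close to the corner lines stays close to one of them. -/
theorem exists_corner_of_path {T : Type} [TopologicalSpace T] {s : Set T} (hs : IsPreconnected s)
    {f : T → ℂ × ℝ} (hf : ContinuousOn f s) {r : ℝ} (hr : r ≤ 1 / 2)
    (h : ∀ a ∈ s, ∃ c, rho c (f a) < r) {a0 : T} (ha : a0 ∈ s) {c0 : ℤ × ℤ}
    (h0 : rho c0 (f a0) < r) : ∀ a ∈ s, rho c0 (f a) < r := by
  have hU : IsOpen {p : ℂ × ℝ | rho c0 p < r} := isOpen_lt (continuous_rho c0) continuous_const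
  have hV : IsOpen (⋃ c ∈ {c : ℤ × ℤ | c ≠ c0}, {p : ℂ × ℝ | rho c p < r}) :=
    isOpen_biUnion fun c _ => isOpen_lt (continuous_rho c) continuous_const
  have hd : Disjoint {p : ℂ × ℝ | rho c0 p < r}
      (⋃ c ∈ {c : ℤ × ℤ | c ≠ c0}, {p : ℂ × ℝ | rho c p < r}) := by
    rw [Set.disjoint_left]
    intro p hp hp'
    simp only [mem_iUnion, mem_ofPred_eq] at hp hp'
    obtain ⟨c, hc, hp'⟩ := hp'
    exact hc (eq_of_rho_add_lt (p := p) (by linarith))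
  have hsub : f '' s ⊆ {p : ℂ × ℝ | rho c0 p < r} ∪
      (⋃ c ∈ {c : ℤ × ℤ | c ≠ c0}, {p : ℂ × ℝ | rho c p < r}) := by
    rintro _ ⟨a, has, rfl⟩
    obtain ⟨c, hc⟩ := h a has
    by_cases hcc : c = c0
    · left
      rw [← hcc]
      exact hc
    · right
      simp only [mem_iUnion, mem_ofPred_eq]
      exact ⟨c, hcc, hc⟩
  have key := IsPreconnected.subset_left_of_subset_union hU hV hd hsub
    ⟨f a0, mem_image_of_mem f ha, h0⟩ (hs.image f hf)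
  intro a has
  exact key (mem_image_of_mem f has)

theorem grp_norm_unit (e : ℤˣ) : ‖((e : ℤ) : ℂ)‖ = 1 := by
  rcases Int.units_eq_one_or e with rfl | rfl <;> simp

theorem grp_finite_act (R : ℝ) :
    {i : ℤ × ℤˣ × (ℤ × ℤ) | ∃ p : ℂ × ℝ, ‖p‖ ≤ R ∧ ‖act i.1 i.2.1 i.2.2 p‖ ≤ R}.Finite := by
  have hF : ((Icc (-⌈2 * R⌉) ⌈2 * R⌉) ×ˢ ((univ : Set ℤˣ) ×ˢ
      {c : ℤ × ℤ | ‖cor c‖ ≤ R + Real.exp (LL * (2 * R)) * R})).Finite :=
    (finite_Icc _ _).prod (finite_univ.prod (finite_cor _))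
  refine hF.subset ?_
  rintro ⟨n, e, c⟩ ⟨p, hp, hq⟩
  have h1 : ‖p.1‖ ≤ R := (norm_fst_le p).trans hp
  have h2 : |p.2| ≤ R := by
    have := (norm_snd_le p).trans hp
    rwa [Real.norm_eq_abs] at this
  have h3 : ‖((e : ℤ) : ℂ) * DD n p.1 + cor c‖ ≤ R := (norm_fst_le (act n e c p)).trans hq
  have h4 : |p.2 - n| ≤ R := by
    have := (norm_snd_le (act n e c p)).trans hq
    rwa [Real.norm_eq_abs] at this
  have h5 : |(n : ℝ)| ≤ 2 * R := by
    rw [abs_le] at h2 h4 ⊢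
    constructor <;> linarith [h2.1, h2.2, h4.1, h4.2]
  have h6 := norm_DD_le 0 n p.1
  rw [DD_zero, sub_zero] at h6
  have h7 : Real.exp (LL * |(n : ℝ)|) ≤ Real.exp (LL * (2 * R)) :=
    Real.exp_le_exp.2 (mul_le_mul_of_nonneg_left h5 LL_pos.le)
  have h8 : ‖DD n p.1‖ ≤ Real.exp (LL * (2 * R)) * R :=
    h6.trans (mul_le_mul h7 h1 (norm_nonneg _) (Real.exp_pos _).le)
  have h9 : ‖cor c‖ ≤ ‖((e : ℤ) : ℂ) * DD n p.1 + cor c‖ + ‖((e : ℤ) : ℂ) * DD n p.1‖ := by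
    have := norm_sub_le (((e : ℤ) : ℂ) * DD n p.1 + cor c) (((e : ℤ) : ℂ) * DD n p.1)
    rwa [add_sub_cancel_left] at this
  rw [norm_mul, grp_norm_unit, one_mul] at h9
  have h10 : 2 * R ≤ ((⌈2 * R⌉ : ℤ) : ℝ) := Int.le_ceil _
  rw [abs_le] at h5
  refine ⟨⟨?_, ?_⟩, mem_univ _, ?_⟩
  · have : ((-⌈2 * R⌉ : ℤ) : ℝ) ≤ (n : ℝ) := by
      push_cast
      linarith [h5.1]
    exact_mod_cast this
  · have : (n : ℝ) ≤ ((⌈2 * R⌉ : ℤ) : ℝ) := h5.2.trans h10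
    exact_mod_cast this
  · show ‖cor c‖ ≤ _
    linarith

/-- The relation is closed. -/
theorem isClosed_rel : IsClosed {a : (ℂ × ℝ) × (ℂ × ℝ) | Rel a.1 a.2} := by
  let G : ℤ × ℤˣ × (ℤ × ℤ) → Set ((ℂ × ℝ) × (ℂ × ℝ)) := fun i =>
    {a | Adm i.1 i.2.2 ∧ a.2 = act i.1 i.2.1 i.2.2 a.1}
  have hG : {a : (ℂ × ℝ) × (ℂ × ℝ) | Rel a.1 a.2} = ⋃ i, G i := by
    ext a
    simp only [mem_ofPred_eq, mem_iUnion, G]
    constructor
    · rintro ⟨n, e, c, h1, h2⟩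
      exact ⟨(n, e, c), h1, h2⟩
    · rintro ⟨i, h1, h2⟩
      exact ⟨i.1, i.2.1, i.2.2, h1, h2⟩
  have hc : ∀ i, IsClosed (G i) := fun i =>
    isClosed_const.inter
      (isClosed_eq continuous_snd ((continuous_act i.1 i.2.1 i.2.2).comp continuous_fst))
  have hlf : LocallyFinite G := by
    intro a0
    refine ⟨{a | ‖a‖ < ‖a0‖ + 1},
      (isOpen_lt continuous_norm continuous_const).mem_nhds (by simp), ?_⟩
    refine (grp_finite_act (‖a0‖ + 1)).subset ?_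
    rintro i ⟨a, ⟨_, h2⟩, ha⟩
    have ha' : ‖a‖ ≤ ‖a0‖ + 1 := le_of_lt ha
    refine ⟨a.1, (norm_fst_le a).trans ha', ?_⟩
    rw [← h2]
    exact (norm_snd_le a).trans ha'
  rw [hG]
  exact hlf.isClosed_iUnion hc

/-- The action is locally injective on `XX`. -/
theorem exists_inj_nhds {p : ℂ × ℝ} (hp : p ∈ XX) :
    ∃ U, IsOpen U ∧ p ∈ U ∧ U ⊆ XX ∧ ∀ q ∈ U, ∀ q' ∈ U, Rel q q' → q = q' := by
  obtain ⟨δ0, hδ0, hball⟩ := Metric.isOpen_iff.1 isOpen_XX p hp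
  have hδ : 0 < min δ0 (1 / 2) := lt_min hδ0 (by norm_num)
  have hsub : Metric.ball p (min δ0 (1 / 2)) ⊆ XX :=
    (Metric.ball_subset_ball (min_le_left _ _)).trans hball
  refine ⟨Metric.ball p (min δ0 (1 / 2)), Metric.isOpen_ball, Metric.mem_ball_self hδ, hsub, ?_⟩
  rintro q hq q' hq' ⟨n, e, c, hadm, hact⟩
  have hd : dist q' q < 1 := by
    have h1 := dist_triangle_right q' q p
    have h2 : dist q p < min δ0 (1 / 2) := hq
    have h3 : dist q' p < min δ0 (1 / 2) := hq'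
    have h4 := min_le_right δ0 (1 / 2)
    linarith
  rw [dist_eq_norm] at hd
  have h1 : ‖q'.1 - q.1‖ < 1 := (norm_fst_le (q' - q)).trans_lt hd
  have h2 : ‖q'.2 - q.2‖ < 1 := (norm_snd_le (q' - q)).trans_lt hd
  have e1 : q'.1 = ((e : ℤ) : ℂ) * DD n q.1 + cor c := by rw [hact]; rfl
  have e2 : q'.2 = q.2 - n := by rw [hact]; rfl
  have hn : n = 0 := by
    rw [e2, sub_sub_cancel_left, norm_neg, Real.norm_eq_abs] at h2
    have : |n| < 1 := by exact_mod_cast h2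
    exact Int.abs_lt_one_iff.1 this
  subst hn
  rw [Int.cast_zero, DD_zero] at e1
  rw [Int.cast_zero, sub_zero] at e2
  rcases Int.units_eq_one_or e with rfl | rfl
  · have e3 : q'.1 - q.1 = cor c := by
      rw [e1]
      simp
    have hc : c = 0 := by
      by_contra hc
      have := one_le_norm_DD_cor 0 hc
      rw [DD_zero, ← e3] at this
      linarith
    rw [hc, cor_zero, sub_eq_zero] at e3
    exact Prod.ext e3.symm e2.symm
  · exfalso
    obtain ⟨⟨a, ha⟩, ⟨b, hb⟩⟩ := hadm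
    have hc : c = (a, b) + (a, b) := Prod.ext ha (by simpa using hb)
    have e3 : q.1 + q'.1 = cor (a, b) + cor (a, b) := by
      rw [e1, hc, cor_add]
      simp
    have hm : (1 / 2 : ℝ) • q + (1 / 2 : ℝ) • q' ∈ Metric.ball p (min δ0 (1 / 2)) :=
      convex_ball p _ hq hq' (by norm_num) (by norm_num) (by norm_num)
    refine hsub hm (a, b) ?_
    show (1 / 2 : ℝ) • q.1 + (1 / 2 : ℝ) • q'.1 = cor (a, b)
    rw [← smul_add, e3, smul_add, ← add_smul]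
    norm_num

/-- The action is cocompact. -/
theorem exists_bounded_rep : ∃ R : ℝ, ∀ p : ℂ × ℝ, ∃ q, Rel p q ∧ ‖q‖ ≤ R := by
  refine ⟨10, fun p => ?_⟩
  obtain ⟨n, hn⟩ : ∃ n : ℤ, n = ⌊p.2⌋ := ⟨_, rfl⟩
  obtain ⟨w, hw⟩ : ∃ w : ℂ, w = DD n p.1 := ⟨_, rfl⟩
  have hs : (0 : ℝ) < √2 := Real.sqrt_pos.2 (by norm_num)
  have hs2 : √2 < (3 / 2 : ℝ) := by
    rw [Real.sqrt_lt' (by norm_num)]
    norm_num
  obtain ⟨u, hu⟩ : ∃ u : ℝ, u = (w.re + w.im) / 2 := ⟨_, rfl⟩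
  obtain ⟨v, hv⟩ : ∃ v : ℝ, v = (w.re - w.im) / (2 * √2) := ⟨_, rfl⟩
  have hv' : v * √2 = (w.re - w.im) / 2 := by
    rw [hv]
    field_simp
  obtain ⟨a, ha⟩ : ∃ a : ℤ, a = ⌊u / 2⌋ := ⟨_, rfl⟩
  obtain ⟨b, hb⟩ : ∃ b : ℤ, b = ⌊(v + n) / 2⌋ := ⟨_, rfl⟩
  have a1 : (a : ℝ) ≤ u / 2 := ha ▸ Int.floor_le _
  have a2 : u / 2 < a + 1 := ha ▸ Int.lt_floor_add_one _
  have b1 : (b : ℝ) ≤ (v + n) / 2 := hb ▸ Int.floor_le _
  have b2 : (v + n) / 2 < b + 1 := hb ▸ Int.lt_floor_add_one _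
  have n1 : (n : ℝ) ≤ p.2 := hn ▸ Int.floor_le _
  have n2 : p.2 < n + 1 := hn ▸ Int.lt_floor_add_one _
  refine ⟨act n 1 (-(2 * a), n - 2 * b) p, ⟨n, 1, _, ⟨⟨-a, by ring⟩, ⟨-b, by ring⟩⟩, rfl⟩, ?_⟩
  rw [Prod.norm_def, max_le_iff]
  have k1 : 0 ≤ (v + n - 2 * b) * √2 := mul_nonneg (by linarith) hs.le
  have k2 : (v + n - 2 * b) * √2 ≤ 2 * (3 / 2) :=
    mul_le_mul (by linarith) hs2.le hs.le (by norm_num)
  constructor
  · have hre : (act n 1 (-(2 * a), n - 2 * b) p).1.re = (u - 2 * a) + (v + n - 2 * b) * √2 := by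
      simp only [act, ← hw, cor, Units.val_one, Int.cast_one, one_mul, add_re]
      push_cast
      linarith
    have him : (act n 1 (-(2 * a), n - 2 * b) p).1.im = (u - 2 * a) - (v + n - 2 * b) * √2 := by
      simp only [act, ← hw, cor, Units.val_one, Int.cast_one, one_mul, add_im]
      push_cast
      linarith
    refine (Complex.norm_le_abs_re_add_abs_im _).trans ?_
    rw [hre, him]
    have r1 : |(u - 2 * a) + (v + n - 2 * b) * √2| ≤ 5 := abs_le.2 ⟨by linarith, by linarith⟩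
    have r2 : |(u - 2 * a) - (v + n - 2 * b) * √2| ≤ 5 := abs_le.2 ⟨by linarith, by linarith⟩
    linarith
  · show ‖p.2 - n‖ ≤ 10
    rw [Real.norm_eq_abs]
    exact abs_le.2 ⟨by linarith, by linarith⟩

end Pool.Agent.Zig
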