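import Pool.Agent.Lib.MP_d77862_gt.Util
import Pool.Agent.Lib.MP_d77862_gt.Grp

noncomputable section

namespace Pool.Agent.Zig

open Set Filter Topology Complex Real

/-! Consequences of the axioms of a filling datum. -/

theorem enda_ang_neg (s θ : ℝ) : ang (-s) (ang s θ) = θ := by
  rw [ang_ang, neg_add_cancel, ang_zero]

theorem enda_ang_shift (t φ : ℝ) :
    ang (-(LL * (t + 2))) φ = ang (-(2 * LL)) (ang (-(LL * t)) φ) := by
  rw [ang_ang]
  congr 1
  ring

theorem enda_cont_ang : Continuous fun a : ℝ × ℝ => ang (-(LL * a.2)) a.1 :=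
  continuous_ang.comp (f := fun a : ℝ × ℝ => (-(LL * a.2), a.1)) (by fun_prop)

theorem enda_ang_small (δ : ℝ) (hδ : 0 < δ) :
    ∃ δ' > 0, ∀ s φ : ℝ, |s| < δ' → |ang s φ - φ| < δ := by
  have hc : Continuous fun a : ℝ × ℝ => ang (Real.sin a.2) a.1 - a.1 :=
    (continuous_ang.comp (f := fun a : ℝ × ℝ => (Real.sin a.2, a.1)) (by fun_prop)).sub
      continuous_fst
  obtain ⟨-, hu, -⟩ := periodic_bounded hc pi_pos two_pi_pos
    (fun x y => by simp only [ang_add_pi]; ring) (fun x y => by simp only [Real.sin_add_two_pi])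
  obtain ⟨δ1, h1, hu⟩ := Metric.uniformContinuous_iff.1 hu δ hδ
  obtain ⟨δ2, h2, ha⟩ := Metric.continuousAt_iff.1 (Real.continuous_arcsin.continuousAt (x := 0))
    δ1 h1
  refine ⟨min δ2 1, lt_min h2 one_pos, fun s φ hs => ?_⟩
  have hs1 := abs_lt.1 (hs.trans_le (min_le_right _ _))
  have h3 : dist (Real.arcsin s) (Real.arcsin 0) < δ1 :=
    ha (by simpa [Real.dist_eq] using hs.trans_le (min_le_left _ _))
  have h4 := hu (a := (φ, Real.arcsin s)) (b := (φ, Real.arcsin 0))
    (by rw [Prod.dist_eq, max_lt_iff]; exact ⟨by simpa using h1, h3⟩)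
  simpa [Real.dist_eq, Real.sin_arcsin hs1.1.le hs1.2.le, ang_zero] using h4

namespace End

variable (E : End)

theorem enda_P_ne : (E.P : ℝ) ≠ 0 := by exact_mod_cast E.hP.ne'

theorem enda_det : (E.u : ℝ) * E.P - E.v * E.Q = 1 := by exact_mod_cast E.det

theorem mu_int (θ t : ℝ) (k : ℤ) : E.B (θ + k * π) t = E.B θ t + k * E.sig := by
  induction k using Int.induction_on with
  | zero => simp
  | succ k ih =>
    have h := E.mu (θ + (k : ℤ) * π) t
    rw [ih] at h
    have e : θ + (((k : ℤ) + 1 : ℤ) : ℝ) * π = θ + ((k : ℤ) : ℝ) * π + π := by push_cast; ring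
    rw [e, h, sig]
    push_cast
    ring
  | pred k ih =>
    have h := E.mu (θ + (-(k : ℤ) - 1 : ℤ) * π) t
    have e : θ + ((-(k : ℤ) - 1 : ℤ) : ℝ) * π + π = θ + ((-(k : ℤ) : ℤ) : ℝ) * π := by
      push_cast; ring
    rw [e, ih] at h
    have h' : E.B (θ + ((-(k : ℤ) - 1 : ℤ) : ℝ) * π) t
        = E.B θ t + ((-(k : ℤ) : ℤ) : ℝ) * E.sig - 2 * (E.Q : ℝ) / E.P := by linarith
    rw [h', sig]
    push_cast
    ring

theorem del_int (θ t : ℝ) (k : ℤ) :
    E.B (ang (-(2 * LL * k)) θ) (t + 2 * k) = E.B θ t + 2 * k := by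
  have key : ∀ j : ℤ, E.B (ang (-(2 * LL * ((j + 1 : ℤ) : ℝ))) θ) (t + 2 * ((j + 1 : ℤ) : ℝ))
      = E.B (ang (-(2 * LL * j)) θ) (t + 2 * j) + 2 := by
    intro j
    have h := E.del (ang (-(2 * LL * j)) θ) (t + 2 * j)
    rw [ang_ang] at h
    rw [← h]
    congr 1
    · congr 1
      push_cast
      ring
    · push_cast
      ring
  induction k using Int.induction_on with
  | zero => simp [ang_zero]
  | succ k ih =>
    rw [key, ih]
    push_cast
    ring
  | pred k ih =>
    have h := key (-(k : ℤ) - 1)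
    rw [sub_add_cancel, ih] at h
    have h' : E.B (ang (-(2 * LL * ((-(k : ℤ) - 1 : ℤ) : ℝ))) θ) (t + 2 * ((-(k : ℤ) - 1 : ℤ) : ℝ))
        = E.B θ t + 2 * ((-(k : ℤ) : ℤ) : ℝ) - 2 := by linarith
    rw [h']
    push_cast
    ring

/-- The doubly periodic part of `B` in the invariant coordinates. -/
def enda_g (a : ℝ × ℝ) : ℝ := E.B (ang (-(LL * a.2)) a.1) a.2 - a.2 - E.sig * a.1 / π

theorem enda_g_props : (∃ K, ∀ a, |E.enda_g a| ≤ K) ∧ UniformContinuous E.enda_g := by
  have hc : Continuous E.enda_g := by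
    have h1 : Continuous fun a : ℝ × ℝ => E.B (ang (-(LL * a.2)) a.1) a.2 :=
      E.cont.comp (f := fun a : ℝ × ℝ => (ang (-(LL * a.2)) a.1, a.2))
        (enda_cont_ang.prodMk continuous_snd)
    exact (h1.sub continuous_snd).sub (by fun_prop)
  obtain ⟨h1, h2, -⟩ := periodic_bounded hc pi_pos two_pos
    (fun x y => by
      simp only [enda_g, ang_add_pi, E.mu, sig]
      field_simp
      ring)
    (fun x y => by
      simp only [enda_g, enda_ang_shift, E.del]
      ring)
  exact ⟨h1, h2⟩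

theorem enda_B_eq (θ t : ℝ) :
    E.B θ t = E.enda_g (ang (LL * t) θ, t) + t + E.sig * ang (LL * t) θ / π := by
  simp only [enda_g, enda_ang_neg]
  ring

/-- `B θ t - t - σ θ / π` is bounded (use `periodic_bounded` in the coordinates
`(ang (LL * t) θ, t)`). -/
theorem bound : ∃ K, ∀ θ t, |E.B θ t - t - E.sig * θ / π| ≤ K := by
  obtain ⟨K, hK⟩ := E.enda_g_props.1
  refine ⟨K + |E.sig|, fun θ t => ?_⟩
  have e : E.B θ t - t - E.sig * θ / π
      = E.enda_g (ang (LL * t) θ, t) + E.sig * ((ang (LL * t) θ - θ) / π) := by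
    rw [E.enda_B_eq θ t]
    ring
  rw [e]
  refine (abs_add_le _ _).trans (add_le_add (hK _) ?_)
  rw [abs_mul]
  refine mul_le_of_le_one_right (abs_nonneg _) ?_
  rw [abs_div, abs_of_pos pi_pos, div_le_one pi_pos]
  linarith [abs_ang_sub_lt (LL * t) θ, pi_pos]

theorem surj (θ : ℝ) : Function.Surjective (E.B θ) := by
  obtain ⟨K, hK⟩ := E.bound
  have hc : Continuous (E.B θ) :=
    E.cont.comp (f := fun t : ℝ => (θ, t)) (by fun_prop)
  refine hc.surjective ?_ ?_
  · refine tendsto_atTop_mono (f := fun t => t + (E.sig * θ / π - K)) (fun t => ?_)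
      (tendsto_atTop_add_const_right _ _ tendsto_id)
    linarith [(abs_le.1 (hK θ t)).1]
  · refine tendsto_atBot_mono (f := fun t => t + (E.sig * θ / π + K)) (fun t => ?_)
      (tendsto_atBot_add_const_right _ _ tendsto_id)
    linarith [(abs_le.1 (hK θ t)).2]

/-- Uniform continuity in the invariant coordinates. -/
theorem unif : ∀ η > 0, ∃ δ > 0, ∀ θ t θ' t', |t - t'| < δ →
    |ang (LL * t) θ - ang (LL * t') θ'| < δ → |E.B θ t - E.B θ' t'| < η := by
  intro η hη
  obtain ⟨δ0, h0, hu⟩ := Metric.uniformContinuous_iff.1 E.enda_g_props.2 (η / 3) (by positivity)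
  have hs : 0 < |E.sig| + 1 := by positivity
  refine ⟨min δ0 (η / 3 / (|E.sig| + 1)), lt_min h0 (by positivity), fun θ t θ' t' h1 h2 => ?_⟩
  set φ := ang (LL * t) θ with hφ
  set φ' := ang (LL * t') θ' with hφ'
  have h3 := hu (a := (φ, t)) (b := (φ', t')) (by
    rw [Prod.dist_eq, max_lt_iff]
    exact ⟨h2.trans_le (min_le_left _ _), h1.trans_le (min_le_left _ _)⟩)
  rw [Real.dist_eq] at h3
  have h4 : |t - t'| * (|E.sig| + 1) < η / 3 :=
    (lt_div_iff₀ hs).1 (h1.trans_le (min_le_right _ _))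
  have h5 : |φ - φ'| * (|E.sig| + 1) < η / 3 :=
    (lt_div_iff₀ hs).1 (h2.trans_le (min_le_right _ _))
  have e : E.B θ t - E.B θ' t'
      = (E.enda_g (φ, t) - E.enda_g (φ', t')) + (t - t') + E.sig * ((φ - φ') / π) := by
    rw [E.enda_B_eq θ t, E.enda_B_eq θ' t']
    ring
  have h6 : |E.sig * ((φ - φ') / π)| ≤ |E.sig| * |φ - φ'| := by
    rw [abs_mul, abs_div, abs_of_pos pi_pos]
    exact mul_le_mul_of_nonneg_left (div_le_self (abs_nonneg _) (by linarith [pi_gt_three]))
      (abs_nonneg _)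
  rw [e]
  have h7 := abs_add_three (E.enda_g (φ, t) - E.enda_g (φ', t')) (t - t') (E.sig * ((φ - φ') / π))
  nlinarith [abs_nonneg (t - t'), abs_nonneg (φ - φ'), abs_nonneg E.sig,
    mul_nonneg (abs_nonneg (t - t')) (abs_nonneg E.sig)]

theorem unif_t : ∀ η > 0, ∃ δ > 0, ∀ θ t t', |t - t'| < δ → |E.B θ t - E.B θ t'| < η := by
  intro η hη
  obtain ⟨δ, hδ, hu⟩ := E.unif η hη
  obtain ⟨δ', hδ', ha⟩ := enda_ang_small δ hδ
  refine ⟨min δ (δ' / LL), lt_min hδ (div_pos hδ' LL_pos), fun θ t t' h => ?_⟩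
  refine hu θ t θ t' (h.trans_le (min_le_left _ _)) ?_
  have h1 : |LL * (t - t')| < δ' := by
    rw [abs_mul, abs_of_pos LL_pos, mul_comm]
    exact (lt_div_iff₀ LL_pos).1 (h.trans_le (min_le_right _ _))
  have h2 := ha _ (ang (LL * t') θ) h1
  rw [ang_ang] at h2
  have e : LL * (t - t') + LL * t' = LL * t := by ring
  rwa [e] at h2

theorem gain (δ : ℝ) (hδ : 0 < δ) : ∃ η > 0, ∀ θ t, η ≤ E.B θ (t + δ) - E.B θ t := by
  have hc : Continuous fun a : ℝ × ℝ =>
      E.B (ang (-(LL * a.2)) a.1) (a.2 + δ) - E.B (ang (-(LL * a.2)) a.1) a.2 :=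
    (E.cont.comp (f := fun a : ℝ × ℝ => (ang (-(LL * a.2)) a.1, a.2 + δ))
        (enda_cont_ang.prodMk (by fun_prop))).sub
      (E.cont.comp (f := fun a : ℝ × ℝ => (ang (-(LL * a.2)) a.1, a.2))
        (enda_cont_ang.prodMk continuous_snd))
  obtain ⟨-, -, h3⟩ := periodic_bounded hc pi_pos two_pos
    (fun x y => by
      simp only [ang_add_pi, E.mu]
      ring)
    (fun x y => by
      have e : y + 2 + δ = y + δ + 2 := by ring
      simp only [enda_ang_shift, e, E.del]
      ring)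
  obtain ⟨η, hη, h⟩ := h3 fun a => sub_pos.2 (E.mono _ (lt_add_of_pos_right _ hδ))
  refine ⟨η, hη, fun θ t => ?_⟩
  simpa only [enda_ang_neg] using h (ang (LL * t) θ, t)

theorem unif_inv : ∀ δ > 0, ∃ η > 0, ∀ θ t t', |E.B θ t - E.B θ t'| < η → |t - t'| < δ := by
  intro δ hδ
  obtain ⟨η, hη, h⟩ := E.gain δ hδ
  refine ⟨η, hη, fun θ t t' hB => ?_⟩
  have hB' := abs_lt.1 hB
  rw [abs_lt]
  constructor
  · by_contra hc
    have := (E.mono θ).monotone (show t + δ ≤ t' by linarith)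
    linarith [h θ t]
  · by_contra hc
    have := (E.mono θ).monotone (show t' + δ ≤ t by linarith)
    linarith [h θ t']

/-- Inverse of `B θ`. -/
def Bi (θ b : ℝ) : ℝ := Function.surjInv (E.surj θ) b

theorem B_Bi (θ b : ℝ) : E.B θ (E.Bi θ b) = b := Function.surjInv_eq _ _
theorem Bi_B (θ t : ℝ) : E.Bi θ (E.B θ t) = t := (E.mono θ).injective (E.B_Bi θ _)
theorem continuous_Bi : Continuous fun a : ℝ × ℝ => E.Bi a.1 a.2 := by
  have h := continuousOn_inv (T := ℝ) isOpen_univ (f := E.B) (g := E.Bi) E.cont.continuousOn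
    (fun z _ => E.mono z) (fun z _ y => E.B_Bi z y)
  rwa [univ_prod_univ, continuousOn_univ] at h

theorem coprime : IsCoprime E.P E.Q := ⟨E.u, -E.v, by linarith [E.det]⟩

theorem kap_mu (θ t : ℝ) (k : ℤ) : E.kap (θ + k * π) t = E.kap θ t + k * π := by
  have e : (θ + k * π) / π = θ / π + k := by field_simp
  rw [kap, kap, ang_add_int_pi, E.mu_int, e, Int.floor_add_intCast]
  congr 2
  push_cast
  ring

theorem kap_del (θ t : ℝ) (k : ℤ) :
    E.kap (ang (-(2 * LL * k)) θ) (t + 2 * k) = E.kap θ t := by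
  rw [kap, kap, E.del_int, floor_ang, ang_ang]
  congr 1
  ring

/-- The deck group acts on `(aa, bb)` through the unimodular matrix. -/
theorem aa_deck (θ t : ℝ) (m n : ℤ) :
    E.aa (ang (-(2 * LL * n)) θ + m * π) (t + 2 * n) = E.aa θ t + (m * E.u + n * E.v : ℤ) := by
  have hP := E.enda_P_ne
  have hu : (E.u : ℝ) = (1 + E.v * E.Q) / E.P := by
    rw [eq_div_iff hP]
    linarith [E.enda_det]
  rw [aa, aa, E.kap_mu, E.kap_del, E.mu_int, E.del_int, sig]
  push_cast
  rw [hu]
  field_simp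
  ring

theorem bb_deck (θ t : ℝ) (m n : ℤ) :
    E.bb (ang (-(2 * LL * n)) θ + m * π) (t + 2 * n) = E.bb θ t + (m * E.Q + n * E.P : ℤ) := by
  have hP := E.enda_P_ne
  rw [bb, bb, E.mu_int, E.del_int, sig]
  push_cast
  field_simp
  ring

/-- The angle `κ` as a function of `(a, b)`. -/
def enda_k (a : ℝ × ℝ) : ℝ := π * E.P * (a.1 - E.v * (2 * a.2 / E.P) / 2)

/-- The angle `θ` as a function of `(a, b)`. -/
def enda_th (a : ℝ × ℝ) : ℝ :=
  ang (-(LL * (2 * a.2 / E.P - E.sig * (⌊E.enda_k a / π⌋ : ℤ)))) (E.enda_k a)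

theorem enda_cont_kap : Continuous fun a : ℝ × ℝ => E.kap a.1 a.2 := by
  have h := (continuous_ang_floor (-(LL * E.sig)) 0).comp
    (f := fun a : ℝ × ℝ => (LL * E.B a.1 a.2, a.1))
    ((continuous_const.mul E.cont).prodMk continuous_fst)
  refine h.congr fun a => ?_
  simp only [Function.comp, kap]
  congr 1
  ring

theorem enda_cont_th : Continuous E.enda_th := by
  have hk : Continuous E.enda_k := by unfold enda_k; fun_prop
  have h := (continuous_ang_floor (LL * E.sig) 0).comp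
    (f := fun a : ℝ × ℝ => (-(LL * (2 * a.2 / E.P)), E.enda_k a))
    (Continuous.prodMk (by fun_prop) hk)
  refine h.congr fun a => ?_
  simp only [Function.comp, enda_th]
  congr 1
  ring

/-- The coordinates `(aa, bb)` on the universal cover of the boundary torus. The inverse is
`B = 2 b / P`, `κ = π P (a - v B / 2)`, `θ = ang (-(LL * (B - σ ⌊κ / π⌋))) κ`, `t = Bi θ B`. -/
theorem exists_phi : ∃ Φ : ℝ × ℝ ≃ₜ ℝ × ℝ, ∀ θ t, Φ (θ, t) = (E.aa θ t, E.bb θ t) := by
  have hP := E.enda_P_ne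
  have hpi := pi_ne_zero
  refine ⟨{ toFun := fun a => (E.aa a.1 a.2, E.bb a.1 a.2)
            invFun := fun a => (E.enda_th a, E.Bi (E.enda_th a) (2 * a.2 / E.P))
            left_inv := ?_
            right_inv := ?_
            continuous_toFun := ?_
            continuous_invFun := ?_ }, fun _ _ => rfl⟩
  · rintro ⟨θ, t⟩
    have e1 : 2 * E.bb θ t / E.P = E.B θ t := by
      rw [bb]
      field_simp
    have e2 : E.enda_k (E.aa θ t, E.bb θ t) = E.kap θ t := by
      simp only [enda_k, e1, aa]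
      field_simp
      ring
    have e3 : E.enda_th (E.aa θ t, E.bb θ t) = θ := by
      simp only [enda_th, e1, e2]
      rw [kap, floor_ang, enda_ang_neg]
    simp only [e1, e3, Bi_B]
  · rintro ⟨a, b⟩
    have e1 : ⌊E.enda_th (a, b) / π⌋ = ⌊E.enda_k (a, b) / π⌋ := by rw [enda_th, floor_ang]
    have e2 : E.kap (E.enda_th (a, b)) (E.Bi (E.enda_th (a, b)) (2 * b / E.P))
        = E.enda_k (a, b) := by
      rw [kap, B_Bi, e1]
      conv_lhs => rw [enda_th]
      rw [ang_ang, add_neg_cancel, ang_zero]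
    simp only [aa, bb, e2, B_Bi, enda_k]
    refine Prod.ext ?_ ?_
    · simp only
      field_simp
      ring
    · simp only
      field_simp
  · have h1 := E.cont
    have h2 := E.enda_cont_kap
    refine Continuous.prodMk ?_ ?_
    · exact (h2.div_const _).add ((continuous_const.mul h1).div_const _)
    · exact (continuous_const.mul h1).div_const _
  · exact E.enda_cont_th.prodMk (E.continuous_Bi.comp
      (f := fun a : ℝ × ℝ => (E.enda_th a, 2 * a.2 / E.P))
      (E.enda_cont_th.prodMk (by fun_prop)))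

/-- The homeomorphism `(θ, t) ↦ (aa, bb)`. -/
def phi : ℝ × ℝ ≃ₜ ℝ × ℝ := E.exists_phi.choose

theorem phi_apply (θ t : ℝ) : E.phi (θ, t) = (E.aa θ t, E.bb θ t) := E.exists_phi.choose_spec θ t

/-- Integer translations of `(aa, bb)` are deck transformations. -/
theorem phi_symm_add (a b : ℝ) (x y : ℤ) :
    E.phi.symm (a + x, b + y) =
      (ang (-(2 * LL * (y * E.u - x * E.Q : ℤ))) (E.phi.symm (a, b)).1 +
          (x * E.P - y * E.v : ℤ) * π,
        (E.phi.symm (a, b)).2 + 2 * (y * E.u - x * E.Q : ℤ)) := by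
  apply E.phi.injective
  have h : E.phi ((E.phi.symm (a, b)).1, (E.phi.symm (a, b)).2) = (a, b) :=
    E.phi.apply_symm_apply (a, b)
  rw [phi_apply, Prod.mk.injEq] at h
  rw [Homeomorph.apply_symm_apply, phi_apply, aa_deck, bb_deck, h.1, h.2]
  have e1 : (x * E.P - y * E.v) * E.u + (y * E.u - x * E.Q) * E.v = x := by
    linear_combination x * E.det
  have e2 : (x * E.P - y * E.v) * E.Q + (y * E.u - x * E.Q) * E.P = y := by
    linear_combination y * E.det
  rw [e1, e2]

end End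

end Pool.Agent.Zig
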