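import Pool.Agent.Lib.MP_d77862_gt.EndA

noncomputable section

namespace Pool.Agent.Zig

open Set Filter Topology Complex Real

/-! The core coordinate near an arbitrary corner, and the deck group. -/

/-- The trivial datum: filling along the fibre slope. -/
def End.triv : End where
  B := fun _ t => t
  P := 1
  Q := 0
  u := 1
  v := 0
  hP := one_pos
  det := by norm_num
  cont := continuous_snd
  mono := fun _ => strictMono_id
  mu := by intro θ t; simp
  del := by intro θ t; rfl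

theorem endl_min (f : Fin 2 → ℝ) (h : ∀ i, 0 < f i) : ∃ δ > 0, ∀ i, δ ≤ f i :=
  ⟨min (f 0) (f 1), lt_min (h 0) (h 1), Fin.forall_fin_two.2 ⟨min_le_left _ _, min_le_right _ _⟩⟩

theorem endl_max (f : Fin 2 → ℝ) : ∃ K, ∀ i, f i ≤ K :=
  ⟨max (f 0) (f 1), Fin.forall_fin_two.2 ⟨le_max_left _ _, le_max_right _ _⟩⟩

theorem endl_ang (t s θ : ℝ) : ang (LL * (t + s)) (ang (-(LL * s)) θ) = ang (LL * t) θ := by
  rw [ang_ang]
  congr 1
  ring

theorem endl_DD (s : ℝ) (z : ℂ) (r θ : ℝ) :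
    DD s (z + r * dir θ) = DD s z + (r * nrm (LL * s) θ : ℝ) * dir (ang (LL * s) θ) := by
  unfold DD
  rw [Dg_add, Dg_real_mul, Dg_dir]
  push_cast
  ring

variable (E : Fin 2 → End)

theorem Bc_bc (i : Fin 2) (θ t : ℝ) : Bc E (bc i) θ t = (E i).B θ t := by
  unfold Bc
  rw [idx_bc]
  simp [bc, ang_zero]

theorem continuous_Bc (c : ℤ × ℤ) : Continuous fun a : ℝ × ℝ => Bc E c a.1 a.2 := by
  unfold Bc
  exact (E (idx c)).cont.comp (f := fun a : ℝ × ℝ => (ang (-(LL * c.2)) a.1, a.2 + c.2))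
    ((continuous_ang.comp (f := fun a : ℝ × ℝ => (-(LL * c.2), a.1))
      (continuous_const.prodMk continuous_fst)).prodMk (continuous_snd.add continuous_const))

theorem strictMono_Bc (c : ℤ × ℤ) (θ : ℝ) : StrictMono (Bc E c θ) := by
  intro a b h
  exact (E (idx c)).mono _ (by linarith)

theorem surj_Bc (c : ℤ × ℤ) (θ : ℝ) : Function.Surjective (Bc E c θ) := by
  intro y
  obtain ⟨t, ht⟩ := (E (idx c)).surj (ang (-(LL * c.2)) θ) y
  exact ⟨t - c.2, by simp [Bc, ht]⟩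

theorem Bc_mu (c : ℤ × ℤ) (θ t : ℝ) (k : ℤ) :
    Bc E c (θ + k * π) t = Bc E c θ t + k * (E (idx c)).sig := by
  unfold Bc
  rw [ang_add_int_pi, End.mu_int]

theorem Bc_del (c : ℤ × ℤ) (θ t : ℝ) (k : ℤ) :
    Bc E c (ang (-(2 * LL * k)) θ) (t + 2 * k) = Bc E c θ t + 2 * k := by
  unfold Bc
  rw [← (E (idx c)).del_int, ang_ang, ang_ang]
  congr 1
  · rw [add_comm]
  · ring

/-- Equivariance under the group, up to an even integer. -/
theorem Bc_act {c c' : ℤ × ℤ} {n k : ℤ} (hi : idx c' = idx c) (hk : c'.2 - c.2 - n = 2 * k)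
    (θ t : ℝ) : Bc E c' (ang (LL * n) θ) (t - n) = Bc E c θ t + 2 * k := by
  have h2 : (c'.2 : ℝ) = c.2 + n + 2 * k := by
    have : c'.2 = c.2 + n + 2 * k := by omega
    exact_mod_cast this
  unfold Bc
  rw [hi, ← (E (idx c)).del_int, ang_ang, ang_ang, h2]
  congr 1
  · congr 1
    ring
  · ring

theorem Bc_bound : ∃ K, ∀ c θ θ' t t', |θ - θ'| ≤ π →
    |(Bc E c θ t - t) - (Bc E c θ' t' - t')| ≤ K := by
  choose K hK using fun i => (E i).bound
  obtain ⟨K', hK'⟩ := endl_max fun i => 2 * K i + 2 * |(E i).sig|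
  refine ⟨K', fun c θ θ' t t' h => le_trans ?_ (hK' (idx c))⟩
  unfold Bc
  have h1 := abs_le.1 (hK (idx c) (ang (-(LL * c.2)) θ) (t + c.2))
  have h2 := abs_le.1 (hK (idx c) (ang (-(LL * c.2)) θ') (t' + c.2))
  have h3 := abs_lt.1 (abs_ang_sub_lt (-(LL * c.2)) θ)
  have h4 := abs_lt.1 (abs_ang_sub_lt (-(LL * c.2)) θ')
  have h5 := abs_le.1 h
  have h6 : |ang (-(LL * c.2)) θ - ang (-(LL * c.2)) θ'| ≤ 2 * π :=
    abs_le.2 ⟨by linarith, by linarith⟩
  have h7 : |(E (idx c)).sig * ang (-(LL * c.2)) θ / π -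
      (E (idx c)).sig * ang (-(LL * c.2)) θ' / π| ≤ 2 * |(E (idx c)).sig| := by
    rw [← sub_div, ← mul_sub, abs_div, abs_mul, abs_of_pos Real.pi_pos, div_le_iff₀ Real.pi_pos]
    have := mul_le_mul_of_nonneg_left h6 (abs_nonneg (E (idx c)).sig)
    linarith
  have h8 := abs_le.1 h7
  exact abs_le.2 ⟨by linarith, by linarith⟩

theorem Bc_unif : ∀ η > 0, ∃ δ > 0, ∀ c θ t θ' t', |t - t'| < δ →
    |ang (LL * t) θ - ang (LL * t') θ'| < δ → |Bc E c θ t - Bc E c θ' t'| < η := by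
  intro η hη
  choose d hd hd' using fun i => (E i).unif η hη
  obtain ⟨δ, hδ, hδ'⟩ := endl_min d hd
  refine ⟨δ, hδ, fun c θ t θ' t' h1 h2 => hd' (idx c) _ _ _ _ ?_ ?_⟩
  · rw [add_sub_add_right_eq_sub]
    exact h1.trans_le (hδ' _)
  · rw [endl_ang, endl_ang]
    exact h2.trans_le (hδ' _)

theorem Bc_unif_t : ∀ η > 0, ∃ δ > 0, ∀ c θ t t', |t - t'| < δ →
    |Bc E c θ t - Bc E c θ t'| < η := by
  intro η hη
  choose d hd hd' using fun i => (E i).unif_t η hη
  obtain ⟨δ, hδ, hδ'⟩ := endl_min d hd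
  refine ⟨δ, hδ, fun c θ t t' h1 => hd' (idx c) _ _ _ ?_⟩
  rw [add_sub_add_right_eq_sub]
  exact h1.trans_le (hδ' _)

theorem Bc_gain : ∃ η > 0, ∀ c θ t, η ≤ Bc E c θ (t + 1) - Bc E c θ t := by
  choose d hd hd' using fun i => (E i).gain 1 one_pos
  obtain ⟨η, hη, hη'⟩ := endl_min d hd
  refine ⟨η, hη, fun c θ t => (hη' (idx c)).trans ?_⟩
  unfold Bc
  rw [add_right_comm]
  exact hd' _ _ _

theorem Bc_unif_inv : ∀ δ > 0, ∃ η > 0, ∀ c θ t t',
    |Bc E c θ t - Bc E c θ t'| < η → |t - t'| < δ := by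
  intro δ hδ
  choose d hd hd' using fun i => (E i).unif_inv δ hδ
  obtain ⟨η, hη, hη'⟩ := endl_min d hd
  refine ⟨η, hη, fun c θ t t' h1 => ?_⟩
  have := hd' (idx c) _ _ _ (h1.trans_le (hη' _))
  rwa [add_sub_add_right_eq_sub] at this

/-- The deck transformations at a base corner belong to the group. -/
theorem rel_deck (i : Fin 2) (r θ t : ℝ) (m n : ℤ) :
    Rel (cor (bc i) + r * dir θ, t)
      (cor (bc i) + (r * nrm (-(2 * LL * n)) θ : ℝ) * dir (ang (-(2 * LL * n)) θ + m * π),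
        t + 2 * n) := by
  obtain ⟨e, he⟩ : ∃ e : ℤˣ, ((e : ℤ) : ℂ) = (-1 : ℂ) ^ m := by
    rcases Int.even_or_odd m with h | h
    · exact ⟨1, by simp [h.neg_one_zpow]⟩
    · exact ⟨-1, by simp [h.neg_one_zpow]⟩
  obtain ⟨c', hc, p1, p2⟩ := DD_int_cor (-2 * n) (bc i)
  have hs : LL * ((-2 * n : ℤ) : ℝ) = -(2 * LL * n) := by
    push_cast
    ring
  have hD := endl_DD (-2 * n : ℤ) (cor (bc i)) r θ
  rw [hs, hc] at hD
  rcases Int.units_eq_one_or e with rfl | rfl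
  · refine ⟨-2 * n, 1, bc i - c', ⟨?_, ?_⟩, ?_⟩
    · simp only [Prod.fst_sub, Int.even_iff] at p1 ⊢
      omega
    · simp only [Prod.snd_sub, Int.even_iff] at p2 ⊢
      omega
    · unfold act
      rw [hD, dir_add_int_pi, ← he, cor_sub]
      refine Prod.ext ?_ ?_
      · simp only [Units.val_one]
        push_cast
        ring
      · push_cast
        ring
  · refine ⟨-2 * n, -1, bc i + c', ⟨?_, ?_⟩, ?_⟩
    · simp only [Prod.fst_add, Int.even_iff] at p1 ⊢
      omega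
    · simp only [Prod.snd_add, Int.even_iff] at p2 ⊢
      omega
    · unfold act
      rw [hD, dir_add_int_pi, ← he, cor_add]
      refine Prod.ext ?_ ?_
      · simp only [Units.val_neg, Units.val_one]
        push_cast
        ring
      · push_cast
        ring

/-- Two related points of the tubes differ by a deck transformation. -/
theorem deck_of_rel {i j : Fin 2} {r θ t r' θ' t' : ℝ} (hr : 0 < r) (hr' : 0 < r')
    (h1 : r * nrm (LL * t) θ < 1 / 2) (h2 : r' * nrm (LL * t') θ' < 1 / 2)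
    (h : Rel (cor (bc i) + r * dir θ, t) (cor (bc j) + r' * dir θ', t')) :
    i = j ∧ r * nrm (LL * t) θ = r' * nrm (LL * t') θ' ∧
      ∃ m n : ℤ, θ' = ang (-(2 * LL * n)) θ + m * π ∧ t' = t + 2 * n := by
  obtain ⟨n, e, c, hA, hq⟩ := h
  obtain ⟨d, hd, hi, hev, hρ⟩ := act_cor e hA (bc i)
  have r1 := hρ (cor (bc i) + r * dir θ, t)
  rw [← hq, rho_polar _ _ _ _ hr.le] at r1
  have r2 := rho_polar (bc j) t' r' θ' hr'.le
  have hdj : d = bc j := eq_of_rho_add_lt (p := (cor (bc j) + r' * dir θ', t')) (by linarith)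
  subst hdj
  rw [idx_bc, idx_bc] at hi
  refine ⟨hi.symm, by linarith, ?_⟩
  obtain ⟨k, hk⟩ := hev
  have hn : n = -2 * k := by
    simp only [bc] at hk
    omega
  subst hn
  have hs : LL * ((-2 * k : ℤ) : ℝ) = -(2 * LL * k) := by
    push_cast
    ring
  have hD := endl_DD (-2 * k : ℤ) (cor (bc i)) r θ
  rw [hs] at hD
  have q1 := congrArg Prod.fst hq
  have q2 := congrArg Prod.snd hq
  simp only [act] at q1 q2
  rw [hD, mul_add, add_right_comm, ← hd, add_right_inj] at q1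
  have ht : t' = t + 2 * k := by
    rw [q2]
    push_cast
    ring
  have hp : 0 < r * nrm (-(2 * LL * k)) θ := mul_pos hr (nrm_pos _ _)
  rcases Int.units_eq_one_or e with rfl | rfl
  · obtain ⟨-, l, hl⟩ := polar_unique (θ := ang (-(2 * LL * k)) θ) (θ' := θ') hp hr'
      (by rw [q1]; simp)
    refine ⟨2 * l, k, ?_, ht⟩
    rw [hl]
    push_cast
    ring
  · obtain ⟨-, l, hl⟩ := polar_unique (θ := ang (-(2 * LL * k)) θ + π) (θ' := θ') hp hr'
      (by rw [q1, dir_add_pi]; simp)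
    refine ⟨2 * l + 1, k, ?_, ht⟩
    rw [hl]
    push_cast
    ring

/-- A point near a corner is related to a point near the base corner. -/
theorem rel_bc (c : ℤ × ℤ) (r θ t : ℝ) :
    Rel (cor c + r * dir θ, t)
      (cor (bc (idx c)) + (r * nrm (-(LL * c.2)) θ : ℝ) * dir (ang (-(LL * c.2)) θ), t + c.2) ∧
    r * nrm (-(LL * c.2)) θ * nrm (LL * (t + c.2)) (ang (-(LL * c.2)) θ) =
      r * nrm (LL * t) θ := by
  refine ⟨rel_symm ?_, ?_⟩
  · obtain ⟨c0, hA, hc⟩ := exists_act_bc c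
    refine ⟨c.2, 1, c0, hA, ?_⟩
    have hn := nrm_ang (LL * c.2) (-(LL * c.2)) θ
    rw [add_neg_cancel, nrm_zero] at hn
    have hn' : r * nrm (-(LL * c.2)) θ * nrm (LL * c.2) (ang (-(LL * c.2)) θ) = r := by
      rw [mul_assoc, mul_comm (nrm _ θ), hn, mul_one]
    unfold act
    rw [endl_DD, ang_ang, add_neg_cancel, ang_zero, hn', hc]
    refine Prod.ext ?_ ?_
    · simp only [Units.val_one]
      push_cast
      ring
    · simp
  · rw [mul_assoc, mul_comm (nrm _ θ), nrm_ang]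
    congr 2
    ring

end Pool.Agent.Zig
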