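import Pool.Agent.Lib.MP_d77862_gt.Exp3
import Pool.Agent.Lib.MP_d77862_gt.FlowL

noncomputable section

namespace Pool.Agent.Zig

open Set Filter Topology Complex Real

/-! Expansivity of the surgered flow when every core has at least two prongs. -/

variable {E : Fin 2 → End} {M : Type} [TopologicalSpace M] {m : Model E M}

/-- An orbit other than a core does not follow a core inside the thin tube. -/
theorem FlowM.not_follow_core (f : FlowM m) {δ : ℝ} (h1 : ∀ i, δ ≤ 1 / ((E i).P : ℝ))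
    {i : Fin 2} {u : Circle} {q : ℂ × ℝ} (hq : q ∈ XX) {s : ℝ → ℝ} (hs : Continuous s) :
    ¬ ∀ t, (f.φ t (m.τ i (0, u)), f.φ (s t) (m.ι q)) ∈ m.WII δ := by
  intro hW
  obtain ⟨y, t0⟩ := q
  have hPi : (0 : ℝ) < (E i).P := by exact_mod_cast (E i).hP
  obtain ⟨b0, rfl⟩ : ∃ b0 : ℝ, u = Circle.exp (π * (E i).P * b0) := by
    refine ⟨arg (u : ℂ) / (π * (E i).P), ?_⟩
    rw [mul_div_cancel₀ _ (mul_pos Real.pi_pos hPi).ne', Circle.exp_arg]
  obtain ⟨η, -, -, hη⟩ := f.exists_height hq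
  have hh : Continuous fun t => η (s t) := η.continuous.comp hs
  have hX : ∀ t, (y, t) ∈ XX := fun t => (mem_XX_iff y t0 t).1 hq
  have hW' : ∀ t, (m.τ i (0, Circle.exp (π * (E i).P * (t + b0))), m.ι (y, η (s t))) ∈
      m.WII δ := fun t => by
    have := hW t
    rwa [f.hτ, hη, ← Circle.exp_add, ← mul_add] at this
  have hc : ∀ t, ∃ c, rho c (y, η (s t)) < eps / 2 := fun t => m.WII_snd (hX _) (hW' t)
  obtain ⟨c, hc0⟩ := hc 0
  have hc1 : ∀ t, rho c (y, η (s t)) < eps := fun t =>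
    (exists_corner_of_path (f := fun t => (y, η (s t))) isPreconnected_univ
      (continuous_const.prodMk hh).continuousOn (by norm_num [eps]) (fun a _ => hc a)
      (mem_univ 0) hc0 t (mem_univ t)).trans (half_lt_self eps_pos)
  have hr : 0 < ‖y - cor c‖ := norm_pos_iff.2 (sub_ne_zero.2 (hq c))
  obtain ⟨θ, hθ⟩ : ∃ θ, y = cor c + (‖y - cor c‖ : ℝ) * dir θ :=
    ⟨arg (y - cor c), by rw [norm_mul_dir_arg]; ring⟩
  have hk : ∀ t, ∃ k : ℤ, |Bc E c θ (η (s t)) - (t + b0) - k * (2 / ((E i).P : ℝ))| < δ :=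
    fun t => m.WII_core hr (hθ ▸ hc1 t) (hθ ▸ hW' t)
  obtain ⟨k0, hk0⟩ := hk 0
  have hD : Continuous fun t => Bc E c θ (η (s t)) - (t + b0) :=
    ((continuous_Bc E c).comp (continuous_const.prodMk hh)).sub (by fun_prop)
  have ha : 2 * δ ≤ 2 / ((E i).P : ℝ) := by
    have := h1 i
    rw [div_eq_mul_one_div]
    linarith
  have hall := near_lattice isPreconnected_univ hD.continuousOn ha (fun t _ => hk t)
    (mem_univ 0) hk0
  refine not_forall_rho (hX 0) hh (fun T => ?_) (fun T => ?_) fun t => ⟨c, hc1 t⟩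
  · refine ⟨Bc E c θ T - b0 - k0 * (2 / ((E i).P : ℝ)) + δ,
      ((strictMono_Bc E c θ).lt_iff_lt.1 ?_).le⟩
    have := (abs_lt.1 (hall (Bc E c θ T - b0 - k0 * (2 / ((E i).P : ℝ)) + δ) (mem_univ _))).1
    linarith
  · refine ⟨Bc E c θ T - b0 - k0 * (2 / ((E i).P : ℝ)) - δ,
      ((strictMono_Bc E c θ).lt_iff_lt.1 ?_).le⟩
    have := (abs_lt.1 (hall (Bc E c θ T - b0 - k0 * (2 / ((E i).P : ℝ)) - δ) (mem_univ _))).2
    linarith

theorem FlowM.expansive (f : FlowM m) (hP : ∀ i, 2 ≤ (E i).P) : Expansive f.φ := by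
  intro ε hε
  obtain ⟨δs, hδs, hsmall⟩ := f.C.small ε hε
  obtain ⟨η0, hη0, hinv⟩ := Bc_unif_inv E δs hδs
  have hPi : ∀ i, (1 : ℝ) ≤ (E i).P := fun i => by
    have := hP i
    exact_mod_cast (show (1 : ℤ) ≤ (E i).P by omega)
  obtain ⟨δ', h0, h1, h2, h3⟩ : ∃ δ' : ℝ, 0 < δ' ∧ (∀ i, δ' ≤ 1 / ((E i).P : ℝ)) ∧ δ' ≤ η0 ∧
      δ' ≤ ε := by
    refine ⟨min (min (1 / ((E 0).P : ℝ)) (1 / ((E 1).P : ℝ))) (min η0 ε), ?_, ?_,
      (min_le_right _ _).trans (min_le_left _ _), (min_le_right _ _).trans (min_le_right _ _)⟩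
    · have a0 := hPi 0
      have a1 := hPi 1
      positivity
    · rw [Fin.forall_fin_two]
      exact ⟨(min_le_left _ _).trans (min_le_left _ _), (min_le_left _ _).trans (min_le_right _ _)⟩
  have h4 : δ' ≤ 1 := (h1 0).trans (div_le_self zero_le_one (hPi 0))
  obtain ⟨δ0, hδ0, hlift⟩ := m.lift_path hP h0 h1
  obtain ⟨K, hK⟩ := CII_bound E
  refine ⟨m.WI (min δ0 δs) ∪ m.WII δ', ((m.isOpen_WI _).union (m.isOpen_WII _)).mem_nhdsSet.2
    (m.diagonal_subset (lt_min hδ0 hδs) h0), fun x y s hs hs0 hW => ?_⟩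
  have hcore : ∀ t i u, f.φ t (m.τ i (0, u)) ∈ core m.τ := fun t i u => ⟨i, _, f.hτ i t u⟩
  rcases m.cases x with ⟨⟨x1, t0⟩, hp, rfl⟩ | ⟨i, u, rfl⟩
  · obtain ⟨η, hη1, -, hη⟩ := f.exists_height hp
    have hX : ∀ t, (x1, t) ∈ XX := fun t => (mem_XX_iff x1 t0 t).1 hp
    rcases m.cases y with ⟨⟨y1, t1⟩, hq, rfl⟩ | ⟨j, v, rfl⟩
    · obtain ⟨η', hη1', -, hη'⟩ := f.exists_height hq
      obtain ⟨n, e, d, had, hall⟩ := hlift (min δ0 δs) (min_le_left _ _) x1 y1 η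
        (fun t => η' (s t)) (hX 0) ((mem_XX_iff y1 t1 0).1 hq) η.continuous
        (η'.continuous.comp hs) η.surjective (fun t => by rw [← hη, ← hη']; exact hW t)
      obtain ⟨z, hz⟩ : ∃ z, ∀ t, act n e d (y1, t) = (z, t - n) :=
        ⟨_, fun t => act_fst n e d y1 0 t⟩
      simp only [hz] at hall
      have hb : ∀ t, ‖DD t (x1 - z)‖ ≤ max K (min δ0 δs) := fun t => by
        obtain ⟨a, rfl⟩ := η.surjective t
        rcases hall a with h | h
        · exact h.2.1.le.trans (le_max_right _ _)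
        · exact (hK δ' h4 _ _ h).trans (le_max_left _ _)
      have hxz : x1 = z := sub_eq_zero.1
        (eq_zero_of_bounded (fun T => ⟨T, le_rfl, hb T⟩) fun T => ⟨T, le_rfl, hb T⟩)
      subst hxz
      have h5 := hall 0
      rw [hs0, hη1, hη1'] at h5
      refine ⟨f.C.c x1 t0 (t1 - n), hsmall _ _ _ hp ?_, ?_⟩
      · rcases h5 with h | h
        · exact h.1.trans_le (min_le_right _ _)
        · obtain ⟨c, θ, h⟩ := CII_same E h
          exact hinv c θ _ _ (h.trans_le h2)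
      · rw [f.hι _ _ _ hp, ← hz, m.ι_act e had hq]
    · refine absurd (fun t => ?_) (not_forall_rho (hX 0) η.continuous
        (fun T => ⟨η.symm T, (η.apply_symm_apply T).ge⟩)
        fun T => ⟨η.symm T, (η.apply_symm_apply T).le⟩)
      rcases hW t with h | h
      · exact absurd (hcore _ _ _) (m.WI_not_core h).2
      · rw [hη] at h
        obtain ⟨c, hc⟩ := m.WII_fst (hX _) h
        exact ⟨c, hc.trans (half_lt_self eps_pos)⟩
  · have hW' : ∀ t, (f.φ t (m.τ i (0, u)), f.φ (s t) y) ∈ m.WII δ' := fun t =>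
      (hW t).resolve_left fun h => (m.WI_not_core h).1 (hcore _ _ _)
    rcases m.cases y with ⟨q, hq, rfl⟩ | ⟨j, v, rfl⟩
    · exact absurd hW' (f.not_follow_core h1 hq hs)
    · have h := hW' 0
      rw [hs0, f.φ.map_zero_apply, f.φ.map_zero_apply] at h
      obtain ⟨i', w, w', u0, β, -, -, hβ, h⟩ := h
      obtain ⟨ha, hb⟩ := Prod.mk.inj h
      obtain ⟨rfl, ha'⟩ := m.tau_inj ha
      obtain ⟨rfl, hb'⟩ := m.tau_inj hb
      refine ⟨β, hβ.trans_le h3, ?_⟩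
      rw [f.hτ, (Prod.mk.inj ha').2, (Prod.mk.inj hb').2]

end Pool.Agent.Zig
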