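import Pool.Agent.Lib.MP_d77862_gt.EndL

noncomputable section

namespace Pool.Agent.Zig

open Set Filter Topology Complex Real

/-! Closeness of two points of the cover, in the thick part and in the tubes. -/

/-- Closeness in the thick part. -/
def CI (δ : ℝ) (p q : ℂ × ℝ) : Prop :=
  |p.2 - q.2| < δ ∧ ‖DD p.2 (p.1 - q.1)‖ < δ ∧ ∀ c, eps / 4 < rho c p

/-- Closeness in a tube: same corner, angles in adjacent quadrants, close core coordinates. -/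
def CII (E : Fin 2 → End) (δ : ℝ) (p q : ℂ × ℝ) : Prop :=
  ∃ (c : ℤ × ℤ) (r θ r' θ' : ℝ), 0 < r ∧ 0 < r' ∧ p.1 = cor c + r * dir θ ∧
    q.1 = cor c + r' * dir θ' ∧ rho c p < eps / 2 ∧ rho c q < eps / 2 ∧
    |⌊θ / (π / 2)⌋ - ⌊θ' / (π / 2)⌋| ≤ 1 ∧ |Bc E c θ p.2 - Bc E c θ' q.2| < δ

theorem abs_sub_lt_pi_of_quad {θ θ' : ℝ} (h : |⌊θ / (π / 2)⌋ - ⌊θ' / (π / 2)⌋| ≤ 1) :
    |θ - θ'| < π := by
  have hp : 0 < π / 2 := by positivity
  obtain ⟨a, rfl⟩ : ∃ a, θ = a * (π / 2) := ⟨θ / (π / 2), by field_simp⟩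
  obtain ⟨b, rfl⟩ : ∃ b, θ' = b * (π / 2) := ⟨θ' / (π / 2), by field_simp⟩
  rw [mul_div_cancel_right₀ _ hp.ne', mul_div_cancel_right₀ _ hp.ne', abs_le] at h
  have h1 : (-1 : ℝ) ≤ (⌊a⌋ : ℝ) - ⌊b⌋ := by exact_mod_cast h.1
  have h2 : (⌊a⌋ : ℝ) - ⌊b⌋ ≤ 1 := by exact_mod_cast h.2
  have h3 := Int.floor_le a
  have h4 := Int.floor_le b
  have h5 := Int.lt_floor_add_one a
  have h6 := Int.lt_floor_add_one b
  have h7 : |a - b| < 2 := by
    rw [abs_lt]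
    constructor <;> linarith
  rw [← sub_mul, abs_mul, abs_of_pos hp]
  nlinarith

theorem exp1_quad {φ φ' : ℝ} (h : |φ' - φ| < π / 2) :
    |⌊φ / (π / 2)⌋ - ⌊φ' / (π / 2)⌋| ≤ 1 := by
  have hp : 0 < π / 2 := by positivity
  have h1 : |φ' / (π / 2) - φ / (π / 2)| < 1 := by
    rw [← sub_div, abs_div, abs_of_pos hp, div_lt_one hp]
    exact h
  generalize φ / (π / 2) = a at h1
  generalize φ' / (π / 2) = b at h1
  rw [abs_lt] at h1
  have h3 := Int.floor_le a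
  have h4 := Int.floor_le b
  have h5 := Int.lt_floor_add_one a
  have h6 := Int.lt_floor_add_one b
  have h7 : ((⌊a⌋ - ⌊b⌋ : ℤ) : ℝ) < (2 : ℤ) := by
    push_cast
    linarith
  have h8 : ((-2 : ℤ) : ℝ) < ((⌊a⌋ - ⌊b⌋ : ℤ) : ℝ) := by
    push_cast
    linarith
  rw [Int.cast_lt] at h7 h8
  rw [abs_le]
  omega

theorem exp1_DD_polar (t r θ : ℝ) :
    DD t (r * dir θ) = ((r * nrm (LL * t) θ : ℝ) : ℂ) * dir (ang (LL * t) θ) := by
  rw [DD, Dg_real_mul, Dg_dir]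
  push_cast
  ring

theorem exp1_DD_add (t : ℝ) (z w : ℂ) : DD t (z + w) = DD t z + DD t w := Dg_add _ _ _

theorem exp1_DD_sub (t : ℝ) (z w : ℂ) : DD t (z - w) = DD t z - DD t w := Dg_sub _ _ _

/-- Two related points near the same corner differ by a deck transformation. -/
theorem deck_of_rel_corner (c : ℤ × ℤ) {r θ t r' θ' t' : ℝ} (hr : 0 < r) (hr' : 0 < r')
    (h1 : rho c (cor c + r * dir θ, t) < 1 / 2) (h2 : rho c (cor c + r' * dir θ', t') < 1 / 2)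
    (h : Rel (cor c + r * dir θ, t) (cor c + r' * dir θ', t')) :
    ∃ m n : ℤ, θ' = ang (-(2 * LL * n)) θ + m * π ∧ t' = t + 2 * n ∧
      r' = r * nrm (-(2 * LL * n)) θ := by
  obtain ⟨n₀, e, d, hd, he⟩ := h
  obtain ⟨d', h3, -, h4, h5⟩ := act_cor e hd c
  have h6 : c = d' := eq_of_rho_add_lt (p := (cor c + r' * dir θ', t')) (by
    have h7 := h5 (cor c + r * dir θ, t)
    rw [← he] at h7
    linarith)
  subst h6
  obtain ⟨k, hk⟩ := h4
  have hn : n₀ = -(2 * k) := by omega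
  have h7 : cor c + r' * dir θ' = ((e : ℤ) : ℂ) * DD n₀ (cor c + r * dir θ) + cor d :=
    congrArg Prod.fst he
  have h8 : t' = t - n₀ := congrArg Prod.snd he
  have h9 : LL * (n₀ : ℝ) = -(2 * LL * k) := by
    rw [hn]
    push_cast
    ring
  rw [exp1_DD_add, exp1_DD_polar, h9] at h7
  have h10 : (r' : ℂ) * dir θ' =
      ((e : ℤ) : ℂ) * (((r * nrm (-(2 * LL * k)) θ : ℝ) : ℂ) * dir (ang (-(2 * LL * k)) θ)) := by
    linear_combination h7 - h3
  have h11 : t' = t + 2 * k := by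
    rw [h8, hn]
    push_cast
    ring
  have hpos : 0 < r * nrm (-(2 * LL * k)) θ := mul_pos hr (nrm_pos _ _)
  rcases Int.units_eq_one_or e with rfl | rfl
  · obtain ⟨h12, j, h13⟩ := polar_unique (θ := ang (-(2 * LL * k)) θ) (θ' := θ') hpos hr'
      (by rw [h10]; simp)
    refine ⟨2 * j, k, ?_, h11, h12.symm⟩
    rw [h13]
    push_cast
    ring
  · obtain ⟨h12, j, h13⟩ := polar_unique (θ := ang (-(2 * LL * k)) θ + π) (θ' := θ') hpos hr'
      (by rw [h10, dir_add_pi]; simp)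
    refine ⟨2 * j + 1, k, ?_, h11, h12.symm⟩
    rw [h13]
    push_cast
    ring

theorem isOpen_CI (δ : ℝ) : IsOpen {a : (ℂ × ℝ) × (ℂ × ℝ) | CI δ a.1 a.2} := by
  have h1 : Continuous fun a : (ℂ × ℝ) × (ℂ × ℝ) => DD a.1.2 (a.1.1 - a.2.1) :=
    continuous_DD.comp (f := fun a : (ℂ × ℝ) × (ℂ × ℝ) => (a.1.2, a.1.1 - a.2.1)) (by fun_prop)
  refine (isOpen_lt (f := fun a : (ℂ × ℝ) × (ℂ × ℝ) => |a.1.2 - a.2.2|) (by fun_prop)
    continuous_const).inter ((isOpen_lt h1.norm continuous_const).inter ?_)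
  exact (isOpen_thick (eps / 4)).preimage continuous_fst

theorem CI_act {δ : ℝ} {n : ℤ} (e : ℤˣ) {c : ℤ × ℤ} (h : Adm n c) {p q : ℂ × ℝ}
    (hpq : CI δ p q) : CI δ (act n e c p) (act n e c q) := by
  obtain ⟨h1, h2, h3⟩ := hpq
  refine ⟨?_, ?_, fun d => ?_⟩
  · have e1 : (act n e c p).2 - (act n e c q).2 = p.2 - q.2 := by
      simp only [act]
      ring
    rwa [e1]
  · exact (norm_DD_act n e c p.1 q.1 p.2).trans_lt h2
  · obtain ⟨c', hc', h4, -⟩ := act_inv e h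
    obtain ⟨d', -, -, -, h5⟩ := act_cor e hc' d
    rw [← h5, h4]
    exact h3 d'

theorem CI_unique {δ : ℝ} (hδ : δ ≤ eps / 4) {p q q' : ℂ × ℝ} (h : CI δ p q) (h' : CI δ p q')
    (hr : Rel q q') : q = q' := by
  obtain ⟨n, e, d, hd, he⟩ := hr
  obtain ⟨h1, h2, h3⟩ := h
  obtain ⟨h1', h2', -⟩ := h'
  have hδ' : δ ≤ 1 / 64 := by
    rw [eps] at hδ
    linarith
  have h4 : q'.2 = q.2 - n := congrArg Prod.snd he
  have hn : n = 0 := by
    rw [h4, abs_lt] at h1'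
    rw [abs_lt] at h1
    have h5 : (n : ℝ) < (1 : ℤ) := by
      push_cast
      linarith
    have h6 : ((-1 : ℤ) : ℝ) < n := by
      push_cast
      linarith
    rw [Int.cast_lt] at h5 h6
    omega
  subst hn
  have h5 : q'.1 = ((e : ℤ) : ℂ) * DD ((0 : ℤ) : ℝ) q.1 + cor d := congrArg Prod.fst he
  rw [Int.cast_zero, DD_zero] at h5
  rcases Int.units_eq_one_or e with rfl | rfl
  · have h6 : cor d = (p.1 - q.1) - (p.1 - q'.1) := by
      rw [h5]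
      simp
    have h7 : d = 0 := by
      by_contra hne
      have h8 := one_le_norm_DD_cor p.2 hne
      rw [h6, exp1_DD_sub] at h8
      have h9 := norm_sub_le (DD p.2 (p.1 - q.1)) (DD p.2 (p.1 - q'.1))
      linarith
    rw [he, h7, act_zero]
  · exfalso
    obtain ⟨⟨a, ha⟩, b, hb⟩ := hd
    have h6 : cor d = cor (a, b) + cor (a, b) := by
      rw [← cor_add]
      congr 1
      exact Prod.ext ha (by simpa using hb)
    have h7 : ((2 : ℝ) : ℂ) * (p.1 - cor (a, b)) = (p.1 - q.1) + (p.1 - q'.1) := by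
      rw [h5, h6]
      simp
      ring
    have h8 := congrArg (fun z => ‖DD p.2 z‖) h7
    simp only [exp1_DD_add] at h8
    rw [DD, Dg_real_mul, norm_mul] at h8
    have h9 := norm_add_le (DD p.2 (p.1 - q.1)) (DD p.2 (p.1 - q'.1))
    have h10 := h3 (a, b)
    rw [rho, DD] at h10
    have h11 : ‖((2 : ℝ) : ℂ)‖ = 2 := by simp
    rw [h11] at h8
    linarith

theorem exp1_exp_le {s : ℝ} (h0 : 0 ≤ s) (hs : s ≤ 1 / 64) : Real.exp (LL * s) ≤ 4 / 3 := by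
  have h1 := Real.add_one_le_exp LL
  have h2 := exp_LL_lt
  have h3 := LL_pos
  have h4 : LL * s ≤ 1 / 4 := by nlinarith
  have h5 := Real.add_one_le_exp (-(LL * s))
  have h6 : Real.exp (LL * s) * Real.exp (-(LL * s)) = 1 := by
    rw [← Real.exp_add, add_neg_cancel, Real.exp_zero]
  have h7 := Real.exp_pos (LL * s)
  nlinarith

theorem exp1_tri (c : ℤ × ℤ) (p : ℂ × ℝ) (y : ℂ) :
    rho c (y, p.2) ≤ rho c p + ‖DD p.2 (p.1 - y)‖ := by
  have e1 : y - cor c = (p.1 - cor c) - (p.1 - y) := by ring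
  change ‖DD p.2 (y - cor c)‖ ≤ _
  rw [e1, exp1_DD_sub]
  exact norm_sub_le _ _

theorem CI_rho {δ : ℝ} (hδ : δ ≤ eps / 4) {p q : ℂ × ℝ} (h : CI δ p q) {c : ℤ × ℤ}
    (hc : rho c p < eps / 2) : rho c q < eps := by
  obtain ⟨h1, h2, -⟩ := h
  have h3 : rho c q ≤ _ := rho_le c q.1 p.2 q.2
  have h4 := exp1_tri c p q.1
  have h5 : 0 ≤ rho c (q.1, p.2) := norm_nonneg _
  rw [abs_sub_comm] at h1
  have h6 := exp1_exp_le (abs_nonneg (q.2 - p.2)) (by rw [eps] at hδ; linarith)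
  have h7 := mul_le_mul_of_nonneg_right h6 h5
  linarith

variable (E : Fin 2 → End)

/-- Points that are close compared to their distance to the corner have close angles. -/
theorem exists_angles {ρ δ' : ℝ} (hρ : 0 < ρ) (hδ' : 0 < δ') : ∃ δ > 0,
    ∀ (c : ℤ × ℤ) (r θ t : ℝ) (y : ℂ) (t' : ℝ), 0 < r → ρ ≤ rho c (cor c + r * dir θ, t) →
      |t - t'| < δ → ‖DD t (cor c + r * dir θ - y)‖ < δ →
      ∃ r' θ' : ℝ, 0 < r' ∧ y = cor c + r' * dir θ' ∧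
        |⌊θ / (π / 2)⌋ - ⌊θ' / (π / 2)⌋| ≤ 1 ∧ |Bc E c θ t - Bc E c θ' t'| < δ' := by
  obtain ⟨δ₁, hδ₁, h1⟩ := Bc_unif E (δ' / 2) (half_pos hδ')
  obtain ⟨δ₂, hδ₂, h2⟩ := Bc_unif_t E (δ' / 2) (half_pos hδ')
  obtain ⟨η, hη, h3⟩ := exists_close_angle (δ := min δ₁ (π / 2))
    (lt_min hδ₁ (by positivity))
  refine ⟨min δ₂ (η * ρ), lt_min hδ₂ (mul_pos hη hρ), fun c r θ t y t' hr h4 h5 h6 => ?_⟩
  rw [rho_polar c t r θ hr.le] at h4
  obtain ⟨r₂, φ, hr₂, h7, h8⟩ := h3 (r * nrm (LL * t) θ) (ang (LL * t) θ) (DD t (y - cor c))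
    (mul_pos hr (nrm_pos _ _)) (by
      rw [← exp1_DD_polar, norm_sub_rev, ← exp1_DD_sub]
      have e1 : (r : ℂ) * dir θ - (y - cor c) = cor c + r * dir θ - y := by ring
      rw [e1]
      exact (h6.le.trans (min_le_right _ _)).trans (mul_le_mul_of_nonneg_left h4 hη.le))
  have h9 := congrArg (DD (-t)) h7
  rw [DD_DD, neg_add_cancel, DD_zero, exp1_DD_polar] at h9
  refine ⟨r₂ * nrm (LL * -t) φ, ang (LL * -t) φ, mul_pos hr₂ (nrm_pos _ _), ?_, ?_, ?_⟩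
  · rw [← h9]
    ring
  · rw [floor_ang_quad, ← floor_ang_quad (LL * t) θ]
    exact exp1_quad (h8.trans_le (min_le_right _ _))
  · have h10 := h1 c θ t (ang (LL * -t) φ) t (by simpa using hδ₁) (by
      rw [ang_ang, ← mul_add, add_neg_cancel, mul_zero, ang_zero, abs_sub_comm]
      exact h8.trans_le (min_le_left _ _))
    have h11 := h2 c (ang (LL * -t) φ) t t' (h5.trans_le (min_le_left _ _))
    have h12 := abs_sub_le (Bc E c θ t) (Bc E c (ang (LL * -t) φ) t)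
      (Bc E c (ang (LL * -t) φ) t')
    linarith

theorem isOpen_CII (δ : ℝ) (x y : ℂ) : IsOpen {a : ℝ × ℝ | CII E δ (x, a.1) (y, a.2)} := by
  rw [isOpen_iff_mem_nhds]
  rintro a ⟨c, r, θ, r', θ', h1, h2, h3, h4, h5, h6, h7, h8⟩
  have c1 : Continuous fun a : ℝ × ℝ => rho c (x, a.1) :=
    (continuous_rho c).comp (f := fun a : ℝ × ℝ => (x, a.1)) (by fun_prop)
  have c2 : Continuous fun a : ℝ × ℝ => rho c (y, a.2) :=
    (continuous_rho c).comp (f := fun a : ℝ × ℝ => (y, a.2)) (by fun_prop)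
  have c3 : Continuous fun a : ℝ × ℝ => Bc E c θ a.1 :=
    (continuous_Bc E c).comp (f := fun a : ℝ × ℝ => (θ, a.1)) (by fun_prop)
  have c4 : Continuous fun a : ℝ × ℝ => Bc E c θ' a.2 :=
    (continuous_Bc E c).comp (f := fun a : ℝ × ℝ => (θ', a.2)) (by fun_prop)
  filter_upwards [(isOpen_lt c1 continuous_const).mem_nhds h5,
    (isOpen_lt c2 continuous_const).mem_nhds h6,
    (isOpen_lt (c3.sub c4).abs continuous_const).mem_nhds h8] with b hb1 hb2 hb3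
  exact ⟨c, r, θ, r', θ', h1, h2, h3, h4, hb1, hb2, h7, hb3⟩

/-- The two notions of closeness select the same lift. -/
theorem CI_CII_unique (hP : ∀ i, 2 ≤ (E i).P) {δ' : ℝ} (h0 : 0 < δ')
    (h1 : ∀ i, δ' ≤ 1 / ((E i).P : ℝ)) : ∃ δ > 0, ∀ p q q' : ℂ × ℝ,
      CI δ p q' → CII E δ' p q → Rel q q' → q = q' := by
  have he : 0 < eps / 4 := by
    rw [eps]
    norm_num
  obtain ⟨δ, hδ, hA⟩ := exists_angles E he h0
  refine ⟨min δ (eps / 4), lt_min hδ he, ?_⟩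
  rintro ⟨x, t⟩ ⟨y, s⟩ ⟨y', s'⟩ hI ⟨c, r, θ, r', θ', hr, hr', h3, h4, h5, h6, h7, h8⟩ hrel
  have h9 := CI_rho (min_le_right _ _) hI h5
  dsimp only at h3 h4 h8
  subst h3 h4
  obtain ⟨r₂, θ₂, hr₂, rfl, h10, h11⟩ := hA c r θ t y' s' hr (hI.2.2 c).le
    (hI.1.trans_le (min_le_left _ _)) (hI.2.1.trans_le (min_le_left _ _))
  obtain ⟨m, n, h12, h13, h14⟩ := deck_of_rel_corner c hr' hr₂
    (h6.trans (by rw [eps]; norm_num)) (h9.trans (by rw [eps]; norm_num)) hrel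
  rw [h12, h13, Bc_mu, Bc_del] at h11
  have hPr : (0 : ℝ) < (E (idx c)).P := by exact_mod_cast (E (idx c)).hP
  have h15 : n * (E (idx c)).P + m * (E (idx c)).Q = 0 := by
    have h16 : |2 * (n : ℝ) + m * (E (idx c)).sig| < 2 * (1 / ((E (idx c)).P : ℝ)) := by
      have h17 := h1 (idx c)
      rw [abs_lt] at h8 h11 ⊢
      constructor <;> linarith [h8.1, h8.2, h11.1, h11.2]
    have e1 : 2 * (n : ℝ) + m * (E (idx c)).sig =
        ((n * (E (idx c)).P + m * (E (idx c)).Q : ℤ) : ℝ) * (2 * (1 / ((E (idx c)).P : ℝ))) := by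
      rw [End.sig]
      push_cast
      field_simp
    have hpos : 0 < 2 * (1 / ((E (idx c)).P : ℝ)) := by positivity
    rw [e1, abs_mul, abs_of_pos hpos, mul_lt_iff_lt_one_left hpos, ← Int.cast_abs] at h16
    exact Int.abs_lt_one_iff.1 (by exact_mod_cast h16)
  have h16 : (E (idx c)).P ∣ m := by
    refine (E (idx c)).coprime.dvd_of_dvd_mul_right ⟨-n, ?_⟩
    linear_combination h15
  have h17 : ⌊θ₂ / (π / 2)⌋ = ⌊θ' / (π / 2)⌋ + 2 * m := by
    have e1 : θ₂ / (π / 2) = ang (-(2 * LL * n)) θ' / (π / 2) + ((2 * m : ℤ) : ℝ) := by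
      rw [h12]
      push_cast
      field_simp
    rw [e1, Int.floor_add_intCast, floor_ang_quad]
  have hm : m = 0 := by
    refine Int.eq_zero_of_abs_lt_dvd h16 ?_
    have h18 := hP (idx c)
    rw [h17, abs_le] at h10
    rw [abs_le] at h7
    rw [abs_lt]
    omega
  have hn : n = 0 := by
    rw [hm, zero_mul, add_zero] at h15
    exact (mul_eq_zero.1 h15).resolve_right (E (idx c)).hP.ne'
  rw [h12, h13, h14, hm, hn]
  simp [ang_zero, nrm_zero]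

theorem CII_bound : ∃ K, ∀ δ ≤ 1, ∀ p q : ℂ × ℝ, CII E δ p q → ‖DD p.2 (p.1 - q.1)‖ ≤ K := by
  obtain ⟨K, hK⟩ := Bc_bound E
  refine ⟨eps / 2 + Real.exp (LL * (K + 1)) * (eps / 2), ?_⟩
  rintro δ hδ p q ⟨c, r, θ, r', θ', -, -, -, -, h5, h6, h7, h8⟩
  have h1 := hK c θ θ' p.2 q.2 (abs_sub_lt_pi_of_quad h7).le
  have h2 : |p.2 - q.2| ≤ K + 1 := by
    rw [abs_le] at h1 ⊢
    rw [abs_lt] at h8
    constructor <;> linarith [h1.1, h1.2, h8.1, h8.2]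
  have h3 : rho c (q.1, p.2) ≤ _ * rho c q := rho_le c q.1 q.2 p.2
  have h4 : Real.exp (LL * |p.2 - q.2|) * rho c q ≤ Real.exp (LL * (K + 1)) * (eps / 2) :=
    mul_le_mul (Real.exp_le_exp.2 (mul_le_mul_of_nonneg_left h2 LL_pos.le)) h6.le
      (norm_nonneg _) (Real.exp_pos _).le
  have e1 : p.1 - q.1 = (p.1 - cor c) - (q.1 - cor c) := by ring
  rw [e1, exp1_DD_sub]
  have h9 : _ ≤ rho c p + rho c (q.1, p.2) :=
    norm_sub_le (DD p.2 (p.1 - cor c)) (DD p.2 (q.1 - cor c))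
  linarith

theorem CII_same {δ : ℝ} {x : ℂ} {t t' : ℝ} (h : CII E δ (x, t) (x, t')) :
    ∃ c θ, |Bc E c θ t - Bc E c θ t'| < δ := by
  obtain ⟨c, r, θ, r', θ', hr, hr', h3, h4, -, -, h7, h8⟩ := h
  have h1 : (r : ℂ) * dir θ = r' * dir θ' := add_left_cancel (h3.symm.trans h4)
  have h2 : θ = θ' := eq_of_polar hr hr' h1
    ((abs_sub_lt_pi_of_quad h7).trans (by linarith [Real.pi_pos]))
  subst h2
  exact ⟨c, θ, h8⟩

end Pool.Agent.Zig
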