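import Pool.Agent.Lib.MP_d77862_gt.Exp2

noncomputable section

namespace Pool.Agent.Zig

open Set Filter Topology Complex Real

/-! Two vertical paths that stay close in the model have lifts that stay close. -/

variable {E : Fin 2 → End} {M : Type} [TopologicalSpace M]

theorem exp3_mono {δ δ₁ : ℝ} (h : δ ≤ δ₁) {p q : ℂ × ℝ} (hpq : CI δ p q) : CI δ₁ p q :=
  ⟨hpq.1.trans_le h, hpq.2.1.trans_le h, hpq.2.2⟩

theorem exp3_polar {x : ℂ} (hx : (x, (0 : ℝ)) ∈ XX) (c : ℤ × ℤ) :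
    ∃ r θ : ℝ, 0 < r ∧ x = cor c + r * dir θ := by
  refine ⟨‖x - cor c‖, arg (x - cor c), norm_pos_iff.2 (sub_ne_zero.2 (hx c)), ?_⟩
  rw [norm_mul_dir_arg]
  ring

theorem exp3_isOpen_CI (δ : ℝ) (x y : ℂ) {η h : ℝ → ℝ} (hη : Continuous η) (hh : Continuous h) :
    IsOpen {t | CI δ (x, η t) (y, h t)} :=
  (isOpen_CI δ).preimage (f := fun t => ((x, η t), (y, h t))) (by fun_prop)

theorem exp3_isOpen_CII (δ : ℝ) (x y : ℂ) {η h : ℝ → ℝ} (hη : Continuous η)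
    (hh : Continuous h) : IsOpen {t | CII E δ (x, η t) (y, h t)} :=
  (isOpen_CII E δ x y).preimage (f := fun t => (η t, h t)) (by fun_prop)

theorem exp3_cont (m : Model E M) {x : ℂ} (hx : (x, (0 : ℝ)) ∈ XX) {η : ℝ → ℝ}
    (hη : Continuous η) : Continuous fun t => m.ι (x, η t) :=
  m.cont.comp_continuous (f := fun t => (x, η t)) (by fun_prop)
    fun t => (mem_XX_iff x 0 (η t)).1 hx

/-- The closure step inside a tube. -/
theorem exp3_tube (m : Model E M) {δ δ' δ₂ : ℝ} (h1 : ∀ i, δ' ≤ 1 / ((E i).P : ℝ))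
    (hδ : δ ≤ eps / 4) (hδ₂ : δ ≤ δ₂)
    (H₂ : ∀ (c : ℤ × ℤ) (r θ t : ℝ) (y : ℂ) (t' : ℝ), 0 < r →
      eps / 4 ≤ rho c (cor c + r * dir θ, t) → |t - t'| < δ₂ →
      ‖DD t (cor c + r * dir θ - y)‖ < δ₂ → ∃ r' θ' : ℝ, 0 < r' ∧ y = cor c + r' * dir θ' ∧
        |⌊θ / (π / 2)⌋ - ⌊θ' / (π / 2)⌋| ≤ 1 ∧ |Bc E c θ t - Bc E c θ' t'| < δ')
    {x y : ℂ} {η h : ℝ → ℝ} (hx : (x, (0 : ℝ)) ∈ XX) (hy : (y, (0 : ℝ)) ∈ XX)
    (hη : Continuous η) (hh : Continuous h) {s : ℝ}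
    (hs : s ∈ closure {t | CI δ (x, η t) (y, h t) ∨ CII E δ' (x, η t) (y, h t)})
    (hW : (m.ι (x, η s), m.ι (y, h s)) ∈ m.WII δ') : CII E δ' (x, η s) (y, h s) := by
  have he : eps = 1 / 16 := rfl
  obtain ⟨c, hc⟩ := m.WII_fst ((mem_XX_iff x 0 (η s)).1 hx) hW
  obtain ⟨c', hc'⟩ := m.WII_snd ((mem_XX_iff y 0 (h s)).1 hy) hW
  have o1 : IsOpen {t | (m.ι (x, η t), m.ι (y, h t)) ∈ m.WII δ'} :=
    (m.isOpen_WII δ').preimage ((exp3_cont m hx hη).prodMk (exp3_cont m hy hh))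
  have o2 : IsOpen {t | rho c (x, η t) < eps / 2} :=
    isOpen_lt ((continuous_rho c).comp (by fun_prop)) continuous_const
  have o3 : IsOpen {t | rho c' (y, h t) < eps / 2} :=
    isOpen_lt ((continuous_rho c').comp (by fun_prop)) continuous_const
  obtain ⟨ε, hε, hN⟩ := Metric.isOpen_iff.1 ((o1.inter o2).inter o3) s ⟨⟨hW, hc⟩, hc'⟩
  obtain ⟨t1, ht1, hG⟩ := mem_closure_iff.1 hs _ Metric.isOpen_ball (Metric.mem_ball_self hε)
  have a2 : rho c (x, η t1) < eps / 2 := (hN ht1).1.2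
  have a3 : rho c' (y, h t1) < eps / 2 := (hN ht1).2
  have key : c = c' ∧ ∃ r θ r' θ' : ℝ, 0 < r ∧ 0 < r' ∧ x = cor c + r * dir θ ∧
      y = cor c + r' * dir θ' ∧ |⌊θ / (π / 2)⌋ - ⌊θ' / (π / 2)⌋| ≤ 1 ∧
      |Bc E c θ (η t1) - Bc E c θ' (h t1)| < δ' := by
    rcases hG with hG | hG
    · have b1 : rho c (y, h t1) < eps := CI_rho hδ hG a2
      refine ⟨eq_of_rho_add_lt (p := (y, h t1)) (by linarith), ?_⟩
      obtain ⟨r, θ, hr, hxe⟩ := exp3_polar hx c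
      obtain ⟨r', θ', hr', hye, hq, hB⟩ := H₂ c r θ (η t1) y (h t1) hr
        (by rw [← hxe]; exact (hG.2.2 c).le) (hG.1.trans_le hδ₂)
        (by rw [← hxe]; exact hG.2.1.trans_le hδ₂)
      exact ⟨r, θ, r', θ', hr, hr', hxe, hye, hq, hB⟩
    · obtain ⟨c0, r, θ, r', θ', hr, hr', hxe, hye, b1, b2, hq, hB⟩ := hG
      have e1 : c0 = c := eq_of_rho_add_lt (p := (x, η t1)) (by linarith)
      have e2 : c0 = c' := eq_of_rho_add_lt (p := (y, h t1)) (by linarith)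
      subst e1
      exact ⟨e2, r, θ, r', θ', hr, hr', hxe, hye, hq, hB⟩
  obtain ⟨rfl, r, θ, r', θ', hr, hr', hxe, hye, hq, hB⟩ := key
  refine ⟨c, r, θ, r', θ', hr, hr', hxe, hye, hc, hc', hq, ?_⟩
  have hD : Continuous fun t => Bc E c θ (η t) - Bc E c θ' (h t) :=
    ((continuous_Bc E c).comp (f := fun t => (θ, η t)) (by fun_prop)).sub
      ((continuous_Bc E c).comp (f := fun t => (θ', h t)) (by fun_prop))
  have ha : 2 * δ' ≤ 2 / ((E (idx c)).P : ℝ) := by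
    have := h1 (idx c)
    rw [div_eq_mul_one_div 2]
    linarith
  have := near_lattice (convex_ball s ε).isPreconnected hD.continuousOn ha (fun t ht => by
      have b1 : (m.ι (x, η t), m.ι (y, h t)) ∈ m.WII δ' := (hN ht).1.1
      have b2 : rho c (x, η t) < eps / 2 := (hN ht).1.2
      have b3 : rho c (y, h t) < eps / 2 := (hN ht).2
      rw [hxe] at b1 b2
      rw [hye] at b1 b3
      exact m.WII_lattice hr hr' (by linarith) (by linarith) b1) ht1 (k0 := 0)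
    (by simpa using hB) s (Metric.mem_ball_self hε)
  simpa using this

theorem Model.lift_path (m : Model E M) (hP : ∀ i, 2 ≤ (E i).P) {δ' : ℝ} (h0 : 0 < δ')
    (h1 : ∀ i, δ' ≤ 1 / ((E i).P : ℝ)) : ∃ δ0 > 0, ∀ δ, δ ≤ δ0 →
      ∀ (x y : ℂ) (η h : ℝ → ℝ), (x, (0 : ℝ)) ∈ XX → (y, (0 : ℝ)) ∈ XX → Continuous η →
        Continuous h → Function.Surjective η →
        (∀ t, (m.ι (x, η t), m.ι (y, h t)) ∈ m.WI δ ∪ m.WII δ') →
        ∃ n e d, Adm n d ∧ ∀ t, CI δ (x, η t) (act n e d (y, h t)) ∨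
          CII E δ' (x, η t) (act n e d (y, h t)) := by
  have he : eps = 1 / 16 := rfl
  obtain ⟨δ₁, hδ₁, H₁⟩ := CI_CII_unique E hP h0 h1
  obtain ⟨δ₂, hδ₂, H₂⟩ := exists_angles E (ρ := eps / 4) (by rw [he]; norm_num) h0
  refine ⟨min (eps / 4) (min δ₁ δ₂), lt_min (by rw [he]; norm_num) (lt_min hδ₁ hδ₂), ?_⟩
  intro δ hδ x y η h hx hy hη hh hsurj hW
  have d0 : δ ≤ eps / 4 := hδ.trans (min_le_left _ _)
  have d1 : δ ≤ δ₁ := hδ.trans ((min_le_right _ _).trans (min_le_left _ _))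
  have d2 : δ ≤ δ₂ := hδ.trans ((min_le_right _ _).trans (min_le_right _ _))
  have hxt : ∀ t, (x, t) ∈ XX := fun t => (mem_XX_iff x 0 t).1 hx
  have hyt : ∀ t, (y, t) ∈ XX := fun t => (mem_XX_iff y 0 t).1 hy
  obtain ⟨t0, ht0⟩ : ∃ t0, (m.ι (x, η t0), m.ι (y, h t0)) ∈ m.WI δ := by
    by_contra hc
    refine not_forall_rho hx hη (fun T => (hsurj T).imp fun t ht => ht.ge)
      (fun T => (hsurj T).imp fun t ht => ht.le) fun t => ?_
    obtain ⟨c, hc'⟩ := m.WII_fst (hxt _) ((hW t).resolve_left fun h' => hc ⟨t, h'⟩)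
    exact ⟨c, by linarith⟩
  obtain ⟨q', ⟨n, e, d, hnd, rfl⟩, hq⟩ := m.WI_lift (hxt _) (hyt _) ht0
  refine ⟨n, e, d, hnd, ?_⟩
  set y1 : ℂ := (act n e d (y, 0)).1 with hy1
  have hact : ∀ t, act n e d (y, t) = (y1, t - n) := fun t => act_fst n e d y 0 t
  have hy1X : (y1, (0 : ℝ)) ∈ XX := by
    have := (act_mem_XX n e d).2 (hyt n)
    rwa [hact, sub_self] at this
  have hh1 : Continuous fun t => h t - n := by fun_prop
  have hopen : IsOpen {t | CI δ (x, η t) (y1, h t - n) ∨ CII E δ' (x, η t) (y1, h t - n)} :=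
    (exp3_isOpen_CI δ x y1 hη hh1).union (exp3_isOpen_CII δ' x y1 hη hh1)
  have hclosed : IsClosed
      {t | CI δ (x, η t) (y1, h t - n) ∨ CII E δ' (x, η t) (y1, h t - n)} := by
    refine closure_subset_iff_isClosed.1 fun s hs => ?_
    rcases hW s with hs' | hs'
    · obtain ⟨q', ⟨n', e', d', hnd', rfl⟩, hq'⟩ := m.WI_lift (hxt _) (hyt _) hs'
      set y2 : ℂ := (act n' e' d' (y, 0)).1 with hy2
      have hact' : ∀ t, act n' e' d' (y, t) = (y2, t - n') := fun t => act_fst n' e' d' y 0 t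
      rw [hact'] at hq'
      obtain ⟨t1, a1, a2⟩ := mem_closure_iff.1 hs _
        (exp3_isOpen_CI δ x y2 hη (h := fun t => h t - n') (by fun_prop)) hq'
      have hrel : Rel (y1, h t1 - n) (y2, h t1 - n') :=
        rel_trans (rel_symm ⟨n, e, d, hnd, (hact _).symm⟩) ⟨n', e', d', hnd', (hact' _).symm⟩
      have heq : (y1, h t1 - n) = (y2, h t1 - n') := by
        rcases a2 with a2 | a2
        · exact CI_unique d0 a2 a1 hrel
        · exact H₁ _ _ _ (exp3_mono d1 a1) a2 hrel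
      have e1 : y1 = y2 := (Prod.mk.inj heq).1
      have e2 : (n : ℝ) = n' := by
        have : h t1 - n = h t1 - n' := (Prod.mk.inj heq).2
        linarith
      left
      rw [e1, e2]
      exact hq'
    · right
      refine exp3_tube m h1 d0 d2 H₂ hx hy1X hη hh1 hs ?_
      rw [← hact, m.ι_act e hnd (hyt _)]
      exact hs'
  have huniv := (IsClopen.eq_univ ⟨hclosed, hopen⟩ ⟨t0, Or.inl (by rwa [← hact])⟩)
  intro t
  rw [hact]
  exact (Set.eq_univ_iff_forall.1 huniv) t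

end Pool.Agent.Zig
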