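import Pool.Agent.Lib.MP_d77862_gt.Util

noncomputable section

namespace Pool.Agent.Zig

open Set Filter Topology Complex Real

/-! Generic Dehn filling. Take `M := Y ⊕ Fin 2 × Circle` (behind a `def`), with `U` open iff its
preimages under `Sum.inl` and under both `τ i` are open, where `τ i (z, u)` is
`Sum.inr (i, u)` for `z = 0` and `Sum.inl (j i (z, u))` otherwise. -/

/-- The underlying type of the filled space. -/
def fillM (Y : Type) : Type := Y ⊕ Fin 2 × Circle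

/-- The inclusion of the unfilled space. -/
def fillInl {Y : Type} (y : Y) : fillM Y := Sum.inl y

/-- The core points. -/
def fillInr {Y : Type} (a : Fin 2 × Circle) : fillM Y := Sum.inr a

open Classical in
/-- The tubes of the filled space. -/
def fillTau {Y : Type} (j : Fin 2 → ℂ × Circle → Y) (i : Fin 2) (w : ℂ × Circle) : fillM Y :=
  if w.1 = 0 then fillInr (i, w.2) else fillInl (j i w)

/-- The topology of the filled space. -/
@[reducible] def fillTop {Y : Type} [TopologicalSpace Y] (j : Fin 2 → ℂ × Circle → Y) :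
    TopologicalSpace (fillM Y) where
  IsOpen U := IsOpen (fillInl ⁻¹' U) ∧ ∀ i, IsOpen (fillTau j i ⁻¹' U)
  isOpen_univ := ⟨isOpen_univ, fun _ => isOpen_univ⟩
  isOpen_inter := fun _ _ hs ht => ⟨hs.1.inter ht.1, fun i => (hs.2 i).inter (ht.2 i)⟩
  isOpen_sUnion := fun S hS => ⟨by
      rw [preimage_sUnion]; exact isOpen_biUnion fun s hs => (hS s hs).1, fun i => by
      rw [preimage_sUnion]; exact isOpen_biUnion fun s hs => (hS s hs).2 i⟩

theorem fill_chart_lift {A M E : Type} [TopologicalSpace A] [TopologicalSpace M]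
    [TopologicalSpace E] {f : A → M} (hf : IsOpenEmbedding f) {a : A}
    (e : OpenPartialHomeomorph A E) (ha : a ∈ e.source) :
    ∃ e' : OpenPartialHomeomorph M E, f a ∈ e'.source := by
  have : Nonempty A := ⟨a⟩
  refine ⟨(hf.toOpenPartialHomeomorph f).symm.trans e, ?_⟩
  rw [OpenPartialHomeomorph.trans_source]
  refine ⟨by simp, ?_⟩
  have h1 : (hf.toOpenPartialHomeomorph f).symm (f a) = a :=
    (hf.toOpenPartialHomeomorph f).left_inv (by simp)
  show (hf.toOpenPartialHomeomorph f).symm (f a) ∈ e.source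
  rw [h1]; exact ha

theorem fill_chart_equiv {M E F : Type} [TopologicalSpace M] [TopologicalSpace E]
    [TopologicalSpace F] (h : E ≃ₜ F) {m : M} (e : OpenPartialHomeomorph M E)
    (hm : m ∈ e.source) : ∃ e' : OpenPartialHomeomorph M F, m ∈ e'.source :=
  ⟨e.transHomeomorph h, hm⟩

theorem fill_equiv1 : Nonempty (ℂ × ℝ ≃ₜ EuclideanSpace ℝ (Fin 3)) :=
  ⟨(ContinuousLinearEquiv.ofFinrankEq (𝕜 := ℝ) (by simp)).toHomeomorph⟩

theorem fill_equiv2 :
    Nonempty (ℂ × EuclideanSpace ℝ (Fin 1) ≃ₜ EuclideanSpace ℝ (Fin 3)) :=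
  ⟨(ContinuousLinearEquiv.ofFinrankEq (𝕜 := ℝ) (by simp)).toHomeomorph⟩

theorem fill_chart_tube (w : ℂ × Circle) :
    ∃ e : OpenPartialHomeomorph (ℂ × Circle) (EuclideanSpace ℝ (Fin 3)), w ∈ e.source := by
  obtain ⟨h⟩ := fill_equiv2
  refine fill_chart_equiv h ((OpenPartialHomeomorph.refl ℂ).prod
    (chartAt (EuclideanSpace ℝ (Fin 1)) w.2)) ?_
  rw [OpenPartialHomeomorph.prod_source]
  exact ⟨mem_univ _, mem_chart_source _ _⟩

theorem fill_isOpen_ne : IsOpen {w : ℂ × Circle | w.1 ≠ 0} :=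
  isOpen_ne_fun continuous_fst continuous_const

theorem fill_dense_ne : Dense {w : ℂ × Circle | w.1 ≠ 0} := by
  have h : {w : ℂ × Circle | w.1 ≠ 0} = ({0}ᶜ : Set ℂ) ×ˢ (univ : Set Circle) := by
    ext w; simp
  rw [h]
  exact (dense_compl_singleton (0 : ℂ)).prod dense_univ

theorem fill_main {Y M : Type} [TopologicalSpace Y] [T2Space Y] [ConnectedSpace Y]
    [TopologicalSpace M]
    (loc : ∀ y : Y, ∃ e : OpenPartialHomeomorph Y (ℂ × ℝ), y ∈ e.source)
    (j : Fin 2 → ℂ × Circle → Y)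
    (hc : ∀ i, ContinuousOn (j i) {w | w.1 ≠ 0})
    (hi : ∀ i i' w w', w.1 ≠ 0 → w'.1 ≠ 0 → j i w = j i' w' → i = i' ∧ w = w')
    (ho : ∀ i U, IsOpen U → U ⊆ {w | w.1 ≠ 0} → IsOpen (j i '' U))
    (hcl : ∀ i, IsClosed (j i '' {w | w.1 ≠ 0 ∧ ‖w.1‖ ≤ 1}))
    (hK : ∃ K, IsCompact K ∧ ∀ y, y ∈ K ∨ ∃ i w, w.1 ≠ 0 ∧ ‖w.1‖ ≤ 1 ∧ y = j i w)
    (inl : Y → M) (τ : Fin 2 → ℂ × Circle → M)
    (hop : ∀ U : Set M, IsOpen U ↔ IsOpen (inl ⁻¹' U) ∧ ∀ i, IsOpen (τ i ⁻¹' U))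
    (hinj : Function.Injective inl)
    (hτ : ∀ i w, w.1 ≠ 0 → τ i w = inl (j i w))
    (hne : ∀ i w y, w.1 = 0 → τ i w ≠ inl y)
    (hcore : ∀ i i' w w', w.1 = 0 → w'.1 = 0 → τ i w = τ i' w' → i = i' ∧ w = w')
    (hcov : ∀ m, m ∈ range inl ∨ ∃ i u, m = τ i (0, u)) :
    Closed3 M ∧ IsOpenEmbedding inl ∧ Tubes τ ∧ range inl = (core τ)ᶜ := by
  have c1 : Continuous inl := continuous_def.2 fun U hU => ((hop U).1 hU).1
  have c2 : ∀ i, Continuous (τ i) := fun i => continuous_def.2 fun U hU => ((hop U).1 hU).2 i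
  have hall : ∀ i i' w w', τ i w = τ i' w' → i = i' ∧ w = w' := by
    intro i i' w w' h
    by_cases h0 : w.1 = 0
    · by_cases h1 : w'.1 = 0
      · exact hcore i i' w w' h0 h1 h
      · rw [hτ i' w' h1] at h
        exact absurd h (hne i w _ h0)
    · by_cases h1 : w'.1 = 0
      · rw [hτ i w h0] at h
        exact absurd h.symm (hne i' w' _ h1)
      · rw [hτ i w h0, hτ i' w' h1] at h
        exact hi i i' w w' h0 h1 (hinj h)
  have pre1 : ∀ i (V : Set (ℂ × Circle)),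
      inl ⁻¹' (τ i '' V) = j i '' (V ∩ {w | w.1 ≠ 0}) := by
    intro i V
    ext y
    constructor
    · rintro ⟨w, hw, h⟩
      have h0 : w.1 ≠ 0 := fun h0 => hne i w y h0 h
      rw [hτ i w h0] at h
      exact ⟨w, ⟨hw, h0⟩, hinj h⟩
    · rintro ⟨w, ⟨hw, h0⟩, rfl⟩
      exact ⟨w, hw, hτ i w h0⟩
  have pre2 : ∀ i i' (V : Set (ℂ × Circle)),
      τ i' ⁻¹' (τ i '' V) = V ∨ τ i' ⁻¹' (τ i '' V) = ∅ := by
    intro i i' V
    by_cases h : i = i'
    · subst h
      exact Or.inl (preimage_image_eq V fun w w' hw => (hall i i w w' hw).2)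
    · refine Or.inr (eq_empty_of_forall_notMem ?_)
      rintro w' ⟨w, -, hw⟩
      exact h (hall i i' w w' hw).1
  have o1 : IsOpenMap inl := by
    intro U hU
    refine (hop _).2 ⟨by rwa [preimage_image_eq U hinj], fun i => ?_⟩
    have : τ i ⁻¹' (inl '' U) = {w | w.1 ≠ 0} ∩ j i ⁻¹' U := by
      ext w
      constructor
      · rintro ⟨y, hy, h⟩
        have h0 : w.1 ≠ 0 := fun h0 => hne i w y h0 h.symm
        rw [hτ i w h0] at h
        refine ⟨h0, ?_⟩
        show j i w ∈ U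
        rw [← hinj h]; exact hy
      · rintro ⟨h0, hw⟩
        exact ⟨j i w, hw, (hτ i w h0).symm⟩
    rw [this]
    exact (hc i).isOpen_inter_preimage fill_isOpen_ne hU
  have o2 : ∀ i, IsOpenMap (τ i) := by
    intro i V hV
    refine (hop _).2 ⟨?_, fun i' => ?_⟩
    · rw [pre1]
      exact ho i _ (hV.inter fill_isOpen_ne) inter_subset_right
    · rcases pre2 i i' V with h | h <;> rw [h]
      · exact hV
      · exact isOpen_empty
  have e1 : IsOpenEmbedding inl := IsOpenEmbedding.of_continuous_injective_isOpenMap c1 hinj o1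
  have e2 : ∀ i, IsOpenEmbedding (τ i) := fun i =>
    IsOpenEmbedding.of_continuous_injective_isOpenMap (c2 i)
      (fun w w' h => (hall i i w w' h).2) (o2 i)
  have cl : ∀ i, IsClosed (τ i '' {w | ‖w.1‖ ≤ 1}) := by
    intro i
    rw [← isOpen_compl_iff]
    refine (hop _).2 ⟨?_, fun i' => ?_⟩
    · rw [preimage_compl, isOpen_compl_iff, pre1]
      have : ({w : ℂ × Circle | ‖w.1‖ ≤ 1} ∩ {w | w.1 ≠ 0}) = {w | w.1 ≠ 0 ∧ ‖w.1‖ ≤ 1} := by
        ext w; exact and_comm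
      rw [this]; exact hcl i
    · rw [preimage_compl, isOpen_compl_iff]
      rcases pre2 i i' {w | ‖w.1‖ ≤ 1} with h | h <;> rw [h]
      · exact isClosed_le continuous_fst.norm continuous_const
      · exact isClosed_empty
  have sep : ∀ i u b, τ i (0, u) ≠ b → ∃ U V : Set M, IsOpen U ∧ IsOpen V ∧ τ i (0, u) ∈ U ∧
      b ∈ V ∧ Disjoint U V := by
    intro i u b hb
    by_cases h : b ∈ range (τ i)
    · obtain ⟨w, rfl⟩ := h
      exact separated_by_isOpenEmbedding (e2 i) fun h => hb (by rw [h])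
    · refine ⟨τ i '' {w | ‖w.1‖ < 1}, (τ i '' {w | ‖w.1‖ ≤ 1})ᶜ,
        o2 i _ (isOpen_lt continuous_fst.norm continuous_const), (cl i).isOpen_compl,
        ⟨(0, u), by simp, rfl⟩, fun hb' => h (image_subset_range _ _ hb'), ?_⟩
      refine disjoint_compl_right.mono_left (image_mono ?_)
      intro w hw
      exact le_of_lt (show ‖w.1‖ < 1 from hw)
  have t2 : T2Space M := by
    refine ⟨fun a b hab => ?_⟩
    rcases hcov a with ⟨y, rfl⟩ | ⟨i, u, rfl⟩
    · rcases hcov b with ⟨y', rfl⟩ | ⟨i, u, rfl⟩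
      · exact separated_by_isOpenEmbedding e1 fun h => hab (by rw [h])
      · obtain ⟨U, V, hU, hV, h1, h2, h3⟩ := sep i u _ hab.symm
        exact ⟨V, U, hV, hU, h2, h1, h3.symm⟩
    · exact sep i u b hab
  have cpt : CompactSpace M := by
    obtain ⟨K, hK1, hK2⟩ := hK
    have hB : IsCompact (Metric.closedBall (0 : ℂ) 1 ×ˢ (univ : Set Circle)) :=
      (isCompact_closedBall 0 1).prod isCompact_univ
    have h : IsCompact (inl '' K ∪ ⋃ i, τ i '' (Metric.closedBall (0 : ℂ) 1 ×ˢ univ)) :=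
      (hK1.image c1).union (isCompact_iUnion fun i => hB.image (c2 i))
    refine ⟨?_⟩
    convert h using 1
    refine (eq_univ_of_forall fun m => ?_).symm
    rcases hcov m with ⟨y, rfl⟩ | ⟨i, u, rfl⟩
    · rcases hK2 y with hy | ⟨i, w, h0, h1, rfl⟩
      · exact Or.inl ⟨y, hy, rfl⟩
      · exact Or.inr (mem_iUnion.2 ⟨i, w, ⟨by simpa using h1, mem_univ _⟩, hτ i w h0⟩)
    · exact Or.inr (mem_iUnion.2 ⟨i, (0, u), ⟨by simp, mem_univ _⟩, rfl⟩)
  have dns : DenseRange inl := by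
    intro m
    rcases hcov m with hm | ⟨i, u, rfl⟩
    · exact subset_closure hm
    · have h1 : τ i (0, u) ∈ closure (τ i '' {w | w.1 ≠ 0}) :=
        image_closure_subset_closure_image (c2 i) ⟨(0, u), fill_dense_ne _, rfl⟩
      refine closure_mono ?_ h1
      rintro _ ⟨w, hw, rfl⟩
      exact ⟨j i w, (hτ i w hw).symm⟩
  have conn : ConnectedSpace M := by
    have : PreconnectedSpace M := dns.preconnectedSpace c1
    exact ⟨⟨τ 0 (0, 1)⟩⟩
  have ch : ∀ m : M, ∃ e : OpenPartialHomeomorph M (EuclideanSpace ℝ (Fin 3)),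
      m ∈ e.source := by
    intro m
    rcases hcov m with ⟨y, rfl⟩ | ⟨i, u, rfl⟩
    · obtain ⟨e, he⟩ := loc y
      obtain ⟨h⟩ := fill_equiv1
      obtain ⟨e', he'⟩ := fill_chart_equiv h e he
      exact fill_chart_lift e1 e' he'
    · obtain ⟨e, he⟩ := fill_chart_tube (0, u)
      exact fill_chart_lift (e2 i) e he
  choose f hf using ch
  refine ⟨⟨t2, cpt, conn, ⟨⟨univ, f, hf, fun _ => mem_univ _⟩⟩⟩, e1, ⟨e2, fun i i' hii => ?_⟩, ?_⟩
  · rw [Set.disjoint_left]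
    rintro _ ⟨w, rfl⟩ ⟨w', h⟩
    exact hii (hall i' i w' w h).1.symm
  · ext m
    constructor
    · rintro ⟨y, rfl⟩ ⟨i, u, h⟩
      exact hne i (0, u) y rfl h.symm
    · intro hm
      rcases hcov m with h | h
      · exact h
      · exact absurd h hm

theorem exists_fill {Y : Type} [TopologicalSpace Y] [T2Space Y] [ConnectedSpace Y]
    (loc : ∀ y : Y, ∃ e : OpenPartialHomeomorph Y (ℂ × ℝ), y ∈ e.source)
    (j : Fin 2 → ℂ × Circle → Y)
    (hc : ∀ i, ContinuousOn (j i) {w | w.1 ≠ 0})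
    (hi : ∀ i i' w w', w.1 ≠ 0 → w'.1 ≠ 0 → j i w = j i' w' → i = i' ∧ w = w')
    (ho : ∀ i U, IsOpen U → U ⊆ {w | w.1 ≠ 0} → IsOpen (j i '' U))
    (hcl : ∀ i, IsClosed (j i '' {w | w.1 ≠ 0 ∧ ‖w.1‖ ≤ 1}))
    (hK : ∃ K, IsCompact K ∧ ∀ y, y ∈ K ∨ ∃ i w, w.1 ≠ 0 ∧ ‖w.1‖ ≤ 1 ∧ y = j i w) :
    ∃ (M : Type) (_ : TopologicalSpace M) (inl : Y → M) (τ : Fin 2 → ℂ × Circle → M),
      Closed3 M ∧ IsOpenEmbedding inl ∧ Tubes τ ∧ range inl = (core τ)ᶜ ∧
        ∀ i w, w.1 ≠ 0 → τ i w = inl (j i w) := by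
  let _ : TopologicalSpace (fillM Y) := fillTop j
  have hτ : ∀ i w, w.1 ≠ 0 → fillTau j i w = fillInl (j i w) := fun i w h => if_neg h
  have h0 : ∀ i (w : ℂ × Circle), w.1 = 0 → fillTau j i w = fillInr (i, w.2) :=
    fun i w h => if_pos h
  obtain ⟨a, b, c, d⟩ := fill_main loc j hc hi ho hcl hK (fillInl : Y → fillM Y) (fillTau j)
    (fun U => Iff.rfl) (fun y y' h => Sum.inl_injective h) hτ
    (fun i w y hw h => by
      rw [h0 i w hw] at h
      exact Sum.inr_ne_inl h)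
    (fun i i' w w' hw hw' h => by
      rw [h0 i w hw, h0 i' w' hw'] at h
      have h1 : (i, w.2) = (i', w'.2) := Sum.inr_injective h
      exact ⟨(Prod.mk.inj h1).1, Prod.ext (hw.trans hw'.symm) (Prod.mk.inj h1).2⟩)
    (fun m => by
      rcases m with y | ⟨i, u⟩
      · exact Or.inl ⟨y, rfl⟩
      · exact Or.inr ⟨i, u, (h0 i (0, u) rfl).symm⟩)
  exact ⟨fillM Y, inferInstance, fillInl, fillTau j, a, b, c, d, hτ⟩

end Pool.Agent.Zig
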