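import Pool.Agent.Lib.MP_d77862_gt.Prong2
import Pool.Agent.Lib.MP_d77862_gt.Coc2

noncomputable section

namespace Pool.Agent.Zig

open Set Filter Topology Complex Real

/-! The surgered flow. -/

variable {E : Fin 2 → End} {M : Type} [TopologicalSpace M]

/-- In prong coordinates the new time is the second coordinate. -/
theorem Prong.time {m : Model E M} {i : Fin 2} (R : Prong m i) (C : Coc E) {z : ℂ} {b s : ℝ}
    (hz : z ≠ 0) (h : ∀ s' ∈ uIcc 0 s, (z, b + s') ∈ R.V) :
    ∃ x t t', (x, t) ∈ XX ∧ R.F (z, b) = m.ι (x, t) ∧ R.F (z, b + s) = m.ι (x, t') ∧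
      C.c x t t' = s := by
  have : T2Space M := m.cl3.1
  have he : eps = 1 / 16 := rfl
  obtain ⟨r, θ, t0, hr, h0, hz0, hb0⟩ := R.onto z b (by simpa using h 0 left_mem_uIcc) hz
  set x : ℂ := cor (bc i) + r * dir θ with hx
  have hX0 : (x, t0) ∈ XX := by
    refine mem_XX_of_rho (c := bc i) ?_ ?_
    · rw [hx, rho_polar _ _ _ _ hr.le]; exact mul_pos hr (nrm_pos _ _)
    · rw [hx, rho_polar _ _ _ _ hr.le]; linarith
  have hX : ∀ t, (x, t) ∈ XX := fun t => (mem_XX_iff x t0 t).1 hX0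
  set T : ℝ → ℝ := fun s' => (E i).Bi θ (b + s') with hT
  have cT : Continuous T :=
    (E i).continuous_Bi.comp (f := fun s' : ℝ => (θ, b + s')) (by fun_prop)
  have hBT : ∀ s', (E i).B θ (T s') = b + s' := fun s' => (E i).B_Bi θ _
  have T0 : T 0 = t0 := by
    simp only [hT, add_zero, hb0]
    exact (E i).Bi_B θ t0
  set g : ℝ → ℝ := fun s' => rho (bc i) (x, T s') with hg
  have cg : Continuous g := (continuous_rho _).comp (f := fun s' : ℝ => (x, T s')) (by fun_prop)
  have hgv : ∀ s', g s' = r * nrm (LL * T s') θ := fun s' => rho_polar _ _ _ _ hr.le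
  have hF : ∀ s', g s' < eps → R.F (z, b + s') = m.ι (x, T s') := fun s' hs' => by
    have := (R.spec r θ (T s') hr (by rw [← hgv]; exact hs')).2
    rwa [← hz0, hBT] at this
  have key : uIcc 0 s ⊆ {s' | g s' < eps} := by
    refine isPreconnected_uIcc.subset_of_closure_inter_subset (isOpen_lt cg continuous_const)
      ⟨0, left_mem_uIcc, ?_⟩ ?_
    · show g 0 < eps
      rw [hgv, T0]; exact h0
    · rintro s' ⟨h1, h2⟩
      have h3 : g s' ≤ eps := closure_lt_subset_le cg continuous_const h1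
      have := mem_closure_iff_nhdsWithin_neBot.1 h1
      have c1 : ContinuousAt (fun s' : ℝ => R.F (z, b + s')) s' :=
        ContinuousAt.comp (f := fun s' : ℝ => (z, b + s'))
          (R.cont.continuousAt (R.opnV.mem_nhds (h s' h2))) (by fun_prop)
      have c2 : ContinuousAt (fun s' : ℝ => m.ι (x, T s')) s' :=
        ContinuousAt.comp (f := fun s' : ℝ => (x, T s')) (m.continuousAt_ι (hX _)) (by fun_prop)
      have h4 : R.F (z, b + s') = m.ι (x, T s') :=
        tendsto_nhds_unique_of_eventuallyEq (l := 𝓝[{s' | g s' < eps}] s')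
          (c1.tendsto.mono_left nhdsWithin_le_nhds) (c2.tendsto.mono_left nhdsWithin_le_nhds)
          (eventually_nhdsWithin_of_forall fun a ha => hF a ha)
      have h5 : m.ι (x, T s') ∈ range (m.τ i) := by
        rw [← h4, ← R.img]; exact mem_image_of_mem _ (h s' h2)
      obtain ⟨c, -, hc⟩ := (m.ι_mem_range_iff (hX _) i).1 h5
      have h6 : c = bc i := eq_of_rho_add_lt (p := (x, T s')) (by
        have : rho (bc i) (x, T s') ≤ eps := h3
        linarith)
      rw [h6] at hc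
      exact hc
  refine ⟨x, T 0, T s, hX _, ?_, hF s (key right_mem_uIcc), ?_⟩
  · simpa using hF 0 (key left_mem_uIcc)
  · rw [hx, C.near (bc i) r θ (T 0) (T s) hr, Bc_bc, Bc_bc, hBT, hBT]
    · ring
    · intro u hu
      have h1 : (E i).B θ u - b ∈ uIcc 0 s := by
        have hm := ((E i).mono θ).monotone
        rcases mem_uIcc.1 hu with ⟨h2, h3⟩ | ⟨h2, h3⟩
        · have h4 := hm h2
          have h5 := hm h3
          rw [hBT] at h4 h5
          exact mem_uIcc.2 (Or.inl ⟨by linarith, by linarith⟩)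
        · have h4 := hm h2
          have h5 := hm h3
          rw [hBT] at h4 h5
          exact mem_uIcc.2 (Or.inr ⟨by linarith, by linarith⟩)
      have h2 : T ((E i).B θ u - b) = u := by
        simp only [hT, add_sub_cancel]
        exact (E i).Bi_B θ u
      have h3 : rho (bc i) (x, T ((E i).B θ u - b)) < eps := key h1
      rw [h2] at h3
      exact h3.le

theorem flowa_exists (m : Model E M) (C : Coc E) (s : ℝ) (y : M) : ∃ y' : M,
    (∀ x t t', (x, t) ∈ XX → y = m.ι (x, t) → C.c x t t' = s → y' = m.ι (x, t')) ∧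
    ∀ i u, y = m.τ i (0, u) → y' = m.τ i (0, Circle.exp (π * (E i).P * s) * u) := by
  rcases m.cases y with ⟨⟨x, t⟩, hp, rfl⟩ | ⟨i, u, rfl⟩
  · obtain ⟨t', ht'⟩ := C.surj x t hp s
    refine ⟨m.ι (x, t'), fun x2 t2 t2' hp2 he hc => ?_, fun i u he => ?_⟩
    · obtain ⟨n, e, d, hd, hq⟩ := (m.eq_iff _ hp _ hp2).1 he
      have h1 : x2 = (act n e d (x, t)).1 := congrArg Prod.fst hq
      have h2 : t2 = t - n := congrArg Prod.snd hq
      have h3 := C.inv n e d x t t' hd hp
      rw [← h1, ← h2, ht', ← hc] at h3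
      have h4 : t' - n = t2' := (C.mono x2 t2 hp2).injective h3
      rw [← m.ι_act e hd ((mem_XX_iff x t t').1 hp), act_fst n e d x t t', ← h1, h4]
    · exact absurd ⟨i, u, he⟩ (m.ι_not_core hp)
  · refine ⟨m.τ i (0, Circle.exp (π * (E i).P * s) * u), fun x t t' hp he _ => ?_,
      fun j u' he => ?_⟩
    · exact absurd ⟨i, u, he.symm⟩ (m.ι_not_core hp)
    · obtain ⟨rfl, h⟩ := m.tau_inj he
      have h1 : u = u' := congrArg Prod.snd h
      rw [h1]

theorem flowa_axis {m : Model E M} {i : Fin 2} (R : Prong m i) (b : ℝ) :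
    R.F (0, b) = m.τ i (0, Circle.exp (π * (E i).P * b)) := by
  obtain ⟨w, h1, h2⟩ := R.lev 0 b (R.axis b)
  rw [h1, h2.2 rfl]

theorem flowa_nhds_le {m : Model E M} {i : Fin 2} (R : Prong m i) {a : ℂ × ℝ} (ha : a ∈ R.V) :
    𝓝 (R.F a) ≤ map R.F (𝓝 a) := by
  intro U hU
  obtain ⟨W, hW, ho, haW⟩ := mem_nhds_iff.1 (inter_mem hU (R.opnV.mem_nhds ha))
  refine mem_of_superset ((R.opn W ho fun w hw => (hW hw).2).mem_nhds (mem_image_of_mem _ haW)) ?_
  rintro _ ⟨w, hw, rfl⟩
  exact (hW hw).1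

theorem exists_flow (m : Model E M) : Nonempty (FlowM m) := by
  obtain ⟨C⟩ := exists_coc E
  choose f hf1 hf2 using flowa_exists m C
  have hι : ∀ x t t', (x, t) ∈ XX → f (C.c x t t') (m.ι (x, t)) = m.ι (x, t') :=
    fun x t t' hp => hf1 _ _ x t t' hp rfl rfl
  have hτ : ∀ i (s : ℝ) (u : Circle),
      f s (m.τ i (0, u)) = m.τ i (0, Circle.exp (π * (E i).P * s) * u) :=
    fun i s u => hf2 _ _ i u rfl
  have hH : ∀ (p : ℂ × ℝ) (s : ℝ), ∃ t', p ∈ XX → C.c p.1 p.2 t' = s := fun p s => by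
    by_cases hp : p ∈ XX
    · obtain ⟨t', ht'⟩ := C.surj p.1 p.2 hp s
      exact ⟨t', fun _ => ht'⟩
    · exact ⟨0, fun h => absurd h hp⟩
  choose H hH using hH
  have cH : ContinuousOn (fun a : (ℂ × ℝ) × ℝ => H a.1 a.2) (XX ×ˢ univ) :=
    continuousOn_inv (f := fun p y => C.c p.1 p.2 y) isOpen_XX C.cont
      (fun p hp => C.mono p.1 p.2 hp) (fun p hp y => hH p y hp)
  have hfH : ∀ s p, p ∈ XX → f s (m.ι p) = m.ι (p.1, H p s) := fun s p hp =>
    hf1 _ _ p.1 p.2 _ hp rfl (hH p s hp)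
  have hc : Continuous (Function.uncurry f) := by
    refine continuous_iff_continuousAt.2 ?_
    rintro ⟨s0, y0⟩
    rcases m.cases y0 with ⟨p0, hp, rfl⟩ | ⟨i, u0, rfl⟩
    · have c1 : ContinuousAt (fun a : ℝ × (ℂ × ℝ) => H a.2 a.1) (s0, p0) :=
        ContinuousAt.comp (f := fun a : ℝ × (ℂ × ℝ) => (a.2, a.1))
          (cH.continuousAt ((isOpen_XX.prod isOpen_univ).mem_nhds ⟨hp, trivial⟩)) (by fun_prop)
      have c2 : ContinuousAt (fun a : ℝ × (ℂ × ℝ) => m.ι (a.2.1, H a.2 a.1)) (s0, p0) :=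
        ContinuousAt.comp (f := fun a : ℝ × (ℂ × ℝ) => (a.2.1, H a.2 a.1))
          (m.continuousAt_ι ((mem_XX_iff p0.1 p0.2 _).1 hp))
          (ContinuousAt.prodMk (by fun_prop) c1)
      unfold ContinuousAt
      rw [nhds_prod_eq, ← m.map_nhds_ι hp, Filter.prod_map_right, tendsto_map'_iff,
        ← nhds_prod_eq, Function.uncurry_apply_pair, hfH s0 p0 hp]
      refine c2.tendsto.congr' ?_
      filter_upwards [continuous_snd.continuousAt.eventually (isOpen_XX.mem_nhds hp)] with a ha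
      exact (hfH a.1 a.2 ha).symm
    · obtain ⟨R⟩ := exists_prong m i
      have hP : (0 : ℝ) < (E i).P := by exact_mod_cast (E i).hP
      obtain ⟨v, rfl⟩ := Circle.exp_surjective u0
      obtain ⟨b0, rfl⟩ : ∃ b0 : ℝ, v = π * (E i).P * b0 :=
        ⟨v / (π * (E i).P), by have := Real.pi_pos; field_simp⟩
      have hmove : ∀ (s : ℝ) (a : ℂ × ℝ), (∀ s' ∈ uIcc 0 s, (a.1, a.2 + s') ∈ R.V) →
          f s (R.F a) = R.F (a.1, a.2 + s) := by
        rintro s ⟨z, b⟩ h
        by_cases hz : z = 0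
        · subst hz
          rw [flowa_axis, flowa_axis, hτ, ← Circle.exp_add]
          congr 3
          ring
        · obtain ⟨x, t, t', h1, h2, h3, h4⟩ := R.time C hz h
          rw [h2, h3, ← h4]
          exact hι x t t' h1
      have htube : ∀ᶠ a : ℂ × ℝ in 𝓝 ((0 : ℂ), b0),
          ∀ s' ∈ Icc (-(|s0| + 1)) (|s0| + 1), (a.1, a.2 + s') ∈ R.V := by
        refine isCompact_Icc.eventually_forall_of_forall_eventually fun s' _ => ?_
        have c1 : ContinuousAt (fun w : (ℂ × ℝ) × ℝ => (w.1.1, w.1.2 + w.2)) ((0, b0), s') := by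
          fun_prop
        exact c1.eventually (R.opnV.mem_nhds (R.axis _))
      have c2 : ContinuousAt (fun a : ℝ × (ℂ × ℝ) => R.F (a.2.1, a.2.2 + a.1)) (s0, (0, b0)) :=
        ContinuousAt.comp (f := fun a : ℝ × (ℂ × ℝ) => (a.2.1, a.2.2 + a.1))
          (R.cont.continuousAt (R.opnV.mem_nhds (R.axis _))) (by fun_prop)
      unfold ContinuousAt
      rw [← flowa_axis R, nhds_prod_eq, Function.uncurry_apply_pair,
        hmove s0 (0, b0) fun s' _ => R.axis _]
      refine Tendsto.mono_left ?_ (prod_mono_right _ (flowa_nhds_le R (R.axis b0)))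
      rw [Filter.prod_map_right, tendsto_map'_iff, ← nhds_prod_eq]
      refine c2.tendsto.congr' ?_
      have e1 : ∀ᶠ a : ℝ × (ℂ × ℝ) in 𝓝 (s0, ((0 : ℂ), b0)), |a.1| < |s0| + 1 :=
        (continuous_abs.comp continuous_fst).continuousAt.eventually
          (gt_mem_nhds (lt_add_one _))
      filter_upwards [e1, continuous_snd.continuousAt.eventually htube] with a h1 h2
      refine (hmove a.1 a.2 fun s' hs' => h2 s' ?_).symm
      have h3 := abs_lt.1 h1
      have h4 := abs_nonneg s0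
      rcases mem_uIcc.1 hs' with ⟨h5, h6⟩ | ⟨h5, h6⟩
      · exact ⟨by linarith, by linarith⟩
      · exact ⟨by linarith, by linarith⟩
  refine ⟨⟨⟨f, hc, fun s1 s2 y => ?_, fun y => ?_⟩, C, hι, hτ⟩⟩
  · rcases m.cases y with ⟨⟨x, t⟩, hp, rfl⟩ | ⟨i, u, rfl⟩
    · obtain ⟨t2, rfl⟩ := C.surj x t hp s2
      have hp2 := (mem_XX_iff x t t2).1 hp
      obtain ⟨t1, rfl⟩ := C.surj x t2 hp2 s1
      rw [add_comm, C.add x t t2 t1 hp, hι _ _ _ hp, hι _ _ _ hp, hι _ _ _ hp2]
    · rw [hτ, hτ, hτ, mul_add, Circle.exp_add, mul_assoc]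
  · rcases m.cases y with ⟨⟨x, t⟩, hp, rfl⟩ | ⟨i, u, rfl⟩
    · have h0 : C.c x t t = 0 := by linarith [C.add x t t t hp]
      rw [← h0, hι _ _ _ hp]
    · rw [hτ, mul_zero, Circle.exp_zero, one_mul]

end Pool.Agent.Zig
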