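import Pool.Agent.Lib.MP_d77862_gt.Chart

noncomputable section

namespace Pool.Agent.Zig

open Set Filter Topology Complex Real

/-! The transverse foliation. -/

variable {E : Fin 2 → End} {M : Type} [TopologicalSpace M] {m : Model E M}

/-- Charts whose horizontal plaques are plaques of the foliation. -/
def Leaf.Adapted (L : Leaf E) (m : Model E M) (e : OpenPartialHomeomorph M (ℂ × ℝ)) : Prop :=
  (∀ q ∈ XX, m.ι q ∈ e.source → ∀ᶠ w in 𝓝 (q, q),
    ((e (m.ι w.1)).2 = (e (m.ι w.2)).2 ↔ L.K q w.1 = L.K q w.2)) ∧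
  ∀ i u, m.τ i (0, u) ∈ e.source → ∀ᶠ w in 𝓝 (((0 : ℂ), u), ((0 : ℂ), u)),
    ((e (m.τ i w.1)).2 = (e (m.τ i w.2)).2 ↔ w.1.2 = w.2.2)

theorem fol_pair {A : Type} [TopologicalSpace A] {j : A → M} {a : A}
    (h : map j (𝓝 a) = 𝓝 (j a)) {P : M × M → Prop}
    (hP : ∀ᶠ w in 𝓝 (a, a), P (j w.1, j w.2)) : ∀ᶠ y in 𝓝 (j a, j a), P y := by
  rw [nhds_prod_eq] at hP ⊢
  rw [← h, Filter.prod_map_map_eq]
  exact hP

theorem fol_pull (L : Leaf E) {H : M → ℝ} {q q0 : ℂ × ℝ} (hq : q ∈ XX) (hq0 : q0 ∈ XX)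
    (h : m.ι q = m.ι q0) {g : ℝ → ℝ} (hg : Function.Injective g)
    (hH : ∀ᶠ w in 𝓝 q0, H (m.ι w) = g (L.K q0 w)) :
    ∀ᶠ w in 𝓝 (q, q), (H (m.ι w.1) = H (m.ι w.2) ↔ L.K q w.1 = L.K q w.2) := by
  obtain ⟨n, e, c, hc, rfl⟩ := (m.eq_iff q hq q0 hq0).1 h
  have h1 : ∀ᶠ w in 𝓝 q, H (m.ι (act n e c w)) = g (L.K (act n e c q) (act n e c w)) :=
    ((continuous_act n e c).tendsto q).eventually hH
  have h2 : ∀ᶠ w in 𝓝 q, H (m.ι w) = g (L.K q w - n) := by
    filter_upwards [h1, L.inv n e c hc q hq, isOpen_XX.mem_nhds hq] with w a b d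
    rw [← m.ι_act e hc d, a, b]
  filter_upwards [h2.prod_nhds h2] with w hw
  rw [hw.1, hw.2, hg.eq_iff, sub_left_inj]

theorem Leaf.Adapted.compat {L : Leaf E} {e e' : OpenPartialHomeomorph M (ℂ × ℝ)}
    (h : L.Adapted m e) (h' : L.Adapted m e') {x : M} (hx : x ∈ e.source ∩ e'.source) :
    ∀ᶠ y in 𝓝 (x, x), ((e y.1).2 = (e y.2).2 ↔ (e' y.1).2 = (e' y.2).2) := by
  rcases m.cases x with ⟨p, hp, rfl⟩ | ⟨i, u, rfl⟩
  · refine fol_pair (m.map_nhds_ι hp) ?_
    filter_upwards [h.1 p hp hx.1, h'.1 p hp hx.2] with w a b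
    exact a.trans b.symm
  · refine fol_pair ((m.tube.1 i).map_nhds_eq _) ?_
    filter_upwards [h.2 i u hx.1, h'.2 i u hx.2] with w a b
    exact a.trans b.symm

theorem FlowM.adapted_regular (f : FlowM m) (L : Leaf E) {p : ℂ × ℝ} (hp : p ∈ XX) :
    ∃ e, m.ι p ∈ e.source ∧ FlowBox f.φ e ∧ L.Adapted m e := by
  obtain ⟨e0, h1, h2, h3, h4, h5⟩ := m.exists_chart hp ((L.cont p hp).and (L.compat p hp))
  obtain ⟨v, hv1, hv2⟩ := exists_vertical_chart e0.open_target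
    (fun q hq => (h2 hq).1.continuousWithinAt) (L.mono p)
  have hs : (e0.trans v).source = m.ι '' e0.target := by
    rw [OpenPartialHomeomorph.trans_source, hv1, ← h4]
    exact inter_eq_left.2 fun y hy => e0.map_source hy
  have he : ∀ q ∈ e0.target, (e0.trans v) (m.ι q) = (id q.1, L.K p q) := fun q hq => by
    rw [OpenPartialHomeomorph.trans_apply, h5 q hq, hv2]
    rfl
  refine ⟨e0.trans v, ?_, f.flowBox_vertical e0.open_target h3 hs (L.mono p) he, ?_, ?_⟩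
  · rw [hs]
    exact mem_image_of_mem _ h1
  · intro q hq hqs
    rw [hs] at hqs
    obtain ⟨q0, hq0, hqq⟩ := hqs
    obtain ⟨g, hg, hK⟩ := (h2 hq0).2
    refine fol_pull L (H := fun y => ((e0.trans v) y).2) hq (h3 hq0) hqq.symm hg ?_
    filter_upwards [hK, e0.open_target.mem_nhds hq0] with w a b
    rw [he w b]
    exact a
  · intro i u hu
    rw [hs] at hu
    obtain ⟨q0, hq0, hqq⟩ := hu
    exact absurd ⟨i, u, hqq⟩ (m.ι_not_core (h3 hq0))

theorem FlowM.adapted_core (f : FlowM m) (L : Leaf E) (i : Fin 2) (u : Circle) :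
    ∃ e, m.τ i (0, u) ∈ e.source ∧ FlowBox f.φ e ∧ L.Adapted m e := by
  obtain ⟨R⟩ := exists_prong m i
  obtain ⟨b0, hb0⟩ := R.exists_F_axis u
  obtain ⟨e, h1, hV, hb, hs, he⟩ := R.exists_chart b0
  refine ⟨e, ?_, f.flowBox_prong R hV hs he, ?_, ?_⟩
  · rw [hs, hb0]
    exact mem_image_of_mem _ h1
  · intro q hq hqs
    rcases R.chart_cases hV hs he hqs with ⟨b, hy, -⟩ | ⟨r, θ, t, hr, hlt, hy, hev⟩
    · exact absurd ⟨i, _, hy.trans (R.F_axis b)⟩ (m.ι_not_core hq)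
    · have hq0 : (cor (bc i) + r * dir θ, t) ∈ XX := by
        refine mem_XX_of_rho (c := bc i) ?_ ?_
        · rw [rho_polar _ _ _ _ hr.le]
          exact mul_pos hr (nrm_pos _ _)
        · rw [rho_polar _ _ _ _ hr.le]
          exact hlt.trans (by unfold eps; norm_num)
      obtain ⟨g, hg, hK⟩ := L.cusp i r θ t hr hlt
      refine fol_pull L (H := fun y => (e y).2) hq hq0 hy hg ?_
      rw [← map_nhds_polar (cor (bc i)) hr θ t, eventually_map]
      filter_upwards [hev, hK] with a h2 h3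
      rw [h2]
      exact h3
  · intro j u' hu
    obtain ⟨w0, hw0⟩ := R.chart_subset hV hs hu
    obtain rfl : i = j := (m.tau_inj hw0).1
    have h2 : ∀ᶠ w in 𝓝 ((0 : ℂ), u'), m.τ i w ∈ e.source :=
      ((m.tube.1 i).continuous.tendsto _).eventually (e.open_source.mem_nhds hu)
    filter_upwards [h2.prod_nhds h2] with w hw
    have e1 := R.chart_snd hV hs he hw.1
    have e2 := R.chart_snd hV hs he hw.2
    have b1 := hb _ (e.map_source hw.1)
    have b2 := hb _ (e.map_source hw.2)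
    rw [e1, e2]
    refine ⟨fun h => by rw [h], fun h => ?_⟩
    obtain ⟨k, hk⟩ := Circle.exp_eq_exp.1 h
    have hP : (0 : ℝ) < (E i).P := by exact_mod_cast (E i).hP
    generalize (e (m.τ i w.1)).2 = x at *
    generalize (e (m.τ i w.2)).2 = y at *
    have h3 : (E i).P * (x - y) = 2 * k := by
      have : π * ((E i).P * (x - y) - 2 * k) = 0 := by linear_combination hk
      have := (mul_eq_zero.1 this).resolve_left Real.pi_ne_zero
      linarith
    rw [abs_lt, lt_div_iff₀ hP, neg_lt, lt_div_iff₀ hP] at b1 b2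
    have h4 : (k : ℝ) < 1 := by nlinarith [b1.1, b1.2, b2.1, b2.2]
    have h5 : (-1 : ℝ) < k := by nlinarith [b1.1, b1.2, b2.1, b2.2]
    have h6 : k = 0 := by
      have h7 : k < 1 := by exact_mod_cast h4
      have h8 : -1 < k := by exact_mod_cast h5
      omega
    rw [h6, Int.cast_zero, mul_zero] at h3
    exact sub_eq_zero.1 ((mul_eq_zero.1 h3).resolve_left hP.ne')

theorem FlowM.transFol (f : FlowM m) (L : Leaf E) : TransFol f.φ := by
  refine ⟨{e | FlowBox f.φ e ∧ L.Adapted m e}, fun x => ?_, fun e he => he.1,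
    fun e he e' he' x hx => he.2.compat he'.2 hx⟩
  rcases m.cases x with ⟨p, hp, rfl⟩ | ⟨i, u, rfl⟩
  · obtain ⟨e, h1, h2⟩ := f.adapted_regular L hp
    exact ⟨e, h2, h1⟩
  · obtain ⟨e, h1, h2⟩ := f.adapted_core L i u
    exact ⟨e, h2, h1⟩

end Pool.Agent.Zig
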