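import Pool.Agent.Lib.MP_d77862_gt.Lat

noncomputable section

namespace Pool.Agent.Zig

open Set Filter Topology Complex Real

/-! The group action, the open set `XX` and the functions `rho`. -/

theorem grpa_DD_add (t : ℝ) (z w : ℂ) : DD t (z + w) = DD t z + DD t w := Dg_add _ z w
theorem grpa_DD_sub (t : ℝ) (z w : ℂ) : DD t (z - w) = DD t z - DD t w := Dg_sub _ z w
theorem grpa_DD_neg (t : ℝ) (z : ℂ) : DD t (-z) = -DD t z := Dg_neg _ z
theorem grpa_DD_unit (t : ℝ) (e : ℤˣ) (z : ℂ) :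
    DD t (((e : ℤ) : ℂ) * z) = ((e : ℤ) : ℂ) * DD t z := Dg_unit_mul _ e z

theorem grpa_unit_sq (e : ℤˣ) : ((e : ℤ) : ℂ) * ((e : ℤ) : ℂ) = 1 := by
  rcases Int.units_eq_one_or e with rfl | rfl <;> simp

theorem grpa_unit_norm (e : ℤˣ) : ‖((e : ℤ) : ℂ)‖ = 1 := by
  rcases Int.units_eq_one_or e with rfl | rfl <;> simp

theorem grpa_cor (n : ℤ) (e : ℤˣ) (c : ℤ × ℤ) :
    ∃ c' : ℤ × ℤ, cor c' = ((e : ℤ) : ℂ) * DD n (cor c) ∧ Even (c'.1 - c.1) ∧
      Even (c'.2 - c.2) := by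
  obtain ⟨c', h, h1, h2⟩ := DD_int_cor n c
  rcases Int.units_eq_one_or e with rfl | rfl
  · exact ⟨c', by simp [h], h1, h2⟩
  · refine ⟨-c', by simp [h, cor_neg], ?_, ?_⟩
    · rw [Int.even_iff] at h1 ⊢
      simp only [Prod.fst_neg]
      omega
    · rw [Int.even_iff] at h2 ⊢
      simp only [Prod.snd_neg]
      omega

theorem grpa_cont_DD (t : ℝ) : Continuous (DD t) :=
  continuous_DD.comp (continuous_const.prodMk continuous_id)

theorem mem_XX_iff (x : ℂ) (t t' : ℝ) : (x, t) ∈ XX ↔ (x, t') ∈ XX := Iff.rfl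

theorem continuous_act (n : ℤ) (e : ℤˣ) (c : ℤ × ℤ) : Continuous (act n e c) := by
  unfold act
  exact ((continuous_const.mul ((grpa_cont_DD _).comp continuous_fst)).add
    continuous_const).prodMk (continuous_snd.sub continuous_const)

/-- The action of a group element as a homeomorphism. -/
def grpaHomeo (n : ℤ) (e : ℤˣ) (c : ℤ × ℤ) : ℂ × ℝ ≃ₜ ℂ × ℝ where
  toFun := act n e c
  invFun := fun q => (((e : ℤ) : ℂ) * DD (-(n : ℝ)) (q.1 - cor c), q.2 + n)
  left_inv := by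
    rintro ⟨x, t⟩
    simp only [act, add_sub_cancel_right, sub_add_cancel, grpa_DD_unit, DD_DD, neg_add_cancel,
      DD_zero, ← mul_assoc, grpa_unit_sq, one_mul]
  right_inv := by
    rintro ⟨x, t⟩
    simp only [act, add_sub_cancel_right, sub_add_cancel, grpa_DD_unit, DD_DD, add_neg_cancel,
      DD_zero, ← mul_assoc, grpa_unit_sq, one_mul]
  continuous_toFun := continuous_act n e c
  continuous_invFun :=
    (continuous_const.mul ((grpa_cont_DD _).comp (continuous_fst.sub continuous_const))).prodMk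
      (continuous_snd.add continuous_const)

theorem isOpenMap_act (n : ℤ) (e : ℤˣ) (c : ℤ × ℤ) : IsOpenMap (act n e c) :=
  (grpaHomeo n e c).isOpenMap

theorem act_injective (n : ℤ) (e : ℤˣ) (c : ℤ × ℤ) : Function.Injective (act n e c) :=
  (grpaHomeo n e c).injective

theorem act_zero (p : ℂ × ℝ) : act 0 1 0 p = p := by
  simp [act, DD_zero, cor_zero]

theorem adm_zero : Adm 0 0 := by
  simp [Adm]

theorem act_act {n n' : ℤ} (e e' : ℤˣ) {c c' : ℤ × ℤ} (h : Adm n c) (h' : Adm n' c') :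
    ∃ c'', Adm (n' + n) c'' ∧ ∀ p, act n' e' c' (act n e c p) = act (n' + n) (e' * e) c'' p := by
  obtain ⟨d, hd, h1, h2⟩ := grpa_cor n' e' c
  refine ⟨d + c', ?_, fun p => ?_⟩
  · obtain ⟨a1, a2⟩ := h
    obtain ⟨b1, b2⟩ := h'
    unfold Adm
    simp only [Int.even_iff, Prod.fst_add, Prod.snd_add] at *
    omega
  · simp only [act, grpa_DD_add, grpa_DD_unit, DD_DD, cor_add, hd]
    push_cast
    refine Prod.ext ?_ ?_
    · simp only
      ring
    · simp only
      ring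

theorem act_inv {n : ℤ} (e : ℤˣ) {c : ℤ × ℤ} (h : Adm n c) :
    ∃ c', Adm (-n) c' ∧ (∀ p, act (-n) e c' (act n e c p) = p) ∧
      ∀ p, act n e c (act (-n) e c' p) = p := by
  obtain ⟨d, hd, h1, h2⟩ := grpa_cor (-n) e c
  have key : ∀ q, act (-n) e (-d) q = (grpaHomeo n e c).symm q := by
    intro q
    show _ = (((e : ℤ) : ℂ) * DD (-(n : ℝ)) (q.1 - cor c), q.2 + n)
    simp only [act, cor_neg, hd, grpa_DD_sub]
    push_cast
    refine Prod.ext ?_ ?_
    · simp only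
      ring
    · simp only
      ring
  refine ⟨-d, ?_, fun p => ?_, fun p => ?_⟩
  · obtain ⟨a1, a2⟩ := h
    unfold Adm
    simp only [Int.even_iff, Prod.fst_neg, Prod.snd_neg] at *
    omega
  · rw [key]
    exact (grpaHomeo n e c).symm_apply_apply p
  · rw [key]
    exact (grpaHomeo n e c).apply_symm_apply p

theorem rel_refl (p : ℂ × ℝ) : Rel p p := ⟨0, 1, 0, adm_zero, (act_zero p).symm⟩

theorem rel_symm {p q : ℂ × ℝ} (h : Rel p q) : Rel q p := by
  obtain ⟨n, e, c, ha, rfl⟩ := h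
  obtain ⟨c', ha', h1, -⟩ := act_inv e ha
  exact ⟨-n, e, c', ha', (h1 p).symm⟩

theorem rel_trans {p q r : ℂ × ℝ} (h : Rel p q) (h' : Rel q r) : Rel p r := by
  obtain ⟨n, e, c, ha, rfl⟩ := h
  obtain ⟨n', e', c', ha', rfl⟩ := h'
  obtain ⟨c'', ha'', h1⟩ := act_act e e' ha ha'
  exact ⟨n' + n, e' * e, c'', ha'', h1 p⟩

theorem act_fst (n : ℤ) (e : ℤˣ) (c : ℤ × ℤ) (x : ℂ) (t t' : ℝ) :
    act n e c (x, t') = ((act n e c (x, t)).1, t' - n) := rfl

theorem act_mem_XX (n : ℤ) (e : ℤˣ) (c : ℤ × ℤ) {p : ℂ × ℝ} :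
    act n e c p ∈ XX ↔ p ∈ XX := by
  constructor
  · intro h d hd
    obtain ⟨d', hd', -, -⟩ := grpa_cor n e d
    exact h (d' + c) (by simp only [act, cor_add, hd', hd])
  · intro h d hd
    obtain ⟨d', hd', -, -⟩ := grpa_cor (-n) e (d - c)
    refine h d' ?_
    have h1 : cor (d - c) = ((e : ℤ) : ℂ) * DD n p.1 := by
      rw [cor_sub, ← hd]
      simp only [act, add_sub_cancel_right]
    rw [hd', h1, grpa_DD_unit, DD_DD, ← mul_assoc, grpa_unit_sq, one_mul]
    push_cast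
    rw [neg_add_cancel, DD_zero]

/-- The invariant transverse distance. -/
theorem norm_DD_act (n : ℤ) (e : ℤˣ) (c : ℤ × ℤ) (x y : ℂ) (t : ℝ) :
    ‖DD (t - n) ((act n e c (x, t)).1 - (act n e c (y, t)).1)‖ = ‖DD t (x - y)‖ := by
  have h : (act n e c (x, t)).1 - (act n e c (y, t)).1 = ((e : ℤ) : ℂ) * DD n (x - y) := by
    simp only [act, grpa_DD_sub]
    ring
  rw [h, grpa_DD_unit, DD_DD, sub_add_cancel, norm_mul, grpa_unit_norm, one_mul]

/-- The group permutes the corners, keeps the cusp and shifts the row by `n` modulo 2. -/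
theorem act_cor {n : ℤ} (e : ℤˣ) {c : ℤ × ℤ} (h : Adm n c) (d : ℤ × ℤ) :
    ∃ d' : ℤ × ℤ, cor d' = ((e : ℤ) : ℂ) * DD n (cor d) + cor c ∧ idx d' = idx d ∧
      Even (d'.2 - d.2 - n) ∧ ∀ p, rho d' (act n e c p) = rho d p := by
  obtain ⟨d0, hd, h1, h2⟩ := grpa_cor n e d
  obtain ⟨a1, a2⟩ := h
  have hc : cor (d0 + c) = ((e : ℤ) : ℂ) * DD n (cor d) + cor c := by rw [cor_add, hd]
  refine ⟨d0 + c, hc, ?_, ?_, fun p => ?_⟩
  · have : Even (d0 + c).1 ↔ Even d.1 := by
      simp only [Int.even_iff, Prod.fst_add] at *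
      omega
    simp only [idx, this]
  · simp only [Int.even_iff, Prod.snd_add] at *
    omega
  · have := norm_DD_act n e c p.1 (cor d) p.2
    unfold rho
    rw [hc]
    exact this

/-- Every corner is the image of its base corner. -/
theorem exists_act_bc (d : ℤ × ℤ) :
    ∃ c, Adm d.2 c ∧ cor d = DD d.2 (cor (bc (idx d))) + cor c := by
  obtain ⟨c', h, h1, h2⟩ := DD_int_cor d.2 (bc (idx d))
  refine ⟨d - c', ?_, by rw [h, cor_sub]; ring⟩
  unfold Adm
  by_cases hd : Even d.1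
  · simp only [idx, hd, if_true, bc] at h1 h2
    simp only [Int.even_iff, Prod.fst_sub, Prod.snd_sub] at *
    simp only [Fin.val_zero, Nat.cast_zero] at h1
    omega
  · simp only [idx, hd, if_false, bc] at h1 h2
    simp only [Int.even_iff, Prod.fst_sub, Prod.snd_sub] at *
    simp only [Fin.val_one, Nat.cast_one] at h1
    omega

theorem idx_bc (i : Fin 2) : idx (bc i) = i := by
  fin_cases i <;> simp [idx, bc]

theorem continuous_rho (c : ℤ × ℤ) : Continuous (rho c) :=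
  (continuous_DD.comp (continuous_snd.prodMk (continuous_fst.sub continuous_const))).norm

theorem rho_pos (c : ℤ × ℤ) {p : ℂ × ℝ} (hp : p ∈ XX) : 0 < rho c p := by
  unfold rho
  rw [norm_pos_iff]
  intro h
  exact hp c (sub_eq_zero.mp (Dg_eq_zero.mp h))

theorem rho_le (c : ℤ × ℤ) (x : ℂ) (t t' : ℝ) :
    rho c (x, t') ≤ Real.exp (LL * |t' - t|) * rho c (x, t) := norm_DD_le t t' _

theorem eq_of_rho_add_lt {c d : ℤ × ℤ} {p : ℂ × ℝ} (h : rho c p + rho d p < 1) : c = d := by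
  by_contra hne
  have h1 := one_le_norm_DD_cor p.2 (sub_ne_zero.mpr hne)
  have h2 : DD p.2 (cor (c - d)) = DD p.2 (p.1 - cor d) - DD p.2 (p.1 - cor c) := by
    rw [← grpa_DD_sub, cor_sub]
    congr 1
    ring
  rw [h2] at h1
  have h3 := norm_sub_le (DD p.2 (p.1 - cor d)) (DD p.2 (p.1 - cor c))
  unfold rho at h
  linarith

theorem mem_XX_of_rho {c : ℤ × ℤ} {p : ℂ × ℝ} (h0 : 0 < rho c p) (h1 : rho c p < 1) :
    p ∈ XX := by
  intro d hd
  have hz : rho d p = 0 := by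
    unfold rho
    rw [hd, sub_self, norm_eq_zero]
    exact Dg_eq_zero.mpr rfl
  have : c = d := eq_of_rho_add_lt (by rw [hz, add_zero]; exact h1)
  rw [this, hz] at h0
  exact lt_irrefl _ h0

end Pool.Agent.Zig
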