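import Pool.Agent.Lib.MP_d77862_gt.Util
import Pool.Agent.Lib.MP_d77862_gt.Grp

noncomputable section

namespace Pool.Agent.Zig

open Set Filter Topology Complex Real

/-! The open mapping torus `XX / Γ` and the generic Dehn filling. -/

/-- The orbit relation on the subtype. -/
def quot_setoid : Setoid XX :=
  ⟨fun a b => Rel a.1 b.1, ⟨fun _ => rel_refl _, fun h => rel_symm h, fun h h' => rel_trans h h'⟩⟩

theorem quot_isOpenMap : IsOpenMap (Quotient.mk quot_setoid) := by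
  intro V hV
  have hq : IsQuotientMap (Quotient.mk quot_setoid) := isQuotientMap_quotient_mk' (s := quot_setoid)
  rw [← hq.isOpen_preimage]
  have h1 : IsOpen (Subtype.val '' V : Set (ℂ × ℝ)) := isOpen_XX.isOpenMap_subtype_val V hV
  have h2 : Quotient.mk quot_setoid ⁻¹' (Quotient.mk quot_setoid '' V) =
      Subtype.val ⁻¹' (⋃ (n : ℤ) (e : ℤˣ) (c : ℤ × ℤ) (_ : Adm n c),
        act n e c '' (Subtype.val '' V)) := by
    ext a
    simp only [mem_preimage, mem_iUnion]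
    constructor
    · rintro ⟨b, hb, hab⟩
      obtain ⟨n, e, c, hadm, h⟩ : Rel b.1 a.1 := Quotient.exact hab
      exact ⟨n, e, c, hadm, b.1, ⟨b, hb, rfl⟩, h.symm⟩
    · rintro ⟨n, e, c, hadm, _, ⟨b, hb, rfl⟩, h⟩
      exact ⟨b, hb, Quotient.sound (show Rel b.1 a.1 from ⟨n, e, c, hadm, h.symm⟩)⟩
  rw [h2]
  refine IsOpen.preimage continuous_subtype_val ?_
  exact isOpen_iUnion fun n => isOpen_iUnion fun e => isOpen_iUnion fun c =>
    isOpen_iUnion fun _ => isOpenMap_act n e c _ h1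

/-- The quotient of `XX` by the group, with the properties that are used later. -/
theorem exists_quotient : ∃ (Y : Type) (_ : TopologicalSpace Y) (pr : ℂ × ℝ → Y),
    T2Space Y ∧ ContinuousOn pr XX ∧ (∀ U, IsOpen U → U ⊆ XX → IsOpen (pr '' U)) ∧
      (∀ p ∈ XX, ∀ q ∈ XX, pr p = pr q ↔ Rel p q) ∧ pr '' XX = univ := by
  classical
  obtain ⟨p0, hp0⟩ := dense_XX.nonempty
  let pr : ℂ × ℝ → Quotient quot_setoid := fun p =>
    if h : p ∈ XX then Quotient.mk quot_setoid ⟨p, h⟩ else Quotient.mk quot_setoid ⟨p0, hp0⟩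
  have hpr : ∀ p (h : p ∈ XX), pr p = Quotient.mk quot_setoid ⟨p, h⟩ := fun p h => dif_pos h
  have hcont : Continuous (Quotient.mk quot_setoid) := continuous_quotient_mk' (s := quot_setoid)
  refine ⟨Quotient quot_setoid, inferInstance, pr, ?_, ?_, ?_, ?_, ?_⟩
  · have hq : IsOpenQuotientMap (Quotient.mk quot_setoid) :=
      ⟨Quotient.mk_surjective, hcont, quot_isOpenMap⟩
    rw [t2Space_iff_of_isOpenQuotientMap hq]
    have h2 : {q : XX × XX | Quotient.mk quot_setoid q.1 = Quotient.mk quot_setoid q.2} =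
        (fun q : XX × XX => (q.1.1, q.2.1)) ⁻¹' {a : (ℂ × ℝ) × (ℂ × ℝ) | Rel a.1 a.2} := by
      ext q
      exact ⟨fun h => Quotient.exact h, fun h => Quotient.sound h⟩
    rw [h2]
    exact isClosed_rel.preimage (by fun_prop)
  · rw [continuousOn_iff_continuous_domRestrict]
    have : XX.domRestrict pr = Quotient.mk quot_setoid := by
      funext a
      exact hpr a.1 a.2
    rw [this]
    exact hcont
  · intro U hU hUX
    have : pr '' U = Quotient.mk quot_setoid '' (Subtype.val ⁻¹' U) := by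
      ext y
      constructor
      · rintro ⟨p, hp, rfl⟩
        exact ⟨⟨p, hUX hp⟩, hp, (hpr p (hUX hp)).symm⟩
      · rintro ⟨a, ha, rfl⟩
        exact ⟨a.1, ha, hpr a.1 a.2⟩
    rw [this]
    exact quot_isOpenMap _ (hU.preimage continuous_subtype_val)
  · intro p hp q hq
    rw [hpr p hp, hpr q hq]
    exact ⟨fun h => Quotient.exact h, fun h => Quotient.sound h⟩
  · refine eq_univ_of_forall fun y => ?_
    obtain ⟨a, rfl⟩ := Quotient.mk_surjective y
    exact ⟨a.1, a.2, hpr a.1 a.2⟩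

theorem quot_thick_subset {r : ℝ} (hr : 0 < r) : {p : ℂ × ℝ | ∀ c, r ≤ rho c p} ⊆ XX := by
  intro p hp c hc
  have h := hp c
  have h0 : rho c p = 0 := by
    unfold rho DD
    rw [hc, sub_self, norm_eq_zero, Dg_eq_zero]
  linarith

theorem quot_thick_rel {r : ℝ} {p q : ℂ × ℝ} (hp : ∀ c, r ≤ rho c p) (h : Rel p q) :
    ∀ c, r ≤ rho c q := by
  intro d
  obtain ⟨n, e, c, hadm, h⟩ := rel_symm h
  obtain ⟨d', -, -, -, h4⟩ := act_cor e hadm d
  rw [← h4 q, ← h]
  exact hp d'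

/-- Such a quotient is connected, locally `ℂ × ℝ`, and its thick part is compact. -/
theorem quotient_props {Y : Type} [TopologicalSpace Y] {pr : ℂ × ℝ → Y}
    (hc : ContinuousOn pr XX) (ho : ∀ U, IsOpen U → U ⊆ XX → IsOpen (pr '' U))
    (he : ∀ p ∈ XX, ∀ q ∈ XX, pr p = pr q ↔ Rel p q) (hs : pr '' XX = univ) :
    ConnectedSpace Y ∧ (∀ y : Y, ∃ e : OpenPartialHomeomorph Y (ℂ × ℝ), y ∈ e.source) ∧
      (∀ r > 0, IsCompact (pr '' {p | ∀ c, r ≤ rho c p})) ∧
      ∀ A ⊆ XX, (∀ p ∈ A, ∀ q, Rel p q → q ∈ A) → IsOpen (XX \ A) → IsClosed (pr '' A) := by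
  refine ⟨?_, ?_, ?_, ?_⟩
  · rw [connectedSpace_iff_univ, ← hs]
    exact IsConnected.image ⟨dense_XX.nonempty, isPreconnected_XX⟩ pr hc
  · intro y
    have hy : y ∈ pr '' XX := hs ▸ mem_univ y
    obtain ⟨p, hp, rfl⟩ := hy
    obtain ⟨U, hU, hpU, hUX, hinj⟩ := exists_inj_nhds hp
    obtain ⟨e, h1, h2, h3⟩ := exists_oph hU (hc.mono hUX)
      (fun a ha b hb hab => hinj a ha b hb ((he a (hUX ha) b (hUX hb)).1 hab))
      (fun W hW hWU => ho W hW (hWU.trans hUX))
    refine ⟨e.symm, ?_⟩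
    rw [OpenPartialHomeomorph.symm_source, h2]
    exact ⟨p, hpU, rfl⟩
  · intro r hr
    obtain ⟨R, hR⟩ := exists_bounded_rep
    have h1 : pr '' {p | ∀ c, r ≤ rho c p} =
        pr '' ({p | ∀ c, r ≤ rho c p} ∩ Metric.closedBall 0 R) := by
      refine Subset.antisymm ?_ (image_mono inter_subset_left)
      rintro _ ⟨p, hp, rfl⟩
      obtain ⟨q, hq, hqR⟩ := hR p
      have hq' : q ∈ {p : ℂ × ℝ | ∀ c, r ≤ rho c p} := quot_thick_rel hp hq
      refine ⟨q, ⟨hq', by simpa using hqR⟩, ?_⟩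
      exact ((he p (quot_thick_subset hr hp) q (quot_thick_subset hr hq')).2 hq).symm
    rw [h1]
    refine IsCompact.image_of_continuousOn ?_
      (hc.mono (inter_subset_left.trans (quot_thick_subset hr)))
    exact (isCompact_closedBall 0 R).inter_left (isClosed_thick r)
  · intro A hA hsat hop
    have h1 : (pr '' A)ᶜ = pr '' (XX \ A) := by
      ext y
      have hy : y ∈ pr '' XX := hs ▸ mem_univ y
      obtain ⟨p, hp, rfl⟩ := hy
      constructor
      · intro h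
        exact ⟨p, ⟨hp, fun hpA => h ⟨p, hpA, rfl⟩⟩, rfl⟩
      · rintro ⟨q, ⟨hq, hqA⟩, hqp⟩ ⟨a, ha, hap⟩
        exact hqA (hsat a ha q ((he a (hA ha) q hq).1 (hap.trans hqp.symm)))
    rw [← isOpen_compl_iff, h1]
    exact ho _ hop sdiff_subset

end Pool.Agent.Zig
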