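import Pool.Agent.Lib.MP_d77862_gt.EndL
import Pool.Agent.Lib.MP_d77862_gt.Quot
import Pool.Agent.Lib.MP_d77862_gt.Fill

noncomputable section

namespace Pool.Agent.Zig

open Set Filter Topology Complex Real

/-! The punctured tubes in the open mapping torus, and the existence of the models. -/

/-- The point of the cover with tube coordinates `(R, a, b)`. -/
def End.pt (E : End) (i : Fin 2) (a : ℝ × ℝ × ℝ) : ℂ × ℝ :=
  (cor (bc i) + ((eps * a.1 / (1 + a.1) /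
      nrm (LL * (E.phi.symm a.2).2) (E.phi.symm a.2).1 : ℝ) : ℂ) * dir (E.phi.symm a.2).1,
    (E.phi.symm a.2).2)

/-- Tube coordinates of a point of `ℂ × Circle`. -/
def unc (w : ℂ × Circle) : ℝ × ℝ × ℝ := (‖w.1‖, arg w.1 / (2 * π), arg (w.2 : ℂ) / (2 * π))

theorem cov_unc (w : ℂ × Circle) : cov (unc w) = w := by
  have hp : (2 * π) ≠ 0 := by positivity
  refine Prod.ext ?_ ?_
  · show ((‖w.1‖ : ℝ) : ℂ) * dir (2 * π * (arg w.1 / (2 * π))) = w.1
    rw [mul_div_cancel₀ _ hp, norm_mul_dir_arg]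
  · show Circle.exp (2 * π * (arg (w.2 : ℂ) / (2 * π))) = w.2
    rw [mul_div_cancel₀ _ hp, Circle.exp_arg]

theorem jmap_eps_pos : 0 < eps := by unfold eps; norm_num

theorem jmap_nonneg {R : ℝ} (h : 0 ≤ R) : 0 ≤ eps * R / (1 + R) :=
  div_nonneg (mul_nonneg jmap_eps_pos.le h) (by linarith)

theorem jmap_pos {R : ℝ} (h : 0 < R) : 0 < eps * R / (1 + R) :=
  div_pos (mul_pos jmap_eps_pos h) (by linarith)

theorem jmap_lt {R : ℝ} (h : 0 ≤ R) : eps * R / (1 + R) < eps := by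
  rw [div_lt_iff₀ (by linarith)]
  have := jmap_eps_pos
  nlinarith

theorem jmap_rad_inv {s : ℝ} (h : s < eps) : eps * rad s / (1 + rad s) = s := by
  have h1 : eps - s ≠ 0 := by linarith
  have h2 : eps ≠ 0 := jmap_eps_pos.ne'
  have h3 : 1 + s / (eps - s) = eps / (eps - s) := by field_simp; ring
  unfold rad
  rw [h3]
  field_simp

theorem jmap_rad_comp {R : ℝ} (h : 0 ≤ R) : rad (eps * R / (1 + R)) = R := by
  have h1 : (1 + R) ≠ 0 := by linarith
  have h2 : eps ≠ 0 := jmap_eps_pos.ne'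
  have h3 : eps - eps * R / (1 + R) = eps / (1 + R) := by field_simp; ring
  unfold rad
  rw [h3]
  field_simp

theorem jmap_polar_open (z : ℂ) {V : Set (ℝ × ℝ × ℝ)} (hV : IsOpen V) (h : ∀ a ∈ V, 0 < a.1) :
    IsOpen ((fun x : ℝ × ℝ × ℝ => ((z + (x.1 : ℂ) * dir x.2.1, x.2.2) : ℂ × ℝ)) '' V) := by
  rw [isOpen_iff_forall_mem_open]
  rintro _ ⟨x, hx, rfl⟩
  have hV' : IsOpen ((fun y : (ℝ × ℝ) × ℝ => (y.1.1, y.1.2, y.2)) ⁻¹' V) :=
    hV.preimage (by fun_prop)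
  obtain ⟨U1, U2, hU1, hU2, h1, h2, h12⟩ :=
    isOpen_prod_iff.1 hV' (x.1, x.2.1) x.2.2 (by simpa using hx)
  have hpos : ∀ a ∈ U1, 0 < a.1 := fun a ha => h (a.1, a.2, x.2.2) (h12 (mk_mem_prod ha h2))
  have ho := isOpen_polar_image hU1 hpos
  refine ⟨((fun w => w - z) ⁻¹' ((fun a : ℝ × ℝ => (a.1 : ℂ) * dir a.2) '' U1)) ×ˢ U2, ?_,
    (ho.preimage (by fun_prop)).prod hU2, ⟨⟨(x.1, x.2.1), h1, by simp⟩, h2⟩⟩
  rintro ⟨w, t⟩ ⟨⟨a, ha, hw⟩, ht⟩
  refine ⟨(a.1, a.2, t), h12 (mk_mem_prod ha ht), ?_⟩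
  simp only at hw
  simp [hw]

variable (E : End) (i : Fin 2)

theorem End.continuousOn_pt : ContinuousOn (E.pt i) {a | 0 ≤ a.1} := by
  have h1 : Continuous fun a : ℝ × ℝ × ℝ => E.phi.symm a.2 :=
    E.phi.symm.continuous.comp continuous_snd
  have h2 : Continuous fun a : ℝ × ℝ × ℝ => nrm (LL * (E.phi.symm a.2).2) (E.phi.symm a.2).1 :=
    continuous_nrm.comp ((continuous_const.mul h1.snd).prodMk h1.fst)
  have h3 : ContinuousOn (fun a : ℝ × ℝ × ℝ => eps * a.1 / (1 + a.1)) {a | 0 ≤ a.1} :=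
    ContinuousOn.div (by fun_prop) (by fun_prop) fun a ha => by
      have : (0 : ℝ) ≤ a.1 := ha
      linarith
  have h4 := h3.div h2.continuousOn fun a _ => (nrm_pos _ _).ne'
  exact (continuousOn_const.add ((Complex.continuous_ofReal.comp_continuousOn h4).mul
    (continuous_dir.comp h1.fst).continuousOn)).prodMk h1.snd.continuousOn

theorem End.rho_pt {a : ℝ × ℝ × ℝ} (h : 0 ≤ a.1) :
    rho (bc i) (E.pt i a) = eps * a.1 / (1 + a.1) := by
  unfold End.pt
  rw [rho_polar _ _ _ _ (div_nonneg (jmap_nonneg h) (nrm_pos _ _).le),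
    div_mul_cancel₀ _ (nrm_pos _ _).ne']

theorem End.pt_mem {a : ℝ × ℝ × ℝ} (h : 0 < a.1) : E.pt i a ∈ XX := by
  refine mem_XX_of_rho (c := bc i) ?_ ?_
  · rw [E.rho_pt i h.le]; exact jmap_pos h
  · rw [E.rho_pt i h.le]
    refine (jmap_lt h.le).trans ?_
    unfold eps; norm_num

theorem End.pt_spec {r θ t : ℝ} (hr : 0 ≤ r) (h : r * nrm (LL * t) θ < eps) :
    E.pt i (rad (r * nrm (LL * t) θ), E.aa θ t, E.bb θ t) = (cor (bc i) + r * dir θ, t) := by
  have _ := hr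
  have h1 : E.phi.symm (E.aa θ t, E.bb θ t) = (θ, t) := by
    rw [← E.phi_apply, Homeomorph.symm_apply_apply]
  unfold End.pt
  simp only [h1]
  rw [jmap_rad_inv h, mul_div_cancel_right₀ _ (nrm_pos _ _).ne']

theorem End.isOpen_pt_image {U : Set (ℝ × ℝ × ℝ)} (hU : IsOpen U) (h : ∀ a ∈ U, 0 < a.1) :
    IsOpen (E.pt i '' U) := by
  have hn : Continuous fun x : ℝ × ℝ × ℝ => x.1 * nrm (LL * x.2.2) x.2.1 :=
    continuous_fst.mul (continuous_nrm.comp
      ((continuous_const.mul continuous_snd.snd).prodMk continuous_snd.fst))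
  have hW : IsOpen {x : ℝ × ℝ × ℝ | 0 < x.1 ∧ x.1 * nrm (LL * x.2.2) x.2.1 < eps} :=
    (isOpen_lt continuous_const continuous_fst).inter (isOpen_lt hn continuous_const)
  have hK : ContinuousOn
      (fun x : ℝ × ℝ × ℝ => (rad (x.1 * nrm (LL * x.2.2) x.2.1), E.phi x.2))
      {x : ℝ × ℝ × ℝ | 0 < x.1 ∧ x.1 * nrm (LL * x.2.2) x.2.1 < eps} := by
    refine ContinuousOn.prodMk ?_ (E.phi.continuous.comp continuous_snd).continuousOn
    unfold rad
    refine hn.continuousOn.div (continuousOn_const.sub hn.continuousOn) fun x hx => ?_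
    have := hx.2
    linarith
  have hV := hK.isOpen_inter_preimage hW hU
  have := jmap_polar_open (cor (bc i)) hV fun a ha => ha.1.1
  convert this using 1
  ext p
  constructor
  · rintro ⟨a, ha, rfl⟩
    have h0 := h a ha
    refine ⟨(eps * a.1 / (1 + a.1) / nrm (LL * (E.phi.symm a.2).2) (E.phi.symm a.2).1,
      E.phi.symm a.2), ⟨⟨div_pos (jmap_pos h0) (nrm_pos _ _), ?_⟩, ?_⟩, rfl⟩
    · simp only
      rw [div_mul_cancel₀ _ (nrm_pos _ _).ne']
      exact jmap_lt h0.le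
    · simp only [mem_preimage]
      rw [div_mul_cancel₀ _ (nrm_pos _ _).ne', jmap_rad_comp h0.le, Homeomorph.apply_symm_apply]
      exact ha
  · rintro ⟨⟨r, θ, t⟩, ⟨⟨h1, h2⟩, h3⟩, rfl⟩
    refine ⟨_, h3, ?_⟩
    simp only [E.phi_apply]
    exact E.pt_spec i (le_of_lt h1) h2

/-- Integer translations of the angular coordinates are deck transformations. -/
theorem End.rel_pt_add (R a b : ℝ) (x y : ℤ) :
    Rel (E.pt i (R, a, b)) (E.pt i (R, a + x, b + y)) := by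
  unfold End.pt
  simp only [E.phi_symm_add]
  set θ := (E.phi.symm (a, b)).1
  set t := (E.phi.symm (a, b)).2
  set n : ℤ := y * E.u - x * E.Q
  set m : ℤ := x * E.P - y * E.v
  have hper : ∀ (s φ : ℝ) (k : ℤ), nrm s (φ + k * π) = nrm s φ := by
    intro s φ k
    induction k using Int.induction_on with
    | zero => simp
    | succ k ih =>
      rw [← ih, ← nrm_add_pi s (φ + ((k : ℤ) : ℝ) * π)]
      congr 1; push_cast; ring
    | pred k ih =>
      rw [← ih, ← nrm_add_pi s (φ + ((-(k : ℤ) - 1 : ℤ) : ℝ) * π)]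
      congr 1; push_cast; ring
  have h1 := nrm_ang (LL * (t + 2 * n)) (-(2 * LL * n)) θ
  have h2 : LL * (t + 2 * n) + -(2 * LL * n) = LL * t := by ring
  rw [h2] at h1
  have h3 : eps * R / (1 + R) / nrm (LL * (t + 2 * n)) (ang (-(2 * LL * n)) θ + m * π) =
      eps * R / (1 + R) / nrm (LL * t) θ * nrm (-(2 * LL * n)) θ := by
    rw [hper, ← h1]
    have h5 := (nrm_pos (-(2 * LL * n)) θ).ne'
    rw [div_mul_eq_mul_div (eps * R / (1 + R)), mul_div_mul_right _ _ h5]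
  rw [h3]
  exact rel_deck i _ θ t m n

theorem End.rel_pt_unc {a : ℝ × ℝ × ℝ} (h : 0 < a.1) :
    Rel (E.pt i a) (E.pt i (unc (cov a))) := by
  have h1 : (unc (cov a)).1 = a.1 := by
    show ‖(a.1 : ℂ) * dir (2 * π * a.2.1)‖ = a.1
    rw [norm_mul, norm_dir, mul_one, Complex.norm_real, Real.norm_of_nonneg h.le]
  obtain ⟨-, m, n, hm, hn⟩ :=
    (cov_eq_iff (a := a) (b := unc (cov a)) h (by rw [h1]; exact h)).1 (cov_unc _).symm
  have h2 : unc (cov a) = (a.1, a.2.1 + m, a.2.2 + n) := Prod.ext h1 (Prod.ext hm hn)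
  rw [h2]
  exact E.rel_pt_add i a.1 a.2.1 a.2.2 m n

theorem cov_eq_of_rel (E : Fin 2 → End) {i j : Fin 2} {a b : ℝ × ℝ × ℝ} (ha : 0 < a.1)
    (hb : 0 < b.1) (h : Rel ((E i).pt i a) ((E j).pt j b)) : i = j ∧ cov a = cov b := by
  have he : eps < 1 / 2 := by unfold eps; norm_num
  unfold End.pt at h
  obtain ⟨hij, hr, m, n, hθ, ht⟩ := deck_of_rel (div_pos (jmap_pos ha) (nrm_pos _ _))
    (div_pos (jmap_pos hb) (nrm_pos _ _))
    (by rw [div_mul_cancel₀ _ (nrm_pos _ _).ne']; exact (jmap_lt ha.le).trans he)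
    (by rw [div_mul_cancel₀ _ (nrm_pos _ _).ne']; exact (jmap_lt hb.le).trans he) h
  subst hij
  refine ⟨rfl, (cov_eq_iff ha hb).2 ⟨?_, m * (E i).u + n * (E i).v, m * (E i).Q + n * (E i).P, ?_⟩⟩
  · rw [div_mul_cancel₀ _ (nrm_pos _ _).ne', div_mul_cancel₀ _ (nrm_pos _ _).ne'] at hr
    rw [← jmap_rad_comp ha.le, hr, jmap_rad_comp hb.le]
  · have e1 : (E i).phi ((E i).phi.symm a.2) = a.2 := Homeomorph.apply_symm_apply _ _
    have e2 : (E i).phi ((E i).phi.symm b.2) = b.2 := Homeomorph.apply_symm_apply _ _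
    rw [← Prod.mk.eta (p := (E i).phi.symm a.2), End.phi_apply] at e1
    rw [← Prod.mk.eta (p := (E i).phi.symm b.2), End.phi_apply, hθ, ht, End.aa_deck,
      End.bb_deck] at e2
    have e3 := congrArg Prod.fst e1
    have e4 := congrArg Prod.snd e1
    have e5 := congrArg Prod.fst e2
    have e6 := congrArg Prod.snd e2
    simp only at e3 e4 e5 e6
    exact ⟨by rw [← e5, e3], by rw [← e6, e4]⟩

/-- Every point close to a corner line is related to a point of a tube. -/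
theorem exists_rel_pt (E : Fin 2 → End) {p : ℂ × ℝ} (hp : p ∈ XX) {c : ℤ × ℤ}
    (h : rho c p < eps) : ∃ a : ℝ × ℝ × ℝ, 0 < a.1 ∧ a.1 = rad (rho c p) ∧
      Rel p ((E (idx c)).pt (idx c) a) := by
  obtain ⟨x, t⟩ := p
  have hx : x - cor c ≠ 0 := sub_ne_zero.2 (hp c)
  set r := ‖x - cor c‖ with hr
  set θ := arg (x - cor c)
  have hx' : x = cor c + r * dir θ := by rw [hr, norm_mul_dir_arg]; ring
  have hr0 : 0 < r := norm_pos_iff.2 hx
  have h0 := rho_pos c hp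
  obtain ⟨h1, h2⟩ := rel_bc c r θ t
  have h3 : rho c (x, t) = r * nrm (LL * t) θ := by
    conv_lhs => rw [hx']
    exact rho_polar c t r θ hr0.le
  have h4 := (E (idx c)).pt_spec (idx c) (r := r * nrm (-(LL * c.2)) θ)
    (θ := ang (-(LL * c.2)) θ) (t := t + c.2) (mul_pos hr0 (nrm_pos _ _)).le
    (by rw [h2, ← h3]; exact h)
  refine ⟨(rad (r * nrm (-(LL * c.2)) θ * nrm (LL * (t + c.2)) (ang (-(LL * c.2)) θ)), _, _),
    ?_, ?_, by rw [h4]; rw [← hx'] at h1; exact h1⟩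
  · simp only
    rw [h2, ← h3]
    exact div_pos h0 (by linarith)
  · simp only
    rw [h2, h3]

end Pool.Agent.Zig
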