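import Pool.Agent.Lib.MP_d77862_gt.Ell

noncomputable section

namespace Pool.Agent.Zig

open Set Filter Topology Complex Real

/-! The holonomy data. -/

/-- Two homeomorphisms of the line whose two products are conjugate to given translations. -/
structure Key (σ : Fin 2 → ℝ) where
  a : ℝ ≃o ℝ
  b : ℝ ≃o ℝ
  C : Fin 2 → ℝ ≃o ℝ
  a2 : ∀ t, a (t + 2) = a t + 2
  b2 : ∀ t, b (t + 2) = b t + 2
  C2 : ∀ i t, C i (t + 2) = C i t + 2
  afix : ∀ n : ℤ, a (n + 1 / 2) = n + 1 / 2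
  bfix : ∀ n : ℤ, b n = n
  h0 : ∀ t, C 0 (a (b t)) = C 0 t + σ 0
  h1 : ∀ t, C 1 (a.symm (b.symm (t - 1) + 1)) = C 1 t + σ 1

theorem keyl_symm_add (a : ℝ ≃o ℝ) {p q : ℝ} (h : ∀ t, a (t + p) = a t + q) (t : ℝ) :
    a.symm (t + q) = a.symm t + p := by
  apply a.injective
  rw [h, a.apply_symm_apply, a.apply_symm_apply]

theorem keyl_add_int (a : ℝ → ℝ) (h : ∀ t, a (t + 2) = a t + 2) (k : ℤ) (t : ℝ) :
    a (t + 2 * k) = a t + 2 * k := by
  induction k using Int.induction_on with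
  | zero => simp
  | succ k ih =>
    have e : t + 2 * ((k + 1 : ℤ) : ℝ) = (t + 2 * ((k : ℤ) : ℝ)) + 2 := by push_cast; ring
    rw [e, h, ih]; push_cast; ring
  | pred k ih =>
    have e : t + 2 * ((-(k : ℤ) : ℤ) : ℝ) = (t + 2 * ((-(k : ℤ) - 1 : ℤ) : ℝ)) + 2 := by
      push_cast; ring
    rw [e, h] at ih
    push_cast at ih ⊢
    linarith

theorem keyl_fix (a : ℝ → ℝ) (h : ∀ t, a (t + 2) = a t + 2) {c : ℝ} (h0 : a c = c)
    (h1 : a (c + 1) = c + 1) (n : ℤ) : a (n + c) = n + c := by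
  rcases Int.even_or_odd' n with ⟨k, rfl | rfl⟩
  · have e : ((2 * k : ℤ) : ℝ) + c = c + 2 * k := by push_cast; ring
    rw [e, keyl_add_int a h, h0]
  · have e : ((2 * k + 1 : ℤ) : ℝ) + c = (c + 1) + 2 * k := by push_cast; ring
    rw [e, keyl_add_int a h, h1]

/-- The map `t ↦ b (t - 1) + 1`. -/
def keylShift (b : ℝ ≃o ℝ) : ℝ ≃o ℝ :=
  ((OrderIso.addRight (-1 : ℝ)).trans b).trans (OrderIso.addRight (1 : ℝ))

theorem keylShift_apply (b : ℝ ≃o ℝ) (t : ℝ) : keylShift b t = b (t - 1) + 1 := by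
  simp [keylShift, sub_eq_add_neg]

theorem keylShift_symm (b : ℝ ≃o ℝ) (t : ℝ) : (keylShift b).symm t = b.symm (t - 1) + 1 := by
  apply (keylShift b).injective
  rw [OrderIso.apply_symm_apply, keylShift_apply]
  simp

/-- Multiplication by `2 / π`. -/
def keylScale : ℝ ≃o ℝ := OrderIso.mulLeft₀ (2 / π) (by positivity)

theorem keylScale_apply (t : ℝ) : keylScale t = 2 / π * t := rfl

/-- The map `t ↦ ang s (t + c) + d`. -/
def keylT (s c d : ℝ) : ℝ ≃o ℝ :=
  ((OrderIso.addRight c).trans (angIso s)).trans (OrderIso.addRight d)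

theorem keylT_apply (s c d t : ℝ) : keylT s c d t = ang s (t + c) + d := rfl

theorem keyl_ang_half (s : ℝ) : ang s (π / 2) = π / 2 := by
  simpa using ang_int_half_pi s 1

theorem keyl_ang_zero (s : ℝ) : ang s 0 = 0 := by
  simpa using ang_int_half_pi s 0

/-- The basic case, see the blueprint. -/
theorem key_base {s₁ s₂ : ℝ} (h0 : 0 < s₂) (h1 : s₂ ≤ s₁) (h2 : s₁ < 1) :
    Nonempty (Key ![s₁, -s₂]) := by
  have hpi := Real.pi_pos
  set θ₁ := s₁ * (π / 2) with hθ₁
  set θ₂ := s₂ * (π / 2) with hθ₂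
  have t2 : 0 < θ₂ := by positivity
  have t21 : θ₂ ≤ θ₁ := mul_le_mul_of_nonneg_right h1 (by positivity)
  have t1 : θ₁ < π / 2 := by rw [hθ₁]; nlinarith
  have t10 : 0 < θ₁ := lt_of_lt_of_le t2 t21
  obtain ⟨η, hη, C, hC, hCq⟩ := elliptic t2 t21 t1
  set T1 := keylT (-1) θ₁ (π / 2 - θ₁) with hT1
  set T2 := keylT (-1 - η) 0 (π / 2) with hT2
  have a1 : ∀ t, T1 t = ang (-1) (t + θ₁) + (π / 2 - θ₁) := fun t => rfl
  have a2 : ∀ t, T2 t = ang (-1 - η) t + π / 2 := fun t => by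
    rw [hT2, keylT_apply, add_zero]
  have q1 : ∀ t, T1 (T1 t) = t + π := by
    intro t
    rw [a1, a1]
    have e : ang (-1) (t + θ₁) + (π / 2 - θ₁) + θ₁ = ang (-1) (t + θ₁) + π / 2 := by ring
    rw [e, ang_add_half_pi, ang_ang]
    simp only [neg_neg, add_neg_cancel, ang_zero]
    ring
  have q2 : ∀ t, T2 (T2 t) = t + π := by
    intro t
    rw [a2, a2, ang_add_half_pi, ang_ang]
    simp only [neg_add_cancel, ang_zero]
    ring
  set x := π / 2 - θ₁ with hx
  have x0 : 0 < x := by rw [hx]; linarith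
  have x1 : x < π / 2 := by rw [hx]; linarith
  have px : x + θ₁ = π / 2 := by rw [hx]; ring
  obtain ⟨y, hy, hyT⟩ : ∃ y ∈ Ioo 0 x, T1 y - T2 y = 0 := by
    have hc : ContinuousOn (fun t => T1 t - T2 t) (Icc 0 x) :=
      (T1.continuous.sub T2.continuous).continuousOn
    refine intermediate_value_Ioo' x0.le hc ⟨?_, ?_⟩
    · have := lt_ang (s := -1 - η) (by linarith) x0 x1
      simp only [a1, a2, px, keyl_ang_half]
      linarith
    · have := lt_ang (s := -1) (by norm_num) t10 t1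
      simp only [a1, a2, zero_add, keyl_ang_zero]
      linarith
  have hyT : T1 y = T2 y := by linarith
  have y2 : π / 2 < T2 y := by
    have := T2.strictMono hy.1
    rw [a2 0, keyl_ang_zero, zero_add] at this
    exact this
  obtain ⟨A, Ay, Ax, AT⟩ := exists_conj T1 T2 hpi hpi q1 q2 (y := y) (x := x) (y' := y)
    (x' := π / 2) hy.2 (by rw [hyT]; linarith) (by linarith [hy.2]) y2
  obtain ⟨f, fy, fx, fT⟩ := exists_conj T1 (OrderIso.addRight (1 : ℝ)) (p' := 2) hpi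
    (by norm_num) q1 (fun t => by simp; ring) (y := y) (x := x) (y' := -1 / 2) (x' := 0) hy.2
    (by rw [hyT]; linarith) (by norm_num) (by simp; norm_num)
  have fT : ∀ t, f (T1 t) = f t + 1 := fun t => by rw [fT]; rfl
  have fp : ∀ t, f (t + π) = f t + 2 := fun t => by rw [← q1, fT, fT]; ring
  have fs := keyl_symm_add f fp
  have Ap : ∀ t, A (t + π) = A t + π := fun t => by rw [← q1, AT, AT, q2]
  have As := keyl_symm_add A Ap
  have T1x : T1 x + θ₁ = π := by rw [a1, px, keyl_ang_half]; linarith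
  have AT1x : A (T1 x) = π := by rw [AT, Ax, a2, keyl_ang_half]; ring
  have key : ∀ t, T2 (t + θ₁) = ang η (T1 t + θ₁) := by
    intro t
    have e : T1 t + θ₁ = ang (-1) (t + θ₁) + π / 2 := by rw [a1]; linarith
    rw [e, ang_add_half_pi, ang_ang, a2]
    congr 2
    ring
  let a : ℝ ≃o ℝ := (f.symm.trans A).trans f
  let b : ℝ ≃o ℝ := ((f.symm.trans (OrderIso.addRight θ₁)).trans A.symm).trans f
  have ha : ∀ t, a t = f (A (f.symm t)) := fun t => rfl
  have hb : ∀ t, b t = f (A.symm (f.symm t + θ₁)) := fun t => rfl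
  have ha2 : ∀ t, a (t + 2) = a t + 2 := fun t => by rw [ha, ha, fs, Ap, fp]
  have hb2 : ∀ t, b (t + 2) = b t + 2 := fun t => by
    rw [hb, hb, fs, add_right_comm, As, fp]
  let C0 : ℝ ≃o ℝ := f.symm.trans keylScale
  let C1 : ℝ ≃o ℝ := ((a.trans f.symm).trans C).trans keylScale
  have hC0 : ∀ t, C0 t = 2 / π * f.symm t := fun t => rfl
  have hC1 : ∀ t, C1 t = 2 / π * C (f.symm (a t)) := fun t => rfl
  have pi2 : 2 / π * π = 2 := by field_simp
  refine ⟨⟨a, b, ![C0, C1], ha2, hb2, ?_, ?_, ?_, ?_, ?_⟩⟩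
  · intro i t
    fin_cases i
    · show C0 (t + 2) = C0 t + 2
      rw [hC0, hC0, fs, mul_add, pi2]
    · show C1 (t + 2) = C1 t + 2
      rw [hC1, hC1, ha2, fs, hC, mul_add, pi2]
  · intro n
    have e0 : a (-1 / 2) = -1 / 2 := by
      rw [ha, ← fy, f.symm_apply_apply, Ay]
    have e1 : a (-1 / 2 + 1) = -1 / 2 + 1 := by
      rw [ha, ← fy, ← fT, f.symm_apply_apply, AT, Ay, hyT]
    have := keyl_fix a ha2 e0 e1 (n + 1)
    have e : ((n + 1 : ℤ) : ℝ) + -1 / 2 = n + 1 / 2 := by push_cast; ring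
    rwa [e] at this
  · intro n
    have e0 : b 0 = 0 := by
      rw [hb, ← fx, f.symm_apply_apply, px, ← Ax, A.symm_apply_apply]
    have e1 : b (0 + 1) = 0 + 1 := by
      rw [hb, ← fx, ← fT, f.symm_apply_apply, T1x, ← AT1x, A.symm_apply_apply]
    simpa using keyl_fix b hb2 e0 e1 n
  · intro t
    show C0 (a (b t)) = C0 t + s₁
    rw [hC0, hC0, ha, hb, f.symm_apply_apply, f.symm_apply_apply, A.apply_symm_apply, mul_add,
      hθ₁]
    congr 1
    field_simp
  · intro t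
    show C1 (a.symm (b.symm (t - 1) + 1)) = C1 t + -s₂
    obtain ⟨w, hw⟩ : ∃ w, b.symm (t - 1) = f w := ⟨f.symm _, (f.apply_symm_apply _).symm⟩
    have ht : t = f (T1 (A.symm (w + θ₁))) := by
      have : b (f w) = t - 1 := by rw [← hw, b.apply_symm_apply]
      rw [hb, f.symm_apply_apply] at this
      rw [fT, this]; ring
    rw [hw, hC1, hC1, a.apply_symm_apply, ← fT, f.symm_apply_apply, ha, f.symm_apply_apply, ht,
      f.symm_apply_apply, AT, A.apply_symm_apply, key, hCq, mul_add, hθ₂]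
    have : 2 / π * (s₂ * (π / 2)) = s₂ := by field_simp
    rw [this]; ring

/-- Exchange of the two cusps: replace `b` by `t ↦ b (t - 1) + 1`. -/
theorem key_swap {s₁ s₂ : ℝ} (K : Key ![s₁, -s₂]) : Nonempty (Key ![s₂, -s₁]) := by
  have as := keyl_symm_add K.a K.a2
  have bs := keyl_symm_add K.b K.b2
  refine ⟨⟨K.a, keylShift K.b, ![K.a.symm.trans (K.C 1), K.a.trans (K.C 0)], K.a2, ?_, ?_, K.afix,
    ?_, ?_, ?_⟩⟩
  · intro t
    rw [keylShift_apply, keylShift_apply, show t + 2 - 1 = t - 1 + 2 by ring, K.b2]; ring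
  · intro i t
    fin_cases i
    · show K.C 1 (K.a.symm (t + 2)) = K.C 1 (K.a.symm t) + 2
      rw [as, K.C2]
    · show K.C 0 (K.a (t + 2)) = K.C 0 (K.a t) + 2
      rw [K.a2, K.C2]
  · intro n
    have := K.bfix (n - 1)
    push_cast at this
    rw [keylShift_apply, this]; ring
  · intro t
    show K.C 1 (K.a.symm (K.a (keylShift K.b t))) = K.C 1 (K.a.symm t) + s₂
    have := K.h1 (keylShift K.b t)
    rw [← keylShift_symm, OrderIso.symm_apply_apply] at this
    rw [OrderIso.symm_apply_apply, this]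
    simp
  · intro t
    show K.C 0 (K.a (K.a.symm ((keylShift K.b).symm (t - 1) + 1))) = K.C 0 (K.a t) + -s₁
    have := K.h0 (K.b.symm t)
    rw [OrderIso.apply_symm_apply] at this
    have e : (keylShift K.b).symm (t - 1) + 1 = K.b.symm t := by
      have := bs (t - 1 - 1)
      rw [show t - 1 - 1 + 2 = t by ring] at this
      rw [keylShift_symm, this]; ring
    rw [OrderIso.apply_symm_apply, e, this]
    simp

/-- Inversion: replace `a, b` by their inverses. -/
theorem key_inv {s₁ s₂ : ℝ} (K : Key ![s₁, -s₂]) : Nonempty (Key ![-s₁, s₂]) := by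
  have as := keyl_symm_add K.a K.a2
  have bs := keyl_symm_add K.b K.b2
  refine ⟨⟨K.a.symm, K.b.symm, ![K.a.trans (K.C 0), K.a.symm.trans (K.C 1)], as, bs, ?_, ?_,
    ?_, ?_, ?_⟩⟩
  · intro i t
    fin_cases i
    · show K.C 0 (K.a (t + 2)) = K.C 0 (K.a t) + 2
      rw [K.a2, K.C2]
    · show K.C 1 (K.a.symm (t + 2)) = K.C 1 (K.a.symm t) + 2
      rw [as, K.C2]
  · intro n
    rw [OrderIso.symm_apply_eq, K.afix]
  · intro n
    rw [OrderIso.symm_apply_eq, K.bfix]
  · intro t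
    show K.C 0 (K.a (K.a.symm (K.b.symm t))) = K.C 0 (K.a t) + -s₁
    have := K.h0 (K.b.symm t)
    rw [OrderIso.apply_symm_apply] at this
    rw [OrderIso.apply_symm_apply, this]
    simp
  · intro t
    show K.C 1 (K.a.symm (K.a (K.b (t - 1) + 1))) = K.C 1 (K.a.symm t) + s₂
    have := K.h1 (keylShift K.b t)
    rw [← keylShift_symm, OrderIso.symm_apply_apply] at this
    rw [OrderIso.symm_apply_apply, ← keylShift_apply, this]
    simp

theorem exists_key {σ : Fin 2 → ℝ} (h : σ 0 * σ 1 < 0) (h' : ∀ i, |σ i| < 1) :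
    Nonempty (Key σ) := by
  have pos : ∀ {s₁ s₂ : ℝ}, 0 < s₁ → 0 < s₂ → s₁ < 1 → s₂ < 1 → Nonempty (Key ![s₁, -s₂]) := by
    intro s₁ s₂ p1 p2 l1 l2
    rcases le_total s₂ s₁ with h | h
    · exact key_base p2 h l1
    · obtain ⟨K⟩ := key_base p1 h l2
      exact key_swap K
  have b0 := abs_lt.mp (h' 0)
  have b1 := abs_lt.mp (h' 1)
  rcases mul_neg_iff.mp h with ⟨p, q⟩ | ⟨p, q⟩
  · have e : σ = ![σ 0, -(-σ 1)] := by
      funext i; fin_cases i <;> simp
    rw [e]
    exact pos p (by linarith) b0.2 (by linarith [b1.1])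
  · have e : σ = ![-(-σ 0), σ 1] := by
      funext i; fin_cases i <;> simp
    rw [e]
    obtain ⟨K⟩ := pos (s₁ := -σ 0) (s₂ := σ 1) (by linarith) q (by linarith [b0.1]) b1.2
    exact key_inv K

end Pool.Agent.Zig
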