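import Pool.Agent.Lib.MP_d77862_gt.Base

noncomputable section

namespace Pool.Agent.Zig

open Set Filter Topology Complex Real

/-! Lattice facts. -/

theorem lat_s2 : (√2 : ℝ) * √2 = 2 := Real.mul_self_sqrt (by norm_num)
theorem lat_s2_gt : (1 : ℝ) < √2 := by
  have h0 : (0 : ℝ) ≤ √2 := Real.sqrt_nonneg 2
  have := lat_s2
  nlinarith
theorem lat_s2_lt : (√2 : ℝ) < 3 / 2 := by
  have h0 : (0 : ℝ) ≤ √2 := Real.sqrt_nonneg 2
  have := lat_s2
  nlinarith

theorem lg_pos : 0 < lg := Real.log_pos (by have := lat_s2_gt; linarith)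
theorem exp_lg : Real.exp lg = 1 + √2 := Real.exp_log (by have := lat_s2_gt; linarith)
theorem exp_neg_lg : Real.exp (-lg) = √2 - 1 := by
  rw [Real.exp_neg, exp_lg]
  have h := lat_s2_gt
  refine inv_eq_of_mul_eq_one_right ?_
  have := lat_s2
  nlinarith
theorem LL_pos : 0 < LL := by
  have := lg_pos
  unfold LL
  linarith
theorem exp_LL : Real.exp LL = 3 + 2 * √2 := by
  have h : LL = lg + lg := by unfold LL; ring
  rw [h, Real.exp_add, exp_lg]
  have := lat_s2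
  nlinarith
theorem exp_LL_lt : Real.exp LL < 6 := by
  rw [exp_LL]
  have := lat_s2_lt
  linarith
theorem lat_exp_neg_LL : Real.exp (-LL) = 3 - 2 * √2 := by
  have h : -LL = -lg + -lg := by unfold LL; ring
  rw [h, Real.exp_add, exp_neg_lg]
  have := lat_s2
  nlinarith

theorem lat_Dg_re (s : ℝ) (z : ℂ) : (Dg s z).re = Real.exp s * z.re := rfl
theorem lat_Dg_im (s : ℝ) (z : ℂ) : (Dg s z).im = Real.exp (-s) * z.im := rfl
theorem lat_cor_re (c : ℤ × ℤ) : (cor c).re = c.1 + c.2 * √2 := rfl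
theorem lat_cor_im (c : ℤ × ℤ) : (cor c).im = c.1 - c.2 * √2 := rfl

theorem Dg_zero (z : ℂ) : Dg 0 z = z := by
  apply Complex.ext <;> simp [lat_Dg_re, lat_Dg_im]
theorem Dg_Dg (s s' : ℝ) (z : ℂ) : Dg s (Dg s' z) = Dg (s + s') z := by
  apply Complex.ext
  · simp only [lat_Dg_re, Real.exp_add]; ring
  · simp only [lat_Dg_im, neg_add, Real.exp_add]; ring
theorem Dg_add (s : ℝ) (z w : ℂ) : Dg s (z + w) = Dg s z + Dg s w := by
  apply Complex.ext
  · simp only [lat_Dg_re, Complex.add_re]; ring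
  · simp only [lat_Dg_im, Complex.add_im]; ring
theorem Dg_sub (s : ℝ) (z w : ℂ) : Dg s (z - w) = Dg s z - Dg s w := by
  apply Complex.ext
  · simp only [lat_Dg_re, Complex.sub_re]; ring
  · simp only [lat_Dg_im, Complex.sub_im]; ring
theorem Dg_neg (s : ℝ) (z : ℂ) : Dg s (-z) = -Dg s z := by
  apply Complex.ext
  · simp only [lat_Dg_re, Complex.neg_re]; ring
  · simp only [lat_Dg_im, Complex.neg_im]; ring
theorem Dg_real_mul (s r : ℝ) (z : ℂ) : Dg s (r * z) = r * Dg s z := by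
  apply Complex.ext
  · simp only [lat_Dg_re, Complex.re_ofReal_mul]; ring
  · simp only [lat_Dg_im, Complex.im_ofReal_mul]; ring
theorem Dg_unit_mul (s : ℝ) (e : ℤˣ) (z : ℂ) :
    Dg s (((e : ℤ) : ℂ) * z) = ((e : ℤ) : ℂ) * Dg s z := by
  have h := Dg_real_mul s ((e : ℤ) : ℝ) z
  rwa [Complex.ofReal_intCast] at h
theorem Dg_eq_zero {s : ℝ} {z : ℂ} : Dg s z = 0 ↔ z = 0 := by
  constructor
  · intro h
    have h1 : Real.exp s * z.re = 0 := by rw [← lat_Dg_re, h]; rfl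
    have h2 : Real.exp (-s) * z.im = 0 := by rw [← lat_Dg_im, h]; rfl
    apply Complex.ext
    · exact (mul_eq_zero.1 h1).resolve_left (Real.exp_ne_zero _)
    · exact (mul_eq_zero.1 h2).resolve_left (Real.exp_ne_zero _)
  · rintro rfl
    apply Complex.ext <;> simp [lat_Dg_re, lat_Dg_im]
theorem continuous_Dg : Continuous fun a : ℝ × ℂ => Dg a.1 a.2 := by
  have h : (fun a : ℝ × ℂ => Dg a.1 a.2) = fun a : ℝ × ℂ =>
      ((Real.exp a.1 * a.2.re : ℝ) : ℂ) + ((Real.exp (-a.1) * a.2.im : ℝ) : ℂ) * Complex.I := by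
    funext a
    rw [← lat_Dg_re, ← lat_Dg_im, Complex.re_add_im]
  rw [h]
  fun_prop
theorem norm_Dg_le (s : ℝ) (z : ℂ) : ‖Dg s z‖ ≤ Real.exp |s| * ‖z‖ := by
  have h1 : Real.exp s ≤ Real.exp |s| := Real.exp_le_exp.2 (le_abs_self s)
  have h2 : Real.exp (-s) ≤ Real.exp |s| := Real.exp_le_exp.2 (neg_le_abs s)
  have p1 := Real.exp_pos s
  have p2 := Real.exp_pos (-s)
  refine (sq_le_sq₀ (norm_nonneg _) (by positivity)).1 ?_
  rw [mul_pow, Complex.sq_norm, Complex.sq_norm, Complex.normSq_apply, Complex.normSq_apply,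
    lat_Dg_re, lat_Dg_im]
  have q1 : Real.exp s ^ 2 ≤ Real.exp |s| ^ 2 := by gcongr
  have q2 : Real.exp (-s) ^ 2 ≤ Real.exp |s| ^ 2 := by gcongr
  nlinarith [mul_self_nonneg z.re, mul_self_nonneg z.im]

theorem DD_zero (z : ℂ) : DD 0 z = z := by
  unfold DD
  rw [mul_zero, Dg_zero]
theorem DD_DD (s s' : ℝ) (z : ℂ) : DD s (DD s' z) = DD (s + s') z := by
  unfold DD
  rw [Dg_Dg, mul_add]
theorem continuous_DD : Continuous fun a : ℝ × ℂ => DD a.1 a.2 :=
  continuous_Dg.comp ((continuous_const.mul continuous_fst).prodMk continuous_snd)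
theorem norm_DD_le (t t' : ℝ) (z : ℂ) : ‖DD t' z‖ ≤ Real.exp (LL * |t' - t|) * ‖DD t z‖ := by
  have h : DD t' z = Dg (LL * (t' - t)) (DD t z) := by
    change DD t' z = DD (t' - t) (DD t z)
    rw [DD_DD, sub_add_cancel]
  have h2 := norm_Dg_le (LL * (t' - t)) (DD t z)
  rwa [← h, abs_mul, abs_of_pos LL_pos] at h2

theorem lat_zero_of_exp {x K : ℝ} (h : ∀ T, ∃ t ≥ T, Real.exp (LL * t) * |x| ≤ K) : x = 0 := by
  by_contra hx
  have hp : 0 < |x| := abs_pos.2 hx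
  have hL := LL_pos
  obtain ⟨t, ht, hK⟩ := h (K / (LL * |x|))
  have h1 : LL * t + 1 ≤ Real.exp (LL * t) := Real.add_one_le_exp _
  have h2 : K ≤ t * (LL * |x|) := (div_le_iff₀ (by positivity)).1 ht
  nlinarith

/-- A vector that stays bounded in arbitrarily late and arbitrarily early times is zero. -/
theorem eq_zero_of_bounded {z : ℂ} {K : ℝ} (h1 : ∀ T, ∃ t ≥ T, ‖DD t z‖ ≤ K)
    (h2 : ∀ T, ∃ t ≤ T, ‖DD t z‖ ≤ K) : z = 0 := by
  apply Complex.ext
  · refine lat_zero_of_exp (K := K) fun T => ?_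
    obtain ⟨t, ht, hK⟩ := h1 T
    refine ⟨t, ht, le_trans ?_ hK⟩
    have := Complex.abs_re_le_norm (DD t z)
    rwa [DD, lat_Dg_re, abs_mul, abs_of_pos (Real.exp_pos _)] at this
  · refine lat_zero_of_exp (K := K) fun T => ?_
    obtain ⟨t, ht, hK⟩ := h2 (-T)
    refine ⟨-t, by linarith, le_trans ?_ hK⟩
    have := Complex.abs_im_le_norm (DD t z)
    rwa [DD, lat_Dg_im, abs_mul, abs_of_pos (Real.exp_pos _), ← mul_neg] at this
theorem tendsto_DD_atTop {z : ℂ} (h : z.re = 0) :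
    Tendsto (fun t => ‖DD t z‖) atTop (𝓝 0) := by
  have e : (fun t => ‖DD t z‖) = fun t => Real.exp (-(LL * t)) * |z.im| := by
    funext t
    have hre : (DD t z).re = 0 := by rw [DD, lat_Dg_re, h, mul_zero]
    rw [← Complex.abs_im_eq_norm.2 hre, DD, lat_Dg_im, abs_mul, abs_of_pos (Real.exp_pos _)]
  rw [e]
  have h1 : Tendsto (fun t : ℝ => Real.exp (-(LL * t))) atTop (𝓝 0) :=
    Real.tendsto_exp_neg_atTop_nhds_zero.comp (tendsto_id.const_mul_atTop LL_pos)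
  simpa using h1.mul_const |z.im|
theorem tendsto_DD_atBot {z : ℂ} (h : z.im = 0) :
    Tendsto (fun t => ‖DD t z‖) atBot (𝓝 0) := by
  have e : (fun t => ‖DD t z‖) = fun t => Real.exp (LL * t) * |z.re| := by
    funext t
    have him : (DD t z).im = 0 := by rw [DD, lat_Dg_im, h, mul_zero]
    rw [← Complex.abs_re_eq_norm.2 him, DD, lat_Dg_re, abs_mul, abs_of_pos (Real.exp_pos _)]
  rw [e]
  have h1 : Tendsto (fun t : ℝ => Real.exp (LL * t)) atBot (𝓝 0) :=
    Real.tendsto_exp_atBot.comp (tendsto_id.const_mul_atBot LL_pos)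
  simpa using h1.mul_const |z.re|

theorem cor_add (c d : ℤ × ℤ) : cor (c + d) = cor c + cor d := by
  apply Complex.ext
  · simp only [lat_cor_re, Complex.add_re, Prod.fst_add, Prod.snd_add]; push_cast; ring
  · simp only [lat_cor_im, Complex.add_im, Prod.fst_add, Prod.snd_add]; push_cast; ring
theorem cor_sub (c d : ℤ × ℤ) : cor (c - d) = cor c - cor d := by
  apply Complex.ext
  · simp only [lat_cor_re, Complex.sub_re, Prod.fst_sub, Prod.snd_sub]; push_cast; ring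
  · simp only [lat_cor_im, Complex.sub_im, Prod.fst_sub, Prod.snd_sub]; push_cast; ring
theorem cor_neg (c : ℤ × ℤ) : cor (-c) = -cor c := by
  apply Complex.ext
  · simp only [lat_cor_re, Complex.neg_re, Prod.fst_neg, Prod.snd_neg]; push_cast; ring
  · simp only [lat_cor_im, Complex.neg_im, Prod.fst_neg, Prod.snd_neg]; push_cast; ring
theorem cor_zero : cor 0 = 0 := by
  apply Complex.ext <;> simp [lat_cor_re, lat_cor_im]
theorem cor_injective : Function.Injective cor := by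
  intro c d h
  have h1 : (c.1 : ℝ) + c.2 * √2 = d.1 + d.2 * √2 := by rw [← lat_cor_re, ← lat_cor_re, h]
  have h2 : (c.1 : ℝ) - c.2 * √2 = d.1 - d.2 * √2 := by rw [← lat_cor_im, ← lat_cor_im, h]
  have hs := lat_s2_gt
  have e1 : (c.1 : ℝ) = d.1 := by linarith
  have e2 : (c.2 : ℝ) * √2 = d.2 * √2 := by linarith
  have e3 : (c.2 : ℝ) = d.2 := mul_right_cancel₀ (by linarith) e2
  exact Prod.ext (by exact_mod_cast e1) (by exact_mod_cast e3)

theorem lat_form_ne_zero {c : ℤ × ℤ} (h : c ≠ 0) : c.1 ^ 2 - 2 * c.2 ^ 2 ≠ 0 := by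
  intro h0
  have hr : ((c.1 : ℝ) + c.2 * √2) * ((c.1 : ℝ) - c.2 * √2) = 0 := by
    have : ((c.1 : ℝ)) ^ 2 - 2 * (c.2 : ℝ) ^ 2 = 0 := by exact_mod_cast h0
    have := lat_s2
    nlinarith
  have hb : c.2 = 0 := by
    by_contra hb
    have hi : Irrational ((c.2 : ℝ) * √2) := irrational_sqrt_two.intCast_mul hb
    rcases mul_eq_zero.1 hr with h1 | h1
    · exact hi.ne_int (-c.1) (by push_cast; linarith)
    · exact hi.ne_int c.1 (by linarith)
  have ha : c.1 = 0 := by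
    rw [hb] at h0
    exact pow_eq_zero_iff (two_ne_zero) |>.1 (by linarith)
  exact h (Prod.ext ha hb)

/-- The norm form takes nonzero integer values. -/
theorem one_le_re_mul_im {c : ℤ × ℤ} (h : c ≠ 0) : 1 ≤ |(cor c).re| * |(cor c).im| := by
  have e : (cor c).re * (cor c).im = ((c.1 ^ 2 - 2 * c.2 ^ 2 : ℤ) : ℝ) := by
    rw [lat_cor_re, lat_cor_im]
    push_cast
    have := lat_s2
    nlinarith
  rw [← abs_mul, e, ← Int.cast_abs]
  exact_mod_cast Int.one_le_abs (lat_form_ne_zero h)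
theorem one_le_norm_DD_cor (t : ℝ) {c : ℤ × ℤ} (h : c ≠ 0) : 1 ≤ ‖DD t (cor c)‖ := by
  have h1 := one_le_re_mul_im h
  have h2 : |(DD t (cor c)).re| * |(DD t (cor c)).im| = |(cor c).re| * |(cor c).im| := by
    rw [DD, lat_Dg_re, lat_Dg_im, abs_mul, abs_mul, abs_of_pos (Real.exp_pos _),
      abs_of_pos (Real.exp_pos _), mul_mul_mul_comm, ← Real.exp_add, add_neg_cancel,
      Real.exp_zero, one_mul]
  have h3 := Complex.abs_re_le_norm (DD t (cor c))
  have h4 := Complex.abs_im_le_norm (DD t (cor c))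
  have h5 : |(DD t (cor c)).re| * |(DD t (cor c)).im| ≤ ‖DD t (cor c)‖ * ‖DD t (cor c)‖ :=
    mul_le_mul h3 h4 (abs_nonneg _) (norm_nonneg _)
  have h6 := norm_nonneg (DD t (cor c))
  nlinarith
theorem finite_cor (R : ℝ) : {c : ℤ × ℤ | ‖cor c‖ ≤ R}.Finite := by
  refine ((Set.finite_Icc (-⌈R⌉) ⌈R⌉).prod (Set.finite_Icc (-⌈R⌉) ⌈R⌉)).subset ?_
  intro c hc
  have hc' : ‖cor c‖ ≤ R := hc
  have h1 := abs_le.1 ((Complex.abs_re_le_norm (cor c)).trans hc')
  have h2 := abs_le.1 ((Complex.abs_im_le_norm (cor c)).trans hc')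
  rw [lat_cor_re] at h1
  rw [lat_cor_im] at h2
  have hR : R ≤ (⌈R⌉ : ℝ) := Int.le_ceil R
  have hs := lat_s2_gt
  have hR0 : 0 ≤ R := (norm_nonneg _).trans hc'
  have b1 : (c.2 : ℝ) * √2 ≤ R := by linarith [h1.2, h2.1]
  have b2 : -R ≤ (c.2 : ℝ) * √2 := by linarith [h1.1, h2.2]
  have a1 : (c.1 : ℝ) ≤ ⌈R⌉ := by linarith [h1.2, h2.2]
  have a2 : (-⌈R⌉ : ℝ) ≤ c.1 := by linarith [h1.1, h2.1]
  have c1 : (c.2 : ℝ) ≤ ⌈R⌉ := by
    by_contra hh
    push Not at hh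
    nlinarith
  have c2 : (-⌈R⌉ : ℝ) ≤ c.2 := by
    by_contra hh
    push Not at hh
    nlinarith
  exact ⟨⟨by exact_mod_cast a2, by exact_mod_cast a1⟩, ⟨by exact_mod_cast c2, by exact_mod_cast c1⟩⟩

theorem lat_DD_one (c : ℤ × ℤ) : DD 1 (cor c) = cor (3 * c.1 + 4 * c.2, 2 * c.1 + 3 * c.2) := by
  have hs := lat_s2
  apply Complex.ext
  · rw [DD, lat_Dg_re, mul_one, exp_LL, lat_cor_re, lat_cor_re]
    push_cast
    linear_combination (2 * (c.2 : ℝ)) * hs
  · rw [DD, lat_Dg_im, mul_one, lat_exp_neg_LL, lat_cor_im, lat_cor_im]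
    push_cast
    linear_combination (2 * (c.2 : ℝ)) * hs
theorem lat_DD_neg_one (c : ℤ × ℤ) :
    DD (-1) (cor c) = cor (3 * c.1 - 4 * c.2, -2 * c.1 + 3 * c.2) := by
  have hs := lat_s2
  apply Complex.ext
  · rw [DD, lat_Dg_re, mul_neg_one, lat_exp_neg_LL, lat_cor_re, lat_cor_re]
    push_cast
    linear_combination (-2 * (c.2 : ℝ)) * hs
  · rw [DD, lat_Dg_im, mul_neg_one, neg_neg, exp_LL, lat_cor_im, lat_cor_im]
    push_cast
    linear_combination (-2 * (c.2 : ℝ)) * hs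

/-- `DD n` is multiplication by the unit `(1 + √2)^(2 n)`, which is `1` modulo `2`. -/
theorem DD_int_cor (n : ℤ) (c : ℤ × ℤ) :
    ∃ c' : ℤ × ℤ, DD n (cor c) = cor c' ∧ Even (c'.1 - c.1) ∧ Even (c'.2 - c.2) := by
  induction n using Int.induction_on with
  | zero => exact ⟨c, by rw [Int.cast_zero, DD_zero], by simp, by simp⟩
  | succ n ih =>
    obtain ⟨d, hd, h1, h2⟩ := ih
    refine ⟨(3 * d.1 + 4 * d.2, 2 * d.1 + 3 * d.2), ?_, ?_, ?_⟩
    · rw [← lat_DD_one, ← hd, DD_DD]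
      congr 1
      push_cast
      ring
    · rw [Int.even_iff] at h1 ⊢
      dsimp only
      omega
    · rw [Int.even_iff] at h2 ⊢
      dsimp only
      omega
  | pred n ih =>
    obtain ⟨d, hd, h1, h2⟩ := ih
    refine ⟨(3 * d.1 - 4 * d.2, -2 * d.1 + 3 * d.2), ?_, ?_, ?_⟩
    · rw [← lat_DD_neg_one, ← hd, DD_DD]
      congr 1
      push_cast
      ring
    · rw [Int.even_iff] at h1 ⊢
      dsimp only
      omega
    · rw [Int.even_iff] at h2 ⊢
      dsimp only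
      omega

/-- The real parts of `2 ℤ[√2]` are dense, and so are the imaginary parts. -/
theorem dense_cor_re : Dense {x : ℝ | ∃ c : ℤ × ℤ, Even c.1 ∧ Even c.2 ∧ x = (cor c).re} := by
  have hd : Dense (AddSubgroup.closure {(2 * √2 : ℝ), 2} : Set ℝ) := by
    rw [dense_addSubgroupClosure_pair_iff]
    have : (2 * √2 : ℝ) / 2 = √2 := by ring
    rw [this]
    exact irrational_sqrt_two
  refine hd.mono ?_
  intro x hx
  obtain ⟨m, n, h⟩ := AddSubgroup.mem_closure_pair.1 hx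
  refine ⟨(2 * n, 2 * m), even_two_mul n, even_two_mul m, ?_⟩
  rw [← h, lat_cor_re]
  simp only [zsmul_eq_mul]
  push_cast
  ring
theorem dense_cor_im : Dense {x : ℝ | ∃ c : ℤ × ℤ, Even c.1 ∧ Even c.2 ∧ x = (cor c).im} := by
  refine dense_cor_re.mono ?_
  rintro x ⟨c, h1, h2, rfl⟩
  refine ⟨(c.1, -c.2), h1, h2.neg, ?_⟩
  rw [lat_cor_re, lat_cor_im]
  push_cast
  ring

end Pool.Agent.Zig
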