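import Pool.Agent.Lib.MP_d77862_gt.Jmap

noncomputable section

namespace Pool.Agent.Zig

open Set Filter Topology Complex Real

/-! Existence of the models: apply `exists_fill` to `j i w = pr ((E i).pt i (unc w))`. The closed
set of `hcl` is the image of the points with `rho c p ≤ eps / 2` for some corner `c` of cusp `i`,
the compact set is the image of the points with `eps / 2 ≤ rho c p` for all `c`. -/

theorem modelex_norm_cov {a : ℝ × ℝ × ℝ} (h : 0 ≤ a.1) : ‖(cov a).1‖ = a.1 := by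
  simp only [cov, norm_mul, norm_dir, mul_one, Complex.norm_real, Real.norm_eq_abs]
  exact abs_of_nonneg h

theorem modelex_cov_ne {a : ℝ × ℝ × ℝ} (h : 0 < a.1) : (cov a).1 ≠ 0 := by
  intro h0
  have h1 := modelex_norm_cov h.le
  rw [h0, norm_zero] at h1
  exact h.ne h1

theorem modelex_unc_pos {w : ℂ × Circle} (h : w.1 ≠ 0) : 0 < (unc w).1 := norm_pos_iff.2 h

theorem modelex_open (i : Fin 2) :
    IsOpen {p : ℂ × ℝ | ∀ c, idx c = i → eps / 2 < rho c p} := by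
  rw [isOpen_iff_mem_nhds]
  intro p0 h0
  have hF := finite_rho (‖p0‖ + 1)
  have h1 : ∀ᶠ p in 𝓝 p0, ‖p‖ < ‖p0‖ + 1 :=
    (continuous_norm.tendsto p0).eventually (gt_mem_nhds (lt_add_one _))
  have h2 : ∀ᶠ p in 𝓝 p0, ∀ c ∈ {c : ℤ × ℤ | ∃ p : ℂ × ℝ, ‖p‖ ≤ ‖p0‖ + 1 ∧ rho c p ≤ ‖p0‖ + 1},
      idx c = i → eps / 2 < rho c p := by
    rw [Filter.eventually_all_finite hF]
    intro c _
    by_cases hc : idx c = i
    · have h3 : ∀ᶠ p in 𝓝 p0, eps / 2 < rho c p :=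
        ((continuous_rho c).tendsto p0).eventually (lt_mem_nhds (h0 c hc))
      exact h3.mono fun p hp _ => hp
    · exact Eventually.of_forall fun p h => absurd h hc
  filter_upwards [h1, h2] with p hp1 hp2 c hc
  by_cases hm : rho c p ≤ ‖p0‖ + 1
  · exact hp2 c ⟨p, hp1.le, hm⟩ hc
  · have h4 : eps / 2 ≤ ‖p0‖ + 1 := by
      have := norm_nonneg p0
      unfold eps
      linarith
    exact lt_of_le_of_lt h4 (not_le.1 hm)

theorem exists_model (E : Fin 2 → End) :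
    ∃ (M : Type) (_ : TopologicalSpace M), Nonempty (Model E M) := by
  obtain ⟨Y, tY, pr, hT2, hc, ho, he, hs⟩ := exists_quotient
  obtain ⟨hconn, hloc, hK, hcl⟩ := quotient_props hc ho he hs
  have hep := eps_pos
  obtain ⟨j, hjdef⟩ : ∃ j : Fin 2 → ℂ × Circle → Y, ∀ i w, j i w = pr ((E i).pt i (unc w)) :=
    ⟨_, fun _ _ => rfl⟩
  have hj : ∀ i (a : ℝ × ℝ × ℝ), 0 < a.1 → j i (cov a) = pr ((E i).pt i a) := by
    intro i a ha
    rw [hjdef]
    exact ((he _ ((E i).pt_mem i ha) _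
      ((E i).pt_mem i (modelex_unc_pos (modelex_cov_ne ha)))).2 ((E i).rel_pt_unc i ha)).symm
  have hnear : ∀ p ∈ XX, ∀ c, rho c p ≤ eps / 2 →
      ∃ w : ℂ × Circle, w.1 ≠ 0 ∧ ‖w.1‖ ≤ 1 ∧ pr p = j (idx c) w := by
    intro p hp c hr
    have hlt : rho c p < eps := by linarith
    obtain ⟨a, ha, ha1, hrel⟩ := exists_rel_pt E hp hlt
    refine ⟨cov a, modelex_cov_ne ha, ?_, ?_⟩
    · rw [modelex_norm_cov ha.le, ha1, ← rad_half]
      exact rad_strictMonoOn.monotoneOn hlt (show eps / 2 < eps by linarith) hr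
    · rw [hj _ a ha]
      exact (he _ hp _ ((E (idx c)).pt_mem (idx c) ha)).2 hrel
  have h1 : ∀ i, ContinuousOn (j i) {w | w.1 ≠ 0} := by
    intro i
    apply continuousOn_of_cov
    have h2 : ContinuousOn (pr ∘ (E i).pt i) {a : ℝ × ℝ × ℝ | 0 < a.1} :=
      hc.comp (((E i).continuousOn_pt i).mono fun a (ha : 0 < a.1) => ha.le)
        fun a ha => (E i).pt_mem i ha
    exact h2.congr fun a ha => hj i a ha
  have h2 : ∀ i i' w w', w.1 ≠ 0 → w'.1 ≠ 0 → j i w = j i' w' → i = i' ∧ w = w' := by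
    intro i i' w w' hw hw' h
    rw [hjdef, hjdef] at h
    have h3 := (he _ ((E i).pt_mem i (modelex_unc_pos hw)) _
      ((E i').pt_mem i' (modelex_unc_pos hw'))).1 h
    have h4 := cov_eq_of_rel E (modelex_unc_pos hw) (modelex_unc_pos hw') h3
    rw [cov_unc, cov_unc] at h4
    exact h4
  have h3 : ∀ i U, IsOpen U → U ⊆ {w | w.1 ≠ 0} → IsOpen (j i '' U) := by
    intro i U hU hsub
    have hV : IsOpen (cov ⁻¹' U ∩ {a : ℝ × ℝ × ℝ | 0 < a.1}) :=
      (hU.preimage continuous_cov).inter (isOpen_lt continuous_const continuous_fst)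
    have heq : j i '' U = pr '' ((E i).pt i '' (cov ⁻¹' U ∩ {a : ℝ × ℝ × ℝ | 0 < a.1})) := by
      apply Subset.antisymm
      · rintro _ ⟨w, hw, rfl⟩
        refine ⟨_, ⟨unc w, ⟨?_, modelex_unc_pos (hsub hw)⟩, rfl⟩, (hjdef i w).symm⟩
        rw [mem_preimage, cov_unc]
        exact hw
      · rintro _ ⟨_, ⟨a, ⟨ha, ha0⟩, rfl⟩, rfl⟩
        exact ⟨cov a, ha, hj i a ha0⟩
    rw [heq]
    apply ho _ ((E i).isOpen_pt_image i hV fun a ha => ha.2)
    rintro _ ⟨a, ha, rfl⟩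
    exact (E i).pt_mem i ha.2
  have h4 : ∀ i, IsClosed (j i '' {w | w.1 ≠ 0 ∧ ‖w.1‖ ≤ 1}) := by
    intro i
    have heq : j i '' {w | w.1 ≠ 0 ∧ ‖w.1‖ ≤ 1} =
        pr '' {p | p ∈ XX ∧ ∃ c, idx c = i ∧ rho c p ≤ eps / 2} := by
      apply Subset.antisymm
      · rintro _ ⟨w, ⟨hw, hw1⟩, rfl⟩
        have hp := modelex_unc_pos hw
        refine ⟨_, ⟨(E i).pt_mem i hp, bc i, idx_bc i, ?_⟩, (hjdef i w).symm⟩
        rw [(E i).rho_pt i hp.le]
        have h5 : (unc w).1 ≤ 1 := hw1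
        rw [div_le_div_iff₀ (by linarith) (by norm_num)]
        nlinarith
      · rintro _ ⟨p, ⟨hp, c, rfl, hr⟩, rfl⟩
        obtain ⟨w, hw, hw1, h⟩ := hnear p hp c hr
        exact ⟨w, ⟨hw, hw1⟩, h.symm⟩
    rw [heq]
    apply hcl _ (fun p hp => hp.1)
    · rintro p ⟨hp, c, hi, hr⟩ q ⟨n, e, d, hd, rfl⟩
      obtain ⟨c', _, hi', _, hrho⟩ := act_cor e hd c
      exact ⟨(act_mem_XX n e d).2 hp, c', hi'.trans hi, by rw [hrho]; exact hr⟩
    · have h5 : XX \ {p | p ∈ XX ∧ ∃ c, idx c = i ∧ rho c p ≤ eps / 2} =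
          XX ∩ {p : ℂ × ℝ | ∀ c, idx c = i → eps / 2 < rho c p} := by
        ext p
        constructor
        · rintro ⟨hp, hn⟩
          refine ⟨hp, fun c hi => ?_⟩
          by_contra hlt
          exact hn ⟨hp, c, hi, not_lt.1 hlt⟩
        · rintro ⟨hp, hn⟩
          refine ⟨hp, ?_⟩
          rintro ⟨_, c, hi, hr⟩
          exact absurd (hn c hi) (not_lt.2 hr)
      rw [h5]
      exact isOpen_XX.inter (modelex_open i)
  have h5 : ∃ K, IsCompact K ∧ ∀ y, y ∈ K ∨ ∃ i w, w.1 ≠ 0 ∧ ‖w.1‖ ≤ 1 ∧ y = j i w := by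
    refine ⟨_, hK (eps / 2) (by linarith), fun y => ?_⟩
    obtain ⟨p, hp, rfl⟩ : y ∈ pr '' XX := by rw [hs]; exact mem_univ y
    by_cases h : ∀ c, eps / 2 ≤ rho c p
    · exact Or.inl ⟨p, h, rfl⟩
    · obtain ⟨c, hc'⟩ := not_forall.1 h
      obtain ⟨w, hw, hw1, h6⟩ := hnear p hp c (not_le.1 hc').le
      exact Or.inr ⟨idx c, w, hw, hw1, h6⟩
  obtain ⟨M, tM, inl, τ, hcl3, hinl, htube, hrange, hτ⟩ := exists_fill hloc j h1 h2 h3 h4 h5
  refine ⟨M, tM, ⟨⟨inl ∘ pr, τ, hcl3, hinl.continuous.comp_continuousOn hc, ?_, ?_, ?_, htube,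
    ?_⟩⟩⟩
  · intro U hU hsub
    rw [image_comp]
    exact hinl.isOpenMap _ (ho U hU hsub)
  · intro p hp q hq
    rw [← he p hp q hq]
    exact hinl.injective.eq_iff
  · rw [image_comp, hs, image_univ, hrange]
  · intro i r θ t hr hlt
    have ha : 0 < rad (r * nrm (LL * t) θ) := rad_pos (mul_pos hr (nrm_pos _ _)) hlt
    have h6 := hτ i (cov (rad (r * nrm (LL * t) θ), (E i).aa θ t, (E i).bb θ t))
      (modelex_cov_ne ha)
    rw [hj i _ ha, (E i).pt_spec i hr.le hlt] at h6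
    exact h6.symm

end Pool.Agent.Zig
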