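import Pool.Agent.Lib.MP_d77862_gt.Asym
import Pool.Agent.Lib.MP_d77862_gt.Chart
import Pool.Agent.Lib.MP_d77862_gt.Exp

noncomputable section

namespace Pool.Agent.Zig

open Set Filter Topology Complex Real

/-! The surgered flow is pseudo-Anosov. -/

variable {E : Fin 2 → End} {M : Type} [TopologicalSpace M] {m : Model E M}

/-- The chart condition in the definition of `PA`. -/
def PAat (φ : Flow ℝ M) (x : M) : Prop :=
  ∃ (e : OpenPartialHomeomorph M (ℂ × ℝ)) (n : ℕ), 2 ≤ n ∧ x ∈ e.source ∧ FlowBox φ e ∧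
    ∀ y ∈ e.source, ∀ᶠ y' in 𝓝 y,
      (‖(e y').1‖ ^ n + ((e y').1 ^ n).re = ‖(e y).1‖ ^ n + ((e y).1 ^ n).re →
        Asym φ atTop y y') ∧
      (‖(e y').1‖ ^ n - ((e y').1 ^ n).re = ‖(e y).1‖ ^ n - ((e y).1 ^ n).re →
        Asym φ atBot y y')

theorem pathm_sq (a : ℝ) : ∀ᶠ a' in 𝓝 a, a' ^ 2 = a ^ 2 → a' = a := by
  rcases lt_trichotomy a 0 with h | rfl | h
  · filter_upwards [Iio_mem_nhds h] with a' ha' h2
    have ha' : a' < 0 := ha'
    nlinarith [mul_pos_of_neg_of_neg (add_neg ha' h) (add_neg ha' h), sq_nonneg (a' - a),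
      sq_eq_sq_iff_eq_or_eq_neg.mp h2 |>.resolve_right (fun h3 => by linarith)]
  · refine Eventually.of_forall fun a' h2 => ?_
    simpa using h2
  · filter_upwards [Ioi_mem_nhds h] with a' ha' h2
    have ha' : 0 < a' := ha'
    exact (sq_eq_sq_iff_eq_or_eq_neg.mp h2).resolve_right (fun h3 => by linarith)

theorem pathm_re (z : ℂ) : ‖z‖ ^ 2 + (z ^ 2).re = 2 * z.re ^ 2 := by
  rw [Complex.sq_norm, Complex.normSq_apply, pow_two z, Complex.mul_re]
  ring

theorem pathm_im (z : ℂ) : ‖z‖ ^ 2 - (z ^ 2).re = 2 * z.im ^ 2 := by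
  rw [Complex.sq_norm, Complex.normSq_apply, pow_two z, Complex.mul_re]
  ring

theorem pathm_weight {w c : ℝ → ℝ} (hw : ∀ θ, 0 < w θ) (hc : Continuous c) (r θ t : ℝ)
    (hloc : c θ ≠ 0 → ∀ᶠ θ' in 𝓝 θ, w θ' = w θ) :
    ∀ᶠ a : ℝ × ℝ × ℝ in 𝓝 (r, θ, t),
      2 * (w a.2.1 * (a.1 * c a.2.1)) ^ 2 = 2 * (w θ * (r * c θ)) ^ 2 →
        a.1 * c a.2.1 = r * c θ := by
  by_cases h : c θ = 0
  · refine Eventually.of_forall fun a ha => ?_
    rw [h, mul_zero, mul_zero] at ha
    have h1 : w a.2.1 * (a.1 * c a.2.1) = 0 := by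
      have : (w a.2.1 * (a.1 * c a.2.1)) ^ 2 = 0 := by linarith
      exact pow_eq_zero_iff two_ne_zero |>.mp this
    rw [h, mul_zero]
    exact (mul_eq_zero.mp h1).resolve_left (hw _).ne'
  · have h1 : ContinuousAt (fun a : ℝ × ℝ × ℝ => a.2.1) (r, θ, t) := by fun_prop
    have h2 : ContinuousAt (fun a : ℝ × ℝ × ℝ => a.1 * c a.2.1) (r, θ, t) := by fun_prop
    filter_upwards [h1.eventually (hloc h), h2.eventually (pathm_sq (r * c θ))] with a ha hb h3
    refine hb ?_
    rw [ha, mul_pow, mul_pow (w θ)] at h3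
    exact mul_left_cancel₀ (pow_pos (hw θ) 2).ne' (by linarith)

theorem pathm_polar_re (r θ : ℝ) : ((r : ℂ) * dir θ).re = r * Real.cos θ := by
  rw [Complex.re_ofReal_mul, dir_re]

theorem pathm_polar_im (r θ : ℝ) : ((r : ℂ) * dir θ).im = r * Real.sin θ := by
  rw [Complex.im_ofReal_mul, dir_im]

theorem pathm_zero {w x : ℝ} (hw : 0 < w) (h : 2 * (w * x) ^ 2 = 0) : x = 0 := by
  have : (w * x) ^ 2 = 0 := by linarith
  exact (mul_eq_zero.mp (pow_eq_zero_iff two_ne_zero |>.mp this)).resolve_left hw.ne'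

theorem FlowM.paAt_regular (f : FlowM m) {p : ℂ × ℝ} (hp : p ∈ XX) : PAat f.φ (m.ι p) := by
  obtain ⟨e, hpt, -, hX, hs, he⟩ := m.exists_chart hp univ_mem
  refine ⟨e, 2, le_rfl, by rw [hs]; exact mem_image_of_mem _ hpt,
    f.flowBox_vertical e.open_target hX hs (K := Prod.snd) (g := id) (fun _ => strictMono_id)
      (fun q hq => he q hq), ?_⟩
  intro y hy
  rw [hs] at hy
  obtain ⟨q, hq, rfl⟩ := hy
  rw [← m.map_nhds_ι (hX hq), eventually_map]
  have c1 : ContinuousAt (fun a : ℂ × ℝ => a.1.re) q := by fun_prop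
  have c2 : ContinuousAt (fun a : ℂ × ℝ => a.1.im) q := by fun_prop
  filter_upwards [e.open_target.mem_nhds hq, c1.eventually (pathm_sq q.1.re),
    c2.eventually (pathm_sq q.1.im)] with q' hq' h1 h2
  rw [he q hq, he q' hq', pathm_re, pathm_re, pathm_im, pathm_im]
  constructor
  · intro h
    have h3 : q'.1.re = q.1.re := h1 (by linarith)
    exact f.asym_of_tendsto (Or.inl rfl) (z := q.1) (z' := q'.1) (t := q.2) (t' := q'.2)
      (hX hq) (hX hq') (tendsto_DD_atTop (by rw [Complex.sub_re, h3, sub_self]))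
  · intro h
    have h3 : q'.1.im = q.1.im := h2 (by linarith)
    exact f.asym_of_tendsto (Or.inr rfl) (z := q.1) (z' := q'.1) (t := q.2) (t' := q'.2)
      (hX hq) (hX hq') (tendsto_DD_atBot (by rw [Complex.sub_im, h3, sub_self]))

theorem FlowM.paAt_core (f : FlowM m) (hP : ∀ i, 2 ≤ (E i).P) (i : Fin 2) (u : Circle) :
    PAat f.φ (m.τ i (0, u)) := by
  obtain ⟨R⟩ := exists_prong m i
  obtain ⟨b0, hb0⟩ := R.exists_F_axis u
  obtain ⟨e, h0, hV, -, hs, he⟩ := R.exists_chart b0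
  have hn : 2 ≤ (E i).P.toNat := by have := hP i; omega
  have hn0 : (E i).P.toNat ≠ 0 := by omega
  have hal : ∀ θ, 0 < (E i).al θ := fun θ => Real.exp_pos _
  have hbe : ∀ θ, 0 < (E i).be θ := fun θ => Real.exp_pos _
  refine ⟨e, (E i).P.toNat, hn, by rw [hs, hb0]; exact mem_image_of_mem _ h0,
    f.flowBox_prong R hV hs he, ?_⟩
  intro y hy
  rcases R.chart_cases hV hs he hy with ⟨b, rfl, hey⟩ | ⟨r, θ, t, hr, hlt, rfl, hev⟩
  · filter_upwards [e.open_source.mem_nhds hy] with y' hy'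
    rw [hey]
    simp only [norm_zero, zero_pow hn0, Complex.zero_re, add_zero, sub_zero]
    rcases R.chart_cases hV hs he hy' with ⟨b', rfl, -⟩ | ⟨r, θ, t, hr, -, rfl, hev⟩
    · have h1 : R.F (0, b') = f.φ (b' - b) (R.F (0, b)) := by
        rw [R.F_axis, R.F_axis, f.hτ, ← Circle.exp_add]
        congr 3
        ring
      rw [h1]
      exact ⟨fun _ => f.asym_orbit (Or.inl rfl) _ _, fun _ => f.asym_orbit (Or.inr rfl) _ _⟩
    · have h1 := hev.self_of_nhds
      simp only at h1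
      rw [h1, R.F_axis]
      simp only
      rw [(E i).zf_stable hr.le, (E i).zf_unstable hr.le]
      constructor
      · intro h
        exact f.asym_core (Or.inl rfl) i _ hr t
          (tendsto_DD_atTop (by rw [pathm_polar_re]; exact pathm_zero (hal θ) h))
      · intro h
        exact f.asym_core (Or.inr rfl) i _ hr t
          (tendsto_DD_atBot (by rw [pathm_polar_im]; exact pathm_zero (hbe θ) h))
  · have hp : (cor (bc i) + r * dir θ, t) ∈ XX := by
      refine mem_XX_of_rho (c := bc i) ?_ ?_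
      · rw [rho_polar _ _ _ _ hr.le]
        exact mul_pos hr (nrm_pos _ _)
      · rw [rho_polar _ _ _ _ hr.le]
        refine hlt.trans ?_
        norm_num [eps]
    have h1 := hev.self_of_nhds
    simp only at h1
    have hXX : ∀ᶠ q in 𝓝 (cor (bc i) + r * dir θ, t), q ∈ XX := isOpen_XX.mem_nhds hp
    rw [← map_nhds_polar _ hr θ t, eventually_map] at hXX
    rw [← m.map_nhds_ι hp, eventually_map, ← map_nhds_polar _ hr θ t, eventually_map]
    have c1 : ContinuousAt (fun a : ℝ × ℝ × ℝ => a.1) (r, θ, t) := by fun_prop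
    filter_upwards [hev, hXX, c1.eventually (Ioi_mem_nhds hr),
      pathm_weight hal Real.continuous_cos r θ t (E i).al_locally_const,
      pathm_weight hbe Real.continuous_sin r θ t (E i).be_locally_const] with a ha hX hr' k1 k2
    have hr' : 0 < a.1 := hr'
    rw [ha, h1]
    simp only
    rw [(E i).zf_stable hr.le, (E i).zf_unstable hr.le, (E i).zf_stable hr'.le,
      (E i).zf_unstable hr'.le]
    constructor
    · intro h
      refine f.asym_of_tendsto (Or.inl rfl) hp hX (tendsto_DD_atTop ?_)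
      rw [add_sub_add_left_eq_sub, Complex.sub_re, pathm_polar_re, pathm_polar_re, k1 h, sub_self]
    · intro h
      refine f.asym_of_tendsto (Or.inr rfl) hp hX (tendsto_DD_atBot ?_)
      rw [add_sub_add_left_eq_sub, Complex.sub_im, pathm_polar_im, pathm_polar_im, k2 h, sub_self]

theorem FlowM.pa (f : FlowM m) (hP : ∀ i, 2 ≤ (E i).P) : PA f.φ := by
  refine ⟨f.no_fixed, f.expansive hP, fun x => ?_⟩
  rcases m.cases x with ⟨p, hp, rfl⟩ | ⟨i, u, rfl⟩
  · exact f.paAt_regular hp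
  · exact f.paAt_core hP i u

end Pool.Agent.Zig
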