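import Pool.Agent.Lib.MP_d77862_gt.FlowL

noncomputable section

namespace Pool.Agent.Zig

open Set Filter Topology Complex Real

/-! Any two models are related by surgery. -/

variable {E E' : Fin 2 → End} {M M' : Type} [TopologicalSpace M] [TopologicalSpace M']

theorem Model.exists_compare (m : Model E M) (m' : Model E' M') :
    ∃ h : OpenPartialHomeomorph M M', h.source = (core m.τ)ᶜ ∧ h.target = (core m'.τ)ᶜ ∧
      ∀ p ∈ XX, h (m.ι p) = m'.ι p := by
  classical
  have hne : Nonempty M := ⟨m.ι 0⟩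
  let f : M → M' := fun x => if hx : ∃ p ∈ XX, x = m.ι p then m'.ι hx.choose else m'.ι 0
  have hf : ∀ p ∈ XX, f (m.ι p) = m'.ι p := by
    intro p hp
    have hx : ∃ q ∈ XX, m.ι p = m.ι q := ⟨p, hp, rfl⟩
    have h1 := hx.choose_spec
    simp only [f, dif_pos hx]
    exact (m'.eq_iff _ h1.1 _ hp).2 (rel_symm ((m.eq_iff _ hp _ h1.1).1 h1.2))
  have hc : ContinuousOn f (m.ι '' XX) := by
    rintro _ ⟨p, hp, rfl⟩
    apply ContinuousAt.continuousWithinAt
    unfold ContinuousAt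
    rw [← m.map_nhds_ι hp, tendsto_map'_iff, hf p hp]
    refine (m'.continuousAt_ι hp).tendsto.congr' ?_
    filter_upwards [isOpen_XX.mem_nhds hp] with q hq
    exact (hf q hq).symm
  have hi : InjOn f (m.ι '' XX) := by
    rintro _ ⟨p, hp, rfl⟩ _ ⟨q, hq, rfl⟩ hpq
    rw [hf p hp, hf q hq] at hpq
    exact (m.eq_iff _ hp _ hq).2 ((m'.eq_iff _ hp _ hq).1 hpq)
  have him : ∀ W, W ⊆ m.ι '' XX → f '' W = m'.ι '' (XX ∩ m.ι ⁻¹' W) := by
    intro W hW
    ext y
    constructor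
    · rintro ⟨x, hx, rfl⟩
      obtain ⟨p, hp, rfl⟩ := hW hx
      exact ⟨p, ⟨hp, hx⟩, (hf p hp).symm⟩
    · rintro ⟨p, ⟨hp, hx⟩, rfl⟩
      exact ⟨m.ι p, hx, hf p hp⟩
  have ho : ∀ W, IsOpen W → W ⊆ m.ι '' XX → IsOpen (f '' W) := by
    intro W hW hsub
    rw [him W hsub]
    exact m'.opn _ (m.cont.isOpen_inter_preimage isOpen_XX hW) inter_subset_left
  obtain ⟨e, he1, he2, he3⟩ := exists_oph m.isOpen_range_ι hc hi ho
  refine ⟨e, by rw [he1, m.img], ?_, fun p hp => by rw [he3, hf p hp]⟩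
  rw [he2, him _ subset_rfl, ← m'.img]
  congr 1
  exact inter_eq_left.2 (subset_preimage_image _ _)

/-- The class `p μ + q λ` is the deck transformation `(p P - q v, q u - p Q)`. -/
theorem Model.surg (m : Model E M) (m' : Model E' M') {h : OpenPartialHomeomorph M M'}
    (h1 : h.source = (core m.τ)ᶜ) (h2 : h.target = (core m'.τ)ᶜ)
    (h3 : ∀ p ∈ XX, h (m.ι p) = m'.ι p) {p q : Fin 2 → ℤ}
    (hpq : ∀ i, (p i * (E i).P - q i * (E i).v) * (E' i).Q +
      (q i * (E i).u - p i * (E i).Q) * (E' i).P = 0) : Surg m.τ m'.τ h p q := by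
  refine ⟨m'.tube, h1, h2, fun i => ⟨1, one_pos, ?_, ?_⟩⟩
  · intro z u hz _
    obtain ⟨a, ha, hcov⟩ := cov_surj (z, u)
    have ha0 : 0 < a.1 := by rw [ha]; exact norm_pos_iff.2 hz
    rw [← hcov, m.tau_cov i ha0, h3 _ ((E i).pt_mem i ha0),
      m'.ι_mem_range_iff ((E i).pt_mem i ha0)]
    refine ⟨bc i, idx_bc i, ?_⟩
    rw [(E i).rho_pt i ha0.le]
    exact (rad_inv ha0.le).2.1
  · have hpi : (2 * π) ≠ 0 := by positivity
    let k : ℝ → ℝ × ℝ := fun s => (E i).phi.symm (p i * s / (2 * π), q i * s / (2 * π))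
    let g : ℝ → ℝ × ℝ := fun s => (E' i).phi (k s)
    have hk : Continuous k := (E i).phi.symm.continuous.comp (by fun_prop)
    have hg : Continuous g := (E' i).phi.continuous.comp hk
    have hgs : ∀ s, g s = ((E' i).aa (k s).1 (k s).2, (E' i).bb (k s).1 (k s).2) :=
      fun s => (E' i).phi_apply (k s).1 (k s).2
    have hper : ∀ s, ∃ n : ℤ, g (s + 2 * π) = ((g s).1 + n, (g s).2) := by
      intro s
      have e1 : k (s + 2 * π) = (E i).phi.symm (p i * s / (2 * π) + p i, q i * s / (2 * π) + q i) := by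
        simp only [k]
        congr 2 <;> field_simp
      rw [(E i).phi_symm_add] at e1
      refine ⟨(p i * (E i).P - q i * (E i).v) * (E' i).u +
        (q i * (E i).u - p i * (E i).Q) * (E' i).v, ?_⟩
      rw [hgs, hgs, e1]
      have ea := (E' i).aa_deck (k s).1 (k s).2 (p i * (E i).P - q i * (E i).v)
        (q i * (E i).u - p i * (E i).Q)
      have eb := (E' i).bb_deck (k s).1 (k s).2 (p i * (E i).P - q i * (E i).v)
        (q i * (E i).u - p i * (E i).Q)
      rw [hpq i] at eb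
      refine Prod.ext ea ?_
      simpa using eb
    refine ⟨fun a => m'.τ i (cov (a.2, (g a.1).1, a.2 * (g a.1).2)), ?_, fun a => mem_range_self _,
      ?_, ?_, ?_⟩
    · refine (m'.tube.1 i).continuous.comp (continuous_cov.comp ?_)
      fun_prop
    · intro s r
      obtain ⟨n, hn⟩ := hper s
      simp only [hn, cov]
      have : 2 * π * ((g s).1 + n) = 2 * π * (g s).1 + n * (2 * π) := by ring
      rw [this, dir_add_int_two_pi]
    · intro s
      simp [cov]
    · intro s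
      have hcov : (((1 : ℝ) : ℂ) * Circle.exp (p i * s), Circle.exp (q i * s)) =
          cov (1, p i * s / (2 * π), q i * s / (2 * π)) := by
        simp only [cov, coe_circle_exp]
        rw [mul_div_cancel₀ _ hpi, mul_div_cancel₀ _ hpi]
      have h0 : (0 : ℝ) < ((1 : ℝ), p i * s / (2 * π), q i * s / (2 * π)).1 := one_pos
      rw [hcov, m.tau_cov i h0, h3 _ ((E i).pt_mem i h0)]
      have hn := nrm_pos (LL * (k s).2) (k s).1
      have hr : eps * 1 / (1 + 1) / nrm (LL * (k s).2) (k s).1 * nrm (LL * (k s).2) (k s).1 =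
          eps / 2 := by
        field_simp
        norm_num
      have he := eps_pos
      have := m'.tau_eq i (eps * 1 / (1 + 1) / nrm (LL * (k s).2) (k s).1) (k s).1 (k s).2
        (by positivity) (by rw [hr]; linarith)
      rw [hr, rad_half] at this
      have e2 : (E i).pt i (1, p i * s / (2 * π), q i * s / (2 * π)) =
          (cor (bc i) + ((eps * 1 / (1 + 1) / nrm (LL * (k s).2) (k s).1 : ℝ) : ℂ) * dir (k s).1,
            (k s).2) := rfl
      rw [e2, this]
      simp only [cov, hgs, one_mul]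

theorem FlowM.orbit_equiv {m : Model E M} {m' : Model E' M'} (f : FlowM m) (f' : FlowM m')
    {h : OpenPartialHomeomorph M M'} (h1 : h.source = (core m.τ)ᶜ)
    (h3 : ∀ p ∈ XX, h (m.ι p) = m'.ι p) :
    ∀ x ∈ h.source, ∃ η : ℝ ≃o ℝ, ∀ t, h (f.φ t x) = f'.φ (η t) (h x) := by
  intro x hx
  rw [h1, ← m.img] at hx
  obtain ⟨⟨y, t0⟩, hp, rfl⟩ := hx
  obtain ⟨η, -, -, hη⟩ := f.exists_height hp
  obtain ⟨η', -, -, hη'⟩ := f'.exists_height hp
  refine ⟨η.trans η'.symm, fun t => ?_⟩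
  rw [hη, h3 _ ((mem_XX_iff y t0 (η t)).1 hp), h3 _ hp, hη']
  simp

theorem Surg.homeo {N : Type} [TopologicalSpace N] {τ : Fin 2 → ℂ × Circle → M}
    {τ' : Fin 2 → ℂ × Circle → M'} {h : OpenPartialHomeomorph M M'} {p q : Fin 2 → ℤ}
    (H : Surg τ τ' h p q) (G : M' ≃ₜ N) :
    ∃ h' : OpenPartialHomeomorph M N, Surg τ (fun i w => G (τ' i w)) h' p q := by
  obtain ⟨⟨ht1, ht2⟩, hs, ht, hi⟩ := H
  refine ⟨h.transHomeomorph G, ⟨fun i => G.isOpenEmbedding.comp (ht1 i), ?_⟩, hs, ?_, ?_⟩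
  · intro i j hij
    rw [Set.disjoint_left]
    rintro _ ⟨w, rfl⟩ ⟨w', hw'⟩
    exact Set.disjoint_left.1 (ht2 i j hij) (mem_range_self w) ⟨w', G.injective hw'⟩
  · ext y
    have : y ∈ (h.transHomeomorph G).target ↔ G.symm y ∈ h.target := Iff.rfl
    rw [this, ht]
    simp only [core, mem_compl_iff, mem_ofPred_eq]
    refine not_congr ⟨?_, ?_⟩
    · rintro ⟨i, u, hy⟩
      exact ⟨i, u, by rw [← hy]; simp⟩
    · rintro ⟨i, u, hy⟩
      exact ⟨i, u, by rw [hy]; simp⟩
  · intro i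
    obtain ⟨ε, hε, hr, K, hK, hK1, hK2, hK3, hK4⟩ := hi i
    have happ : ∀ x, (h.transHomeomorph G) x = G (h x) := fun _ => rfl
    refine ⟨ε, hε, ?_, fun a => G (K a), G.continuous.comp hK, ?_, ?_, ?_, ?_⟩
    · intro z u hz hzε
      obtain ⟨w, hw⟩ := hr z u hz hzε
      exact ⟨w, by rw [happ, ← hw]⟩
    · intro a
      obtain ⟨w, hw⟩ := hK1 a
      exact ⟨w, by simp only [← hw]⟩
    · intro s r
      simp only [hK2]
    · intro s
      simp only [hK3 s]
    · intro s
      simp only [hK4, happ]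

end Pool.Agent.Zig
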