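import Pool.Agent.Lib.MP_d77862_gt.FlowL

noncomputable section

namespace Pool.Agent.Zig

open Set Filter Topology Complex Real

/-! A dense orbit. -/

theorem trans_small (K : ℝ) {δ : ℝ} (hδ : 0 < δ) :
    ∃ k : ℕ, Real.exp (-(LL * ((2 * k : ℤ) : ℝ))) * K < δ := by
  have h1 : Tendsto (fun k : ℕ => LL * ((2 * k : ℤ) : ℝ)) atTop atTop := by
    refine Tendsto.const_mul_atTop LL_pos ?_
    push_cast
    exact tendsto_natCast_atTop_atTop.const_mul_atTop two_pos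
  have h2 := (Real.tendsto_exp_neg_atTop_nhds_zero.comp h1).mul_const K
  rw [zero_mul] at h2
  exact (h2.eventually (gt_mem_nhds hδ)).exists

/-- Topological transitivity upstairs. -/
theorem exists_connect {V : Set ℂ} (hV : IsOpen V) (hV' : V.Nonempty) {U : Set (ℂ × ℝ)}
    (hU : IsOpen U) (hU' : U.Nonempty) : ∃ x ∈ V, ∃ t, ∃ q ∈ U, Rel (x, t) q := by
  obtain ⟨v, hv⟩ := hV'
  obtain ⟨⟨y, s⟩, hy⟩ := hU'
  obtain ⟨δ, hδ, h1⟩ := Metric.isOpen_iff.1 hV v hv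
  obtain ⟨δ', hδ', h2⟩ := Metric.isOpen_iff.1 (hU.preimage (Continuous.prodMk_left s)) y hy
  obtain ⟨_, ⟨c1, e1, e1', rfl⟩, d1⟩ := dense_cor_re.exists_dist_lt v.re (half_pos hδ)
  obtain ⟨_, ⟨c2, e2, e2', rfl⟩, d2⟩ := dense_cor_im.exists_dist_lt y.im (half_pos hδ')
  obtain ⟨k, hk⟩ := trans_small (|y.re - (cor c2).re| + |v.im - (cor c1).im|)
    (lt_min (half_pos hδ) (half_pos hδ'))
  obtain ⟨c, hc, f1, f2⟩ := DD_int_cor (2 * k) c1
  set w := Real.exp (-(LL * ((2 * k : ℤ) : ℝ))) with hw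
  have hw0 : 0 < w := Real.exp_pos _
  have hw1 : Real.exp (LL * ((2 * k : ℤ) : ℝ)) * w = 1 := by
    rw [hw, ← Real.exp_add, add_neg_cancel, Real.exp_zero]
  rw [Real.dist_eq] at d1 d2
  rw [mul_add, lt_min_iff] at hk
  have p1 := mul_nonneg hw0.le (abs_nonneg (y.re - (cor c2).re))
  have p2 := mul_nonneg hw0.le (abs_nonneg (v.im - (cor c1).im))
  refine ⟨⟨(cor c1).re + w * (y.re - (cor c2).re), v.im⟩, h1 ?_, s + (2 * k : ℤ),
    ((⟨y.re, w * (v.im - (cor c1).im) + (cor c2).im⟩ : ℂ), s), h2 ?_, 2 * k, 1, c2 - c, ?_, ?_⟩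
  · rw [mem_ball_iff_norm]
    refine (Complex.norm_le_abs_re_add_abs_im _).trans_lt ?_
    simp only [Complex.sub_re, Complex.sub_im, sub_self, abs_zero, add_zero]
    have := abs_add_le ((cor c1).re - v.re) (w * (y.re - (cor c2).re))
    rw [abs_mul, abs_of_pos hw0, abs_sub_comm (cor c1).re] at this
    rw [add_sub_right_comm]
    linarith [hk.1]
  · rw [mem_ball_iff_norm]
    refine (Complex.norm_le_abs_re_add_abs_im _).trans_lt ?_
    simp only [Complex.sub_re, Complex.sub_im, sub_self, abs_zero, zero_add]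
    have := abs_add_le (w * (v.im - (cor c1).im)) ((cor c2).im - y.im)
    rw [abs_mul, abs_of_pos hw0, abs_sub_comm (cor c2).im] at this
    rw [add_sub_assoc]
    linarith [hk.2]
  · rw [Adm, Prod.fst_sub, Prod.snd_sub]
    rw [Int.even_iff] at e1 e1' e2 e2' f1 f2
    rw [Int.even_iff, Int.even_iff]
    omega
  · rw [act, cor_sub, ← hc]
    refine Prod.ext (Complex.ext ?_ ?_) (by simp)
    · simp only [DD, Dg, Units.val_one, Int.cast_one, one_mul, Complex.add_re, Complex.sub_re]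
      linear_combination (-(y.re - (cor c2).re)) * hw1
    · simp only [DD, Dg, Units.val_one, Int.cast_one, one_mul, Complex.add_im, Complex.sub_im,
        ← hw]
      ring

theorem trans_open {U : Set (ℂ × ℝ)} (hU : IsOpen U) :
    IsOpen {x : ℂ | ∃ t, ∃ q ∈ U, Rel (x, t) q} := by
  rw [isOpen_iff_mem_nhds]
  rintro x ⟨t, _, hq, n, e, c, h, rfl⟩
  have h1 : Continuous fun z : ℂ => act n e c (z, t) :=
    (continuous_act n e c).comp (Continuous.prodMk_left t)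
  filter_upwards [(hU.preimage h1).mem_nhds hq] with z hz using ⟨t, _, hz, n, e, c, h, rfl⟩

theorem exists_dense_line : ∃ x : ℂ, (x, (0 : ℝ)) ∈ XX ∧
    ∀ U : Set (ℂ × ℝ), IsOpen U → U.Nonempty → ∃ t, ∃ q ∈ U, Rel (x, t) q := by
  have hB := TopologicalSpace.isBasis_countableBasis (ℂ × ℝ)
  have h1 : Dense (⋂ U ∈ TopologicalSpace.countableBasis (ℂ × ℝ),
      {x : ℂ | ∃ t, ∃ q ∈ U, Rel (x, t) q}) :=
    dense_biInter_of_isOpen (fun U hU => trans_open (hB.isOpen hU))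
      (TopologicalSpace.countable_countableBasis _) fun U hU => dense_iff_inter_open.2 fun V hV hV' =>
        exists_connect hV hV' (hB.isOpen hU) (TopologicalSpace.nonempty_of_mem_countableBasis hU)
  have h2 : IsOpen {x : ℂ | (x, (0 : ℝ)) ∈ XX} := isOpen_XX.preimage (Continuous.prodMk_left 0)
  obtain ⟨p, hp⟩ := dense_XX.nonempty
  obtain ⟨x, hx, hx'⟩ := h1.inter_open_nonempty _ h2 ⟨p.1, (mem_XX_iff p.1 p.2 0).1 hp⟩
  refine ⟨x, hx, fun U hU ⟨q, hq⟩ => ?_⟩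
  obtain ⟨W, hW, hqW, hWU⟩ := hB.exists_subset_of_mem_open hq hU
  obtain ⟨t, q', h3, h4⟩ := mem_iInter₂.1 hx' W hW
  exact ⟨t, q', hWU h3, h4⟩

theorem FlowM.exists_dense {E : Fin 2 → End} {M : Type} [TopologicalSpace M] {m : Model E M}
    (f : FlowM m) : ∃ x, DenseRange fun t => f.φ t x := by
  obtain ⟨x, hx, h⟩ := exists_dense_line
  obtain ⟨η, -, -, hη⟩ := f.exists_height hx
  refine ⟨m.ι (x, 0), dense_iff_inter_open.2 fun W hW hW' => ?_⟩
  obtain ⟨_, hp, p, hp', rfl⟩ := m.dense_range_ι.inter_open_nonempty W hW hW'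
  obtain ⟨t, q, hq, hr⟩ := h _ (m.cont.isOpen_inter_preimage isOpen_XX hW) ⟨p, hp', hp⟩
  refine ⟨m.ι q, hq.2, η.symm t, ?_⟩
  simp only [hη, OrderIso.apply_symm_apply]
  exact (m.eq_iff _ ((mem_XX_iff x 0 t).1 hx) _ hq.1).2 hr

end Pool.Agent.Zig
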