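import Pool.Agent.Lib.MP_d77862_gt.Pil3
import Pool.Agent.Lib.MP_d77862_gt.ModelL

noncomputable section

namespace Pool.Agent.Zig

open Set Filter Topology Complex Real

/-! The filling along the fibre slopes is `S¹ × S²`. -/

theorem rel_axis_iff (i j : Fin 2) (t t' : ℝ) :
    Rel (cor (bc i), t) (cor (bc j), t') ↔ i = j ∧ ∃ n : ℤ, t' = t + 2 * n := by
  constructor
  · rintro ⟨n, e, c, hc, h⟩
    obtain ⟨d, h1, h2, ⟨k, h3⟩, -⟩ := act_cor e hc (bc i)
    have h4 : bc j = d := cor_injective ((congrArg Prod.fst h).trans h1.symm)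
    subst h4
    rw [idx_bc, idx_bc] at h2
    have h5 : n = -(2 * k) := by
      simp only [bc] at h3
      omega
    refine ⟨h2.symm, k, ?_⟩
    have h6 : t' = t - n := congrArg Prod.snd h
    rw [h6, h5]
    push_cast
    ring
  · rintro ⟨rfl, n, rfl⟩
    simpa using rel_deck i 0 0 t 0 n

theorem triv_pt_axis (i : Fin 2) (a b : ℝ) : End.triv.pt i (0, a, b) = (cor (bc i), 2 * b) := by
  have h := End.triv.phi_apply (End.triv.phi.symm (a, b)).1 (End.triv.phi.symm (a, b)).2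
  rw [Prod.mk.eta, Homeomorph.apply_symm_apply] at h
  have h1 : b = ((1 : ℤ) : ℝ) * (End.triv.phi.symm (a, b)).2 / 2 := congrArg Prod.snd h
  refine Prod.ext (by simp [End.pt]) ?_
  change (End.triv.phi.symm (a, b)).2 = 2 * b
  rw [Int.cast_one] at h1
  linarith

theorem triv_not_rel {p : ℂ × ℝ} (hp : p ∈ XX) (c : ℤ × ℤ) (t : ℝ) : ¬ Rel p (cor c, t) := by
  rintro ⟨n, e, d, -, h⟩
  exact (h ▸ (act_mem_XX n e d).2 hp : (cor c, t) ∈ XX) c rfl

theorem triv_exp_iff (b b' : ℝ) :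
    Circle.exp (2 * π * b) = Circle.exp (2 * π * b') ↔ ∃ n : ℤ, 2 * b = 2 * b' + 2 * n := by
  rw [Circle.exp_eq_exp]
  refine exists_congr fun n => ⟨fun h => ?_, fun h => ?_⟩
  · refine mul_left_cancel₀ pi_ne_zero ?_
    linarith
  · have : b = b' + n := by linarith
    rw [this]
    ring

theorem Model.homeo_triv {M : Type} [TopologicalSpace M] (m : Model (fun _ => End.triv) M) :
    Nonempty (M ≃ₜ Circle × S2) := by
  obtain ⟨Ψ, hΨc, hΨs, hΨ⟩ := exists_Psi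
  have hcases : ∀ x : M, ∃ p : ℂ × ℝ, (p ∈ XX ∧ x = m.ι p) ∨
      ∃ (i : Fin 2) (b : ℝ), x = m.τ i (0, Circle.exp (2 * π * b)) ∧ p = (cor (bc i), 2 * b) := by
    intro x
    rcases m.cases x with ⟨p, hp, h⟩ | ⟨i, u, h⟩
    · exact ⟨p, Or.inl ⟨hp, h⟩⟩
    · refine ⟨_, Or.inr ⟨i, arg (u : ℂ) / (2 * π), ?_, rfl⟩⟩
      rw [mul_div_cancel₀ _ (by positivity), Circle.exp_arg, h]
  choose s hs using hcases
  let G : M → Circle × S2 := fun x => Ψ (s x)
  have G1 : ∀ p ∈ XX, G (m.ι p) = Ψ p := by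
    intro p hp
    rcases hs (m.ι p) with ⟨h1, h2⟩ | ⟨i, b, h1, -⟩
    · exact ((hΨ _ _).2 ((m.eq_iff _ hp _ h1).1 h2)).symm
    · exact absurd ⟨i, _, h1⟩ (m.ι_not_core hp)
  have G2 : ∀ i b, G (m.τ i (0, Circle.exp (2 * π * b))) = Ψ (cor (bc i), 2 * b) := by
    intro i b
    rcases hs (m.τ i (0, Circle.exp (2 * π * b))) with ⟨h1, h2⟩ | ⟨j, b', h1, h2⟩
    · exact absurd ⟨i, _, h2.symm⟩ (m.ι_not_core h1)
    · obtain ⟨h3, h4⟩ := m.tau_inj h1
      change Ψ (s _) = _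
      rw [h2, hΨ, rel_axis_iff]
      exact ⟨h3.symm, (triv_exp_iff b b').1 (congrArg Prod.snd h4)⟩
  have G3 : ∀ i, ∀ a : ℝ × ℝ × ℝ, 0 ≤ a.1 → G (m.τ i (cov a)) = Ψ (End.triv.pt i a) := by
    rintro i ⟨R, a, b⟩ h
    rcases h.eq_or_lt with h | h
    · obtain rfl : 0 = R := h
      rw [triv_pt_axis, ← G2]
      simp [cov]
    · rw [m.tau_cov i h, G1 _ (End.triv.pt_mem i h)]
  have hc : Continuous G := by
    refine continuous_iff_continuousAt.2 fun x => ?_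
    rcases m.cases x with ⟨p, hp, rfl⟩ | ⟨i, u, rfl⟩
    · rw [ContinuousAt, ← m.map_nhds_ι hp, tendsto_map'_iff, G1 p hp]
      refine hΨc.continuousAt.congr' ?_
      filter_upwards [isOpen_XX.mem_nhds hp] with q hq
      exact (G1 q hq).symm
    · rw [← (m.tube.1 i).continuousAt_iff]
      refine (continuous_of_cov ?_).continuousAt
      exact (hΨc.comp_continuousOn (End.triv.continuousOn_pt i)).congr fun a ha => G3 i a ha
  have hi : Function.Injective G := by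
    intro x y h
    have h0 : Rel (s x) (s y) := (hΨ _ _).1 h
    rcases hs x with ⟨h1, h2⟩ | ⟨i, b, h1, h2⟩ <;> rcases hs y with ⟨h3, h4⟩ | ⟨j, b', h3, h4⟩
    · rw [h2, h4]
      exact (m.eq_iff _ h1 _ h3).2 h0
    · exact absurd (h4 ▸ h0) (triv_not_rel h1 _ _)
    · exact absurd (h2 ▸ rel_symm h0) (triv_not_rel h3 _ _)
    · rw [h2, h4, rel_axis_iff] at h0
      rw [h1, h3, h0.1, (triv_exp_iff b' b).2 h0.2]
  have hsu : Function.Surjective G := by
    intro y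
    obtain ⟨⟨x, t⟩, rfl⟩ := hΨs y
    by_cases hp : (x, t) ∈ XX
    · exact ⟨_, G1 _ hp⟩
    · obtain ⟨c, hc⟩ := not_forall.1 hp
      obtain rfl : x = cor c := not_not.1 hc
      refine ⟨_, (G2 (idx c) ((t + c.2) / 2)).trans ((hΨ _ _).2 (rel_symm ?_))⟩
      rw [mul_div_cancel₀ _ two_ne_zero]
      simpa using (rel_bc c 0 0 t).1
  have := m.cl3.2.1
  exact ⟨Continuous.homeoOfEquivCompactToT2 (f := Equiv.ofBijective G ⟨hi, hsu⟩) hc⟩

end Pool.Agent.Zig
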