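import Pool.Agent.Lib.MP_d77862_gt.Or2

noncomputable section

namespace Pool.Agent.Zig

open Set Filter Topology Complex Real

/-! Every model is orientable. -/

namespace Model

variable {E : Fin 2 → End} {M : Type} [TopologicalSpace M] (m : Model E M)
  {e e' : OpenPartialHomeomorph M (ℂ × ℝ)}

/-- Local inverses of `ι`. -/
def Reg (e : OpenPartialHomeomorph M (ℂ × ℝ)) : Prop :=
  e.target ⊆ XX ∧ ∀ q ∈ e.target, e.symm q = m.ι q

/-- Local inverses of the tube parametrisations. -/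
def Tub (i : Fin 2) (e : OpenPartialHomeomorph M (ℂ × ℝ)) : Prop :=
  ∀ a ∈ e.target, e.symm a = m.τ i (a.1, Circle.exp a.2)

theorem or_exp {a b : ℝ} (h : Circle.exp a = Circle.exp b) (t : ℝ) :
    Circle.exp (t + (b - a)) = Circle.exp t := by
  rw [Circle.exp_add, Circle.exp_sub, h, div_self', mul_one]

theorem pos_reg (he : m.Reg e) {p : ℂ × ℝ} (hp : p ∈ XX) (hs : m.ι p ∈ e.source) :
    Pos (e ∘ m.ι) p := by
  have ht := e.map_source hs
  have h1 : m.ι p = m.ι (e (m.ι p)) := by rw [← he.2 _ ht, e.left_inv hs]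
  obtain ⟨n, u, c, hA, hq⟩ := (m.eq_iff _ hp _ (he.1 ht)).1 h1
  rw [hq] at ht
  refine (pos_act n u c p).congr ?_
  filter_upwards [(continuous_act n u c).continuousAt.eventually (e.open_target.mem_nhds ht),
    isOpen_XX.mem_nhds hp] with q h2 h3
  rw [Function.comp, ← m.ι_act u hA h3, ← he.2 _ h2, e.right_inv h2]

theorem pos_tub_base {i : Fin 2} (he : m.Tub i e) {x : ℂ × ℝ} (h0 : 0 < x.1.re)
    (h1 : x.1.re * nrm (LL * x.2) x.1.im < eps) (hs : m.ι (pol (cor (bc i)) x) ∈ e.source) :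
    Pos (e ∘ m.ι) (pol (cor (bc i)) x) := by
  have key : ∀ y : ℂ × ℝ, 0 < y.1.re → y.1.re * nrm (LL * y.2) y.1.im < eps →
      m.ι (pol (cor (bc i)) y) = m.τ i (((E i).tube y).1, Circle.exp ((E i).tube y).2) :=
    fun y a b => by
      rw [(E i).tube_eq]
      exact m.tau_eq i _ _ _ a b
  have ht := e.map_source hs
  have h2 := he _ ht
  rw [e.left_inv hs] at h2
  set a := e (m.ι (pol (cor (bc i)) x)) with ha
  rw [key x h0 h1] at h2
  obtain ⟨h3, h4⟩ := Prod.ext_iff.1 (m.tau_inj h2).2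
  simp only at h3 h4
  have h5 : (((E i).tube x).1, ((E i).tube x).2 + (a.2 - ((E i).tube x).2)) ∈ e.target := by
    rw [h3, add_sub_cancel]
    exact ht
  have hc := (E i).continuousAt_tube h1
  have hc' : ContinuousAt (fun y => (((E i).tube y).1,
      ((E i).tube y).2 + (a.2 - ((E i).tube x).2))) x :=
    hc.fst.prodMk (hc.snd.add continuousAt_const)
  refine pos_of_pol _ h0 ((((E i).pos_tube h0 h1).comp
    ((End.or_small h0 h1).mono fun y hy => (E i).continuousAt_tube hy.2)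
    (pos_shift (a.2 - ((E i).tube x).2) _)).congr ?_)
  filter_upwards [End.or_small h0 h1, hc'.eventually (e.open_target.mem_nhds h5)] with y hy h6
  have h7 := he _ h6
  simp only [or_exp h4] at h7
  simp only [Function.comp]
  rw [key y hy.1 hy.2, ← h7, e.right_inv h6]

theorem pos_tub {i : Fin 2} (he : m.Tub i e) {p : ℂ × ℝ} (hp : p ∈ XX) (hs : m.ι p ∈ e.source) :
    Pos (e ∘ m.ι) p := by
  have h2 := he _ (e.map_source hs)
  rw [e.left_inv hs] at h2
  obtain ⟨c, rfl, hc⟩ := (m.ι_mem_range_iff hp i).1 ⟨_, h2.symm⟩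
  have hne : p.1 - cor c ≠ 0 := sub_ne_zero.2 (hp c)
  have hr : 0 < ‖p.1 - cor c‖ := norm_pos_iff.2 hne
  have hpe : p = (cor c + (‖p.1 - cor c‖ : ℝ) * dir (arg (p.1 - cor c)), p.2) := by
    rw [norm_mul_dir_arg]
    ext <;> simp
  obtain ⟨hrel, heq⟩ := rel_bc c ‖p.1 - cor c‖ (arg (p.1 - cor c)) p.2
  rw [← hpe] at hrel
  rw [hpe, rho_polar _ _ _ _ hr.le, ← heq] at hc
  obtain ⟨n, u, d, hA, hq⟩ := hrel
  let x : ℂ × ℝ := (⟨‖p.1 - cor c‖ * nrm (-(LL * c.2)) (arg (p.1 - cor c)),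
    ang (-(LL * c.2)) (arg (p.1 - cor c))⟩, p.2 + c.2)
  have hx : pol (cor (bc (idx c))) x = act n u d p := hq
  have h3 := m.pos_tub_base he (x := x) (mul_pos hr (nrm_pos _ _)) hc
    (by rw [hx, m.ι_act u hA hp]; exact hs)
  rw [hx] at h3
  refine ((pos_act n u d p).comp
    (Eventually.of_forall fun _ => (continuous_act n u d).continuousAt) h3).congr ?_
  filter_upwards [isOpen_XX.mem_nhds hp] with q hq
  simp only [Function.comp, m.ι_act u hA hq]

theorem pos_trans {p : ℂ × ℝ} (hp : p ∈ XX) (hs : m.ι p ∈ e.source) (h : Pos (e ∘ m.ι) p)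
    (h' : Pos (e' ∘ m.ι) p) : Pos (e' ∘ e.symm) (e (m.ι p)) := by
  obtain ⟨e0, hpt, -, -, hs0, he0⟩ := m.exists_chart hp univ_mem
  have ht := e.map_source hs
  have h0 : (e0 ∘ e.symm) (e (m.ι p)) = p := by rw [Function.comp, e.left_inv hs, he0 p hpt]
  have h1 : ∀ᶠ y in 𝓝 (e (m.ι p)), y ∈ e.target ∧ e.symm y ∈ e0.source := by
    refine (e.open_target.eventually_mem ht).and ((e.continuousAt_symm ht).eventually ?_)
    rw [e.left_inv hs, hs0]
    exact (hs0 ▸ e0.open_source).mem_nhds (mem_image_of_mem _ hpt)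
  have h2 : ∀ᶠ y in 𝓝 (e (m.ι p)), m.ι ((e0 ∘ e.symm) y) = e.symm y := h1.mono fun y hy => by
    obtain ⟨q, hq, hq'⟩ := hs0 ▸ hy.2
    rw [Function.comp, ← hq', he0 q hq]
  have h3 : ∀ᶠ y in 𝓝 (e (m.ι p)), ContinuousAt (e0 ∘ e.symm) y := h1.mono fun y hy =>
    (e0.continuousAt hy.2).comp (e.continuousAt_symm hy.1)
  have h4 : Pos (e0 ∘ e.symm) (e (m.ι p)) := by
    refine Pos.sec (f := e ∘ m.ι) (by rw [h0]; exact h) h3 ?_
    filter_upwards [h1, h2] with y a b
    rw [Function.comp_apply (f := e), b, e.right_inv a.1]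
  refine (h4.comp h3 (by rw [h0]; exact h')).congr (h2.mono fun y hy => ?_)
  rw [Function.comp_apply, Function.comp_apply (f := e'), hy, Function.comp_apply]

theorem pos_tub_tub {i j : Fin 2} (he : m.Tub i e) (he' : m.Tub j e') {x : M}
    (hs : x ∈ e.source) (hs' : x ∈ e'.source) : Pos (e' ∘ e.symm) (e x) := by
  have ht := e.map_source hs
  have ht' := e'.map_source hs'
  have h1 := he _ ht
  have h2 := he' _ ht'
  rw [e.left_inv hs] at h1
  rw [e'.left_inv hs'] at h2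
  obtain ⟨rfl, h3⟩ := m.tau_inj (h1.symm.trans h2)
  obtain ⟨h4, h5⟩ := Prod.ext_iff.1 h3
  simp only at h4 h5
  have h6 : ((e x).1, (e x).2 + ((e' x).2 - (e x).2)) ∈ e'.target := by
    rw [h4, add_sub_cancel]
    exact ht'
  have hc : ContinuousAt (fun y : ℂ × ℝ => (y.1, y.2 + ((e' x).2 - (e x).2))) (e x) := by fun_prop
  refine (pos_shift ((e' x).2 - (e x).2) _).congr ?_
  filter_upwards [e.open_target.mem_nhds ht, hc.eventually (e'.open_target.mem_nhds h6)]
    with y a b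
  have h7 := he' _ b
  simp only [or_exp h5] at h7
  rw [Function.comp, he y a, ← h7, e'.right_inv b]

theorem exists_tub (i : Fin 2) (u : Circle) : ∃ e, m.Tub i e ∧ m.τ i (0, u) ∈ e.source := by
  have hc : Continuous fun a : ℂ × ℝ => m.τ i (a.1, Circle.exp a.2) :=
    (m.tube.1 i).continuous.comp (by fun_prop)
  have ho : IsOpenMap fun a : ℂ × ℝ => m.τ i (a.1, Circle.exp a.2) :=
    (m.tube.1 i).isOpenMap.comp (IsOpenMap.id.prodMap isLocalHomeomorph_circleExp.isOpenMap)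
  obtain ⟨e, hs, ht, he⟩ := exists_oph (U := univ ×ˢ Ioo (arg u - 1) (arg u + 1))
    (isOpen_univ.prod isOpen_Ioo) hc.continuousOn (fun a ha b hb h => by
      obtain ⟨h1, h2⟩ := Prod.ext_iff.1 (m.tau_inj h).2
      obtain ⟨k, hk⟩ := Circle.exp_eq_exp.1 h2
      have h3 : (k : ℝ) < 1 := by nlinarith [ha.2.2, hb.2.1, pi_gt_three]
      have h4 : (-1 : ℝ) < k := by nlinarith [ha.2.1, hb.2.2, pi_gt_three]
      have h5 : k = 0 := by
        have h3' : k < 1 := by exact_mod_cast h3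
        have h4' : -1 < k := by exact_mod_cast h4
        omega
      exact Prod.ext h1 (by simpa [h5] using hk)) fun W hW _ => ho W hW
  refine ⟨e.symm, fun a _ => he a, ?_⟩
  rw [e.symm_source, ht]
  exact ⟨(0, arg u), ⟨trivial, by simp, by simp⟩, by simp only [Circle.exp_arg]⟩

include m in
theorem orient : Orient M := by
  have good : ∀ e, (m.Reg e ∨ ∃ i, m.Tub i e) → ∀ p ∈ XX, m.ι p ∈ e.source → Pos (e ∘ m.ι) p := by
    rintro e (he | ⟨i, he⟩) p hp hs
    · exact m.pos_reg he hp hs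
    · exact m.pos_tub he hp hs
  have hcore : ∀ e, (m.Reg e ∨ ∃ i, m.Tub i e) → ∀ i u, m.τ i (0, u) ∈ e.source →
      ∃ j, m.Tub j e := by
    rintro e (he | he) i u hs
    · have ht := e.map_source hs
      have h1 := he.2 _ ht
      rw [e.left_inv hs] at h1
      exact absurd ⟨i, u, h1.symm⟩ (m.ι_not_core (he.1 ht))
    · exact he
  refine ⟨{e | m.Reg e ∨ ∃ i, m.Tub i e}, fun x => ?_, fun e he e' he' x hx => ?_⟩
  · rcases m.cases x with ⟨p, hp, rfl⟩ | ⟨i, u, rfl⟩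
    · obtain ⟨e, hpt, -, hX, hs, he⟩ := m.exists_chart hp univ_mem
      refine ⟨e, Or.inl ⟨hX, fun q hq => ?_⟩, hs ▸ mem_image_of_mem _ hpt⟩
      conv_lhs => rw [← he q hq]
      exact e.left_inv (hs ▸ mem_image_of_mem _ hq)
    · obtain ⟨e, he, hs⟩ := m.exists_tub i u
      exact ⟨e, Or.inr ⟨i, he⟩, hs⟩
  · rcases m.cases x with ⟨p, hp, rfl⟩ | ⟨i, u, rfl⟩
    · exact m.pos_trans hp hx.1 (good e he p hp hx.1) (good e' he' p hp hx.2)
    · obtain ⟨j, hj⟩ := hcore e he i u hx.1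
      obtain ⟨j', hj'⟩ := hcore e' he' i u hx.2
      exact m.pos_tub_tub hj hj' hx.1 hx.2

end Model

end Pool.Agent.Zig
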