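import Pool.Agent.Lib.MP_d77862_gt.Wall5
import Pool.Agent.Lib.MP_d77862_gt.ModelEx
import Pool.Agent.Lib.MP_d77862_gt.PAthm
import Pool.Agent.Lib.MP_d77862_gt.Trans
import Pool.Agent.Lib.MP_d77862_gt.Fol
import Pool.Agent.Lib.MP_d77862_gt.SurgL
import Pool.Agent.Lib.MP_d77862_gt.Triv
import Pool.Agent.Lib.MP_d77862_gt.Corner
import Pool.Agent.Lib.MP_d77862_gt.Or3

noncomputable section

namespace Pool.Agent.Zig

open Set Filter Topology Complex Real

/-! The example, with orientability. -/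

theorem exists_example_or : ∃ (M : Type) (_ : TopologicalSpace M) (φ : Flow ℝ M)
    (τ : Fin 2 → ℂ × Circle → M), Closed3 M ∧ Orient M ∧ PA φ ∧
      (∃ x, DenseRange fun t => φ t x) ∧ Tubes τ ∧ Along φ τ ∧ S1S2 τ 0 1 ∧
      ∀ p q : Fin 2 → ℤ, (∀ i, IsCoprime (p i) (q i)) → (∀ i, 5 * |p i| < q i) →
        p 0 * p 1 < 0 → Realised φ τ p q := by
  obtain ⟨E, hE, -⟩ := exists_leaf (fun _ => 3) ![1, -1] (fun _ => 0) ![-1, 1]
    (fun _ => by norm_num) (fun i => by fin_cases i <;> simp) (by simp)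
    (fun i => by fin_cases i <;> simp)
  obtain ⟨M, _, ⟨m⟩⟩ := exists_model E
  obtain ⟨f⟩ := exists_flow m
  refine ⟨M, inferInstance, f.φ, m.τ, m.cl3, m.orient,
    f.pa fun i => by rw [(hE i).1]; norm_num, f.exists_dense, m.tube, f.along, ?_, fun p q hc hs hp => ?_⟩
  · obtain ⟨M', _, ⟨m'⟩⟩ := exists_model fun _ => End.triv
    obtain ⟨G⟩ := m'.homeo_triv
    obtain ⟨h, h1, h2, h3⟩ := m.exists_compare m'
    have H : Surg m.τ m'.τ h 0 1 := m.surg m' h1 h2 h3 fun i => by
      simp [End.triv, (hE i).2.2.1]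
    obtain ⟨h', H'⟩ := H.homeo G
    exact ⟨_, h', H'⟩
  · have hp0 : p 0 ≠ 0 := fun h => by simp [h] at hp
    have hp1 : p 1 ≠ 0 := fun h => by simp [h] at hp
    have hpi : ∀ i, 1 ≤ |p i| := fun i => by
      fin_cases i
      · exact Int.one_le_abs hp0
      · exact Int.one_le_abs hp1
    choose a b hab using hc
    let s : Fin 2 → ℤ := ![1, -1]
    have hs3 : ∀ i, q i - 3 * |p i| ≤ q i + 3 * s i * p i := fun i => by
      have h1 := le_abs_self (p i)
      have h2 := neg_abs_le (p i)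
      fin_cases i <;> simp [s] at * <;> linarith
    obtain ⟨E', hE', ⟨L⟩⟩ := exists_leaf (fun i => q i + 3 * s i * p i) p b
      (fun i => -(a i - 3 * s i * b i))
      (fun i => by have := hs3 i; have := hs i; have := hpi i; linarith)
      (fun i => by linear_combination hab i) hp
      (fun i => by have := hs3 i; have := hs i; linarith)
    obtain ⟨M', _, ⟨m'⟩⟩ := exists_model E'
    obtain ⟨f'⟩ := exists_flow m'
    obtain ⟨h, h1, h2, h3⟩ := m.exists_compare m'
    refine ⟨M', inferInstance, f'.φ, m'.τ, h, m'.cl3, f'.pa fun i => ?_, f'.along,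
      m.surg m' h1 h2 h3 fun i => ?_, f.orbit_equiv f' h1 h3, f'.transFol L⟩
    · rw [(hE' i).1]
      have := hs3 i
      have := hs i
      have := hpi i
      linarith
    · rw [(hE i).1, (hE i).2.1, (hE i).2.2.1, (hE i).2.2.2, (hE' i).1, (hE' i).2.1]
      fin_cases i <;> simp [s] <;> ring

end Pool.Agent.Zig
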