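import Pool.Agent.Lib.MP_d77862_gt.OrDefs
import Pool.Agent.Lib.MP_d77862_gt.Ang

noncomputable section

namespace Pool.Agent.Zig

open Set Filter Topology Complex Real

/-! Calculus of orientation preserving germs. -/

variable {f g σ : ℂ × ℝ → ℂ × ℝ} {x : ℂ × ℝ}

theorem Pos.congr (h : Pos f x) (e : f =ᶠ[𝓝 x] g) : Pos g x := by
  obtain ⟨U, hU, H, hc, hH⟩ := h
  refine ⟨U ∩ {y | f y = g y}, inter_mem hU e, H,
    hc.mono (prod_mono subset_rfl fun y hy => ⟨hy.1.1, hy.2⟩), fun y hy => ?_⟩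
  obtain ⟨h0, h1, h2⟩ := hH y ⟨hy.1.1, hy.2⟩
  exact ⟨h0, by rw [h1, hy.1.2, e.self_of_nhds], h2⟩

theorem Pos.comp (hf : Pos f x) (hc : ∀ᶠ y in 𝓝 x, ContinuousAt f y) (hg : Pos g (f x)) :
    Pos (g ∘ f) x := by
  obtain ⟨U, hU, H, hHc, hH⟩ := hf
  obtain ⟨W, hW, K, hKc, hK⟩ := hg
  have hm : ∀ y ∈ (U ∩ ({y | ContinuousAt f y} ∩ f ⁻¹' W)) \ {x}, f y ∈ W \ {f x} := fun y hy => by
    refine ⟨hy.1.2.2, fun h => ?_⟩
    obtain ⟨-, h1, h2⟩ := hH y ⟨hy.1.1, hy.2⟩
    exact h2 1 ⟨zero_le_one, le_rfl⟩ (by rw [h1, mem_singleton_iff.1 h, sub_self])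
  have hfc : ContinuousOn (fun a : ℝ × (ℂ × ℝ) => f a.2)
      (Icc 0 1 ×ˢ ((U ∩ ({y | ContinuousAt f y} ∩ f ⁻¹' W)) \ {x})) := fun a ha =>
    (ContinuousAt.comp (f := Prod.snd) ha.2.1.2.1 continuousAt_snd).continuousWithinAt
  refine ⟨U ∩ ({y | ContinuousAt f y} ∩ f ⁻¹' W),
    inter_mem hU (inter_mem hc (hc.self_of_nhds hW)),
    fun a => H (min (2 * a.1) 1, a.2) + K (max (2 * a.1 - 1) 0, f a.2) - (f a.2 - f x),
    ((ContinuousOn.add ?_ ?_).sub (hfc.sub continuousOn_const)), fun y hy => ?_⟩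
  · refine hHc.comp (Continuous.continuousOn (by fun_prop)) fun a ha => ⟨⟨?_, min_le_right _ _⟩,
      ha.2.1.1, ha.2.2⟩
    exact le_min (by linarith [ha.1.1]) zero_le_one
  · refine hKc.comp (ContinuousOn.prodMk (Continuous.continuousOn (by fun_prop)) hfc)
      fun a ha => ⟨⟨le_max_right _ _, ?_⟩, hm _ ha.2⟩
    exact max_le (by linarith [ha.1.2]) zero_le_one
  · obtain ⟨h0, h1, h2⟩ := hH y ⟨hy.1.1, hy.2⟩
    obtain ⟨k0, k1, k2⟩ := hK _ (hm y hy)
    refine ⟨?_, ?_, fun s hs => ?_⟩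
    · norm_num [h0, k0]
    · norm_num [h1, k1]
    · rcases le_total s (1 / 2) with h | h
      · have e1 : max (2 * s - 1) 0 = 0 := max_eq_right (by linarith)
        have e2 : min (2 * s) 1 = 2 * s := min_eq_left (by linarith)
        simp only [e1, e2, k0, add_sub_cancel_right]
        exact h2 _ ⟨by linarith [hs.1], by linarith⟩
      · have e1 : max (2 * s - 1) 0 = 2 * s - 1 := max_eq_left (by linarith)
        have e2 : min (2 * s) 1 = 1 := min_eq_right (by linarith)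
        simp only [e1, e2, h1, add_sub_cancel_left]
        exact k2 _ ⟨by linarith, by linarith [hs.2]⟩

/-- A continuous section of an orientation preserving germ is orientation preserving. -/
theorem Pos.sec (hf : Pos f (σ x)) (hc : ∀ᶠ y in 𝓝 x, ContinuousAt σ y)
    (hs : ∀ᶠ y in 𝓝 x, f (σ y) = y) : Pos σ x := by
  obtain ⟨U, hU, H, hHc, hH⟩ := hf
  have hx := hs.self_of_nhds
  have hm : ∀ y ∈ (({y | ContinuousAt σ y} ∩ {y | f (σ y) = y}) ∩ σ ⁻¹' U) \ {x},
      σ y ∈ U \ {σ x} := fun y hy => by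
    refine ⟨hy.1.2, fun h => hy.2 ?_⟩
    have h1 : f (σ y) = y := hy.1.1.2
    rw [mem_singleton_iff, ← h1, mem_singleton_iff.1 h, hx]
  refine ⟨({y | ContinuousAt σ y} ∩ {y | f (σ y) = y}) ∩ σ ⁻¹' U,
    inter_mem (inter_mem hc hs) (hc.self_of_nhds hU), fun a => H (1 - a.1, σ a.2),
    hHc.comp (ContinuousOn.prodMk (Continuous.continuousOn (by fun_prop)) fun a ha =>
      (ContinuousAt.comp (f := Prod.snd) ha.2.1.1.1 continuousAt_snd).continuousWithinAt)
      fun a ha => ⟨⟨by linarith [ha.1.2], by linarith [ha.1.1]⟩, hm _ ha.2⟩, fun y hy => ?_⟩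
  obtain ⟨h0, h1, h2⟩ := hH _ (hm y hy)
  have h3 : f (σ y) = y := hy.1.1.2
  refine ⟨?_, ?_, fun s hs => h2 _ ⟨by linarith [hs.2], by linarith [hs.1]⟩⟩
  · simp only [sub_zero, h1, h3, hx]
  · simp only [sub_self, h0]

/-- The straight line homotopy. -/
theorem pos_of_line (hc : ∀ᶠ y in 𝓝 x, ContinuousAt f y)
    (h : ∀ᶠ y in 𝓝 x, ∀ s ∈ Icc (0 : ℝ) 1,
      (1 - s) * (y.1.re - x.1.re) + s * ((f y).1.re - (f x).1.re) = 0 →
      (1 - s) * (y.1.im - x.1.im) + s * ((f y).1.im - (f x).1.im) = 0 →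
      (1 - s) * (y.2 - x.2) + s * ((f y).2 - (f x).2) = 0 → y = x) : Pos f x := by
  refine ⟨_, inter_mem hc h, fun a => (1 - a.1) • (a.2 - x) + a.1 • (f a.2 - f x),
    ContinuousOn.add (Continuous.continuousOn (by fun_prop))
      (continuousOn_fst.smul (ContinuousOn.sub (fun a ha =>
        (ContinuousAt.comp (f := Prod.snd) ha.2.1.1 continuousAt_snd).continuousWithinAt)
        continuousOn_const)), fun y hy => ⟨by simp, by simp, fun s hs h0 => hy.2 ?_⟩⟩
  have h1 := congrArg (fun a : ℂ × ℝ => a.1.re) h0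
  have h2 := congrArg (fun a : ℂ × ℝ => a.1.im) h0
  have h3 := congrArg (fun a : ℂ × ℝ => a.2) h0
  refine hy.1.2 s hs ?_ ?_ ?_
  · simpa using h1
  · simpa using h2
  · simpa using h3

theorem line_zero {s a b : ℝ} (hs : s ∈ Icc (0 : ℝ) 1) (h : (1 - s) * a + s * b = 0)
    (hab : a ≠ 0 → 0 < a * b) : a = 0 := by
  by_contra ha
  have h1 := hab ha
  have h2 : 0 < a * a := mul_self_pos.2 ha
  have h3 : (1 - s) * (a * a) + s * (a * b) = 0 := by linear_combination a * h
  rcases le_total s (1 / 2) with h4 | h4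
  · nlinarith [mul_nonneg hs.1 h1.le]
  · nlinarith [mul_nonneg (sub_nonneg.2 hs.2) h2.le]

theorem line_mono {s u v a b : ℝ} (hs : s ∈ Icc (0 : ℝ) 1) (h : (1 - s) * (u - v) + s * (a - b) = 0)
    (h1 : u < v → a < b) (h2 : v < u → b < a) : u = v := by
  refine sub_eq_zero.1 (line_zero hs h fun hne => ?_)
  rcases lt_or_gt_of_ne (sub_ne_zero.1 hne) with h3 | h3
  · exact mul_pos_of_neg_of_neg (sub_neg.2 h3) (sub_neg.2 (h1 h3))
  · exact mul_pos (sub_pos.2 h3) (sub_pos.2 (h2 h3))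

/-- Rotations followed by translations. -/
theorem pos_rot (α : ℝ) (c : ℂ) (d : ℝ) (x : ℂ × ℝ) :
    Pos (fun p => (dir α * p.1 + c, p.2 + d)) x := by
  have hd := continuous_dir
  refine ⟨univ, univ_mem, fun a => (dir (a.1 * α) * (a.2.1 - x.1), a.2.2 - x.2),
    Continuous.continuousOn (by fun_prop), fun y hy => ⟨?_, ?_, fun s _ h => hy.2 ?_⟩⟩
  · simp [ang_dir_zero, Prod.ext_iff]
  · simp [mul_sub]
  · obtain ⟨h1, h2⟩ := Prod.ext_iff.1 h
    exact Prod.ext (sub_eq_zero.1 ((mul_eq_zero.1 h1).resolve_left (anga_dir_ne _)))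
      (sub_eq_zero.1 h2)

theorem pos_shift (d : ℝ) (x : ℂ × ℝ) : Pos (fun p => (p.1, p.2 + d)) x := by
  simpa [ang_dir_zero] using pos_rot 0 0 d x

/-- Polar coordinates around `c`: the real part is the radius, the imaginary part the angle. -/
def pol (c : ℂ) (p : ℂ × ℝ) : ℂ × ℝ := (c + p.1.re * dir p.1.im, p.2)

theorem continuous_pol (c : ℂ) : Continuous (pol c) := by
  have hd := continuous_dir
  unfold pol
  fun_prop

theorem pos_pol (c : ℂ) (hx : 0 < x.1.re) : Pos (pol c) x := by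
  have hd := continuous_dir
  have hq : Continuous fun p : ℂ × ℝ => ((p.1.re * dir (p.1.im - x.1.im) : ℂ), p.2) := by fun_prop
  have h1 : Pos (fun p : ℂ × ℝ => ((p.1.re * dir (p.1.im - x.1.im) : ℂ), p.2)) x := by
    refine pos_of_line (Eventually.of_forall fun _ => hq.continuousAt) ?_
    have c1 : ContinuousAt (fun p : ℂ × ℝ => p.1.re) x := by fun_prop
    have c2 : ContinuousAt (fun p : ℂ × ℝ => p.1.im - x.1.im) x := by fun_prop
    have c3 : Ioo (-π) π ∈ 𝓝 (x.1.im - x.1.im) := by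
      rw [sub_self]
      exact Ioo_mem_nhds (neg_lt_zero.2 pi_pos) pi_pos
    filter_upwards [c1.eventually (Ioi_mem_nhds hx), c2.eventually c3] with y hy hφ s hs e1 e2 e3
    have hy : 0 < y.1.re := hy
    simp only [Complex.re_ofReal_mul, Complex.im_ofReal_mul, dir_re, dir_im, sub_self,
      Real.cos_zero, Real.sin_zero, mul_zero, mul_one, sub_zero] at e1 e2 e3
    have k2 : y.1.im - x.1.im = 0 := line_zero hs e2 fun hne => by
      rcases lt_or_gt_of_ne hne with h | h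
      · exact mul_pos_of_neg_of_neg h
          (mul_neg_of_pos_of_neg hy (Real.sin_neg_of_neg_of_neg_pi_lt h hφ.1))
      · exact mul_pos h (mul_pos hy (Real.sin_pos_of_pos_of_lt_pi h hφ.2))
    rw [k2, Real.cos_zero] at e1
    exact Prod.ext (Complex.ext (by linarith) (by linarith)) (by linarith)
  refine (h1.comp (Eventually.of_forall fun _ => hq.continuousAt)
    (pos_rot x.1.im c 0 _)).congr (Eventually.of_forall fun p => ?_)
  simp only [Function.comp, pol, add_zero]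
  rw [mul_left_comm, ← dir_add, add_sub_cancel, add_comm]

/-- Orientation can be tested in polar coordinates. -/
theorem pos_of_pol (c : ℂ) (hx : 0 < x.1.re) (h : Pos (g ∘ pol c) x) : Pos g (pol c x) := by
  have hd := continuous_dir
  let σ : ℂ × ℝ → ℂ × ℝ := fun w =>
    ((‖w.1 - c‖ : ℝ) + (x.1.im + arg ((w.1 - c) * dir (-x.1.im)) : ℝ) * I, w.2)
  have hu : ((pol c x).1 - c) * dir (-x.1.im) = x.1.re := by
    simp only [pol, add_sub_cancel_left]
    rw [mul_assoc, ← dir_add, add_neg_cancel, ang_dir_zero, mul_one]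
  have h0 : σ (pol c x) = x := by
    simp only [σ, hu, Complex.arg_ofReal_of_nonneg hx.le, add_zero]
    simp only [pol, add_sub_cancel_left, anga_norm _ _ hx, Complex.re_add_im]
  have h1 : ∀ w, pol c (σ w) = w := fun w => by
    have e := norm_mul_dir_arg ((w.1 - c) * dir (-x.1.im))
    rw [norm_mul, norm_dir, mul_one] at e
    refine Prod.ext ?_ rfl
    simp only [pol, σ, Complex.add_re, Complex.ofReal_re, Complex.mul_re, Complex.I_re, mul_zero,
      Complex.ofReal_im, Complex.I_im, mul_one, sub_self, add_zero, Complex.add_im, Complex.mul_im,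
      zero_add]
    rw [dir_add, mul_left_comm, e, mul_left_comm, ← dir_add, add_neg_cancel, ang_dir_zero]
    ring
  have h2 : ∀ᶠ w in 𝓝 (pol c x), ContinuousAt σ w := by
    have c1 : Continuous fun w : ℂ × ℝ => (w.1 - c) * dir (-x.1.im) := by fun_prop
    have c2 : slitPlane ∈ 𝓝 (((pol c x).1 - c) * dir (-x.1.im)) := by
      rw [hu]
      exact isOpen_slitPlane.mem_nhds (Complex.ofReal_mem_slitPlane.2 hx)
    filter_upwards [c1.continuousAt.eventually c2] with w hw
    have c3 : ContinuousAt (fun w : ℂ × ℝ => arg ((w.1 - c) * dir (-x.1.im))) w :=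
      ContinuousAt.comp (f := fun w : ℂ × ℝ => (w.1 - c) * dir (-x.1.im))
        (Complex.continuousAt_arg hw) c1.continuousAt
    simp only [σ]
    fun_prop
  have h3 : Pos σ (pol c x) :=
    Pos.sec (f := pol c) (by rw [h0]; exact pos_pol c hx) h2 (Eventually.of_forall h1)
  refine (h3.comp h2 (by rw [h0]; exact h)).congr (Eventually.of_forall fun w => ?_)
  simp only [Function.comp, h1]

end Pool.Agent.Zig
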