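import Pool.Agent.Lib.MP_d77862_gt.Or1
import Pool.Agent.Lib.MP_d77862_gt.ModelL

noncomputable section

namespace Pool.Agent.Zig

open Set Filter Topology Complex Real

/-! The deck maps and the tube coordinates preserve the orientation. -/

theorem pos_act (n : ℤ) (u : ℤˣ) (c : ℤ × ℤ) (x : ℂ × ℝ) : Pos (act n u c) x := by
  have hD := grpa_cont_DD n
  have hc : Continuous fun p : ℂ × ℝ => (DD n p.1, p.2) := by fun_prop
  have h1 : Pos (fun p : ℂ × ℝ => (DD n p.1, p.2)) x := by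
    refine pos_of_line (Eventually.of_forall fun _ => hc.continuousAt)
      (Eventually.of_forall fun y s hs e1 e2 e3 => ?_)
    simp only [DD, lat_Dg_re, lat_Dg_im] at e1 e2 e3
    refine Prod.ext (Complex.ext ?_ ?_) (by linarith)
    · exact line_mono hs e1 (fun h => mul_lt_mul_of_pos_left h (Real.exp_pos _))
        fun h => mul_lt_mul_of_pos_left h (Real.exp_pos _)
    · exact line_mono hs e2 (fun h => mul_lt_mul_of_pos_left h (Real.exp_pos _))
        fun h => mul_lt_mul_of_pos_left h (Real.exp_pos _)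
  obtain ⟨α, hα⟩ : ∃ α : ℝ, dir α = ((u : ℤ) : ℂ) := by
    rcases Int.units_eq_one_or u with rfl | rfl
    · exact ⟨0, by simp [ang_dir_zero]⟩
    · exact ⟨0 + π, by rw [dir_add_pi]; simp [ang_dir_zero]⟩
  refine (h1.comp (Eventually.of_forall fun _ => hc.continuousAt)
    (pos_rot α (cor c) (-n) _)).congr (Eventually.of_forall fun p => ?_)
  simp only [Function.comp, act, hα, sub_eq_add_neg]

namespace End

variable (E : End)

/-- The angle `κ` as a function of `θ` and of the core coordinate. -/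
def kb (θ b : ℝ) : ℝ := ang (LL * (b - E.sig * (⌊θ / π⌋ : ℤ))) θ

theorem kb_lt (b : ℝ) {θ θ' : ℝ} (h : θ < θ') : E.kb θ b < E.kb θ' b := by
  have hle : ⌊θ / π⌋ ≤ ⌊θ' / π⌋ := Int.floor_mono (div_le_div_of_nonneg_right h.le pi_pos.le)
  rcases hle.eq_or_lt with he | hl
  · rw [kb, kb, he]
    exact strictMono_ang _ h
  · by_contra hn
    have h2 : ⌊E.kb θ' b / π⌋ ≤ ⌊E.kb θ b / π⌋ :=
      Int.floor_mono (div_le_div_of_nonneg_right (not_lt.1 hn) pi_pos.le)
    rw [kb, kb, floor_ang, floor_ang] at h2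
    omega

theorem continuous_kb : Continuous fun a : ℝ × ℝ => E.kb a.1 a.2 := by
  have h := (continuous_ang_floor (-(LL * E.sig)) 0).comp
    (f := fun a : ℝ × ℝ => (LL * a.2, a.1)) (by fun_prop)
  refine h.congr fun a => ?_
  simp only [Function.comp, kb]
  congr 1
  ring

/-- First triangular map. -/
def tr1 (p : ℂ × ℝ) : ℂ × ℝ :=
  ((rad (p.1.re * nrm (LL * p.2) p.1.im) : ℝ) + (p.1.im : ℝ) * I, E.B p.1.im p.2)

/-- Second triangular map. -/
def tr2 (p : ℂ × ℝ) : ℂ × ℝ :=
  ((p.1.re : ℝ) + (2 * π * (E.kb p.1.im p.2 / (π * E.P) + E.v * p.2 / 2) : ℝ) * I,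
    2 * π * (E.P * p.2 / 2))

theorem continuous_tr2 : Continuous E.tr2 := by
  have h : Continuous fun p : ℂ × ℝ => E.kb p.1.im p.2 :=
    E.continuous_kb.comp (f := fun p : ℂ × ℝ => (p.1.im, p.2)) (by fun_prop)
  unfold tr2
  fun_prop

theorem pos_tr2 (x : ℂ × ℝ) : Pos E.tr2 x := by
  have hP : (0 : ℝ) < E.P := by exact_mod_cast E.hP
  refine pos_of_line (Eventually.of_forall fun _ => E.continuous_tr2.continuousAt)
    (Eventually.of_forall fun y s hs e1 e2 e3 => ?_)
  simp only [tr2, Complex.add_re, Complex.ofReal_re, Complex.mul_re, Complex.I_re, mul_zero,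
    Complex.ofReal_im, Complex.I_im, mul_one, sub_self, add_zero, Complex.add_im, Complex.mul_im,
    zero_add] at e1 e2 e3
  have m3 : ∀ {a b : ℝ}, a < b → 2 * π * (E.P * a / 2) < 2 * π * (E.P * b / 2) := fun h => by
    gcongr
  have k3 : y.2 = x.2 := line_mono hs e3 m3 m3
  rw [k3] at e2
  have m2 : ∀ {a b : ℝ}, a < b → 2 * π * (E.kb a x.2 / (π * E.P) + E.v * x.2 / 2) <
      2 * π * (E.kb b x.2 / (π * E.P) + E.v * x.2 / 2) := fun h => by
    have := E.kb_lt x.2 h
    gcongr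
  exact Prod.ext (Complex.ext (by linarith) (line_mono hs e2 m2 m2)) k3

theorem or_small {x : ℂ × ℝ} (h0 : 0 < x.1.re) (h1 : x.1.re * nrm (LL * x.2) x.1.im < eps) :
    ∀ᶠ y : ℂ × ℝ in 𝓝 x, 0 < y.1.re ∧ y.1.re * nrm (LL * y.2) y.1.im < eps := by
  have hn : Continuous fun p : ℂ × ℝ => nrm (LL * p.2) p.1.im :=
    continuous_nrm.comp (f := fun p : ℂ × ℝ => (LL * p.2, p.1.im)) (by fun_prop)
  have c1 : Continuous fun p : ℂ × ℝ => p.1.re := by fun_prop
  filter_upwards [(isOpen_lt continuous_const c1).mem_nhds h0,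
    (isOpen_lt (c1.mul hn) continuous_const).mem_nhds h1] with y a b using ⟨a, b⟩

theorem continuousAt_tr1 {x : ℂ × ℝ} (h1 : x.1.re * nrm (LL * x.2) x.1.im < eps) :
    ContinuousAt E.tr1 x := by
  have hn : Continuous fun p : ℂ × ℝ => nrm (LL * p.2) p.1.im :=
    continuous_nrm.comp (f := fun p : ℂ × ℝ => (LL * p.2, p.1.im)) (by fun_prop)
  have hB : Continuous fun p : ℂ × ℝ => E.B p.1.im p.2 :=
    E.cont.comp (f := fun p : ℂ × ℝ => (p.1.im, p.2)) (by fun_prop)
  have hr : ContinuousAt (fun p : ℂ × ℝ => rad (p.1.re * nrm (LL * p.2) p.1.im)) x := by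
    unfold rad
    exact ContinuousAt.div (by fun_prop) (by fun_prop) (sub_pos.2 h1).ne'
  have hi : Continuous fun p : ℂ × ℝ => ((p.1.im : ℝ) : ℂ) * I := by fun_prop
  exact ((Complex.continuous_ofReal.continuousAt.comp hr).add hi.continuousAt).prodMk
    hB.continuousAt

theorem pos_tr1 {x : ℂ × ℝ} (h0 : 0 < x.1.re) (h1 : x.1.re * nrm (LL * x.2) x.1.im < eps) :
    Pos E.tr1 x := by
  refine pos_of_line ((or_small h0 h1).mono fun y hy => E.continuousAt_tr1 hy.2)
    ((or_small h0 h1).mono fun y hy s hs e1 e2 e3 => ?_)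
  simp only [tr1, Complex.add_re, Complex.ofReal_re, Complex.mul_re, Complex.I_re, mul_zero,
    Complex.ofReal_im, Complex.I_im, mul_one, sub_self, add_zero, Complex.add_im, Complex.mul_im,
    zero_add] at e1 e2 e3
  have k2 : y.1.im = x.1.im := by linarith
  rw [k2] at e3
  have k3 : y.2 = x.2 := line_mono hs e3 (fun h => E.mono _ h) fun h => E.mono _ h
  have hy2 := hy.2
  rw [k2, k3] at e1 hy2
  have hn := nrm_pos (LL * x.2) x.1.im
  exact Prod.ext (Complex.ext (line_mono hs e1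
    (fun h => rad_strictMonoOn hy2 h1 (mul_lt_mul_of_pos_right h hn))
    fun h => rad_strictMonoOn h1 hy2 (mul_lt_mul_of_pos_right h hn)) k2) k3

/-- Tube coordinates as a function of polar coordinates at the corner. -/
def tube (p : ℂ × ℝ) : ℂ × ℝ := pol 0 (E.tr2 (E.tr1 p))

theorem tube_eq (p : ℂ × ℝ) : E.tube p =
    ((rad (p.1.re * nrm (LL * p.2) p.1.im) : ℂ) * dir (2 * π * E.aa p.1.im p.2),
      2 * π * E.bb p.1.im p.2) := by
  simp only [tube, pol, tr2, tr1, Complex.add_re, Complex.ofReal_re, Complex.mul_re, Complex.I_re,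
    mul_zero, Complex.ofReal_im, Complex.I_im, mul_one, sub_self, add_zero, Complex.add_im,
    Complex.mul_im, zero_add]
  rfl

theorem continuousAt_tube {x : ℂ × ℝ} (h1 : x.1.re * nrm (LL * x.2) x.1.im < eps) :
    ContinuousAt E.tube x :=
  ((continuous_pol 0).comp E.continuous_tr2).continuousAt.comp (E.continuousAt_tr1 h1)

theorem pos_tube {x : ℂ × ℝ} (h0 : 0 < x.1.re) (h1 : x.1.re * nrm (LL * x.2) x.1.im < eps) :
    Pos E.tube x := by
  have h2 : 0 < (E.tr2 (E.tr1 x)).1.re := by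
    simp only [tr2, tr1, Complex.add_re, Complex.ofReal_re, Complex.mul_re, Complex.I_re,
      mul_zero, Complex.ofReal_im, Complex.I_im, mul_one, sub_self, add_zero]
    exact rad_pos (mul_pos h0 (nrm_pos _ _)) h1
  exact (E.pos_tr1 h0 h1).comp ((or_small h0 h1).mono fun y hy => E.continuousAt_tr1 hy.2)
    ((E.pos_tr2 _).comp (Eventually.of_forall fun _ => E.continuous_tr2.continuousAt)
      (pos_pol 0 h2))

end End

end Pool.Agent.Zig
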