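import Mathlib

/-!
Orientability of a topological 3-manifold: an atlas whose transition maps have local degree `+1`.
-/

namespace Pool.Agent.Zig

open Set Topology

/-- `f` has local degree `+1` at `x` (orientation preserving): on a punctured neighbourhood of `x`
the map `y ↦ f y - f x` is homotopic to `y ↦ y - x` through maps into `ℝ³ ∖ 0`. Restricting to a
small sphere around `x` shows that the local degree is `+1`. -/
def Pos (f : ℂ × ℝ → ℂ × ℝ) (x : ℂ × ℝ) : Prop :=
  ∃ U ∈ 𝓝 x, ∃ H : ℝ × (ℂ × ℝ) → ℂ × ℝ, ContinuousOn H (Icc 0 1 ×ˢ (U \ {x})) ∧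
    ∀ y ∈ U \ {x}, H (0, y) = y - x ∧ H (1, y) = f y - f x ∧ ∀ s ∈ Icc (0 : ℝ) 1, H (s, y) ≠ 0

/-- `M` is orientable: it has an atlas of charts to `ℂ × ℝ = ℝ³` all of whose transition maps are
orientation preserving at every point. -/
def Orient (M : Type) [TopologicalSpace M] : Prop :=
  ∃ A : Set (OpenPartialHomeomorph M (ℂ × ℝ)), (∀ x, ∃ e ∈ A, x ∈ e.source) ∧
    ∀ e ∈ A, ∀ e' ∈ A, ∀ x ∈ e.source ∩ e'.source, Pos (e' ∘ e.symm) (e x)

end Pool.Agent.Zig
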