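import Pool.Agent.Lib.MP_d77862_gt.Base

noncomputable section

namespace Pool.Agent.Zig

open Set Filter Topology Complex Real

/-! The pillowcase `ℝ² / (2 ℤ², ±)` as the round sphere: definitions. -/

/-- The round sphere. -/
abbrev S2 : Type := Metric.sphere (0 : EuclideanSpace ℝ (Fin 3)) 1

/-- The pillowcase relation. -/
def R0 (a b : ℝ × ℝ) : Prop :=
  ∃ (e : ℤˣ) (m n : ℤ), b = (((e : ℤ) : ℝ) * a.1 + 2 * m, ((e : ℤ) : ℝ) * a.2 + 2 * n)

/-- Maps that identify the pillowcase with the sphere. -/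
def IsQ (J : ℝ × ℝ → S2) : Prop := Function.Surjective J ∧ ∀ a b, J a = J b ↔ R0 a b

/-- Projection to `[-1, 1]`. -/
def cp (s : ℝ) : ℝ := max (-1) (min 1 s)

/-- A star-shaped embedding of the pillowcase. -/
def vec (a : ℝ × ℝ) : EuclideanSpace ℝ (Fin 3) :=
  !₂[Real.cos (π * a.1), cp (2 * Real.sin (π * a.2)) * Real.sin (π * a.1), Real.cos (π * a.2)]

theorem continuous_cp : Continuous cp := by
  unfold cp
  fun_prop
theorem cp_neg (s : ℝ) : cp (-s) = -cp s := by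
  unfold cp
  simp only [max_def, min_def]
  split_ifs <;> linarith
theorem cp_of_one_le {s : ℝ} (h : 1 ≤ s) : cp s = 1 := by
  unfold cp
  rw [min_eq_left h, max_eq_right (by norm_num)]
theorem cp_of_le_neg_one {s : ℝ} (h : s ≤ -1) : cp s = -1 := by
  unfold cp
  rw [min_eq_right (by linarith), max_eq_left h]
theorem cp_of_abs_le {s : ℝ} (h : |s| ≤ 1) : cp s = s := by
  unfold cp
  rw [min_eq_right (abs_le.1 h).2, max_eq_right (abs_le.1 h).1]
theorem abs_cp (s : ℝ) : |cp s| = min 1 |s| := by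
  rcases le_total 1 s with h | h
  · rw [cp_of_one_le h, abs_one, min_eq_left (h.trans (le_abs_self s))]
  · rcases le_total s (-1) with h' | h'
    · rw [cp_of_le_neg_one h', abs_neg, abs_one, min_eq_left]
      rw [abs_of_nonpos (by linarith)]
      linarith
    · have h1 : |s| ≤ 1 := abs_le.2 ⟨h', h⟩
      rw [cp_of_abs_le h1, min_eq_right h1]
theorem vec_ne_zero (a : ℝ × ℝ) : vec a ≠ 0 := by
  intro h
  have h0 : Real.cos (π * a.1) = 0 := by simpa [vec] using congrArg (fun v => v 0) h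
  have h1 : cp (2 * Real.sin (π * a.2)) * Real.sin (π * a.1) = 0 := by
    have := congrArg (fun v : EuclideanSpace ℝ (Fin 3) => v 1) h
    simpa only [vec, PiLp.toLp_apply, Matrix.cons_val_one, Matrix.cons_val_zero,
      PiLp.zero_apply] using this
  have h2 : Real.cos (π * a.2) = 0 := by simpa [vec] using congrArg (fun v => v 2) h
  have s1 := Real.sin_sq_add_cos_sq (π * a.1)
  have s2 := Real.sin_sq_add_cos_sq (π * a.2)
  rw [h0] at s1
  rw [h2] at s2
  rcases mul_eq_zero.1 h1 with h3 | h3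
  · have h4 := abs_cp (2 * Real.sin (π * a.2))
    have h5 : |Real.sin (π * a.2)| = 1 := by
      rw [← sq_eq_sq₀ (abs_nonneg _) zero_le_one, sq_abs]
      linarith
    rw [h3, abs_mul, h5] at h4
    norm_num at h4
  · rw [h3] at s1
    norm_num at s1
theorem continuous_vec : Continuous vec := by
  have hc := continuous_cp
  unfold vec
  refine (PiLp.continuous_toLp 2 _).comp (continuous_pi fun i => ?_)
  fin_cases i
  · simp only [Fin.zero_eta, Matrix.cons_val_zero]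
    fun_prop
  · simp only [Fin.mk_one, Matrix.cons_val_one, Matrix.cons_val_zero]
    fun_prop
  · simp only [Fin.reduceFinMk, Matrix.cons_val]
    fun_prop

/-- The radial projection of `vec`. -/
def Phi (a : ℝ × ℝ) : S2 :=
  ⟨‖vec a‖⁻¹ • vec a, by
    rw [mem_sphere_zero_iff_norm, norm_smul, norm_inv, norm_norm,
      inv_mul_cancel₀ (norm_ne_zero_iff.mpr (vec_ne_zero a))]⟩

theorem continuous_Phi : Continuous Phi := by
  unfold Phi
  refine Continuous.subtype_mk ?_ _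
  exact (continuous_vec.norm.inv₀ fun a => norm_ne_zero_iff.mpr (vec_ne_zero a)).smul
    continuous_vec
theorem Phi_eq_iff (a b : ℝ × ℝ) : Phi a = Phi b ↔ ∃ l : ℝ, 0 < l ∧ vec a = l • vec b := by
  have ha : 0 < ‖vec a‖ := norm_pos_iff.mpr (vec_ne_zero a)
  have hb : 0 < ‖vec b‖ := norm_pos_iff.mpr (vec_ne_zero b)
  constructor
  · intro h
    have h1 : ‖vec a‖⁻¹ • vec a = ‖vec b‖⁻¹ • vec b := congrArg Subtype.val h
    refine ⟨‖vec a‖ * ‖vec b‖⁻¹, by positivity, ?_⟩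
    rw [mul_smul, ← h1, smul_smul, mul_inv_cancel₀ ha.ne', one_smul]
  · rintro ⟨l, hl, h⟩
    apply Subtype.ext
    show ‖vec a‖⁻¹ • vec a = ‖vec b‖⁻¹ • vec b
    rw [h, norm_smul, Real.norm_eq_abs, abs_of_pos hl, smul_smul]
    congr 1
    field_simp
theorem Phi_eq_of_smul {a : ℝ × ℝ} {v : S2} {l : ℝ} (hl : 0 < l)
    (h : vec a = l • (v : EuclideanSpace ℝ (Fin 3))) : Phi a = v := by
  apply Subtype.ext
  show ‖vec a‖⁻¹ • vec a = (v : EuclideanSpace ℝ (Fin 3))
  have hv : ‖(v : EuclideanSpace ℝ (Fin 3))‖ = 1 := mem_sphere_zero_iff_norm.1 v.2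
  rw [h, norm_smul, Real.norm_eq_abs, abs_of_pos hl, hv, mul_one, smul_smul,
    inv_mul_cancel₀ hl.ne', one_smul]
theorem r0_refl (a : ℝ × ℝ) : R0 a a := ⟨1, 0, 0, by simp⟩
theorem r0_symm {a b : ℝ × ℝ} (h : R0 a b) : R0 b a := by
  obtain ⟨e, m, n, rfl⟩ := h
  rcases Int.units_eq_one_or e with rfl | rfl
  · exact ⟨1, -m, -n, by ext <;> simp⟩
  · exact ⟨-1, m, n, by ext <;> simp⟩
theorem r0_trans {a b c : ℝ × ℝ} (h : R0 a b) (h' : R0 b c) : R0 a c := by
  obtain ⟨e, m, n, rfl⟩ := h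
  obtain ⟨e', m', n', rfl⟩ := h'
  refine ⟨e' * e, e' * m + m', e' * n + n', ?_⟩
  ext <;> simp only [Units.val_mul] <;> push_cast <;> ring
theorem pil0_cos (x : ℝ) (m : ℤ) : Real.cos (π * (x + 2 * m)) = Real.cos (π * x) := by
  rw [show π * (x + 2 * m) = π * x + m * (2 * π) by ring, Real.cos_add_int_mul_two_pi]
theorem pil0_sin (x : ℝ) (m : ℤ) : Real.sin (π * (x + 2 * m)) = Real.sin (π * x) := by
  rw [show π * (x + 2 * m) = π * x + m * (2 * π) by ring, Real.sin_add_int_mul_two_pi]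
theorem vec_eq_of_r0 {a b : ℝ × ℝ} (h : R0 a b) : vec a = vec b := by
  obtain ⟨e, m, n, rfl⟩ := h
  unfold vec
  simp only [pil0_cos, pil0_sin]
  rcases Int.units_eq_one_or e with rfl | rfl
  · simp
  · simp [cp_neg]
/-- A fundamental domain. -/
theorem exists_r0_mem (a : ℝ × ℝ) : ∃ b, R0 a b ∧ b.1 ∈ Icc (0 : ℝ) 2 ∧ b.2 ∈ Icc (0 : ℝ) 1 := by
  have key : ∀ x : ℝ, 0 ≤ x + 2 * ((-⌊x / 2⌋ : ℤ) : ℝ) ∧ x + 2 * ((-⌊x / 2⌋ : ℤ) : ℝ) < 2 := by
    intro x
    have h1 := Int.floor_le (x / 2)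
    have h2 := Int.lt_floor_add_one (x / 2)
    push_cast
    constructor <;> linarith
  rcases le_total (a.2 + 2 * ((-⌊a.2 / 2⌋ : ℤ) : ℝ)) 1 with h | h
  · refine ⟨_, ⟨1, -⌊a.1 / 2⌋, -⌊a.2 / 2⌋, rfl⟩, ?_, ?_⟩
    · have := key a.1
      simp only [Units.val_one, Int.cast_one, one_mul]
      exact ⟨this.1, this.2.le⟩
    · simp only [Units.val_one, Int.cast_one, one_mul]
      exact ⟨(key a.2).1, h⟩
  · refine ⟨_, ⟨-1, -⌊-a.1 / 2⌋, ⌊a.2 / 2⌋ + 1, rfl⟩, ?_, ?_⟩
    · have := key (-a.1)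
      simp only [Units.val_neg, Units.val_one, Int.cast_neg, Int.cast_one, neg_mul, one_mul]
      push_cast at this
      exact ⟨this.1, this.2.le⟩
    · have := key a.2
      simp only [Units.val_neg, Units.val_one, Int.cast_neg, Int.cast_one, neg_mul, one_mul]
      push_cast at this h ⊢
      constructor <;> linarith [this.1, this.2]
/-- Precomposition with a bijection that respects the relation. -/
theorem IsQ.comp {J : ℝ × ℝ → S2} (h : IsQ J) {T : ℝ × ℝ → ℝ × ℝ} (hs : Function.Surjective T)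
    (hT : ∀ a b, R0 (T a) (T b) ↔ R0 a b) : IsQ (J ∘ T) :=
  ⟨h.1.comp hs, fun a b => (h.2 (T a) (T b)).trans (hT a b)⟩
theorem IsQ.postcomp {J : ℝ × ℝ → S2} (h : IsQ J) {k : S2 → S2} (hk : Function.Bijective k) :
    IsQ (k ∘ J) :=
  ⟨hk.2.comp h.1, fun a b => hk.1.eq_iff.trans (h.2 a b)⟩
/-- Two continuous identifications differ by a continuous bijection of the sphere. -/
theorem IsQ.exists_factor {J J' : ℝ × ℝ → S2} (h : IsQ J) (h' : IsQ J') (hc : Continuous J)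
    (hc' : Continuous J') :
    ∃ k : S2 → S2, Continuous k ∧ Function.Bijective k ∧ ∀ a, k (J a) = J' a := by
  have hk : ∀ a, J' (Function.surjInv h.1 (J a)) = J' a := fun a =>
    (h'.2 _ _).2 ((h.2 _ _).1 (Function.surjInv_eq h.1 (J a)))
  refine ⟨fun v => J' (Function.surjInv h.1 v), ?_, ⟨?_, ?_⟩, hk⟩
  · rw [continuous_iff_isClosed]
    intro C hC
    have hK : IsCompact ((Icc (0 : ℝ) 2 ×ˢ Icc (0 : ℝ) 1) ∩ J' ⁻¹' C) :=
      (isCompact_Icc.prod isCompact_Icc).inter_right (hC.preimage hc')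
    have he : (fun v => J' (Function.surjInv h.1 v)) ⁻¹' C =
        J '' ((Icc (0 : ℝ) 2 ×ˢ Icc (0 : ℝ) 1) ∩ J' ⁻¹' C) := by
      ext v
      constructor
      · intro hv
        obtain ⟨b, hb, hb1, hb2⟩ := exists_r0_mem (Function.surjInv h.1 v)
        refine ⟨b, ⟨⟨hb1, hb2⟩, ?_⟩, ?_⟩
        · show J' b ∈ C
          rw [← (h'.2 _ _).2 hb]
          exact hv
        · rw [← (h.2 _ _).2 hb, Function.surjInv_eq h.1]
      · rintro ⟨b, ⟨-, hb⟩, rfl⟩
        show J' (Function.surjInv h.1 (J b)) ∈ C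
        rw [hk]
        exact hb
    rw [he]
    exact (hK.image hc).isClosed
  · intro v w hvw
    have h1 := (h.2 _ _).2 ((h'.2 _ _).1 hvw)
    rwa [Function.surjInv_eq h.1, Function.surjInv_eq h.1] at h1
  · intro v
    obtain ⟨a, rfl⟩ := h'.1 v
    exact ⟨J a, hk a⟩

end Pool.Agent.Zig
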