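import Pool.Agent.Lib.MP_d77862_gt.Pil0

noncomputable section

namespace Pool.Agent.Zig

open Set Filter Topology Complex Real

/-! The radial projection identifies the pillowcase with the sphere. -/

theorem pil1_coords {a b : ℝ × ℝ} {l : ℝ} (h : vec a = l • vec b) :
    Real.cos (π * a.1) = l * Real.cos (π * b.1) ∧
    cp (2 * Real.sin (π * a.2)) * Real.sin (π * a.1) =
      l * (cp (2 * Real.sin (π * b.2)) * Real.sin (π * b.1)) ∧
    Real.cos (π * a.2) = l * Real.cos (π * b.2) := by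
  have h0 := congrArg (fun v : EuclideanSpace ℝ (Fin 3) => v 0) h
  have h1 := congrArg (fun v : EuclideanSpace ℝ (Fin 3) => v 1) h
  have h2 := congrArg (fun v : EuclideanSpace ℝ (Fin 3) => v 2) h
  simp [vec] at h0 h1 h2
  exact ⟨h0, h1, h2⟩

theorem pil1_not_lt {a b : ℝ × ℝ} {l : ℝ} (hl : 0 < l) (h : vec a = l • vec b) : ¬ l < 1 := by
  intro h1
  obtain ⟨e0, e1, e2⟩ := pil1_coords h
  set c := Real.cos (π * a.2)
  set c' := Real.cos (π * b.2)
  set s := Real.sin (π * a.2)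
  set s' := Real.sin (π * b.2)
  have q : s ^ 2 + c ^ 2 = 1 := Real.sin_sq_add_cos_sq _
  have q' : s' ^ 2 + c' ^ 2 = 1 := Real.sin_sq_add_cos_sq _
  have l2 : l ^ 2 < 1 := by nlinarith
  have hc : c ^ 2 = l ^ 2 * c' ^ 2 := by rw [e2]; ring
  have hs : s' ^ 2 ≤ s ^ 2 := by nlinarith [sq_nonneg c']
  have hs' : |2 * s'| ≤ |2 * s| := by
    rw [← sq_le_sq]; nlinarith
  set k := cp (2 * s) with hk
  set k' := cp (2 * s') with hk'
  have hkk : k' ^ 2 ≤ k ^ 2 := by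
    rw [sq_le_sq, hk, hk', abs_cp, abs_cp]
    exact min_le_min le_rfl hs'
  set x := Real.cos (π * a.1)
  set x' := Real.cos (π * b.1)
  set y := Real.sin (π * a.1)
  set y' := Real.sin (π * b.1)
  have r : y ^ 2 + x ^ 2 = 1 := Real.sin_sq_add_cos_sq _
  have r' : y' ^ 2 + x' ^ 2 = 1 := Real.sin_sq_add_cos_sq _
  have k1 : k ^ 2 = l ^ 2 * (k ^ 2 * x' ^ 2 + k' ^ 2 * y' ^ 2) := by
    have : k ^ 2 = k ^ 2 * x ^ 2 + (k * y) ^ 2 := by linear_combination (-k ^ 2) * r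
    rw [this, e1, e0]
    have : k ^ 2 * (l * x') ^ 2 + (l * (k' * y')) ^ 2 = k ^ 2 := by
      rw [← e1, ← e0]; linear_combination k ^ 2 * r
    rw [this]
    linear_combination -this
  have k2 : k ^ 2 * x' ^ 2 + k' ^ 2 * y' ^ 2 ≤ k ^ 2 := by
    nlinarith [mul_le_mul_of_nonneg_right hkk (sq_nonneg y')]
  have k3 : k ^ 2 ≤ l ^ 2 * k ^ 2 := by
    calc k ^ 2 = l ^ 2 * (k ^ 2 * x' ^ 2 + k' ^ 2 * y' ^ 2) := k1
      _ ≤ l ^ 2 * k ^ 2 := mul_le_mul_of_nonneg_left k2 (sq_nonneg l)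
  have k0 : k = 0 := by
    have : k ^ 2 ≤ 0 := by nlinarith [sq_nonneg k]
    exact pow_eq_zero_iff (two_ne_zero) |>.mp (le_antisymm this (sq_nonneg k))
  have s0 : s = 0 := by
    have h3 : min 1 |2 * s| = 0 := by rw [← abs_cp, ← hk, k0, abs_zero]
    have h4 : |2 * s| = 0 := by
      rcases min_choice 1 |2 * s| with h5 | h5
      · rw [h5] at h3; norm_num at h3
      · rw [← h5, h3]
    have := abs_eq_zero.mp h4
    linarith
  rw [s0] at q
  nlinarith [sq_nonneg s', sq_nonneg c', sq_nonneg l]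

theorem eq_one_of_vec {a b : ℝ × ℝ} {l : ℝ} (hl : 0 < l) (h : vec a = l • vec b) : l = 1 := by
  have h1 := pil1_not_lt hl h
  have h2 : vec b = l⁻¹ • vec a := by
    rw [h, smul_smul, inv_mul_cancel₀ hl.ne', one_smul]
  have h3 := pil1_not_lt (inv_pos.mpr hl) h2
  rw [not_lt] at h1 h3
  exact le_antisymm ((one_le_inv₀ hl).mp h3) h1

theorem pil1_cos {x y : ℝ} (h : Real.cos (π * x) = Real.cos (π * y)) :
    ∃ n : ℤ, y = x + 2 * n ∨ y = -x + 2 * n := by
  obtain ⟨n, hn⟩ := Real.cos_eq_cos_iff.mp h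
  have hpi := Real.pi_pos
  refine ⟨n, ?_⟩
  rcases hn with hn | hn
  · left
    apply mul_left_cancel₀ hpi.ne'
    rw [hn]; ring
  · right
    apply mul_left_cancel₀ hpi.ne'
    rw [hn]; ring

theorem pil1_sin_add (x : ℝ) (n : ℤ) : Real.sin (π * (x + 2 * n)) = Real.sin (π * x) := by
  rw [← Real.sin_add_int_mul_two_pi (π * x) n]
  congr 1; ring

theorem pil1_r0 {a b : ℝ × ℝ} (h : vec a = vec b) {n : ℤ} (hn : b.2 = a.2 + 2 * n) :
    R0 a b := by
  obtain ⟨e0, e1, -⟩ := pil1_coords (l := 1) (h.trans (one_smul ℝ _).symm)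
  rw [one_mul] at e0 e1
  rw [hn, pil1_sin_add] at e1
  obtain ⟨m, hm | hm⟩ := pil1_cos e0
  · exact ⟨1, m, n, Prod.ext (by simp [hm]) (by simp [hn])⟩
  · rw [hm, pil1_sin_add, mul_neg, Real.sin_neg] at e1
    have e2 : cp (2 * Real.sin (π * a.2)) * Real.sin (π * a.1) = 0 := by linarith
    have hpi := Real.pi_pos
    rcases mul_eq_zero.mp e2 with h0 | h0
    · have h3 : min 1 |2 * Real.sin (π * a.2)| = 0 := by rw [← abs_cp, h0, abs_zero]
      have h4 : |2 * Real.sin (π * a.2)| = 0 := by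
        rcases min_choice 1 |2 * Real.sin (π * a.2)| with h5 | h5
        · rw [h5] at h3; norm_num at h3
        · rw [← h5, h3]
      have h5 : Real.sin (π * a.2) = 0 := by
        have := abs_eq_zero.mp h4
        linarith
      obtain ⟨j, hj⟩ := Real.sin_eq_zero_iff.mp h5
      have hj' : a.2 = j := by
        apply mul_left_cancel₀ hpi.ne'
        rw [← hj]; ring
      refine ⟨-1, m, n + j, Prod.ext (by simp [hm]) ?_⟩
      simp only [hn, hj', Units.val_neg, Units.val_one]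
      push_cast; ring
    · obtain ⟨j, hj⟩ := Real.sin_eq_zero_iff.mp h0
      have hj' : a.1 = j := by
        apply mul_left_cancel₀ hpi.ne'
        rw [← hj]; ring
      refine ⟨1, m - j, n, Prod.ext ?_ (by simp [hn])⟩
      simp only [hm, hj', Units.val_one]
      push_cast; ring

theorem r0_of_vec_eq {a b : ℝ × ℝ} (h : vec a = vec b) : R0 a b := by
  obtain ⟨-, -, e2⟩ := pil1_coords (l := 1) (h.trans (one_smul ℝ _).symm)
  rw [one_mul] at e2
  obtain ⟨n, hn | hn⟩ := pil1_cos e2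
  · exact pil1_r0 h hn
  · have h1 : R0 a (-a.1, -a.2) := ⟨-1, 0, 0, by simp⟩
    exact r0_trans h1 (pil1_r0 ((vec_eq_of_r0 h1).symm.trans h) hn)

theorem pil1_root {α β γ : ℝ} (h : α ^ 2 + β ^ 2 + γ ^ 2 = 1) :
    ∃ l : ℝ, 0 < l ∧ |l * α| ≤ 1 ∧ |l * γ| ≤ 1 ∧
      (min 1 (2 * √(1 - (l * γ) ^ 2))) ^ 2 * (1 - (l * α) ^ 2) - (l * β) ^ 2 = 0 := by
  by_cases h0 : max |α| |γ| = 0
  · have ha : α = 0 := abs_eq_zero.mp (le_antisymm (h0 ▸ le_max_left _ _) (abs_nonneg _))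
    have hc : γ = 0 := abs_eq_zero.mp (le_antisymm (h0 ▸ le_max_right _ _) (abs_nonneg _))
    subst ha hc
    refine ⟨1, one_pos, by simp, by simp, ?_⟩
    simp
    linarith
  have hm : 0 < max |α| |γ| :=
    lt_of_le_of_ne (le_trans (abs_nonneg α) (le_max_left _ _)) (Ne.symm h0)
  set μ := max |α| |γ| with hμ
  let F : ℝ → ℝ := fun l =>
    (min 1 (2 * √(1 - (l * γ) ^ 2))) ^ 2 * (1 - (l * α) ^ 2) - (l * β) ^ 2
  have hF : Continuous F := by
    simp only [F]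
    fun_prop
  have F0 : F 0 = 1 := by simp [F]
  have F1 : F μ⁻¹ ≤ 0 := by
    have : (min 1 (2 * √(1 - (μ⁻¹ * γ) ^ 2))) ^ 2 * (1 - (μ⁻¹ * α) ^ 2) = 0 := by
      rcases max_choice |α| |γ| with h1 | h1
      · have : (μ⁻¹ * α) ^ 2 = 1 := by
          rw [← sq_abs, abs_mul, abs_of_pos (inv_pos.mpr hm), ← h1, inv_mul_cancel₀ hm.ne']
          norm_num
        rw [this]; ring
      · have : (μ⁻¹ * γ) ^ 2 = 1 := by
          rw [← sq_abs, abs_mul, abs_of_pos (inv_pos.mpr hm), ← h1, inv_mul_cancel₀ hm.ne']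
          norm_num
        rw [this]; simp
    simp only [F]
    rw [this]
    nlinarith [sq_nonneg (μ⁻¹ * β)]
  obtain ⟨l, hl, hl0⟩ := intermediate_value_Icc' (inv_pos.mpr hm).le hF.continuousOn
    (show (0 : ℝ) ∈ Icc (F μ⁻¹) (F 0) from ⟨F1, by rw [F0]; norm_num⟩)
  have hpos : 0 < l := by
    rcases eq_or_lt_of_le hl.1 with h1 | h1
    · rw [← h1, F0] at hl0; norm_num at hl0
    · exact h1
  have hb : ∀ x : ℝ, |x| ≤ μ → |l * x| ≤ 1 := by
    intro x hx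
    rw [abs_mul, abs_of_pos hpos]
    calc l * |x| ≤ μ⁻¹ * μ := mul_le_mul hl.2 hx (abs_nonneg _) (inv_pos.mpr hm).le
      _ = 1 := inv_mul_cancel₀ hm.ne'
  exact ⟨l, hpos, hb _ (le_max_left _ _), hb _ (le_max_right _ _), hl0⟩

theorem pil1_angle {x y : ℝ} (h : x ^ 2 + y ^ 2 = 1) :
    ∃ t : ℝ, Real.cos t = x ∧ Real.sin t = y := by
  have hn : ‖(⟨x, y⟩ : ℂ)‖ = 1 := by
    rw [Complex.norm_eq_sqrt_sq_add_sq]
    simp [h]
  have h0 : (⟨x, y⟩ : ℂ) ≠ 0 := by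
    intro h0; rw [h0] at hn; simp at hn
  refine ⟨arg ⟨x, y⟩, ?_, ?_⟩
  · rw [Complex.cos_arg h0, hn]; simp
  · rw [Complex.sin_arg, hn]; simp

theorem Phi_surjective : Function.Surjective Phi := by
  intro v
  have hv : ‖(v : EuclideanSpace ℝ (Fin 3))‖ = 1 := mem_sphere_zero_iff_norm.mp v.2
  have hs : (v.1 0) ^ 2 + (v.1 1) ^ 2 + (v.1 2) ^ 2 = 1 := by
    have := EuclideanSpace.real_norm_sq_eq (v : EuclideanSpace ℝ (Fin 3))
    rw [hv, Fin.sum_univ_three] at this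
    linarith
  obtain ⟨l, hl, ha, hc, hF⟩ := pil1_root hs
  set κ := min 1 (2 * √(1 - (l * v.1 2) ^ 2)) with hκ
  have hpi := Real.pi_pos
  obtain ⟨t, ht1, ht2⟩ : ∃ t : ℝ, Real.cos t = l * v.1 0 ∧ κ * Real.sin t = l * v.1 1 := by
    by_cases h0 : κ = 0
    · rw [h0] at hF
      have : l * v.1 1 = 0 := by
        have : (l * v.1 1) ^ 2 = 0 := by linarith
        exact pow_eq_zero_iff (two_ne_zero) |>.mp this
      refine ⟨Real.arccos (l * v.1 0), Real.cos_arccos (abs_le.mp ha).1 (abs_le.mp ha).2, ?_⟩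
      rw [h0, this, zero_mul]
    · obtain ⟨t, h1, h2⟩ := pil1_angle (x := l * v.1 0) (y := l * v.1 1 / κ) (by
        field_simp
        linarith)
      refine ⟨t, h1, ?_⟩
      rw [h2]; field_simp
  refine ⟨(t / π, Real.arccos (l * v.1 2) / π), Phi_eq_of_smul hl ?_⟩
  have e1 : π * (t / π) = t := by field_simp
  have e2 : π * (Real.arccos (l * v.1 2) / π) = Real.arccos (l * v.1 2) := by field_simp
  have e3 : cp (2 * √(1 - (l * v.1 2) ^ 2)) = κ := by
    rw [cp, ← hκ]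
    apply max_eq_right
    have : 0 ≤ κ := le_min zero_le_one (by positivity)
    linarith
  ext i
  fin_cases i
  · simp [vec, e1, ht1]
  · simp [vec, e1, e2, Real.sin_arccos, e3, ht2]
  · simp [vec, e2, Real.cos_arccos (abs_le.mp hc).1 (abs_le.mp hc).2]

theorem isQ_Phi : IsQ Phi := by
  refine ⟨Phi_surjective, fun a b => ⟨fun h => ?_, fun h => ?_⟩⟩
  · obtain ⟨l, hl, h⟩ := (Phi_eq_iff a b).mp h
    rw [eq_one_of_vec hl h, one_smul] at h
    exact r0_of_vec_eq h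
  · exact (Phi_eq_iff a b).mpr ⟨1, one_pos, by rw [vec_eq_of_r0 h, one_smul]⟩

end Pool.Agent.Zig
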