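import Pool.Agent.Lib.MP_d77862_gt.Pil1

noncomputable section

namespace Pool.Agent.Zig

open Set Filter Topology Complex Real

/-! The twist `(X, Y) ↦ (X + 2 Y + 1, Y)` is isotopic to the identity of the sphere. -/

/-- Rotation about the third axis. -/
def rot3 (α : ℝ) (v : EuclideanSpace ℝ (Fin 3)) : EuclideanSpace ℝ (Fin 3) :=
  !₂[Real.cos α * v 0 - Real.sin α * v 1, Real.sin α * v 0 + Real.cos α * v 1, v 2]

theorem norm_rot3 (α : ℝ) (v : EuclideanSpace ℝ (Fin 3)) : ‖rot3 α v‖ = ‖v‖ := by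
  rw [EuclideanSpace.norm_eq, EuclideanSpace.norm_eq]
  congr 1
  simp only [rot3, Fin.sum_univ_three, Real.norm_eq_abs, sq_abs]
  simp only [Matrix.cons_val_zero, Matrix.cons_val_one, Matrix.cons_val]
  linear_combination (v 0 ^ 2 + v 1 ^ 2) * Real.sin_sq_add_cos_sq α

/-- The number of half turns at the level `Z`. -/
def turn (Z : ℝ) : ℝ := 2 - cp (Z / √(3 / 7))

/-- Rotation of each circle of latitude by the fraction `s` of its number of half turns. -/
def spin (s : ℝ) (v : S2) : S2 :=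
  ⟨rot3 (π * s * turn ((v : EuclideanSpace ℝ (Fin 3)) 2)) v, by
    rw [mem_sphere_zero_iff_norm, norm_rot3]
    exact mem_sphere_zero_iff_norm.mp v.2⟩

/-- The number of half turns as a function of the second coordinate of the pillowcase. -/
def turnY (Y : ℝ) : ℝ := turn (Real.cos (π * Y) / √(1 + Real.cos (π * Y) ^ 2))

theorem pil2_continuous_turn : Continuous turn :=
  continuous_const.sub (continuous_cp.comp (continuous_id.div_const _))

theorem pil2_continuous_rot3 :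
    Continuous fun a : ℝ × EuclideanSpace ℝ (Fin 3) => rot3 a.1 a.2 := by
  unfold rot3
  refine (PiLp.continuous_toLp 2 _).comp (continuous_pi fun i => ?_)
  fin_cases i
  · simp only [Fin.zero_eta, Matrix.cons_val_zero]
    fun_prop
  · simp only [Fin.mk_one, Matrix.cons_val_one, Matrix.cons_val_zero]
    fun_prop
  · simp only [Fin.reduceFinMk, Matrix.cons_val]
    fun_prop

theorem pil2_rot3_two (α : ℝ) (v : EuclideanSpace ℝ (Fin 3)) : rot3 α v 2 = v 2 := by
  simp [rot3]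

theorem pil2_rot3_neg (α : ℝ) (v : EuclideanSpace ℝ (Fin 3)) : rot3 (-α) (rot3 α v) = v := by
  ext i
  fin_cases i
  · simp [rot3]
    linear_combination (v 0) * Real.sin_sq_add_cos_sq α
  · simp [rot3]
    linear_combination (v 1) * Real.sin_sq_add_cos_sq α
  · simp [rot3]

theorem pil2_rot3_smul (α l : ℝ) (v : EuclideanSpace ℝ (Fin 3)) :
    rot3 α (l • v) = l • rot3 α v := by
  ext i
  fin_cases i
  · simp [rot3]
    ring
  · simp [rot3]
    ring
  · simp [rot3]

theorem pil2_spin_neg (s : ℝ) (v : S2) : spin (-s) (spin s v) = v := by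
  apply Subtype.ext
  simp only [spin, pil2_rot3_two]
  rw [show π * -s * turn ((v : EuclideanSpace ℝ (Fin 3)) 2) =
    -(π * s * turn ((v : EuclideanSpace ℝ (Fin 3)) 2)) by ring, pil2_rot3_neg]

theorem pil2_one_le {c N : ℝ} (hc : 3 / 4 ≤ c ^ 2) (hc0 : 0 ≤ c) (hN : 0 < N)
    (h : N ^ 2 ≤ 1 + c ^ 2) : 1 ≤ c / N / √(3 / 7) := by
  have h7 : (0 : ℝ) < √(3 / 7) := Real.sqrt_pos.mpr (by norm_num)
  have h8 : √(3 / 7 : ℝ) ^ 2 = 3 / 7 := Real.sq_sqrt (by norm_num)
  rw [div_div, one_le_div (mul_pos hN h7)]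
  refine (pow_le_pow_iff_left₀ (mul_pos hN h7).le hc0 two_ne_zero).mp ?_
  rw [mul_pow, h8]
  linarith

theorem pil2_turn_pos {c N : ℝ} (hc : 3 / 4 ≤ c ^ 2) (hc0 : 0 ≤ c) (hN : 0 < N)
    (h : N ^ 2 ≤ 1 + c ^ 2) : turn (c / N) = 1 := by
  rw [turn, cp_of_one_le (pil2_one_le hc hc0 hN h)]
  norm_num

theorem pil2_turn_neg {c N : ℝ} (hc : 3 / 4 ≤ c ^ 2) (hc0 : c ≤ 0) (hN : 0 < N)
    (h : N ^ 2 ≤ 1 + c ^ 2) : turn (c / N) = 3 := by
  have := pil2_one_le (c := -c) (N := N) (by rwa [neg_sq]) (by linarith) hN (by rwa [neg_sq])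
  rw [neg_div, neg_div] at this
  rw [turn, cp_of_le_neg_one (by linarith)]
  norm_num

theorem pil2_sqrt_pos (c : ℝ) : 0 < √(1 + c ^ 2) := Real.sqrt_pos.mpr (by positivity)

theorem pil2_sq_sqrt (c : ℝ) : √(1 + c ^ 2) ^ 2 = 1 + c ^ 2 := Real.sq_sqrt (by positivity)

theorem pil2_norm_vec (a : ℝ × ℝ) : ‖vec a‖ ^ 2 = Real.cos (π * a.1) ^ 2 +
    cp (2 * Real.sin (π * a.2)) ^ 2 * Real.sin (π * a.1) ^ 2 + Real.cos (π * a.2) ^ 2 := by
  rw [EuclideanSpace.norm_sq_eq]
  simp only [vec, Fin.sum_univ_three, Real.norm_eq_abs, sq_abs]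
  simp only [Matrix.cons_val_zero, Matrix.cons_val_one, Matrix.cons_val]
  ring

theorem continuous_spin : Continuous fun a : ℝ × S2 => spin a.1 a.2 := by
  refine Continuous.subtype_mk ?_ _
  have h1 : Continuous fun a : ℝ × S2 => (a.2 : EuclideanSpace ℝ (Fin 3)) :=
    continuous_subtype_val.comp continuous_snd
  have h2 : Continuous fun a : ℝ × S2 => (a.2 : EuclideanSpace ℝ (Fin 3)) 2 := by
    fun_prop
  have h3 : Continuous fun a : ℝ × S2 =>
      π * a.1 * turn ((a.2 : EuclideanSpace ℝ (Fin 3)) 2) :=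
    (continuous_const.mul continuous_fst).mul (pil2_continuous_turn.comp' h2)
  exact pil2_continuous_rot3.comp₂ h3 h1

theorem pil2_spin_comp {X : Type} [TopologicalSpace X] {f : X → ℝ} {g : X → S2}
    (hf : Continuous f) (hg : Continuous g) : Continuous fun x => spin (f x) (g x) :=
  continuous_spin.comp₂ hf hg

theorem bijective_spin (s : ℝ) : Function.Bijective (spin s) := by
  refine Function.bijective_iff_has_inverse.mpr ⟨spin (-s), pil2_spin_neg s, fun v => ?_⟩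
  have := pil2_spin_neg (-s) v
  rwa [neg_neg] at this

theorem spin_zero (v : S2) : spin 0 v = v := by
  apply Subtype.ext
  ext i
  fin_cases i <;> simp [spin, rot3]

theorem continuous_turnY : Continuous turnY := by
  refine pil2_continuous_turn.comp (Continuous.div (by fun_prop) (by fun_prop) fun y => ?_)
  exact (pil2_sqrt_pos _).ne'

theorem turnY_zero : turnY 0 = 1 := by
  rw [turnY]
  refine pil2_turn_pos ?_ ?_ (pil2_sqrt_pos _) (pil2_sq_sqrt _).le
  · rw [mul_zero, Real.cos_zero]; norm_num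
  · rw [mul_zero, Real.cos_zero]; norm_num

theorem turnY_one : turnY 1 = 3 := by
  rw [turnY]
  refine pil2_turn_neg ?_ ?_ (pil2_sqrt_pos _) (pil2_sq_sqrt _).le
  · rw [mul_one, Real.cos_pi]; norm_num
  · rw [mul_one, Real.cos_pi]; norm_num

theorem turn_Phi (a : ℝ × ℝ) :
    turn ((Phi a : EuclideanSpace ℝ (Fin 3)) 2) = turnY a.2 := by
  have hN : 0 < ‖vec a‖ := norm_pos_iff.mpr (vec_ne_zero a)
  have e : (Phi a : EuclideanSpace ℝ (Fin 3)) 2 = Real.cos (π * a.2) / ‖vec a‖ := by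
    simp only [Phi, PiLp.smul_apply, smul_eq_mul]
    rw [mul_comm, div_eq_mul_inv]
    simp [vec]
  have hn := pil2_norm_vec a
  have h1 := Real.sin_sq_add_cos_sq (π * a.1)
  have h2 := Real.sin_sq_add_cos_sq (π * a.2)
  have hk : |cp (2 * Real.sin (π * a.2))| = min 1 |2 * Real.sin (π * a.2)| := abs_cp _
  rw [e, turnY]
  by_cases h : 1 ≤ |2 * Real.sin (π * a.2)|
  · rw [min_eq_left h] at hk
    have hk2 : cp (2 * Real.sin (π * a.2)) ^ 2 = 1 := by rw [← sq_abs, hk, one_pow]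
    rw [hk2] at hn
    have : ‖vec a‖ = √(1 + Real.cos (π * a.2) ^ 2) := by
      rw [← Real.sqrt_sq hN.le, hn]
      congr 1
      linarith
    rw [this]
  · have h3 : (2 * Real.sin (π * a.2)) ^ 2 ≤ 1 := by
      rw [← sq_abs]
      exact pow_le_one₀ (abs_nonneg _) (not_le.mp h).le
    have hk2 : cp (2 * Real.sin (π * a.2)) ^ 2 ≤ 1 := by
      rw [← sq_abs]
      exact pow_le_one₀ (abs_nonneg _) (hk ▸ min_le_left _ _)
    have hc : 3 / 4 ≤ Real.cos (π * a.2) ^ 2 := by nlinarith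
    have hle : ‖vec a‖ ^ 2 ≤ 1 + Real.cos (π * a.2) ^ 2 := by
      nlinarith [sq_nonneg (Real.sin (π * a.1))]
    rcases le_total 0 (Real.cos (π * a.2)) with h0 | h0
    · rw [pil2_turn_pos hc h0 hN hle, pil2_turn_pos hc h0 (pil2_sqrt_pos _) (pil2_sq_sqrt _).le]
    · rw [pil2_turn_neg hc h0 hN hle, pil2_turn_neg hc h0 (pil2_sqrt_pos _) (pil2_sq_sqrt _).le]

theorem spin_one_Phi (X : ℝ) {Y : ℝ} (hY : Y ∈ Icc (0 : ℝ) 1) :
    spin 1 (Phi (X, Y)) = Phi (X + turnY Y, Y) := by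
  have hN : 0 < ‖vec (X, Y)‖ := norm_pos_iff.mpr (vec_ne_zero _)
  have hs : 0 ≤ Real.sin (π * Y) :=
    Real.sin_nonneg_of_nonneg_of_le_pi (mul_nonneg Real.pi_pos.le hY.1)
      (by nlinarith [Real.pi_pos, hY.2])
  have key : cp (2 * Real.sin (π * Y)) = 1 ∨ Real.sin (π * turnY Y) = 0 := by
    by_cases h : 1 ≤ 2 * Real.sin (π * Y)
    · exact Or.inl (cp_of_one_le h)
    · right
      have h2 := Real.sin_sq_add_cos_sq (π * Y)
      have hc : 3 / 4 ≤ Real.cos (π * Y) ^ 2 := by nlinarith [not_le.mp h]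
      rcases le_total 0 (Real.cos (π * Y)) with h0 | h0
      · rw [turnY, pil2_turn_pos hc h0 (pil2_sqrt_pos _) (pil2_sq_sqrt _).le, mul_one, Real.sin_pi]
      · rw [turnY, pil2_turn_neg hc h0 (pil2_sqrt_pos _) (pil2_sq_sqrt _).le,
          show π * 3 = π + 2 * π by ring, Real.sin_add_two_pi, Real.sin_pi]
  refine (Phi_eq_of_smul hN ?_).symm
  have e1 : ((spin 1 (Phi (X, Y)) : S2) : EuclideanSpace ℝ (Fin 3)) =
      ‖vec (X, Y)‖⁻¹ • rot3 (π * turnY Y) (vec (X, Y)) := by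
    rw [← pil2_rot3_smul]
    simp only [spin, turn_Phi, mul_one]
    rfl
  rw [e1, smul_smul, mul_inv_cancel₀ hN.ne', one_smul]
  ext i
  fin_cases i
  · simp only [vec, rot3, mul_add, Real.cos_add]
    rcases key with h | h <;> simp [h] <;> ring
  · simp only [vec, rot3, mul_add, Real.sin_add]
    rcases key with h | h <;> simp [h] <;> ring
  · simp [vec, rot3]

theorem exists_odd_periodic {g : ℝ → ℝ} (hg : Continuous g) (h0 : g 0 = 0) (h1 : g 1 = 0) :
    ∃ χ : ℝ → ℝ, Continuous χ ∧ (∀ y, χ (-y) = -χ y) ∧ (∀ (y : ℝ) (n : ℤ), χ (y + 2 * n) = χ y) ∧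
      ∀ y ∈ Icc (0 : ℝ) 1, χ y = g y := by
  have hf : Continuous fun t : ℝ => g (min 1 (2 * t)) := by fun_prop
  have hc : Continuous ((fun t : ℝ => g (min 1 (2 * t))) ∘ Int.fract) :=
    ContinuousOn.comp_fract'' hf.continuousOn (by simp [h0, h1])
  refine ⟨fun y => g (min 1 (2 * Int.fract (y / 2))) - g (min 1 (2 * Int.fract (-y / 2))),
    (hc.comp (continuous_id.div_const 2)).sub (hc.comp (continuous_neg.div_const 2)),
    fun y => by simp, fun y n => ?_, fun y hy => ?_⟩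
  · have e1 : (y + 2 * n) / 2 = y / 2 + (n : ℝ) := by ring
    have e2 : -(y + 2 * n) / 2 = -y / 2 - (n : ℝ) := by ring
    simp only [e1, e2, Int.fract_add_intCast, Int.fract_sub_intCast]
  · have e1 : Int.fract (y / 2) = y / 2 :=
      Int.fract_eq_self.mpr ⟨by linarith [hy.1], by linarith [hy.2]⟩
    have e2 : g (min 1 (2 * Int.fract (-y / 2))) = 0 := by
      rcases hy.1.eq_or_lt with h | h
      · rw [← h]
        simp [h0]
      · have e3 : Int.fract (-y / 2) = 1 - y / 2 := by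
          rw [Int.fract_eq_iff]
          refine ⟨by linarith [hy.2], by linarith, -1, ?_⟩
          push_cast
          ring
        rw [e3, min_eq_left (by linarith [hy.2]), h1]
    simp only [e1, e2, sub_zero]
    rw [show 2 * (y / 2) = y by ring, min_eq_right hy.2]

theorem r0_twist (a b : ℝ × ℝ) :
    R0 (a.1 + 2 * a.2 + 1, a.2) (b.1 + 2 * b.2 + 1, b.2) ↔ R0 a b := by
  constructor
  · rintro ⟨e, m, n, h⟩
    simp only [Prod.mk.injEq] at h
    obtain ⟨h1, h2⟩ := h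
    rcases Int.units_eq_one_or e with rfl | rfl
    · refine ⟨1, m - 2 * n, n, Prod.ext ?_ h2⟩
      simp only [Units.val_one, Int.cast_one] at h1 h2 ⊢
      push_cast
      linarith
    · refine ⟨-1, m - 2 * n - 1, n, Prod.ext ?_ h2⟩
      simp only [Units.val_neg, Units.val_one, Int.cast_neg, Int.cast_one] at h1 h2 ⊢
      push_cast
      linarith
  · rintro ⟨e, m, n, rfl⟩
    rcases Int.units_eq_one_or e with rfl | rfl
    · refine ⟨1, m + 2 * n, n, Prod.ext ?_ rfl⟩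
      simp only [Units.val_one, Int.cast_one]
      push_cast
      ring
    · refine ⟨-1, m + 2 * n + 1, n, Prod.ext ?_ rfl⟩
      simp only [Units.val_neg, Units.val_one, Int.cast_neg, Int.cast_one]
      push_cast
      ring

/-- Take `J s (X, Y) = spin s (Phi (X + s * χ Y, Y))` with `χ Y = 2 Y + 1 - turnY Y` on
`[0, 1]`. -/
theorem exists_twist : ∃ J : ℝ → ℝ × ℝ → S2,
    Continuous (fun a : ℝ × (ℝ × ℝ) => J a.1 a.2) ∧ (∀ s, IsQ (J s)) ∧ (∀ a, J 0 a = Phi a) ∧
      ∀ a, J 1 a = Phi (a.1 + 2 * a.2 + 1, a.2) := by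
  obtain ⟨χ, hc, hodd, hper, hg⟩ := exists_odd_periodic (g := fun y => 2 * y + 1 - turnY y)
    (((continuous_const.mul continuous_id).add continuous_const).sub continuous_turnY)
    (by simp [turnY_zero]) (by simp only [turnY_one]; norm_num)
  have hχ : ∀ (e : ℤˣ) (y : ℝ) (n : ℤ), χ (((e : ℤ) : ℝ) * y + 2 * n) = ((e : ℤ) : ℝ) * χ y := by
    intro e y n
    rw [hper]
    rcases Int.units_eq_one_or e with rfl | rfl
    · simp
    · simp [hodd]
  have hQ : ∀ s : ℝ, IsQ fun a : ℝ × ℝ => spin s (Phi (a.1 + s * χ a.2, a.2)) := by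
    intro s
    refine (isQ_Phi.comp (T := fun a : ℝ × ℝ => (a.1 + s * χ a.2, a.2))
      (fun b => ⟨(b.1 - s * χ b.2, b.2), by simp⟩) fun a b => ?_).postcomp (bijective_spin s)
    constructor
    · rintro ⟨e, m, n, h⟩
      simp only [Prod.mk.injEq] at h
      obtain ⟨h1, h2⟩ := h
      refine ⟨e, m, n, Prod.ext ?_ h2⟩
      rw [h2, hχ] at h1
      simp only
      linarith
    · rintro ⟨e, m, n, rfl⟩
      refine ⟨e, m, n, Prod.ext ?_ rfl⟩
      simp only [hχ]
      ring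
  refine ⟨fun s a => spin s (Phi (a.1 + s * χ a.2, a.2)), ?_, hQ, fun a => ?_, fun a => ?_⟩
  · have h1 : Continuous fun a : ℝ × (ℝ × ℝ) => (a.2.1 + a.1 * χ a.2.2, a.2.2) := by fun_prop
    have h2 : Continuous fun a : ℝ × (ℝ × ℝ) => Phi (a.2.1 + a.1 * χ a.2.2, a.2.2) :=
      continuous_Phi.comp' h1
    exact pil2_spin_comp continuous_fst h2
  · simp [spin_zero]
  · obtain ⟨b, hab, -, hb⟩ := exists_r0_mem a
    have e1 := ((hQ 1).2 a b).mpr hab
    simp only at e1 ⊢
    rw [e1, spin_one_Phi _ hb, hg _ hb, (isQ_Phi.2 _ _).mpr ((r0_twist a b).mpr hab)]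
    congr 2
    ring

end Pool.Agent.Zig
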