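import Pool.Agent.Lib.MP_d77862_gt.Pil2
import Pool.Agent.Lib.MP_d77862_gt.Grp

noncomputable section

namespace Pool.Agent.Zig

open Set Filter Topology Complex Real

/-! The mapping torus of the pillowcase map is `S¹ × S²`. -/

theorem pil3_swap (a b : ℝ × ℝ) : R0 a.swap b.swap ↔ R0 a b := by
  constructor
  · rintro ⟨e, m, n, h⟩
    refine ⟨e, n, m, ?_⟩
    have h1 := congrArg Prod.fst h
    have h2 := congrArg Prod.snd h
    simp only [Prod.fst_swap, Prod.snd_swap] at h1 h2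
    exact Prod.ext h2 h1
  · rintro ⟨e, m, n, h⟩
    refine ⟨e, n, m, ?_⟩
    rw [h]
    rfl

theorem pil3_twist (a b : ℝ × ℝ) :
    R0 (a.1, a.2 + 2 * a.1 + 1) (b.1, b.2 + 2 * b.1 + 1) ↔ R0 a b := by
  rw [← pil3_swap a b, ← r0_twist a.swap b.swap, ← pil3_swap]
  rfl

/-- The monodromy is the product of the twist and of its conjugate by the exchange of the
coordinates, up to the relation. -/
theorem exists_iso : ∃ J : ℝ → ℝ × ℝ → S2,
    Continuous (fun a : ℝ × (ℝ × ℝ) => J a.1 a.2) ∧ (∀ s, IsQ (J s)) ∧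
      ∀ a, J 1 a = J 0 (5 * a.1 + 2 * a.2 + 1, 2 * a.1 + a.2 - 1) := by
  obtain ⟨J, hc, hq, h0, h1⟩ := exists_twist
  obtain ⟨k, hkc, hkb, hk⟩ := isQ_Phi.exists_factor
    (isQ_Phi.comp Prod.swap_surjective pil3_swap) continuous_Phi
    (continuous_Phi.comp continuous_swap)
  have hT : Function.Surjective fun a : ℝ × ℝ => ((a.1, a.2 + 2 * a.1 + 1) : ℝ × ℝ) := by
    intro b
    refine ⟨(b.1, b.2 - 2 * b.1 - 1), Prod.ext rfl ?_⟩
    simp only
    ring
  refine ⟨fun s a => if s ≤ 1 / 2 then k (J (2 * s) a.swap)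
    else J (2 * s - 1) (a.1, a.2 + 2 * a.1 + 1), ?_, ?_, ?_⟩
  · refine Continuous.if_le ?_ ?_ continuous_fst continuous_const ?_
    · exact hkc.comp (hc.comp (f := fun a : ℝ × (ℝ × ℝ) => (2 * a.1, a.2.swap)) (by fun_prop))
    · exact hc.comp (f := fun a : ℝ × (ℝ × ℝ) =>
        (2 * a.1 - 1, ((a.2.1, a.2.2 + 2 * a.2.1 + 1) : ℝ × ℝ))) (by fun_prop)
    · intro a ha
      rw [ha, show (2 * (1 / 2) : ℝ) = 1 by norm_num, sub_self, h0, h1, hk]
      rfl
  · intro s
    by_cases hs : s ≤ 1 / 2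
    · simp only [hs, if_true]
      exact ((hq (2 * s)).comp Prod.swap_surjective pil3_swap).postcomp hkb
    · simp only [hs, if_false]
      exact (hq (2 * s - 1)).comp hT pil3_twist
  · intro a
    have e1 : ¬ (1 : ℝ) ≤ 1 / 2 := by norm_num
    have e0 : (0 : ℝ) ≤ 1 / 2 := by norm_num
    simp only [e1, e0, if_true, if_false]
    rw [show (2 * 1 - 1 : ℝ) = 1 by norm_num, mul_zero, h0, h1, hk]
    refine (isQ_Phi.2 _ _).2 ⟨1, -1, -1, Prod.ext ?_ ?_⟩
    · simp
      ring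
    · simp
      ring

/-- Coordinates in the basis `cor (1, 1)`, `cor (1, 0)`. -/
def crd (x : ℂ) : ℝ × ℝ :=
  ((x.re - x.im) / (2 * √2), x.re - (x.re - x.im) / (2 * √2) * (1 + √2))

theorem pil3_sq : √2 * √2 = (2 : ℝ) := Real.mul_self_sqrt (by norm_num)

theorem pil3_ne : (√2 : ℝ) ≠ 0 := (Real.sqrt_pos.2 (by norm_num)).ne'

theorem pil3_crd_mk (X Y : ℝ) : crd ⟨Y + X * (1 + √2), Y + X * (1 - √2)⟩ = (X, Y) := by
  have h : (Y + X * (1 + √2) - (Y + X * (1 - √2))) / (2 * √2) = X := by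
    have := pil3_ne
    field_simp
    ring
  unfold crd
  simp only [h]
  refine Prod.ext rfl ?_
  simp

theorem pil3_mk_crd (x : ℂ) :
    x = ⟨(crd x).2 + (crd x).1 * (1 + √2), (crd x).2 + (crd x).1 * (1 - √2)⟩ := by
  have := pil3_ne
  apply Complex.ext
  · simp [crd]
  · simp only [crd]
    field_simp
    ring

theorem pil3_crd_aff (e : ℤˣ) (c : ℤ × ℤ) (x : ℂ) :
    crd (((e : ℤ) : ℂ) * x + cor c) =
      (((e : ℤ) : ℝ) * (crd x).1 + c.2, ((e : ℤ) : ℝ) * (crd x).2 + (c.1 - c.2)) := by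
  rw [← pil3_crd_mk]
  congr 1
  have h := pil3_mk_crd x
  have h1 := congrArg Complex.re h
  have h2 := congrArg Complex.im h
  simp only at h1 h2
  apply Complex.ext
  · simp only [cor, Complex.add_re, Complex.mul_re, Complex.intCast_re, Complex.intCast_im]
    linear_combination ((e : ℤ) : ℝ) * h1
  · simp only [cor, Complex.add_im, Complex.mul_im, Complex.intCast_re, Complex.intCast_im]
    linear_combination ((e : ℤ) : ℝ) * h2

theorem pil3_crd_inj : Function.Injective crd := by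
  intro x y h
  rw [pil3_mk_crd x, pil3_mk_crd y, h]

theorem continuous_crd : Continuous crd := by
  unfold crd
  fun_prop
theorem crd_surjective : Function.Surjective crd := fun a => ⟨_, pil3_crd_mk a.1 a.2⟩
theorem crd_step (x : ℂ) : crd (DD 1 x + cor (0, 1)) =
    (5 * (crd x).1 + 2 * (crd x).2 + 1, 2 * (crd x).1 + (crd x).2 - 1) := by
  have e2 : Real.exp (-LL) = 3 - 2 * √2 := by
    rw [Real.exp_neg, exp_LL]
    apply inv_eq_of_mul_eq_one_right
    linear_combination (-4) * pil3_sq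
  rw [← pil3_crd_mk]
  congr 1
  have h := pil3_mk_crd x
  have h1 := congrArg Complex.re h
  have h2 := congrArg Complex.im h
  simp only at h1 h2
  apply Complex.ext
  · simp only [DD, Dg, cor, mul_one, exp_LL, Complex.add_re]
    push_cast
    linear_combination (3 + 2 * √2) * h1 + 2 * (crd x).1 * pil3_sq
  · simp only [DD, Dg, cor, mul_one, e2, Complex.add_im]
    push_cast
    linear_combination (3 - 2 * √2) * h2 + 2 * (crd x).1 * pil3_sq
theorem r0_crd_iff (x y : ℂ) (t : ℝ) : R0 (crd x) (crd y) ↔ Rel (x, t) (y, t) := by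
  constructor
  · rintro ⟨e, m, n, h⟩
    refine ⟨0, e, (2 * n + 2 * m, 2 * m), ⟨⟨n + m, by ring⟩, ⟨m, by ring⟩⟩, ?_⟩
    unfold act
    simp only [Int.cast_zero, DD_zero, sub_zero]
    refine Prod.ext (pil3_crd_inj ?_) rfl
    simp only
    rw [pil3_crd_aff, h]
    refine Prod.ext ?_ ?_
    · push_cast
      ring
    · push_cast
      ring
  · rintro ⟨n, e, c, ⟨⟨a, ha⟩, ⟨b, hb⟩⟩, h⟩
    unfold act at h
    have h2 := congrArg Prod.snd h
    have h1 := congrArg Prod.fst h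
    simp only at h1 h2
    have hn : n = 0 := by
      have : (n : ℝ) = 0 := by linarith
      exact_mod_cast this
    subst hn
    rw [Int.cast_zero, DD_zero] at h1
    rw [sub_zero] at hb
    refine ⟨e, b, a - b, ?_⟩
    rw [h1, pil3_crd_aff, ha, hb]
    refine Prod.ext ?_ ?_
    · push_cast
      ring
    · push_cast
      ring

theorem pil3_rel_act (n : ℤ) (p : ℂ × ℝ) : Rel p (DD n p.1 + cor (0, n), p.2 - n) :=
  ⟨n, 1, (0, n), ⟨Even.zero, by simp⟩, by simp [act]⟩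

/-- Take `Ψ (x, t) = (exp (2 π t), J (fract t) (crd (DD ⌊t⌋ x + cor (0, ⌊t⌋))))`. -/
theorem exists_Psi : ∃ Ψ : ℂ × ℝ → Circle × S2, Continuous Ψ ∧ Function.Surjective Ψ ∧
    ∀ p q, Ψ p = Ψ q ↔ Rel p q := by
  obtain ⟨J, hc, hq, h1⟩ := exists_iso
  let G : ℤ → ℂ × ℝ → S2 := fun n p => J (p.2 - n) (crd (DD n p.1 + cor (0, n)))
  have hG : ∀ n, Continuous (G n) := by
    intro n
    have hD : Continuous fun p : ℂ × ℝ => DD n p.1 :=
      continuous_DD.comp (f := fun p : ℂ × ℝ => ((n : ℝ), p.1)) (by fun_prop)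
    exact hc.comp (f := fun p : ℂ × ℝ => (p.2 - n, crd (DD n p.1 + cor (0, n))))
      ((continuous_snd.sub continuous_const).prodMk
        (continuous_crd.comp (hD.add continuous_const)))
  have hstep : ∀ (n : ℤ) (p : ℂ × ℝ), p.2 = n → G (n - 1) p = G n p := by
    intro n p hp
    have e1 : p.2 - ((n - 1 : ℤ) : ℝ) = 1 := by push_cast; linarith
    have e0 : p.2 - (n : ℝ) = 0 := by linarith
    simp only [G]
    rw [e1, e0, h1, ← crd_step, (hq 0).2, r0_crd_iff _ _ 0]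
    have r1 := pil3_rel_act (n - 1) p
    have r2 := pil3_rel_act 1 (DD ((n - 1 : ℤ) : ℝ) p.1 + cor (0, n - 1), p.2 - ((n - 1 : ℤ) : ℝ))
    have r3 := pil3_rel_act n p
    have r4 := rel_trans (rel_symm (rel_trans r1 r2)) r3
    rw [e0, e1] at r4
    simpa using r4
  have hfl : ∀ p q : ℂ × ℝ, p.2 - (⌊p.2⌋ : ℝ) = q.2 - (⌊q.2⌋ : ℝ) →
      (G ⌊p.2⌋ p = G ⌊q.2⌋ q ↔ Rel p q) := by
    intro p q hpq
    simp only [G]
    rw [← hpq, (hq _).2, r0_crd_iff _ _ (p.2 - (⌊p.2⌋ : ℝ))]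
    have r1 := pil3_rel_act ⌊p.2⌋ p
    have r2 := pil3_rel_act ⌊q.2⌋ q
    rw [← hpq] at r2
    exact ⟨fun h => rel_trans (rel_trans r1 h) (rel_symm r2),
      fun h => rel_trans (rel_trans (rel_symm r1) h) r2⟩
  have hint : ∀ (s t : ℝ) (m : ℤ), s = t + m → s - (⌊s⌋ : ℝ) = t - (⌊t⌋ : ℝ) := by
    intro s t m h
    rw [h, Int.floor_add_intCast]
    push_cast
    ring
  refine ⟨fun p => (Circle.exp (2 * π * p.2), G ⌊p.2⌋ p), ?_, ?_, ?_⟩
  · refine Continuous.prodMk (by fun_prop) ?_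
    rw [continuous_iff_continuousAt]
    intro p0
    have hcont : Continuous fun p : ℂ × ℝ =>
        if p.2 ≤ (⌊p0.2⌋ : ℝ) then G (⌊p0.2⌋ - 1) p else G ⌊p0.2⌋ p :=
      Continuous.if_le (hG _) (hG _) continuous_snd continuous_const fun p hp => hstep _ p hp
    refine hcont.continuousAt.congr ?_
    have hmem : p0.2 ∈ Ioo ((⌊p0.2⌋ : ℝ) - 1) ((⌊p0.2⌋ : ℝ) + 1) :=
      ⟨by linarith [Int.floor_le p0.2], Int.lt_floor_add_one p0.2⟩
    filter_upwards [continuous_snd.continuousAt.eventually (isOpen_Ioo.mem_nhds hmem)] with p hp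
    rcases lt_trichotomy p.2 (⌊p0.2⌋ : ℝ) with h | h | h
    · have : ⌊p.2⌋ = ⌊p0.2⌋ - 1 := by
        rw [Int.floor_eq_iff]
        push_cast
        exact ⟨hp.1.le, by linarith⟩
      rw [if_pos h.le, this]
    · have : ⌊p.2⌋ = ⌊p0.2⌋ := by rw [h, Int.floor_intCast]
      rw [if_pos h.le, this, hstep _ p h]
    · have : ⌊p.2⌋ = ⌊p0.2⌋ := by
        rw [Int.floor_eq_iff]
        exact ⟨h.le, hp.2⟩
      rw [if_neg (not_le.2 h), this]
  · rintro ⟨u, v⟩
    obtain ⟨θ, rfl⟩ := Circle.exp_surjective u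
    obtain ⟨a, ha⟩ := (hq (Int.fract (θ / (2 * π)))).1 v
    obtain ⟨x, rfl⟩ := crd_surjective a
    refine ⟨(x, Int.fract (θ / (2 * π))), Prod.ext ?_ ?_⟩
    · simp only
      rw [Circle.exp_eq_exp]
      refine ⟨-⌊θ / (2 * π)⌋, ?_⟩
      rw [Int.fract]
      have := Real.pi_ne_zero
      push_cast
      field_simp
      ring
    · simp only [G, Int.floor_fract, Int.cast_zero, DD_zero, sub_zero]
      rw [show ((0, 0) : ℤ × ℤ) = 0 from rfl, cor_zero, add_zero, ha]
  · intro p q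
    constructor
    · intro h
      have h1 := congrArg Prod.fst h
      have h2 := congrArg Prod.snd h
      simp only at h1 h2
      obtain ⟨m, hm⟩ := Circle.exp_eq_exp.1 h1
      have : p.2 = q.2 + m := by
        have hpi : (2 * π) ≠ 0 := by positivity
        apply mul_left_cancel₀ hpi
        linarith
      exact (hfl p q (hint _ _ m this)).1 h2
    · intro h
      obtain ⟨n, e, c, -, hq'⟩ := id h
      have : p.2 = q.2 + n := by
        rw [hq']
        simp [act]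
      refine Prod.ext ?_ ((hfl p q (hint _ _ n this)).2 h)
      simp only
      rw [Circle.exp_eq_exp]
      exact ⟨n, by rw [this]; ring⟩

end Pool.Agent.Zig
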