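import Pool.Agent.Lib.MP_d77862_gt.EndL

noncomputable section

namespace Pool.Agent.Zig

open Set Filter Topology Complex Real

/-! The transverse coordinate of the prong charts. -/

theorem prong0_floor_ev {φ : ℝ → ℝ} (hφ : Continuous φ) {x : ℝ} (h : ∀ n : ℤ, φ x ≠ n) :
    ∀ᶠ y in 𝓝 x, ⌊φ y⌋ = ⌊φ x⌋ := by
  have h1 : (⌊φ x⌋ : ℝ) < φ x := lt_of_le_of_ne (Int.floor_le _) (h _).symm
  have h2 : φ x < ⌊φ x⌋ + 1 := Int.lt_floor_add_one _
  filter_upwards [hφ.continuousAt.eventually (Ioo_mem_nhds h1 h2)] with y hy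
  exact Int.floor_eq_iff.2 ⟨hy.1.le, hy.2⟩

theorem prong0_cont {φ h : ℝ → ℝ} (hφ : Continuous φ) (hh : Continuous h) (f : ℤ → ℝ)
    (h0 : ∀ x, (∃ n : ℤ, φ x = n) → h x = 0) : Continuous fun x => f ⌊φ x⌋ * h x := by
  refine continuous_iff_continuousAt.2 fun x => ?_
  by_cases hx : ∃ n : ℤ, φ x = n
  · obtain ⟨n, hn⟩ := hx
    have hz : h x = 0 := h0 x ⟨n, hn⟩
    have hev : ∀ᶠ y in 𝓝 x, ‖f ⌊φ y⌋ * h y‖ ≤ (|f (n - 1)| + |f n|) * |h y| := by
      have h1 : (n : ℝ) - 1 < φ x := by rw [hn]; linarith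
      have h2 : φ x < (n : ℝ) + 1 := by rw [hn]; linarith
      filter_upwards [hφ.continuousAt.eventually (Ioo_mem_nhds h1 h2)] with y hy
      have h3 : n - 1 ≤ ⌊φ y⌋ := Int.le_floor.2 (by push_cast; exact hy.1.le)
      have h4 : ⌊φ y⌋ < n + 1 := Int.floor_lt.2 (by push_cast; exact hy.2)
      rw [Real.norm_eq_abs, abs_mul]
      refine mul_le_mul_of_nonneg_right ?_ (abs_nonneg _)
      have h5 : ⌊φ y⌋ = n - 1 ∨ ⌊φ y⌋ = n := by omega
      rcases h5 with h5 | h5 <;> rw [h5]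
      · linarith [abs_nonneg (f n)]
      · linarith [abs_nonneg (f (n - 1))]
    have ht : Tendsto (fun y => (|f (n - 1)| + |f n|) * |h y|) (𝓝 x) (𝓝 0) := by
      have hc : Continuous fun y => (|f (n - 1)| + |f n|) * |h y| := continuous_const.mul hh.abs
      have := hc.tendsto x
      simpa [hz] using this
    have := squeeze_zero_norm' hev ht
    unfold ContinuousAt
    simpa [hz] using this
  · push Not at hx
    have hc : ContinuousAt (fun y => f ⌊φ x⌋ * h y) x := (continuous_const.mul hh).continuousAt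
    refine hc.congr ?_
    filter_upwards [prong0_floor_ev hφ hx] with y hy
    rw [hy]

theorem prong0_cos {θ : ℝ} (h : ∃ n : ℤ, θ / π + 1 / 2 = n) : Real.cos θ = 0 := by
  obtain ⟨n, hn⟩ := h
  refine Real.cos_eq_zero_iff.2 ⟨n - 1, ?_⟩
  have hp := Real.pi_pos
  have : θ / π = n - 1 / 2 := by linarith
  rw [div_eq_iff hp.ne'] at this
  rw [this]; push_cast; ring

theorem prong0_sin {θ : ℝ} (h : ∃ n : ℤ, θ / π = n) : Real.sin θ = 0 := by
  obtain ⟨n, hn⟩ := h
  refine Real.sin_eq_zero_iff.2 ⟨n, ?_⟩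
  rw [div_eq_iff Real.pi_pos.ne'] at hn
  exact hn.symm

theorem prong0_floor_quad (θ : ℝ) : ⌊θ / π⌋ = ⌊θ / (π / 2)⌋ / 2 := by
  have hp := Real.pi_pos
  have : θ / π = θ / (π / 2) / ((2 : ℕ) : ℝ) := by push_cast; field_simp
  rw [this, Int.floor_div_natCast]; rfl

theorem prong0_floor_half_quad (θ : ℝ) : ⌊θ / π + 1 / 2⌋ = (⌊θ / (π / 2)⌋ + 1) / 2 := by
  have hp := Real.pi_pos
  have : θ / π + 1 / 2 = (θ / (π / 2) + 1) / ((2 : ℕ) : ℝ) := by push_cast; field_simp
  rw [this, Int.floor_div_natCast, Int.floor_add_one]; rfl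

theorem prong0_floor_add (θ : ℝ) (k : ℤ) : ⌊(θ + k * π) / π⌋ = ⌊θ / π⌋ + k := by
  have hp := Real.pi_pos
  have : (θ + k * π) / π = θ / π + k := by field_simp
  rw [this, Int.floor_add_intCast]

theorem prong0_floor_half_add (θ : ℝ) (k : ℤ) :
    ⌊(θ + k * π) / π + 1 / 2⌋ = ⌊θ / π + 1 / 2⌋ + k := by
  have hp := Real.pi_pos
  have : (θ + k * π) / π + 1 / 2 = θ / π + 1 / 2 + k := by field_simp; ring
  rw [this, Int.floor_add_intCast]

theorem prong0_nrm_add (s θ : ℝ) (k : ℤ) : nrm s (θ + k * π) = nrm s θ :=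
  Function.Periodic.int_mul (f := nrm s) (c := π) (nrm_add_pi s) k θ

theorem prong0_dir_pow (θ : ℝ) (n : ℕ) : dir θ ^ n = dir (n * θ) := by
  unfold dir
  rw [← Complex.exp_nat_mul]; congr 1; push_cast; ring

namespace End

variable (E : End)

/-- The parameter of the diagonal map in the flat coordinate. -/
def prong0_s (θ : ℝ) : ℝ := -(LL * E.sig * ((⌊θ / π + 1 / 2⌋ + ⌊θ / π⌋ : ℤ) : ℝ) / 2)

/-- The conformal factor of the flat coordinate. -/
def prong0_g (θ : ℝ) : ℝ := Real.exp (LL * E.sig * ((⌊θ / π⌋ - ⌊θ / π + 1 / 2⌋ : ℤ) : ℝ) / 2)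

theorem prong0_fang (θ : ℝ) : E.fang θ = ang (E.prong0_s θ) θ := rfl

theorem prong0_g_pos (θ : ℝ) : 0 < E.prong0_g θ := Real.exp_pos _

theorem prong0_al (θ : ℝ) : E.al θ = E.prong0_g θ * Real.exp (E.prong0_s θ) := by
  unfold al prong0_g prong0_s
  rw [← Real.exp_add]; congr 1; push_cast; ring

theorem prong0_be (θ : ℝ) : E.be θ = E.prong0_g θ * Real.exp (-E.prong0_s θ) := by
  unfold be prong0_g prong0_s
  rw [← Real.exp_add]; congr 1; push_cast; ring

theorem prong0_flat (r θ : ℝ) :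
    E.flat r θ = ((r * (E.prong0_g θ * nrm (E.prong0_s θ) θ) : ℝ) : ℂ) * dir (E.fang θ) := by
  have h : E.flat r θ = ((r * E.prong0_g θ : ℝ) : ℂ) * Dg (E.prong0_s θ) (dir θ) := by
    apply Complex.ext
    · rw [Complex.re_ofReal_mul]
      simp only [flat, Dg, dir_re, prong0_al]; ring
    · rw [Complex.im_ofReal_mul]
      simp only [flat, Dg, dir_im, prong0_be]; ring
  rw [h, Dg_dir, prong0_fang]; push_cast; ring

theorem prong0_norm {r : ℝ} (hr : 0 ≤ r) (θ : ℝ) :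
    ‖E.flat r θ‖ = r * (E.prong0_g θ * nrm (E.prong0_s θ) θ) := by
  rw [prong0_flat, norm_mul, norm_dir, mul_one, Complex.norm_real, Real.norm_eq_abs]
  exact abs_of_nonneg (mul_nonneg hr (mul_pos (E.prong0_g_pos θ) (nrm_pos _ _)).le)

theorem prong0_cont_fang : Continuous E.fang := by
  have h := (continuous_ang_floor (-(LL * E.sig / 2)) (-(LL * E.sig / 2))).comp
    (continuous_const.prodMk continuous_id : Continuous fun θ : ℝ => ((0 : ℝ), θ))
  refine h.congr fun θ => ?_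
  simp only [Function.comp, fang]
  congr 1; push_cast; ring

theorem prong0_mono_fang : StrictMono E.fang := by
  intro θ θ' h
  have hp : 0 < π / 2 := by linarith [Real.pi_pos]
  have hle : ⌊θ / (π / 2)⌋ ≤ ⌊θ' / (π / 2)⌋ :=
    Int.floor_le_floor (div_le_div_of_nonneg_right h.le hp.le)
  rcases hle.eq_or_lt with he | hl
  · have hs : E.prong0_s θ' = E.prong0_s θ := by
      unfold prong0_s
      rw [prong0_floor_quad, prong0_floor_half_quad, prong0_floor_quad θ, prong0_floor_half_quad θ,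
        he]
    rw [prong0_fang, prong0_fang, hs]
    exact strictMono_ang _ h
  · rw [← floor_ang_quad (E.prong0_s θ) θ, ← floor_ang_quad (E.prong0_s θ') θ'] at hl
    by_contra hc
    exact absurd (Int.floor_le_floor (div_le_div_of_nonneg_right (not_lt.1 hc) hp.le))
      (not_le.2 hl)

theorem prong0_surj_fang : Function.Surjective E.fang := by
  refine E.prong0_cont_fang.surjective ?_ ?_
  · refine tendsto_atTop_mono (f := fun θ => θ + -(π / 2)) (fun θ => ?_)
      (tendsto_atTop_add_const_right _ _ tendsto_id)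
    have := (abs_lt.1 (abs_ang_sub_lt (E.prong0_s θ) θ)).1
    rw [prong0_fang]; linarith
  · refine tendsto_atBot_mono (f := fun θ => θ + π / 2) (fun θ => ?_)
      (tendsto_atBot_add_const_right _ _ tendsto_id)
    have := (abs_lt.1 (abs_ang_sub_lt (E.prong0_s θ) θ)).2
    rw [prong0_fang]; linarith

theorem prong0_P_pos : (0 : ℝ) < E.P := by exact_mod_cast E.hP

theorem prong0_s_mer (θ : ℝ) :
    E.prong0_s (ang (2 * LL * E.Q) θ + E.P * π) + 2 * LL * E.Q = E.prong0_s θ := by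
  have hP := E.prong0_P_pos
  unfold prong0_s
  rw [prong0_floor_add, prong0_floor_half_add, floor_ang, floor_ang_half]
  unfold sig
  push_cast
  field_simp
  ring

theorem prong0_g_mer (θ : ℝ) :
    E.prong0_g (ang (2 * LL * E.Q) θ + E.P * π) = E.prong0_g θ := by
  unfold prong0_g
  rw [prong0_floor_add, prong0_floor_half_add, floor_ang, floor_ang_half]
  congr 4; ring

theorem prong0_toNat : ((E.P.toNat : ℕ) : ℝ) = E.P := by
  have : ((E.P.toNat : ℕ) : ℤ) = E.P := Int.toNat_of_nonneg E.hP.le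
  exact_mod_cast this

theorem flat_eq (r θ : ℝ) (hr : 0 ≤ r) : E.flat r θ = (‖E.flat r θ‖ : ℂ) * dir (E.fang θ) := by
  rw [E.prong0_norm hr]; exact E.prong0_flat r θ
theorem norm_flat (r θ : ℝ) (hr : 0 ≤ r) : ‖E.flat r θ‖ = r * ‖E.flat 1 θ‖ := by
  rw [E.prong0_norm hr, E.prong0_norm zero_le_one, one_mul]
theorem norm_flat_pos (θ : ℝ) : 0 < ‖E.flat 1 θ‖ := by
  rw [E.prong0_norm zero_le_one, one_mul]
  exact mul_pos (E.prong0_g_pos θ) (nrm_pos _ _)
theorem continuous_flat : Continuous fun a : ℝ × ℝ => E.flat a.1 a.2 := by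
  have h1 : Continuous fun θ => E.al θ * Real.cos θ :=
    prong0_cont (φ := fun θ => θ / π + 1 / 2) (by fun_prop) Real.continuous_cos
      (fun n => Real.exp (-(LL * E.sig * (n : ℤ)))) fun _ h => prong0_cos h
  have h2 : Continuous fun θ => E.be θ * Real.sin θ :=
    prong0_cont (φ := fun θ => θ / π) (by fun_prop) Real.continuous_sin
      (fun n => Real.exp (LL * E.sig * (n : ℤ))) fun _ h => prong0_sin h
  have h3 : Continuous fun a : ℝ × ℝ =>
      ((a.1 * (E.al a.2 * Real.cos a.2) : ℝ) : ℂ) +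
        ((a.1 * (E.be a.2 * Real.sin a.2) : ℝ) : ℂ) * I :=
    (Complex.continuous_ofReal.comp (continuous_fst.mul (h1.comp continuous_snd))).add
      ((Complex.continuous_ofReal.comp (continuous_fst.mul (h2.comp continuous_snd))).mul
        continuous_const)
  refine h3.congr fun a => ?_
  apply Complex.ext
  · simp only [flat, Complex.add_re, Complex.ofReal_re, Complex.re_ofReal_mul, Complex.I_re]; ring
  · simp only [flat, Complex.add_im, Complex.ofReal_im, Complex.im_ofReal_mul, Complex.I_im]; ring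
theorem continuous_zf : Continuous fun a : ℝ × ℝ => E.zf a.1 a.2 := by
  have hP := E.prong0_P_pos
  unfold zf
  refine (Complex.continuous_ofReal.comp (E.continuous_flat.norm.rpow_const fun _ =>
    Or.inr (by positivity))).mul (continuous_dir.comp ?_)
  exact (continuous_const.mul (E.prong0_cont_fang.comp continuous_snd)).div_const _
theorem zf_ne_zero {r : ℝ} (hr : 0 < r) (θ : ℝ) : E.zf r θ ≠ 0 := by
  unfold zf
  refine mul_ne_zero ?_ ?_
  · have h : 0 < ‖E.flat r θ‖ := by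
      rw [E.norm_flat r θ hr.le]; exact mul_pos hr (E.norm_flat_pos θ)
    exact Complex.ofReal_ne_zero.2 (Real.rpow_pos_of_pos h _).ne'
  · exact Complex.exp_ne_zero _
theorem exists_fang_homeo : ∃ Z : ℝ ≃ₜ ℝ, ∀ θ, Z θ = E.fang θ :=
  ⟨(E.prong0_mono_fang.orderIsoOfSurjective E.fang E.prong0_surj_fang).toHomeomorph, fun _ => rfl⟩
/-- Invariance under the deck transformation of the new meridian. -/
theorem fang_mer (θ : ℝ) : E.fang (ang (2 * LL * E.Q) θ + E.P * π) = E.fang θ + E.P * π := by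
  rw [prong0_fang, ang_add_int_pi, ang_ang, prong0_s_mer, prong0_fang]
theorem norm_flat_mer (θ : ℝ) :
    nrm (2 * LL * E.Q) θ * ‖E.flat 1 (ang (2 * LL * E.Q) θ + E.P * π)‖ = ‖E.flat 1 θ‖ := by
  rw [E.prong0_norm zero_le_one, E.prong0_norm zero_le_one, prong0_g_mer, prong0_nrm_add,
    ← E.prong0_s_mer θ, ← nrm_ang]
  ring
theorem zf_pow {r : ℝ} (hr : 0 ≤ r) (θ : ℝ) : E.zf r θ ^ E.P.toNat = E.flat r θ ^ 2 := by
  have hP := E.prong0_P_pos
  have h1 : (‖E.flat r θ‖ ^ (2 / (E.P : ℝ))) ^ E.P.toNat = ‖E.flat r θ‖ ^ 2 := by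
    rw [← Real.rpow_natCast, ← Real.rpow_mul (norm_nonneg _), prong0_toNat,
      div_mul_cancel₀ _ hP.ne', Real.rpow_two]
  have h2 : ((E.P.toNat : ℕ) : ℝ) * (2 * E.fang θ / E.P) = ((2 : ℕ) : ℝ) * E.fang θ := by
    rw [prong0_toNat]; push_cast; field_simp
  unfold zf
  rw [mul_pow, ← Complex.ofReal_pow, h1, prong0_dir_pow, h2, ← prong0_dir_pow,
    Complex.ofReal_pow, ← mul_pow, ← E.flat_eq r θ hr]
theorem zf_stable {r : ℝ} (hr : 0 ≤ r) (θ : ℝ) :
    ‖E.zf r θ‖ ^ E.P.toNat + (E.zf r θ ^ E.P.toNat).re = 2 * (E.al θ * (r * Real.cos θ)) ^ 2 := by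
  rw [← norm_pow, E.zf_pow hr, norm_pow, Complex.sq_norm, Complex.normSq_apply, sq (E.flat r θ),
    Complex.mul_re]
  simp only [flat]; ring
theorem zf_unstable {r : ℝ} (hr : 0 ≤ r) (θ : ℝ) :
    ‖E.zf r θ‖ ^ E.P.toNat - (E.zf r θ ^ E.P.toNat).re = 2 * (E.be θ * (r * Real.sin θ)) ^ 2 := by
  rw [← norm_pow, E.zf_pow hr, norm_pow, Complex.sq_norm, Complex.normSq_apply, sq (E.flat r θ),
    Complex.mul_re]
  simp only [flat]; ring
theorem al_locally_const {θ : ℝ} (h : Real.cos θ ≠ 0) : ∀ᶠ θ' in 𝓝 θ, E.al θ' = E.al θ := by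
  filter_upwards [prong0_floor_ev (φ := fun θ => θ / π + 1 / 2) (by fun_prop)
    fun n hn => h (prong0_cos ⟨n, hn⟩)] with y hy
  unfold al
  rw [hy]
theorem be_locally_const {θ : ℝ} (h : Real.sin θ ≠ 0) : ∀ᶠ θ' in 𝓝 θ, E.be θ' = E.be θ := by
  filter_upwards [prong0_floor_ev (φ := fun θ => θ / π) (by fun_prop)
    fun n hn => h (prong0_sin ⟨n, hn⟩)] with y hy
  unfold be
  rw [hy]

end End

end Pool.Agent.Zig
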