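import Pool.Agent.Lib.MP_d77862_gt.Prong0

noncomputable section

namespace Pool.Agent.Zig

open Set Filter Topology Complex Real

/-! The prong coordinates. -/

theorem prong1_nrm_int (s θ : ℝ) (k : ℤ) : nrm s (θ + k * π) = nrm s θ := by
  have h : Function.Periodic (nrm s) π := fun x => nrm_add_pi s x
  exact h.int_mul k θ

namespace End

variable (E : End)

theorem prong1_P_pos : (0 : ℝ) < E.P := by exact_mod_cast E.hP

theorem prong1_Bi_mer (θ b : ℝ) :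
    E.Bi (ang (2 * LL * E.Q) θ + E.P * π) b = E.Bi θ b + 2 * ((-E.Q : ℤ) : ℝ) := by
  have hP := E.prong1_P_pos
  apply (E.mono (ang (2 * LL * E.Q) θ + E.P * π)).injective
  rw [E.B_Bi, E.mu_int]
  have h := E.del_int θ (E.Bi θ b) (-E.Q)
  have e : -(2 * LL * ((-E.Q : ℤ) : ℝ)) = 2 * LL * E.Q := by push_cast; ring
  rw [e] at h
  rw [h, E.B_Bi, End.sig]
  push_cast
  field_simp
  ring

theorem prong1_aa_mer (θ t : ℝ) :
    E.aa (ang (2 * LL * E.Q) θ + E.P * π) (t + 2 * ((-E.Q : ℤ) : ℝ)) = E.aa θ t + 1 := by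
  have h := E.aa_deck θ t E.P (-E.Q)
  have e : -(2 * LL * ((-E.Q : ℤ) : ℝ)) = 2 * LL * E.Q := by push_cast; ring
  rw [e] at h
  rw [h]
  have hd : E.P * E.u + -E.Q * E.v = 1 := by have := E.det; linarith
  rw [hd]; simp

theorem prong1_om_mer (θ t : ℝ) :
    nrm (LL * (t + 2 * ((-E.Q : ℤ) : ℝ))) (ang (2 * LL * E.Q) θ + E.P * π) /
      ‖E.flat 1 (ang (2 * LL * E.Q) θ + E.P * π)‖ = nrm (LL * t) θ / ‖E.flat 1 θ‖ := by
  have h1 := E.norm_flat_mer θ
  have h2 := nrm_ang (LL * (t + 2 * ((-E.Q : ℤ) : ℝ))) (2 * LL * E.Q) θ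
  have e : LL * (t + 2 * ((-E.Q : ℤ) : ℝ)) + 2 * LL * E.Q = LL * t := by push_cast; ring
  rw [e] at h2
  rw [prong1_nrm_int, ← h1, ← h2]
  have h3 := nrm_pos (2 * LL * E.Q) θ
  rw [mul_comm (nrm (2 * LL * E.Q) θ), mul_div_mul_right _ _ h3.ne']

/-- The angular change of coordinates. -/
def prong1_Om (Z : ℝ ≃ₜ ℝ) : ℝ × ℝ ≃ₜ ℝ × ℝ where
  toFun a := (2 * π * (E.phi (Z.symm (E.P * a.1 / 2), E.Bi (Z.symm (E.P * a.1 / 2)) a.2)).1, a.2)
  invFun a := (2 * Z (E.phi.symm (a.1 / (2 * π), E.P * a.2 / 2)).1 / E.P, a.2)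
  left_inv a := by
    have hP := E.prong1_P_pos
    have hpi := Real.pi_pos
    set θ := Z.symm (E.P * a.1 / 2) with hθ
    have h1 : (2 * π * (E.phi (θ, E.Bi θ a.2)).1 / (2 * π), (E.P : ℝ) * a.2 / 2) =
        E.phi (θ, E.Bi θ a.2) := by
      rw [E.phi_apply]
      refine Prod.ext ?_ ?_
      · simp only []; field_simp
      · simp only [End.bb, E.B_Bi]
    refine Prod.ext ?_ rfl
    simp only []
    rw [h1, Homeomorph.symm_apply_apply]
    simp only [hθ, Homeomorph.apply_symm_apply]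
    field_simp
  right_inv a := by
    have hP := E.prong1_P_pos
    have hpi := Real.pi_pos
    set p := E.phi.symm (a.1 / (2 * π), E.P * a.2 / 2) with hp
    have h0 : E.phi (p.1, p.2) = (a.1 / (2 * π), (E.P : ℝ) * a.2 / 2) := by
      rw [hp]; exact E.phi.apply_symm_apply _
    have h1 : (E.P : ℝ) * (2 * Z p.1 / E.P) / 2 = Z p.1 := by field_simp
    have h2 : E.B p.1 p.2 = a.2 := by
      have := congrArg Prod.snd h0
      rw [E.phi_apply] at this
      simp only [End.bb] at this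
      have h3 : (E.P : ℝ) * E.B p.1 p.2 = E.P * a.2 := by linarith
      exact mul_left_cancel₀ hP.ne' h3
    refine Prod.ext ?_ rfl
    simp only []
    rw [h1, Homeomorph.symm_apply_apply, ← h2, E.Bi_B, h0]
    simp only []
    field_simp
  continuous_toFun := by
    have h1 : Continuous fun a : ℝ × ℝ => Z.symm (E.P * a.1 / 2) := by fun_prop
    have h2 : Continuous fun a : ℝ × ℝ => E.Bi (Z.symm (E.P * a.1 / 2)) a.2 :=
      E.continuous_Bi.comp (h1.prodMk continuous_snd)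
    exact (continuous_const.mul (continuous_fst.comp
      (E.phi.continuous.comp (h1.prodMk h2)))).prodMk continuous_snd
  continuous_invFun := by fun_prop

theorem prong1_Om_apply (Z : ℝ ≃ₜ ℝ) (ϑ b : ℝ) : E.prong1_Om Z (ϑ, b) =
    (2 * π * E.aa (Z.symm (E.P * ϑ / 2)) (E.Bi (Z.symm (E.P * ϑ / 2)) b), b) := by
  have : E.prong1_Om Z (ϑ, b) = (2 * π * (E.phi (Z.symm (E.P * ϑ / 2),
    E.Bi (Z.symm (E.P * ϑ / 2)) b)).1, b) := rfl
  rw [this, E.phi_apply]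

/-- The change from prong coordinates to tube coordinates. Apply `polar_descent` with
`θ = Z⁻¹ (P ϑ / 2)`, `t = Bi θ b`, `Ω (ϑ, b) = (2 π aa θ t, b)`,
`ω (ϑ, b) = nrm (LL * t) θ / ‖flat 1 θ‖`, `α = P / 2`. -/
theorem exists_prong_homeo : ∃ G : ℂ × ℝ ≃ₜ ℂ × ℝ, (∀ b, G (0, b) = (0, b)) ∧
    (∀ a, (G a).2 = a.2) ∧
    (∀ r θ t, 0 < r → G (E.zf r θ, E.B θ t) =
      (((r * nrm (LL * t) θ : ℝ) : ℂ) * dir (2 * π * E.aa θ t), E.B θ t)) ∧
    ∀ z b, z ≠ 0 → ∃ r θ t, 0 < r ∧ z = E.zf r θ ∧ b = E.B θ t := by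
  obtain ⟨Z, hZ⟩ := E.exists_fang_homeo
  have hP := E.prong1_P_pos
  have hmer : ∀ ϑ : ℝ, Z.symm (E.P * (ϑ + 2 * π) / 2) =
      ang (2 * LL * E.Q) (Z.symm (E.P * ϑ / 2)) + E.P * π := by
    intro ϑ
    apply Z.injective
    rw [Homeomorph.apply_symm_apply, hZ, E.fang_mer, ← hZ, Homeomorph.apply_symm_apply]
    ring
  set ω : ℝ × ℝ → ℝ := fun a =>
    nrm (LL * E.Bi (Z.symm (E.P * a.1 / 2)) a.2) (Z.symm (E.P * a.1 / 2)) /
      ‖E.flat 1 (Z.symm (E.P * a.1 / 2))‖ with hω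
  have h1 : Continuous fun a : ℝ × ℝ => Z.symm (E.P * a.1 / 2) := by fun_prop
  have h2 : Continuous fun a : ℝ × ℝ => E.Bi (Z.symm (E.P * a.1 / 2)) a.2 :=
    E.continuous_Bi.comp (h1.prodMk continuous_snd)
  have hωc : Continuous ω := by
    refine Continuous.div ?_ ?_ fun a => (E.norm_flat_pos _).ne'
    · exact continuous_nrm.comp ((continuous_const.mul h2).prodMk h1)
    · exact (E.continuous_flat.comp (continuous_const.prodMk h1)).norm
  obtain ⟨G, hG⟩ := polar_descent (E.prong1_Om Z) (fun _ => rfl)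
    (fun ϑ b => by
      rw [E.prong1_Om_apply, E.prong1_Om_apply, hmer, E.prong1_Bi_mer, E.prong1_aa_mer]
      simp only []; ring)
    hωc (fun a => div_pos (nrm_pos _ _) (E.norm_flat_pos _))
    (fun ϑ b => by
      simp only [hω]
      rw [hmer, E.prong1_Bi_mer, E.prong1_om_mer])
    (α := (E.P : ℝ) / 2) (by positivity)
  have hθ : ∀ θ : ℝ, Z.symm (E.P * (2 * E.fang θ / E.P) / 2) = θ := by
    intro θ
    have : (E.P : ℝ) * (2 * E.fang θ / E.P) / 2 = Z θ := by rw [hZ]; field_simp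
    rw [this, Homeomorph.symm_apply_apply]
  refine ⟨G, fun b => ?_, fun a => ?_, fun r θ t hr => ?_, fun z b hz => ?_⟩
  · have h := hG 0 0 b le_rfl
    rw [Real.zero_rpow (by positivity)] at h
    simpa using h
  · have h := hG ‖a.1‖ (arg a.1) a.2 (norm_nonneg _)
    rw [norm_mul_dir_arg] at h
    have : G a = G (a.1, a.2) := rfl
    rw [this, h]
  · have h := hG (‖E.flat r θ‖ ^ (2 / (E.P : ℝ))) (2 * E.fang θ / E.P) (E.B θ t) (by positivity)
    rw [End.zf, h, E.prong1_Om_apply]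
    simp only [hω]
    rw [hθ, E.Bi_B, ← Real.rpow_mul (norm_nonneg _)]
    have e : 2 / (E.P : ℝ) * (E.P / 2) = 1 := by field_simp
    rw [e, Real.rpow_one, E.norm_flat r θ hr.le]
    have h4 := E.norm_flat_pos θ
    have e2 : r * ‖E.flat 1 θ‖ * (nrm (LL * t) θ / ‖E.flat 1 θ‖) = r * nrm (LL * t) θ := by
      field_simp
    rw [e2]
  · have hz' : 0 < ‖z‖ := norm_pos_iff.mpr hz
    set θ := Z.symm (E.P * arg z / 2) with hθd
    have h4 := E.norm_flat_pos θ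
    have hr : 0 < ‖z‖ ^ ((E.P : ℝ) / 2) / ‖E.flat 1 θ‖ := by positivity
    refine ⟨‖z‖ ^ ((E.P : ℝ) / 2) / ‖E.flat 1 θ‖, θ, E.Bi θ b, hr, ?_, (E.B_Bi θ b).symm⟩
    rw [End.zf, E.norm_flat _ θ hr.le, div_mul_cancel₀ _ h4.ne', ← Real.rpow_mul hz'.le]
    have e : (E.P : ℝ) / 2 * (2 / E.P) = 1 := by field_simp
    have e2 : 2 * E.fang θ / E.P = arg z := by
      rw [← hZ, hθd, Homeomorph.apply_symm_apply]; field_simp
    rw [e, Real.rpow_one, e2, norm_mul_dir_arg]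

end End

end Pool.Agent.Zig
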