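import Pool.Agent.Lib.MP_d77862_gt.Prong1
import Pool.Agent.Lib.MP_d77862_gt.ModelL

noncomputable section

namespace Pool.Agent.Zig

open Set Filter Topology Complex Real

/-! Prong coordinates: `F (z, b) = τ i (w / (eps - ‖w‖), exp (π P b))` with `w = (G (z, b)).1`,
on `V = {‖w‖ < eps}`. -/

variable {E : Fin 2 → End} {M : Type} [TopologicalSpace M]

/-- The radial stretch of the ball of radius `eps` onto the plane. -/
def prong2_sc (w : ℂ) : ℂ := (((eps - ‖w‖)⁻¹ : ℝ) : ℂ) * w

/-- The inverse of the radial stretch. -/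
def prong2_un (z : ℂ) : ℂ := ((eps / (1 + ‖z‖) : ℝ) : ℂ) * z

theorem prong2_norm_un (z : ℂ) : ‖prong2_un z‖ = eps * ‖z‖ / (1 + ‖z‖) := by
  have h1 : 0 < 1 + ‖z‖ := by positivity
  have h2 : 0 ≤ eps / (1 + ‖z‖) := (div_pos eps_pos h1).le
  unfold prong2_un
  rw [norm_mul, Complex.norm_real, Real.norm_eq_abs, abs_of_nonneg h2]
  ring

theorem prong2_un_lt (z : ℂ) : ‖prong2_un z‖ < eps := by
  have h1 : 0 < 1 + ‖z‖ := by positivity
  rw [prong2_norm_un, div_lt_iff₀ h1]
  nlinarith [eps_pos]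

theorem prong2_sc_un (z : ℂ) : prong2_sc (prong2_un z) = z := by
  have h1 : 0 < 1 + ‖z‖ := by positivity
  have he := eps_pos
  have h3 : (eps - eps * ‖z‖ / (1 + ‖z‖))⁻¹ * (eps / (1 + ‖z‖)) = 1 := by
    have : eps - eps * ‖z‖ / (1 + ‖z‖) = eps / (1 + ‖z‖) := by
      field_simp
      ring
    rw [this]
    exact inv_mul_cancel₀ (div_pos he h1).ne'
  unfold prong2_sc
  rw [prong2_norm_un]
  unfold prong2_un
  rw [← mul_assoc, ← Complex.ofReal_mul, h3]
  simp

theorem prong2_norm_sc {w : ℂ} (h : ‖w‖ < eps) : ‖prong2_sc w‖ = ‖w‖ / (eps - ‖w‖) := by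
  have h1 : 0 < eps - ‖w‖ := sub_pos.2 h
  unfold prong2_sc
  rw [norm_mul, Complex.norm_real, Real.norm_eq_abs, abs_of_nonneg (inv_pos.2 h1).le]
  ring

theorem prong2_un_sc {w : ℂ} (h : ‖w‖ < eps) : prong2_un (prong2_sc w) = w := by
  have h1 : 0 < eps - ‖w‖ := sub_pos.2 h
  have he := eps_pos
  have h3 : eps / (1 + ‖w‖ / (eps - ‖w‖)) * (eps - ‖w‖)⁻¹ = 1 := by
    have : 1 + ‖w‖ / (eps - ‖w‖) = eps / (eps - ‖w‖) := by
      field_simp
      ring
    rw [this]
    field_simp
  unfold prong2_un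
  rw [prong2_norm_sc h]
  unfold prong2_sc
  rw [← mul_assoc, ← Complex.ofReal_mul, h3]
  simp

theorem prong2_continuous_un : Continuous prong2_un := by
  unfold prong2_un
  refine Continuous.mul (Complex.continuous_ofReal.comp ?_) continuous_id
  refine continuous_const.div (by fun_prop) fun z => ?_
  positivity

theorem prong2_continuousOn_sc : ContinuousOn prong2_sc {w | ‖w‖ < eps} := by
  unfold prong2_sc
  refine ContinuousOn.mul (Complex.continuous_ofReal.comp_continuousOn ?_) continuousOn_id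
  refine ContinuousOn.inv₀ (by fun_prop) fun w hw => ?_
  exact (sub_pos.2 hw).ne'

theorem prong2_sc_eq_zero {w : ℂ} (h : ‖w‖ < eps) : prong2_sc w = 0 ↔ w = 0 := by
  have h1 : 0 < eps - ‖w‖ := sub_pos.2 h
  unfold prong2_sc
  rw [mul_eq_zero, Complex.ofReal_eq_zero]
  constructor
  · rintro (h2 | h2)
    · exact absurd h2 (inv_pos.2 h1).ne'
    · exact h2
  · exact fun h2 => Or.inr h2

theorem prong2_norm_polar {R : ℝ} (hR : 0 ≤ R) (θ : ℝ) : ‖(R : ℂ) * dir θ‖ = R := by
  rw [norm_mul, norm_dir, Complex.norm_real, Real.norm_eq_abs, abs_of_nonneg hR, mul_one]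

theorem prong2_sc_polar {R : ℝ} (hR : 0 ≤ R) (θ : ℝ) :
    prong2_sc ((R : ℂ) * dir θ) = (rad R : ℂ) * dir θ := by
  unfold prong2_sc
  rw [prong2_norm_polar hR, ← mul_assoc, ← Complex.ofReal_mul]
  congr 2
  unfold rad
  ring

theorem prong2_P_pos (D : End) : (0 : ℝ) < D.P := by exact_mod_cast D.hP

theorem prong2_isOpenMap_ex (D : End) : IsOpenMap fun b : ℝ => Circle.exp (π * D.P * b) := by
  have h : π * (D.P : ℝ) ≠ 0 := (mul_pos Real.pi_pos (prong2_P_pos D)).ne'
  exact isLocalHomeomorph_circleExp.isOpenMap.comp (Homeomorph.mulLeft₀ _ h).isOpenMap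

theorem prong2_surj_ex (D : End) (u : Circle) : ∃ b : ℝ, Circle.exp (π * D.P * b) = u := by
  have h : π * (D.P : ℝ) ≠ 0 := (mul_pos Real.pi_pos (prong2_P_pos D)).ne'
  obtain ⟨s, hs⟩ := Circle.exp_surjective u
  refine ⟨s / (π * D.P), ?_⟩
  rw [mul_div_cancel₀ _ h]
  exact hs

theorem exists_prong (m : Model E M) (i : Fin 2) : Nonempty (Prong m i) := by
  obtain ⟨G, hG0, hG2, hGs, hGo⟩ := (E i).exists_prong_homeo
  have hGe : ∀ a, G a = ((G a).1, a.2) := fun a => Prod.ext rfl (hG2 a)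
  have hGz : ∀ z b, (G (z, b)).1 = 0 ↔ z = 0 := by
    intro z b
    constructor
    · intro h
      have h1 : G (z, b) = G (0, b) := by
        rw [hG0, hGe, h]
      exact congrArg Prod.fst (G.injective h1)
    · rintro rfl
      rw [hG0]
  have hτ := m.tube.1 i
  have himg : ∀ U : Set (ℂ × ℝ), U ⊆ {a | ‖(G a).1‖ < eps} →
      (fun a : ℂ × ℝ => m.τ i (prong2_sc (G a).1, Circle.exp (π * (E i).P * a.2))) '' U =
        m.τ i '' (Prod.map id (fun b : ℝ => Circle.exp (π * (E i).P * b)) ''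
          ((fun a : ℂ × ℝ => G.symm (prong2_un a.1, a.2)) ⁻¹' U)) := by
    intro U hU
    ext x
    constructor
    · rintro ⟨a, ha, rfl⟩
      refine ⟨_, ⟨(prong2_sc (G a).1, a.2), ?_, rfl⟩, rfl⟩
      simp only [mem_preimage]
      rw [prong2_un_sc (hU ha), ← hGe, G.symm_apply_apply]
      exact ha
    · rintro ⟨_, ⟨a, ha, rfl⟩, rfl⟩
      refine ⟨_, ha, ?_⟩
      have h2 : (G.symm (prong2_un a.1, a.2)).2 = a.2 := by
        rw [← hG2, G.apply_symm_apply]
      simp only [G.apply_symm_apply, h2, prong2_sc_un]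
      rfl
  refine ⟨{
    F := fun a => m.τ i (prong2_sc (G a).1, Circle.exp (π * (E i).P * a.2))
    V := {a | ‖(G a).1‖ < eps}
    opnV := isOpen_lt (by fun_prop) continuous_const
    axis := ?_
    cont := ?_
    opn := ?_
    img := ?_
    lev := ?_
    inj := ?_
    spec := ?_
    onto := ?_ }⟩
  · intro b
    simp only [mem_ofPred_eq, hG0, norm_zero]
    exact eps_pos
  · refine hτ.continuous.comp_continuousOn (ContinuousOn.prodMk ?_ ?_)
    · exact prong2_continuousOn_sc.comp (continuous_fst.comp G.continuous).continuousOn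
        fun a ha => ha
    · exact (Circle.exp.continuous.comp (by fun_prop)).continuousOn
  · intro U hU hUV
    rw [himg U hUV]
    refine hτ.isOpenMap _ ((IsOpenMap.id.prodMap (prong2_isOpenMap_ex (E i))) _ ?_)
    exact hU.preimage (G.symm.continuous.comp
      ((prong2_continuous_un.comp continuous_fst).prodMk continuous_snd))
  · rw [himg _ Subset.rfl]
    ext x
    constructor
    · rintro ⟨w, -, rfl⟩
      exact ⟨w, rfl⟩
    · rintro ⟨⟨w, u⟩, rfl⟩
      obtain ⟨b, rfl⟩ := prong2_surj_ex (E i) u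
      refine ⟨_, ⟨(w, b), ?_, rfl⟩, rfl⟩
      simp only [mem_preimage, mem_ofPred_eq, G.apply_symm_apply]
      exact prong2_un_lt w
  · intro z b hz
    exact ⟨_, rfl, (prong2_sc_eq_zero hz).trans (hGz z b)⟩
  · intro z z' b hz hz' h
    have h1 := congrArg Prod.fst (hτ.injective h)
    have h2 : (G (z, b)).1 = (G (z', b)).1 := by
      rw [← prong2_un_sc hz, ← prong2_un_sc hz']
      exact congrArg prong2_un h1
    have h3 : G (z, b) = G (z', b) := by
      rw [hGe, hGe (z', b), h2]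
    exact congrArg Prod.fst (G.injective h3)
  · intro r θ t hr h
    have hR : 0 ≤ r * nrm (LL * t) θ := (mul_pos hr (nrm_pos _ _)).le
    refine ⟨?_, ?_⟩
    · simp only [mem_ofPred_eq, hGs r θ t hr]
      rw [prong2_norm_polar hR]
      exact h
    · simp only [hGs r θ t hr]
      rw [prong2_sc_polar hR, m.tau_eq i r θ t hr h]
      congr 3
      unfold End.bb
      ring
  · intro z b hz hz0
    obtain ⟨r, θ, t, hr, rfl, rfl⟩ := hGo z b hz0
    have hR : 0 ≤ r * nrm (LL * t) θ := (mul_pos hr (nrm_pos _ _)).le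
    refine ⟨r, θ, t, hr, ?_, rfl, rfl⟩
    simp only [mem_ofPred_eq, hGs r θ t hr] at hz
    rwa [prong2_norm_polar hR] at hz

/-- The chart defined by prong coordinates around a core point. -/
theorem Prong.exists_chart {m : Model E M} {i : Fin 2} (R : Prong m i) (b0 : ℝ) :
    ∃ e : OpenPartialHomeomorph M (ℂ × ℝ), ((0 : ℂ), b0) ∈ e.target ∧ e.target ⊆ R.V ∧
      (∀ a ∈ e.target, |a.2 - b0| < 1 / (E i).P) ∧
      e.source = R.F '' e.target ∧ ∀ a ∈ e.target, e (R.F a) = a := by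
  have hP := prong2_P_pos (E i)
  have hU : IsOpen (R.V ∩ {a : ℂ × ℝ | |a.2 - b0| < 1 / (E i).P}) :=
    R.opnV.inter (isOpen_lt (by fun_prop) continuous_const)
  have hi : InjOn R.F (R.V ∩ {a : ℂ × ℝ | |a.2 - b0| < 1 / (E i).P}) := by
    rintro ⟨z, b⟩ ⟨h1, h2⟩ ⟨z', b'⟩ ⟨h1', h2'⟩ h
    obtain ⟨w, hw, -⟩ := R.lev z b h1
    obtain ⟨w', hw', -⟩ := R.lev z' b' h1'
    have h3 := congrArg Prod.snd (m.tau_inj (hw.symm.trans (h.trans hw'))).2
    obtain ⟨k, hk⟩ := Circle.exp_eq_exp.1 h3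
    simp only [mem_ofPred_eq] at h2 h2'
    have h4 : ((E i).P : ℝ) * (b - b') = 2 * k := by
      have : π * (((E i).P : ℝ) * (b - b')) = π * (2 * k) := by linarith
      exact mul_left_cancel₀ Real.pi_ne_zero this
    rw [lt_div_iff₀ hP] at h2 h2'
    have h5 : |((E i).P : ℝ) * (b - b')| < 2 := by
      rw [abs_mul, abs_of_pos hP]
      have : |b - b'| ≤ |b - b0| + |b' - b0| := by
        have := abs_sub (b - b0) (b' - b0)
        rwa [sub_sub_sub_cancel_right] at this
      nlinarith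
    rw [h4, abs_lt] at h5
    have h6 : k = 0 := by
      have h7 : (-1 : ℝ) < k := by linarith [h5.1]
      have h8 : (k : ℝ) < 1 := by linarith [h5.2]
      have h9 : (-1 : ℤ) < k := by exact_mod_cast h7
      have h10 : k < 1 := by exact_mod_cast h8
      omega
    have h7 : b = b' := by
      rw [h6] at h4
      have : ((E i).P : ℝ) * (b - b') = 0 := by simpa using h4
      rcases mul_eq_zero.1 this with h8 | h8
      · exact absurd h8 hP.ne'
      · linarith
    subst h7
    rw [R.inj z z' b h1 h1' h]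
  obtain ⟨e, hs, ht, he⟩ := exists_oph hU (R.cont.mono inter_subset_left) hi
    fun W hW hWU => R.opn W hW (hWU.trans inter_subset_left)
  refine ⟨e.symm, ?_, ?_, ?_, ?_, ?_⟩
  · rw [OpenPartialHomeomorph.symm_target, hs]
    refine ⟨R.axis b0, ?_⟩
    simp only [mem_ofPred_eq, sub_self, abs_zero]
    positivity
  · rw [OpenPartialHomeomorph.symm_target, hs]
    exact inter_subset_left
  · rw [OpenPartialHomeomorph.symm_target, hs]
    exact fun a ha => ha.2
  · rw [OpenPartialHomeomorph.symm_target, OpenPartialHomeomorph.symm_source, hs, ht]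
  · intro a ha
    rw [OpenPartialHomeomorph.symm_target] at ha
    rw [← he]
    exact e.left_inv ha

end Pool.Agent.Zig
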