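import Pool.Agent.Lib.MP_d77862_gt.Util

noncomputable section

namespace Pool.Agent.Zig

open Set Filter Topology Complex Real

/-! Functions defined slab by slab. For `π₀ ∈ {0, 1}` the slabs of parity `π₀` are the intervals
`[(j - 1) / 2, (j + 1) / 2)` with `j ≡ π₀ mod 2`. -/

/-- The index of the slab of parity `o` containing `t`. -/
def jj (o : ℤ) (t : ℝ) : ℤ := 2 * ⌊t + (1 - o) / 2⌋ + o

/-- The closed slab. -/
def slab (j : ℤ) : Set ℝ := Icc (((j : ℝ) - 1) / 2) (((j : ℝ) + 1) / 2)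

/-- Glue a family of maps along the slabs of parity `o`. -/
def glue (o : ℤ) (f : ℤ → ℝ → ℝ) (t : ℝ) : ℝ := f (jj o t) t

/-- The maps of the family with index of parity `o` are increasing and fix the ends of their
slabs. -/
def Good (o : ℤ) (f : ℤ → ℝ → ℝ) : Prop :=
  ∀ j, Even (j - o) → StrictMono (f j) ∧ f j (((j : ℝ) - 1) / 2) = ((j : ℝ) - 1) / 2 ∧
    f j (((j : ℝ) + 1) / 2) = ((j : ℝ) + 1) / 2

theorem even_jj (o : ℤ) (t : ℝ) : Even (jj o t - o) :=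
  ⟨⌊t + (1 - o) / 2⌋, by unfold jj; ring⟩
theorem mem_slab_jj (o : ℤ) (t : ℝ) : t ∈ slab (jj o t) := by
  have h1 := Int.floor_le (t + (1 - o) / 2)
  have h2 := Int.lt_floor_add_one (t + (1 - o) / 2)
  unfold slab jj
  push_cast
  constructor <;> linarith
theorem jj_eq_iff {o j : ℤ} (h : Even (j - o)) (t : ℝ) :
    jj o t = j ↔ ((j : ℝ) - 1) / 2 ≤ t ∧ t < ((j : ℝ) + 1) / 2 := by
  obtain ⟨k, hk⟩ := h
  have hj : j = 2 * k + o := by omega
  have : jj o t = j ↔ ⌊t + (1 - o) / 2⌋ = k := by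
    unfold jj
    omega
  rw [this, Int.floor_eq_iff, hj]
  push_cast
  constructor <;> rintro ⟨a, b⟩ <;> constructor <;> linarith
theorem jj_sub_int (o n : ℤ) (t : ℝ) : jj o (t - n) = jj o t - 2 * n := by
  unfold jj
  rw [show t - n + (1 - o) / 2 = t + (1 - o) / 2 - n by ring, Int.floor_sub_intCast]
  ring
theorem mem_slab_sub_int (j n : ℤ) (t : ℝ) : t - n ∈ slab (j - 2 * n) ↔ t ∈ slab j := by
  unfold slab
  push_cast
  constructor <;> rintro ⟨a, b⟩ <;> constructor <;> linarith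
theorem finite_slab (t : ℝ) : {j | t ∈ slab j}.Finite := by
  refine (Set.finite_Icc (⌈2 * t - 1⌉) (⌊2 * t + 1⌋)).subset fun j hj => ?_
  obtain ⟨a, b⟩ := hj
  exact ⟨Int.ceil_le.2 (by linarith), Int.le_floor.2 (by linarith)⟩
/-- Nearby heights lie in no new slab. -/
theorem eventually_slab (t : ℝ) : ∀ᶠ t' in 𝓝 t, ∀ j, t' ∈ slab j → t ∈ slab j := by
  have h1 : ((⌈2 * t⌉ : ℝ) - 1) / 2 < t := by linarith [Int.ceil_lt_add_one (2 * t)]
  have h2 : t < ((⌊2 * t⌋ : ℝ) + 1) / 2 := by linarith [Int.lt_floor_add_one (2 * t)]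
  filter_upwards [Ioo_mem_nhds h1 h2] with t' ht' j hj
  obtain ⟨a, b⟩ := hj
  obtain ⟨c, d⟩ := ht'
  have e1 : j - 1 < ⌊2 * t⌋ + 1 := by
    have : ((j - 1 : ℤ) : ℝ) < ((⌊2 * t⌋ + 1 : ℤ) : ℝ) := by push_cast; linarith
    exact_mod_cast this
  have e2 : ⌈2 * t⌉ - 1 < j + 1 := by
    have : ((⌈2 * t⌉ - 1 : ℤ) : ℝ) < ((j + 1 : ℤ) : ℝ) := by push_cast; linarith
    exact_mod_cast this
  have e3 : ((j - 1 : ℤ) : ℝ) ≤ 2 * t := Int.le_floor.1 (by omega)
  have e4 : 2 * t ≤ ((j + 1 : ℤ) : ℝ) := Int.ceil_le.1 (by omega)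
  push_cast at e3 e4
  constructor <;> linarith
theorem abs_sub_eq_one_of_slab {j j' : ℤ} {t : ℝ} (h : t ∈ slab j) (h' : t ∈ slab j')
    (ho : Odd (j - j')) : j' = j + 1 ∨ j = j' + 1 := by
  obtain ⟨a, b⟩ := h
  obtain ⟨c, d⟩ := h'
  obtain ⟨k, hk⟩ := ho
  have e1 : j ≤ j' + 2 := by
    have : (j : ℝ) ≤ ((j' + 2 : ℤ) : ℝ) := by push_cast; linarith
    exact_mod_cast this
  have e2 : j' ≤ j + 2 := by
    have : (j' : ℝ) ≤ ((j + 2 : ℤ) : ℝ) := by push_cast; linarith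
    exact_mod_cast this
  omega
theorem Good.glue_of_mem {o : ℤ} {f : ℤ → ℝ → ℝ} (hf : Good o f) {j : ℤ} (hj : Even (j - o))
    {t : ℝ} (ht : t ∈ slab j) : glue o f t = f j t := by
  rcases ht.2.lt_or_eq with h | h
  · rw [glue, (jj_eq_iff hj t).2 ⟨ht.1, h⟩]
  · have hj2 : Even (j + 2 - o) := by
      obtain ⟨k, hk⟩ := hj
      exact ⟨k + 1, by omega⟩
    have e : (((j + 2 : ℤ) : ℝ) - 1) / 2 = t := by push_cast; linarith
    rw [glue, (jj_eq_iff hj2 t).2 ⟨e.le, by push_cast; linarith⟩]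
    have a1 := (hf _ hj2).2.1
    have a2 := (hf _ hj).2.2
    rw [e] at a1
    rw [← h] at a2
    rw [a1, a2]
theorem Good.mem_slab {o : ℤ} {f : ℤ → ℝ → ℝ} (hf : Good o f) {j : ℤ} (hj : Even (j - o))
    {t : ℝ} (ht : t ∈ slab j) : f j t ∈ slab j := by
  obtain ⟨a, b, c⟩ := hf j hj
  exact ⟨b.ge.trans (a.monotone ht.1), (a.monotone ht.2).trans c.le⟩
theorem Good.jj_glue {o : ℤ} {f : ℤ → ℝ → ℝ} (hf : Good o f) (t : ℝ) :
    jj o (glue o f t) = jj o t := by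
  obtain ⟨a, b, c⟩ := hf _ (even_jj o t)
  obtain ⟨h1, h2⟩ := (jj_eq_iff (even_jj o t) t).1 rfl
  exact (jj_eq_iff (even_jj o t) _).2 ⟨b.ge.trans (a.monotone h1), (a h2).trans_le c.le⟩
theorem Good.strictMono {o : ℤ} {f : ℤ → ℝ → ℝ} (hf : Good o f) : StrictMono (glue o f) := by
  intro t t' h
  by_cases e : jj o t = jj o t'
  · rw [glue, glue, e]
    exact (hf _ (even_jj o t')).1 h
  · obtain ⟨a1, a2⟩ := (jj_eq_iff (even_jj o t) t).1 rfl
    obtain ⟨b1, b2⟩ := (jj_eq_iff (even_jj o t') t').1 rfl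
    obtain ⟨c1, c2⟩ := (jj_eq_iff (even_jj o t) _).1 (hf.jj_glue t)
    obtain ⟨d1, d2⟩ := (jj_eq_iff (even_jj o t') _).1 (hf.jj_glue t')
    have e1 : jj o t < jj o t' + 2 := by
      have : (jj o t : ℝ) < ((jj o t' + 2 : ℤ) : ℝ) := by push_cast; linarith
      exact_mod_cast this
    obtain ⟨k, hk⟩ := even_jj o t
    obtain ⟨k', hk'⟩ := even_jj o t'
    have e2 : jj o t + 2 ≤ jj o t' := by omega
    have e3 : ((jj o t + 2 : ℤ) : ℝ) ≤ jj o t' := by exact_mod_cast e2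
    push_cast at e3
    linarith
theorem Good.glue_glue {o : ℤ} {f : ℤ → ℝ → ℝ} (hf : Good o f) (g : ℤ → ℝ → ℝ) (t : ℝ) :
    glue o g (glue o f t) = glue o (fun j s => g j (f j s)) t := by
  rw [glue, hf.jj_glue]
  rfl
/-- Continuity in a parameter. -/
theorem continuousWithinAt_glue {T : Type} [TopologicalSpace T] {o : ℤ} {f : T → ℤ → ℝ → ℝ}
    {S : Set T} (hf : ∀ z ∈ S, Good o (f z)) {z0 : T} (hz : z0 ∈ S) {t0 : ℝ}
    (hc : ∀ j, Even (j - o) → t0 ∈ slab j →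
      ContinuousWithinAt (fun a : T × ℝ => f a.1 j a.2) (S ×ˢ univ) (z0, t0)) :
    ContinuousWithinAt (fun a : T × ℝ => glue o (f a.1) a.2) (S ×ˢ univ) (z0, t0) := by
  intro U hU
  have h1 : ∀ j ∈ {j | t0 ∈ slab j}, ∀ᶠ a in 𝓝[S ×ˢ univ] (z0, t0),
      Even (j - o) → f a.1 j a.2 ∈ U := fun j hj => by
    by_cases he : Even (j - o)
    · have h2 := hc j he hj
      have h3 : U ∈ 𝓝 (f z0 j t0) := by
        rw [← (hf z0 hz).glue_of_mem he hj]
        exact hU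
      filter_upwards [h2 h3] with a ha _ using ha
    · exact Eventually.of_forall fun a h => absurd h he
  have h2 := (eventually_all_finite (finite_slab t0)).2 h1
  have h3 : ∀ᶠ a : T × ℝ in 𝓝[S ×ˢ univ] (z0, t0), ∀ j, a.2 ∈ slab j → t0 ∈ slab j :=
    nhdsWithin_le_nhds ((continuous_snd.tendsto (z0, t0)).eventually (eventually_slab t0))
  rw [mem_map]
  filter_upwards [h2, h3] with a ha hb
  exact ha _ (hb _ (mem_slab_jj o a.2)) (even_jj o a.2)
/-- Local comparison of two glued families. -/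
theorem eventually_glue_eq {T : Type} {l : Filter T} {o : ℤ} {f f' : T → ℤ → ℝ → ℝ} {t0 : ℝ}
    (h : ∀ j, Even (j - o) → t0 ∈ slab j → ∀ᶠ z in l, ∀ t, f z j t = f' z j t) :
    ∀ᶠ a in l ×ˢ 𝓝 t0, glue o (f a.1) a.2 = glue o (f' a.1) a.2 := by
  have h1 : ∀ j ∈ {j | t0 ∈ slab j}, ∀ᶠ z in l, Even (j - o) → ∀ t, f z j t = f' z j t :=
    fun j hj => by
    by_cases he : Even (j - o)
    · filter_upwards [h j he hj] with a ha _ using ha
    · exact Eventually.of_forall fun a h => absurd h he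
  have h2 := (eventually_all_finite (finite_slab t0)).2 h1
  filter_upwards [h2.prod_mk (eventually_slab t0)] with a ha
  exact ha.1 _ (ha.2 _ (mem_slab_jj o a.2)) (even_jj o a.2) a.2

/-- Projection to `[0, 1]`. -/
def clamp (s : ℝ) : ℝ := max 0 (min 1 s)

theorem clamp_nonneg (s : ℝ) : 0 ≤ clamp s := le_max_left _ _
theorem clamp_le_one (s : ℝ) : clamp s ≤ 1 := max_le zero_le_one (min_le_left _ _)
theorem clamp_of_nonpos {s : ℝ} (h : s ≤ 0) : clamp s = 0 :=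
  max_eq_left ((min_le_right _ _).trans h)
theorem clamp_of_one_le {s : ℝ} (h : 1 ≤ s) : clamp s = 1 := by
  rw [clamp, min_eq_left h, max_eq_right zero_le_one]
theorem clamp_one_sub (s : ℝ) : clamp (1 - s) = 1 - clamp s := by
  unfold clamp
  simp only [max_def, min_def]
  split_ifs <;> linarith
theorem continuous_clamp : Continuous clamp :=
  continuous_const.max (continuous_const.min continuous_id)
theorem strictMono_interp (h : ℝ ≃o ℝ) {s : ℝ} (h0 : 0 ≤ s) (h1 : s ≤ 1) :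
    StrictMono fun t => t + s * (h t - t) := by
  intro a b hab
  have h2 := h.strictMono hab
  rcases h1.lt_or_eq with h3 | h3
  · nlinarith [mul_pos (sub_pos.2 h3) (sub_pos.2 hab), mul_nonneg h0 (sub_pos.2 h2).le]
  · subst h3
    simp only
    linarith

end Pool.Agent.Zig
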