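import Pool.Agent.Lib.MP_d77862_gt.Ang

noncomputable section

namespace Pool.Agent.Zig

open Set Filter Topology Complex Real

/-! Polar coordinates on the solid torus. -/

/-- Polar coordinates on `ℂ × Circle`. -/
def cov (a : ℝ × ℝ × ℝ) : ℂ × Circle :=
  ((a.1 : ℂ) * dir (2 * π * a.2.1), Circle.exp (2 * π * a.2.2))

theorem continuous_cov : Continuous cov := by
  unfold cov
  refine Continuous.prodMk ?_ ?_
  · exact (Complex.continuous_ofReal.comp continuous_fst).mul
      (continuous_dir.comp (continuous_const.mul (continuous_fst.comp continuous_snd)))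
  · exact Circle.exp.continuous.comp (continuous_const.mul (continuous_snd.comp continuous_snd))

/-- A bounded set-theoretic section of `cov`. -/
def utilb_sec (w : ℂ × Circle) : ℝ × ℝ × ℝ :=
  (‖w.1‖, arg w.1 / (2 * π), arg (w.2 : ℂ) / (2 * π))

theorem utilb_cov_sec (w : ℂ × Circle) : cov (utilb_sec w) = w := by
  have hpi : (2 * π : ℝ) ≠ 0 := by positivity
  unfold cov utilb_sec
  refine Prod.ext ?_ ?_
  · show (‖w.1‖ : ℂ) * dir (2 * π * (arg w.1 / (2 * π))) = w.1
    rw [mul_div_cancel₀ _ hpi]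
    exact norm_mul_dir_arg w.1
  · show Circle.exp (2 * π * (arg (w.2 : ℂ) / (2 * π))) = w.2
    rw [mul_div_cancel₀ _ hpi]
    exact Circle.exp_arg w.2

theorem utilb_arg_div_mem (z : ℂ) : arg z / (2 * π) ∈ Icc (-1 : ℝ) 1 := by
  have hpi : (0 : ℝ) < 2 * π := by positivity
  have h1 := Complex.arg_le_pi z
  have h2 := Complex.neg_pi_lt_arg z
  have h3 := Real.pi_pos
  constructor
  · rw [le_div_iff₀ hpi]; linarith
  · rw [div_le_iff₀ hpi]; linarith

theorem cov_surj (w : ℂ × Circle) : ∃ a : ℝ × ℝ × ℝ, a.1 = ‖w.1‖ ∧ cov a = w :=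
  ⟨utilb_sec w, rfl, utilb_cov_sec w⟩

theorem cov_eq_iff {a b : ℝ × ℝ × ℝ} (ha : 0 < a.1) (hb : 0 < b.1) :
    cov a = cov b ↔ a.1 = b.1 ∧ ∃ m n : ℤ, b.2.1 = a.2.1 + m ∧ b.2.2 = a.2.2 + n := by
  have hpi : (0 : ℝ) < 2 * π := by positivity
  constructor
  · intro h
    have h1 : (a.1 : ℂ) * dir (2 * π * a.2.1) = b.1 * dir (2 * π * b.2.1) := congrArg Prod.fst h
    have h2 : Circle.exp (2 * π * a.2.2) = Circle.exp (2 * π * b.2.2) := congrArg Prod.snd h
    obtain ⟨e1, m, hm⟩ := polar_unique ha hb h1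
    obtain ⟨n, hn⟩ := Circle.exp_eq_exp.1 h2.symm
    refine ⟨e1, m, n, ?_, ?_⟩
    · apply mul_left_cancel₀ hpi.ne'
      rw [hm]; ring
    · apply mul_left_cancel₀ hpi.ne'
      rw [hn]; ring
  · rintro ⟨e1, m, n, hm, hn⟩
    unfold cov
    refine Prod.ext ?_ ?_
    · show (a.1 : ℂ) * dir (2 * π * a.2.1) = b.1 * dir (2 * π * b.2.1)
      have : 2 * π * b.2.1 = 2 * π * a.2.1 + m * (2 * π) := by rw [hm]; ring
      rw [this, dir_add_int_two_pi, e1]
    · show Circle.exp (2 * π * a.2.2) = Circle.exp (2 * π * b.2.2)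
      symm
      refine Circle.exp_eq_exp.2 ⟨n, ?_⟩
      rw [hn]; ring

theorem isOpen_cov_image {U : Set (ℝ × ℝ × ℝ)} (hU : IsOpen U) (h : ∀ a ∈ U, 0 < a.1) :
    IsOpen (cov '' U) := by
  have hpi : (2 * π : ℝ) ≠ 0 := by positivity
  let e : (ℝ × ℝ) × ℝ → ℝ × ℝ × ℝ := fun b => (b.1.1, b.1.2 / (2 * π), b.2 / (2 * π))
  have he : Continuous e := by fun_prop
  have hU' : IsOpen (e ⁻¹' U) := hU.preimage he
  rw [isOpen_iff_forall_mem_open]
  rintro w ⟨a, haU, rfl⟩
  have hb : ((a.1, 2 * π * a.2.1), 2 * π * a.2.2) ∈ e ⁻¹' U := by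
    show (a.1, 2 * π * a.2.1 / (2 * π), 2 * π * a.2.2 / (2 * π)) ∈ U
    rw [mul_div_cancel_left₀ _ hpi, mul_div_cancel_left₀ _ hpi]
    exact haU
  obtain ⟨V, W, hV, hW, hv, hw, hsub⟩ := isOpen_prod_iff.1 hU' _ _ hb
  refine ⟨((fun a : ℝ × ℝ => (a.1 : ℂ) * dir a.2) '' V) ×ˢ (Circle.exp '' W), ?_, ?_, ?_⟩
  · rintro ⟨z, u⟩ ⟨⟨v, hvV, hz⟩, ⟨t, htW, hu⟩⟩
    refine ⟨e (v, t), hsub (mk_mem_prod hvV htW), ?_⟩
    refine Prod.ext ?_ ?_
    · show (v.1 : ℂ) * dir (2 * π * (v.2 / (2 * π))) = z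
      rw [mul_div_cancel₀ _ hpi]
      exact hz
    · show Circle.exp (2 * π * (t / (2 * π))) = u
      rw [mul_div_cancel₀ _ hpi]
      exact hu
  · refine IsOpen.prod (isOpen_polar_image hV ?_) (isLocalHomeomorph_circleExp.isOpenMap W hW)
    intro v hvV
    exact h (e (v, 2 * π * a.2.2)) (hsub (mk_mem_prod hvV hw))
  · exact ⟨⟨_, hv, rfl⟩, ⟨_, hw, rfl⟩⟩

theorem utilb_continuousAt {Y : Type} [TopologicalSpace Y] {f : ℂ × Circle → Y} {w : ℂ × Circle}
    (h : ∀ a, cov a = w → 0 ≤ a.1 → ContinuousWithinAt (f ∘ cov) {a | 0 ≤ a.1} a) :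
    ContinuousAt f w := by
  rw [ContinuousAt, tendsto_iff_ultrafilter]
  intro g hg
  let K : Set (ℝ × ℝ × ℝ) := Icc 0 (‖w.1‖ + 1) ×ˢ (Icc (-1) 1 ×ˢ Icc (-1) 1)
  have hK : IsCompact K := isCompact_Icc.prod (isCompact_Icc.prod isCompact_Icc)
  have hev : ∀ᶠ x : ℂ × Circle in 𝓝 w, ‖x.1‖ < ‖w.1‖ + 1 :=
    (continuous_norm.comp continuous_fst).continuousAt.eventually_lt continuousAt_const
      (by simp)
  have hle : (↑(g.map utilb_sec) : Filter (ℝ × ℝ × ℝ)) ≤ 𝓟 K := by
    rw [le_principal_iff, Ultrafilter.coe_map, mem_map]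
    filter_upwards [hg hev] with x hx
    exact ⟨⟨norm_nonneg _, hx.le⟩, utilb_arg_div_mem _, utilb_arg_div_mem _⟩
  obtain ⟨a, haK, ha⟩ := hK.ultrafilter_le_nhds _ hle
  have ha' : Tendsto utilb_sec g (𝓝 a) := ha
  have hcov : cov a = w := by
    have h1 : Tendsto (cov ∘ utilb_sec) g (𝓝 (cov a)) :=
      (continuous_cov.tendsto a).comp ha'
    have h2 : cov ∘ utilb_sec = id := funext utilb_cov_sec
    rw [h2] at h1
    exact tendsto_nhds_unique h1 hg
  have h3 : Tendsto utilb_sec g (𝓝[{a | 0 ≤ a.1}] a) :=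
    tendsto_nhdsWithin_iff.2 ⟨ha', Eventually.of_forall fun x => norm_nonneg x.1⟩
  have h4 := (h a hcov haK.1.1).tendsto.comp h3
  have h5 : (f ∘ cov) ∘ utilb_sec = f := funext fun x => congrArg f (utilb_cov_sec x)
  rw [h5] at h4
  have h6 : (f ∘ cov) a = f w := congrArg f hcov
  rwa [h6] at h4

/-- Continuity may be checked in polar coordinates, the axis included. -/
theorem continuous_of_cov {Y : Type} [TopologicalSpace Y] {f : ℂ × Circle → Y}
    (h : ContinuousOn (f ∘ cov) {a | 0 ≤ a.1}) : Continuous f :=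
  continuous_iff_continuousAt.2 fun _ => utilb_continuousAt fun a _ ha => h a ha

theorem continuousOn_of_cov {Y : Type} [TopologicalSpace Y] {f : ℂ × Circle → Y}
    (h : ContinuousOn (f ∘ cov) {a | 0 < a.1}) : ContinuousOn f {w | w.1 ≠ 0} := by
  intro w hw
  refine (utilb_continuousAt fun a ha h0 => ?_).continuousWithinAt
  have hpos : 0 < a.1 := by
    refine lt_of_le_of_ne h0 fun e => hw ?_
    have h1 : (a.1 : ℂ) * dir (2 * π * a.2.1) = w.1 := congrArg Prod.fst ha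
    rw [← h1, ← e]
    simp
  have hopen : IsOpen {a : ℝ × ℝ × ℝ | 0 < a.1} := isOpen_lt continuous_const continuous_fst
  exact (h.continuousAt (hopen.mem_nhds hpos)).continuousWithinAt

/-- A function that is `2 π` periodic in the angle descends continuously. -/
theorem continuousOn_comp_arg {T Y : Type} [TopologicalSpace T] [TopologicalSpace Y]
    {F : ℝ × T → Y} (hF : Continuous F) (hp : ∀ θ z, F (θ + 2 * π, z) = F (θ, z)) :
    ContinuousOn (fun a : ℂ × T => F (arg a.1, a.2)) {a | a.1 ≠ 0} := by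
  intro a ha
  rcases Complex.mem_slitPlane_or_neg_mem_slitPlane ha with h | h
  · refine ContinuousAt.continuousWithinAt ?_
    exact hF.continuousAt.comp
      (((Complex.continuousAt_arg h).comp continuousAt_fst).prodMk continuousAt_snd)
  · have key : ∀ b : ℂ × T, b ∈ {a : ℂ × T | a.1 ≠ 0} →
        F (arg b.1, b.2) = F (arg (-b.1) + π, b.2) := by
      intro b hb
      have hb' : b.1 ≠ 0 := hb
      rcases lt_trichotomy b.1.im 0 with h1 | h1 | h1
      · rw [Complex.arg_neg_eq_arg_add_pi_of_im_neg h1, ← hp (arg b.1) b.2]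
        congr 2; ring
      · rcases lt_trichotomy b.1.re 0 with h2 | h2 | h2
        · have : arg (-b.1) = arg b.1 - π :=
            Complex.arg_neg_eq_arg_sub_pi_iff.2 (Or.inr ⟨h1, h2⟩)
          rw [this]; congr 2; ring
        · exact absurd (Complex.ext h2 h1) hb'
        · have : arg (-b.1) = arg b.1 + π :=
            Complex.arg_neg_eq_arg_add_pi_iff.2 (Or.inr ⟨h1, h2⟩)
          rw [this, ← hp (arg b.1) b.2]
          congr 2; ring
      · rw [Complex.arg_neg_eq_arg_sub_pi_of_im_pos h1]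
        congr 2; ring
    have hc : ContinuousAt (fun b : ℂ × T => F (arg (-b.1) + π, b.2)) a := by
      have h1 : ContinuousAt (fun b : ℂ × T => arg (-b.1)) a :=
        ContinuousAt.comp (f := fun b : ℂ × T => -b.1) (Complex.continuousAt_arg h)
          continuousAt_fst.neg
      exact hF.continuousAt.comp ((h1.add continuousAt_const).prodMk continuousAt_snd)
    exact hc.continuousWithinAt.congr key (key a ha)

end Pool.Agent.Zig
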