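import Pool.Agent.Lib.MP_d77862_gt.UtilA
import Pool.Agent.Lib.MP_d77862_gt.UtilB

noncomputable section

namespace Pool.Agent.Zig

open Set Filter Topology Complex Real

/-! Descent of maps given in polar coordinates. -/

theorem util_per {f : ℝ → ℝ} {p c : ℝ} (h : ∀ x, f (x + p) = f x + c) (x : ℝ) (k : ℤ) :
    f (x + k * p) = f x + k * c := by
  induction k using Int.induction_on with
  | zero => simp
  | succ k ih =>
    push_cast at ih ⊢
    rw [show x + (k + 1) * p = x + k * p + p by ring, h, ih]; ring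
  | pred k ih =>
    push_cast at ih ⊢
    have := h (x + (-k - 1) * p)
    rw [show x + (-k - 1) * p + p = x + -k * p by ring, ih] at this
    linarith

/-- The descended map. -/
def util_G (A ω : ℝ × ℝ → ℝ) (α : ℝ) (w : ℂ × ℝ) : ℂ × ℝ :=
  (((‖w.1‖ ^ α * ω (arg w.1, w.2) : ℝ) : ℂ) * dir (A (arg w.1, w.2)), w.2)

theorem util_formula {A ω : ℝ × ℝ → ℝ} (hp : ∀ θ b, A (θ + 2 * π, b) = A (θ, b) + 2 * π)
    (hper : ∀ θ b, ω (θ + 2 * π, b) = ω (θ, b)) {α : ℝ} (hα : 0 < α) (R θ b : ℝ) (hR : 0 ≤ R) :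
    util_G A ω α ((R : ℂ) * dir θ, b) =
      (((R ^ α * ω (θ, b) : ℝ) : ℂ) * dir (A (θ, b)), b) := by
  unfold util_G
  rcases hR.eq_or_lt with rfl | hR
  · simp [Real.zero_rpow hα.ne']
  have hn : ‖(R : ℂ) * dir θ‖ = R := by
    rw [norm_mul, norm_dir, Complex.norm_real, Real.norm_of_nonneg hR.le, mul_one]
  have e := norm_mul_dir_arg ((R : ℂ) * dir θ)
  rw [hn] at e
  obtain ⟨-, k, hk⟩ := polar_unique hR hR e
  have h1 := util_per (f := fun x => A (x, b)) (fun x => hp x b) (arg ((R : ℂ) * dir θ)) k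
  have h2 := util_per (f := fun x => ω (x, b)) (c := 0) (fun x => by simpa using hper x b)
    (arg ((R : ℂ) * dir θ)) k
  simp only [← hk, mul_zero, add_zero] at h1 h2
  simp only [hn]
  rw [h1, h2, dir_add_int_two_pi]

theorem util_cont {A ω : ℝ × ℝ → ℝ} (hA : Continuous A) (hω : Continuous ω)
    (hp : ∀ θ b, A (θ + 2 * π, b) = A (θ, b) + 2 * π)
    (hper : ∀ θ b, ω (θ + 2 * π, b) = ω (θ, b)) {α : ℝ} (hα : 0 < α) :
    Continuous (util_G A ω α) := by
  have hN : Continuous fun w : ℂ × ℝ => ‖w.1‖ ^ α :=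
    continuous_fst.norm.rpow_const fun _ => Or.inr hα.le
  refine Continuous.prodMk ?_ continuous_snd
  refine continuous_iff_continuousAt.2 fun w => ?_
  by_cases hw : w.1 = 0
  · obtain ⟨K, hK⟩ := (isCompact_Icc (a := -π) (b := π)).prod
      (isCompact_Icc (a := w.2 - 1) (b := w.2 + 1)) |>.exists_bound_of_continuousOn hω.continuousOn
    have h0 : Tendsto (fun v : ℂ × ℝ => ‖v.1‖ ^ α * K) (𝓝 w) (𝓝 0) := by
      have := (hN.tendsto w).mul_const K
      simpa [hw, Real.zero_rpow hα.ne'] using this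
    unfold ContinuousAt
    simp only [hw, norm_zero, Real.zero_rpow hα.ne', zero_mul, Complex.ofReal_zero]
    refine squeeze_zero_norm' ?_ h0
    have hb : ∀ᶠ v : ℂ × ℝ in 𝓝 w, v.2 ∈ Icc (w.2 - 1) (w.2 + 1) :=
      continuous_snd.continuousAt.eventually (Icc_mem_nhds (by linarith) (by linarith))
    filter_upwards [hb] with v hv
    rw [norm_mul, norm_dir, mul_one, Complex.norm_real, norm_mul,
      Real.norm_of_nonneg (by positivity)]
    exact mul_le_mul_of_nonneg_left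
      (hK _ ⟨⟨(Complex.neg_pi_lt_arg _).le, Complex.arg_le_pi _⟩, hv⟩) (by positivity)
  · have hF := continuousOn_comp_arg (F := fun a : ℝ × ℝ => (ω a : ℂ) * dir (A a))
      ((Complex.continuous_ofReal.comp hω).mul (continuous_dir.comp hA)) (fun θ z => by
        have := dir_add_int_two_pi (A (θ, z)) 1
        rw [Int.cast_one, one_mul] at this
        simp only [hp, hper, this])
    have ho : IsOpen {a : ℂ × ℝ | a.1 ≠ 0} := isOpen_ne_fun continuous_fst continuous_const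
    have := (Complex.continuous_ofReal.comp hN).continuousAt.mul
      (hF.continuousAt (ho.mem_nhds hw))
    refine this.congr (Eventually.of_forall fun v => ?_)
    simp only [Pi.mul_apply, Function.comp, Complex.ofReal_mul, mul_assoc]

/-- A radially homogeneous map in polar coordinates descends to a homeomorphism. -/
theorem polar_descent (Ω : ℝ × ℝ ≃ₜ ℝ × ℝ) (h2 : ∀ a, (Ω a).2 = a.2)
    (hp : ∀ θ b, (Ω (θ + 2 * π, b)).1 = (Ω (θ, b)).1 + 2 * π) {ω : ℝ × ℝ → ℝ}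
    (hω : Continuous ω) (hpos : ∀ a, 0 < ω a) (hper : ∀ θ b, ω (θ + 2 * π, b) = ω (θ, b))
    {α : ℝ} (hα : 0 < α) :
    ∃ G : ℂ × ℝ ≃ₜ ℂ × ℝ, ∀ R θ b : ℝ, 0 ≤ R →
      G ((R : ℂ) * dir θ, b) = (((R ^ α * ω (θ, b) : ℝ) : ℂ) * dir (Ω (θ, b)).1, b) := by
  have e1 : ∀ θ b, ((Ω (θ, b)).1, b) = Ω (θ, b) := fun θ b => Prod.ext rfl (h2 (θ, b)).symm
  have e2 : ∀ θ b, ((Ω.symm (θ, b)).1, b) = Ω.symm (θ, b) := fun θ b => Prod.ext rfl (by
    have := h2 (Ω.symm (θ, b))
    rw [Ω.apply_symm_apply] at this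
    exact this)
  have e3 : ∀ θ b, Ω.symm (θ + 2 * π, b) = ((Ω.symm (θ, b)).1 + 2 * π, b) := fun θ b => by
    rw [Homeomorph.symm_apply_eq, ← e1, hp, e2, Ω.apply_symm_apply]
  have hp' : ∀ θ b, (Ω.symm (θ + 2 * π, b)).1 = (Ω.symm (θ, b)).1 + 2 * π := fun θ b => by
    rw [e3]
  have hper' : ∀ θ b, ω (Ω.symm (θ + 2 * π, b)) ^ (-α⁻¹) = ω (Ω.symm (θ, b)) ^ (-α⁻¹) :=
    fun θ b => by rw [e3, hper, e2]
  have f1 := util_formula (A := fun a => (Ω a).1) hp hper hα
  have f2 := util_formula (A := fun a => (Ω.symm a).1) (ω := fun a => ω (Ω.symm a) ^ (-α⁻¹))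
    hp' hper' (inv_pos.2 hα)
  refine ⟨⟨⟨util_G (fun a => (Ω a).1) ω α,
    util_G (fun a => (Ω.symm a).1) (fun a => ω (Ω.symm a) ^ (-α⁻¹)) α⁻¹, ?_, ?_⟩,
    util_cont Ω.continuous.fst hω hp hper hα,
    util_cont Ω.symm.continuous.fst ((hω.comp Ω.symm.continuous).rpow_const
      fun a => Or.inl (hpos _).ne') hp' hper' (inv_pos.2 hα)⟩, f1⟩
  · rintro ⟨z, b⟩
    have h0 := hpos (arg z, b)
    conv_lhs => rw [← norm_mul_dir_arg z]
    rw [f1 _ _ _ (norm_nonneg z), f2 _ _ _ (by positivity)]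
    simp only [e1, Ω.symm_apply_apply]
    rw [Real.mul_rpow (by positivity) h0.le, Real.rpow_rpow_inv (norm_nonneg z) hα.ne',
      Real.rpow_neg h0.le, mul_assoc, mul_inv_cancel₀ (by positivity), mul_one, norm_mul_dir_arg]
  · rintro ⟨z, b⟩
    have h0 := hpos (Ω.symm (arg z, b))
    conv_lhs => rw [← norm_mul_dir_arg z]
    rw [f2 _ _ _ (norm_nonneg z), f1 _ _ _ (by positivity)]
    simp only [e2, Ω.apply_symm_apply]
    rw [Real.mul_rpow (by positivity) (by positivity), Real.rpow_inv_rpow (norm_nonneg z) hα.ne',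
      Real.rpow_neg h0.le, Real.inv_rpow (by positivity), Real.rpow_inv_rpow h0.le hα.ne',
      mul_assoc, inv_mul_cancel₀ h0.ne', mul_one, norm_mul_dir_arg]

end Pool.Agent.Zig
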