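import Pool.Agent.Lib.MP_d77862_gt.Ang

noncomputable section

namespace Pool.Agent.Zig

open Set Filter Topology Complex Real

/-! General topology lemmas. -/

/-- Joint continuity of the inverse of a family of increasing bijections of the line. -/
theorem continuousOn_inv {T : Type} [TopologicalSpace T] {S : Set T} (hS : IsOpen S)
    {f g : T → ℝ → ℝ} (hf : ContinuousOn (fun a : T × ℝ => f a.1 a.2) (S ×ˢ univ))
    (hm : ∀ z ∈ S, StrictMono (f z)) (hg : ∀ z ∈ S, ∀ y, f z (g z y) = y) :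
    ContinuousOn (fun a : T × ℝ => g a.1 a.2) (S ×ˢ univ) := by
  rintro ⟨z0, y0⟩ ⟨hz, -⟩
  have hz : z0 ∈ S := hz
  refine ContinuousAt.continuousWithinAt ?_
  have hc : ∀ a : ℝ, ContinuousAt (fun p : T × ℝ => f p.1 a) (z0, y0) := fun a => by
    have h1 : ContinuousAt (fun a : T × ℝ => f a.1 a.2) (z0, a) :=
      hf.continuousAt ((hS.prod isOpen_univ).mem_nhds ⟨hz, mem_univ _⟩)
    exact ContinuousAt.comp (f := fun p : T × ℝ => (p.1, a)) (x := (z0, y0)) h1 (by fun_prop)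
  have hS' : ∀ᶠ p : T × ℝ in 𝓝 (z0, y0), p.1 ∈ S :=
    continuous_fst.continuousAt.eventually (hS.mem_nhds hz)
  refine tendsto_order.2 ⟨fun a ha => ?_, fun a ha => ?_⟩
  · have h1 : f z0 a < y0 := by
      have := hm z0 hz ha
      rwa [hg z0 hz] at this
    filter_upwards [hS', (hc a).eventually_lt continuous_snd.continuousAt h1] with p hp h2
    refine (hm p.1 hp).lt_iff_lt.1 ?_
    rwa [hg p.1 hp]
  · have h1 : y0 < f z0 a := by
      have := hm z0 hz ha
      rwa [hg z0 hz] at this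
    filter_upwards [hS', continuous_snd.continuousAt.eventually_lt (hc a) h1] with p hp h2
    refine (hm p.1 hp).lt_iff_lt.1 ?_
    rwa [hg p.1 hp]

/-- A continuous, injective and open map on an open set is an open partial homeomorphism. -/
theorem exists_oph {A B : Type} [TopologicalSpace A] [TopologicalSpace B] [Nonempty A]
    {U : Set A} (hU : IsOpen U) {f : A → B} (hc : ContinuousOn f U) (hi : InjOn f U)
    (ho : ∀ W, IsOpen W → W ⊆ U → IsOpen (f '' W)) :
    ∃ e : OpenPartialHomeomorph A B, e.source = U ∧ e.target = f '' U ∧ ∀ a, e a = f a := by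
  refine ⟨OpenPartialHomeomorph.ofContinuousOpenRestrict (hi.toPartialEquiv f U) hc ?_ hU,
    rfl, rfl, fun _ => rfl⟩
  intro V hV
  have e : (hi.toPartialEquiv f U).source.domRestrict (hi.toPartialEquiv f U) '' V =
      f '' (Subtype.val '' V) := by
    rw [image_image]
    rfl
  rw [e]
  refine ho _ (hU.isOpenMap_subtype_val V hV) ?_
  rintro _ ⟨v, -, rfl⟩
  exact v.2

/-- A chart that keeps the first coordinate and changes the height monotonically. -/
theorem exists_vertical_chart {U : Set (ℂ × ℝ)} (hU : IsOpen U) {K : ℂ × ℝ → ℝ}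
    (hK : ContinuousOn K U) (hm : ∀ x, StrictMono fun t => K (x, t)) :
    ∃ e : OpenPartialHomeomorph (ℂ × ℝ) (ℂ × ℝ), e.source = U ∧ ∀ p, e p = (p.1, K p) := by
  have hc : ContinuousOn (fun p : ℂ × ℝ => (p.1, K p)) U := continuousOn_fst.prodMk hK
  have hi : InjOn (fun p : ℂ × ℝ => (p.1, K p)) U := by
    rintro ⟨x, t⟩ - ⟨x', t'⟩ - h
    obtain ⟨h1, h2⟩ := Prod.mk.inj h
    have h1 : x = x' := h1
    subst h1
    rw [(hm x).injective h2]
  obtain ⟨e, h1, -, h2⟩ := exists_oph hU hc hi fun W hW hWU => by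
    rw [isOpen_iff_mem_nhds]
    rintro _ ⟨⟨x0, t0⟩, hp, rfl⟩
    obtain ⟨δ, hδ, hb⟩ := Metric.nhds_basis_closedBall.mem_iff.1 (hW.mem_nhds hp)
    have hmem : ∀ x t, dist x x0 ≤ δ → t ∈ Icc (t0 - δ) (t0 + δ) → (x, t) ∈ W := fun x t hx ht => by
      refine hb ?_
      rw [Metric.mem_closedBall, Prod.dist_eq, Real.dist_eq]
      exact max_le hx (abs_le.2 ⟨by linarith [ht.1], by linarith [ht.2]⟩)
    have hca : ∀ a ∈ Icc (t0 - δ) (t0 + δ),
        ContinuousAt (fun p : ℂ × ℝ => K (p.1, a)) (x0, K (x0, t0)) := fun a ha => by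
      have h1 : ContinuousAt K (x0, a) :=
        hK.continuousAt (hU.mem_nhds (hWU (hmem x0 a (by simpa using hδ.le) ha)))
      exact ContinuousAt.comp (f := fun p : ℂ × ℝ => (p.1, a)) (x := (x0, K (x0, t0))) h1
        (by fun_prop)
    have hle : t0 - δ ≤ t0 + δ := by linarith
    have l1 := (hca _ (left_mem_Icc.2 hle)).eventually_lt continuous_snd.continuousAt
      (hm x0 (by linarith : t0 - δ < t0))
    have l2 := continuous_snd.continuousAt.eventually_lt (hca _ (right_mem_Icc.2 hle))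
      (hm x0 (by linarith : t0 < t0 + δ))
    have l3 : ∀ᶠ p : ℂ × ℝ in 𝓝 (x0, K (x0, t0)), p.1 ∈ Metric.closedBall x0 δ :=
      continuous_fst.continuousAt.eventually (Metric.closedBall_mem_nhds x0 hδ)
    filter_upwards [l1, l2, l3] with p p1 p2 p3
    have hcx : ContinuousOn (fun t => K (p.1, t)) (Icc (t0 - δ) (t0 + δ)) :=
      hK.comp (f := fun t : ℝ => (p.1, t)) (by fun_prop) fun t ht => hWU (hmem _ _ p3 ht)
    obtain ⟨t, ht, h3⟩ := intermediate_value_Icc hle hcx ⟨p1.le, p2.le⟩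
    exact ⟨(p.1, t), hmem _ _ p3 ht, Prod.ext rfl h3⟩
  exact ⟨e, h1, h2⟩

/-- Criterion for two paths in a compact space to approach each other. -/
theorem eventually_diag {M : Type} [TopologicalSpace M] [CompactSpace M] {l : Filter ℝ}
    {f g : ℝ → M} (h : ∀ U : Ultrafilter ℝ, (U : Filter ℝ) ≤ l → ∀ m,
      Tendsto f U (𝓝 m) → Tendsto g U (𝓝 m)) :
    ∀ W ∈ 𝓝ˢ (diagonal M), ∀ᶠ t in l, (f t, g t) ∈ W := by
  intro W hW
  refine Filter.mem_iff_ultrafilter.2 fun U hU => ?_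
  obtain ⟨m, -, hm⟩ := isCompact_univ.ultrafilter_le_nhds (U.map f) (by simp)
  have h1 : Tendsto f U (𝓝 m) := hm
  have h2 := h1.prodMk_nhds (h U hU m h1)
  exact h2 (mem_nhdsSet_iff_forall.1 hW (m, m) rfl)

/-- Doubly periodic continuous functions. -/
theorem periodic_bounded {f : ℝ × ℝ → ℝ} (hf : Continuous f) {p q : ℝ} (hp : 0 < p) (hq : 0 < q)
    (h1 : ∀ x y, f (x + p, y) = f (x, y)) (h2 : ∀ x y, f (x, y + q) = f (x, y)) :
    (∃ K, ∀ a, |f a| ≤ K) ∧ UniformContinuous f ∧ ((∀ a, 0 < f a) → ∃ η > 0, ∀ a, η ≤ f a) := by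
  have per : ∀ (m n : ℤ) (a : ℝ × ℝ), f (a - (m * p, n * q)) = f a := fun m n a => by
    have e1 := (Function.Periodic.int_mul (f := fun x => f (x, a.2 - n * q))
      (fun x => h1 x _) m).sub_eq a.1
    have e2 := (Function.Periodic.int_mul (f := fun y => f (a.1, y))
      (fun y => h2 _ y) n).sub_eq a.2
    exact e1.trans e2
  have one : ∀ (x c : ℝ), 0 < c → x - ⌊x / c⌋ * c ∈ Icc 0 c := fun x c hc =>
    ⟨Int.sub_floor_div_mul_nonneg x hc, (Int.sub_floor_div_mul_lt x hc).le⟩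
  have red : ∀ a : ℝ × ℝ, ∃ m n : ℤ, a - (m * p, n * q) ∈ Icc 0 p ×ˢ Icc 0 q := fun a =>
    ⟨⌊a.1 / p⌋, ⌊a.2 / q⌋, one a.1 p hp, one a.2 q hq⟩
  have hK : IsCompact (Icc 0 p ×ˢ Icc 0 q) := isCompact_Icc.prod isCompact_Icc
  refine ⟨?_, ?_, fun hpos => ?_⟩
  · obtain ⟨C, hC⟩ := hK.exists_bound_of_continuousOn hf.continuousOn
    refine ⟨C, fun a => ?_⟩
    obtain ⟨m, n, h⟩ := red a
    rw [← per m n a]
    exact hC _ h
  · have hK' : IsCompact (Metric.cthickening 1 (Icc 0 p ×ˢ Icc 0 q)) := hK.cthickening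
    have hu := Metric.uniformContinuousOn_iff.1 (hK'.uniformContinuousOn_of_continuous
      hf.continuousOn)
    refine Metric.uniformContinuous_iff.2 fun ε hε => ?_
    obtain ⟨δ, hδ, hd⟩ := hu ε hε
    refine ⟨min δ 1, lt_min hδ one_pos, fun {a b} hab => ?_⟩
    obtain ⟨m, n, h⟩ := red a
    rw [← per m n a, ← per m n b]
    have e : dist (a - ((m : ℝ) * p, (n : ℝ) * q)) (b - ((m : ℝ) * p, (n : ℝ) * q)) = dist a b :=
      dist_sub_right _ _ _
    refine hd _ (Metric.self_subset_cthickening _ h) _ ?_ (by rw [e]; exact hab.trans_le (min_le_left _ _))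
    refine Metric.mem_cthickening_of_dist_le _ _ _ _ h ?_
    rw [dist_comm, e]
    exact (hab.trans_le (min_le_right _ _)).le
  · obtain ⟨a0, -, h0⟩ := hK.exists_isMinOn ⟨(0, 0), ⟨le_rfl, hp.le⟩, ⟨le_rfl, hq.le⟩⟩
      hf.continuousOn
    refine ⟨f a0, hpos a0, fun a => ?_⟩
    obtain ⟨m, n, h⟩ := red a
    rw [← per m n a]
    exact h0 h


theorem eps_pos : 0 < eps := by norm_num [eps]
theorem rad_pos {r : ℝ} (h0 : 0 < r) (h1 : r < eps) : 0 < rad r := div_pos h0 (sub_pos.2 h1)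
theorem rad_strictMonoOn : StrictMonoOn rad (Iio eps) := by
  intro a ha b hb hab
  have ha : 0 < eps - a := sub_pos.2 ha
  have hb : 0 < eps - b := sub_pos.2 hb
  unfold rad
  rw [div_lt_div_iff₀ ha hb]
  nlinarith [eps_pos]
theorem rad_inv {R : ℝ} (h : 0 ≤ R) :
    0 ≤ eps * R / (1 + R) ∧ eps * R / (1 + R) < eps ∧ rad (eps * R / (1 + R)) = R := by
  have h1 : 0 < 1 + R := by linarith
  have h2 := eps_pos
  refine ⟨by positivity, ?_, ?_⟩
  · rw [div_lt_iff₀ h1]
    nlinarith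
  · have e : eps - eps * R / (1 + R) = eps / (1 + R) := by
      field_simp
      ring
    unfold rad
    rw [e]
    field_simp
theorem rad_inv' {r : ℝ} (h1 : r < eps) : eps * rad r / (1 + rad r) = r := by
  have h2 : 0 < eps - r := sub_pos.2 h1
  have h3 := eps_pos
  have e : 1 + rad r = eps / (eps - r) := by
    unfold rad
    field_simp
    ring
  rw [e]
  unfold rad
  field_simp
theorem rad_half : rad (eps / 2) = 1 := by norm_num [rad, eps]

end Pool.Agent.Zig
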