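import Pool.Agent.Lib.MP_d77862_gt.Slab
import Pool.Agent.Lib.MP_d77862_gt.Grp

noncomputable section

namespace Pool.Agent.Zig

open Set Filter Topology Complex Real

/-! The walls. In the coordinates `(UU j, VV j)` (multiplication by the unit `(1 + √2)^j`) the
corners are the integer points and the walls of level `j` are thin rhombi around the horizontal
unit edges. -/

def UU (j : ℤ) (x : ℂ) : ℝ :=
  (Real.exp (j * lg) * x.re + (-1) ^ j * Real.exp (-(j * lg)) * x.im) / 2

def VV (j : ℤ) (x : ℂ) : ℝ :=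
  (Real.exp (j * lg) * x.re - (-1) ^ j * Real.exp (-(j * lg)) * x.im) / (2 * √2)

/-- The union of the closed rhombi of level `j`. -/
def SS (j : ℤ) : Set ℂ :=
  {x | |VV j x - round (VV j x)| ≤ min (Int.fract (UU j x)) (1 - Int.fract (UU j x)) / 4}

/-- Transverse coordinate of the wall around the edge from `(a, b)` to `(a + 1, b)`. -/
def sgm (j a b : ℤ) (x : ℂ) : ℝ :=
  clamp (1 / 2 + 2 * (-1) ^ (j + 1 + a) * (VV j x - b) / min (UU j x - a) (a + 1 - UU j x))

/-- The weight of level `j` seen from the base point `x0`. -/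
def WW (x0 : ℂ) (j : ℤ) (x : ℂ) : ℝ := by
  classical exact if x0 ∈ SS j then sgm j ⌊UU j x0⌋ (round (VV j x0)) x else 0

/-- Progress across the wall of level `j` when turning around a corner. -/
def sj (j : ℤ) (θ : ℝ) : ℝ := clamp (1 / 2 - 2 * (-1) ^ j * VV j (dir θ) / UU j (dir θ))

theorem continuous_UU (j : ℤ) : Continuous (UU j) := by
  unfold UU
  fun_prop
theorem continuous_VV (j : ℤ) : Continuous (VV j) := by
  unfold VV
  fun_prop
theorem UU_add (j : ℤ) (x y : ℂ) : UU j (x + y) = UU j x + UU j y := by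
  simp only [UU, Complex.add_re, Complex.add_im]
  ring
theorem VV_add (j : ℤ) (x y : ℂ) : VV j (x + y) = VV j x + VV j y := by
  simp only [VV, Complex.add_re, Complex.add_im]
  ring
theorem UU_real_mul (j : ℤ) (r : ℝ) (x : ℂ) : UU j (r * x) = r * UU j x := by
  simp only [UU, Complex.re_ofReal_mul, Complex.im_ofReal_mul]
  ring
theorem VV_real_mul (j : ℤ) (r : ℝ) (x : ℂ) : VV j (r * x) = r * VV j x := by
  simp only [VV, Complex.re_ofReal_mul, Complex.im_ofReal_mul]
  ring

theorem wall0_exp_succ (j : ℤ) :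
    Real.exp (((j + 1 : ℤ) : ℝ) * lg) = Real.exp (j * lg) * (1 + √2) := by
  rw [← exp_lg, ← Real.exp_add]
  congr 1
  push_cast
  ring

theorem wall0_exp_neg_succ (j : ℤ) :
    (-1 : ℝ) ^ (j + 1) * Real.exp (-(((j + 1 : ℤ) : ℝ) * lg)) =
      (-1) ^ j * Real.exp (-(j * lg)) * (1 - √2) := by
  have h : Real.exp (-(((j + 1 : ℤ) : ℝ) * lg)) = Real.exp (-(j * lg)) * (√2 - 1) := by
    rw [← exp_neg_lg, ← Real.exp_add]
    congr 1
    push_cast
    ring
  rw [h, zpow_add_one₀ (by norm_num : (-1 : ℝ) ≠ 0)]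
  ring

theorem wall0_sqrt_pos : (0 : ℝ) < √2 := Real.sqrt_pos.2 (by norm_num)

theorem wall0_sqrt_sq : (√2 : ℝ) * √2 = 2 := Real.mul_self_sqrt (by norm_num)

theorem UU_succ (j : ℤ) (x : ℂ) : UU (j + 1) x = UU j x + 2 * VV j x := by
  have h := wall0_sqrt_pos
  have h2 := wall0_sqrt_sq
  unfold UU VV
  rw [wall0_exp_succ, wall0_exp_neg_succ]
  generalize Real.exp (j * lg) = A
  generalize (-1 : ℝ) ^ j * Real.exp (-(j * lg)) = B
  field_simp
  linear_combination (A * x.re - B * x.im) * h2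
theorem VV_succ (j : ℤ) (x : ℂ) : VV (j + 1) x = UU j x + VV j x := by
  have h := wall0_sqrt_pos
  unfold UU VV
  rw [wall0_exp_succ, wall0_exp_neg_succ]
  generalize Real.exp (j * lg) = A
  generalize (-1 : ℝ) ^ j * Real.exp (-(j * lg)) = B
  field_simp
  ring

theorem wall0_re_DD (j n : ℤ) (x : ℂ) :
    Real.exp (((j - 2 * n : ℤ) : ℝ) * lg) * (DD n x).re = Real.exp (j * lg) * x.re := by
  simp only [DD, Dg]
  rw [← mul_assoc, ← Real.exp_add]
  congr 2
  unfold LL
  push_cast
  ring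

theorem wall0_im_DD (j n : ℤ) (x : ℂ) :
    (-1 : ℝ) ^ (j - 2 * n) * Real.exp (-(((j - 2 * n : ℤ) : ℝ) * lg)) * (DD n x).im =
      (-1) ^ j * Real.exp (-(j * lg)) * x.im := by
  have h1 : (-1 : ℝ) ^ (j - 2 * n) = (-1) ^ j := by
    rw [zpow_sub₀ (by norm_num : (-1 : ℝ) ≠ 0), zpow_mul]
    norm_num
  have h2 : Real.exp (-(((j - 2 * n : ℤ) : ℝ) * lg)) * Real.exp (-(LL * n)) =
      Real.exp (-(j * lg)) := by
    rw [← Real.exp_add]
    congr 1
    unfold LL
    push_cast
    ring
  simp only [DD, Dg]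
  rw [h1, ← h2]
  ring

theorem UU_DD (j n : ℤ) (x : ℂ) : UU (j - 2 * n) (DD n x) = UU j x := by
  unfold UU
  rw [wall0_re_DD, wall0_im_DD]
theorem VV_DD (j n : ℤ) (x : ℂ) : VV (j - 2 * n) (DD n x) = VV j x := by
  unfold VV
  rw [wall0_re_DD, wall0_im_DD]

theorem wall0_UU_pred (j : ℤ) (x : ℂ) : UU j x = 2 * VV (j + 1) x - UU (j + 1) x := by
  rw [UU_succ, VV_succ]
  ring

theorem wall0_VV_pred (j : ℤ) (x : ℂ) : VV j x = UU (j + 1) x - VV (j + 1) x := by
  rw [UU_succ, VV_succ]
  ring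

theorem wall0_UU_zero (x : ℂ) : UU 0 x = (x.re + x.im) / 2 := by
  simp [UU]

theorem wall0_VV_zero (x : ℂ) : VV 0 x = (x.re - x.im) / (2 * √2) := by
  simp [VV]

/-- Integer coordinates of the corners, with their parities. -/
theorem UV_cor (j : ℤ) (c : ℤ × ℤ) : ∃ a b : ℤ, UU j (cor c) = a ∧ VV j (cor c) = b ∧
    Even (a - c.1) ∧ Even (b - c.2 - j * c.1) := by
  have hs := wall0_sqrt_pos
  induction j using Int.induction_on with
  | zero =>
    refine ⟨c.1, c.2, ?_, ?_, by simp, by simp⟩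
    · rw [wall0_UU_zero]
      simp only [cor]
      ring
    · rw [wall0_VV_zero]
      simp only [cor]
      field_simp
      ring
  | succ i ih =>
    obtain ⟨a, b, ha, hb, ⟨k, hk⟩, ⟨l, hl⟩⟩ := ih
    refine ⟨a + 2 * b, a + b, ?_, ?_, ⟨k + b, by linear_combination hk⟩,
      ⟨k + l, by linear_combination hk + hl⟩⟩
    · rw [UU_succ, ha, hb]
      push_cast
      ring
    · rw [VV_succ, ha, hb]
      push_cast
      ring
  | pred i ih =>
    obtain ⟨a, b, ha, hb, ⟨k, hk⟩, ⟨l, hl⟩⟩ := ih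
    have e : -(i : ℤ) - 1 + 1 = -(i : ℤ) := by ring
    refine ⟨2 * b - a, a - b, ?_, ?_, ⟨b - c.1 - k, by linear_combination -hk⟩,
      ⟨k - l + c.1 - c.2 + i * c.1, by linear_combination hk - hl⟩⟩
    · rw [wall0_UU_pred, e, ha, hb]
      push_cast
      ring
    · rw [wall0_VV_pred, e, ha, hb]
      push_cast
      ring
theorem exists_cor_of_int (j : ℤ) {x : ℂ} {a b : ℤ} (h1 : UU j x = a) (h2 : VV j x = b) :
    ∃ c, x = cor c := by
  have hs := wall0_sqrt_pos
  induction j using Int.induction_on generalizing a b with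
  | zero =>
    rw [wall0_UU_zero] at h1
    rw [wall0_VV_zero, div_eq_iff (by positivity)] at h2
    refine ⟨(a, b), Complex.ext ?_ ?_⟩
    · simp only [cor]
      linear_combination h1 + h2 / 2
    · simp only [cor]
      linear_combination h1 - h2 / 2
  | succ i ih =>
    refine ih (a := 2 * b - a) (b := a - b) ?_ ?_
    · rw [wall0_UU_pred, h1, h2]
      push_cast
      ring
    · rw [wall0_VV_pred, h1, h2]
      push_cast
      ring
  | pred i ih =>
    have e : -(i : ℤ) = -(i : ℤ) - 1 + 1 := by ring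
    refine ih (a := a + 2 * b) (b := a + b) ?_ ?_
    · rw [e, UU_succ, h1, h2]
      push_cast
      ring
    · rw [e, VV_succ, h1, h2]
      push_cast
      ring

theorem wall0_continuous_dist : Continuous fun y : ℝ => |y - round y| := by
  refine LipschitzWith.continuous (K := 1) (LipschitzWith.of_le_add fun x y => ?_)
  have h1 := round_le x (round y)
  have h2 : |x - round y| ≤ |y - round y| + |x - y| := by
    have := abs_add_le (y - round y) (x - y)
    rwa [show y - round y + (x - y) = x - round y by ring] at this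
  rw [Real.dist_eq]
  linarith

theorem wall0_mem_SS {j : ℤ} {x : ℂ} :
    x ∈ SS j ↔ |VV j x - round (VV j x)| ≤ |UU j x - round (UU j x)| / 4 := by
  rw [abs_sub_round_eq_min (UU j x)]
  rfl

theorem isClosed_SS (j : ℤ) : IsClosed (SS j) := by
  have e : SS j = {x | |VV j x - round (VV j x)| ≤ |UU j x - round (UU j x)| / 4} :=
    Set.ext fun x => wall0_mem_SS
  rw [e]
  exact isClosed_le (wall0_continuous_dist.comp (continuous_VV j))
    ((wall0_continuous_dist.comp (continuous_UU j)).div_const 4)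

theorem wall0_pos_of_mem_SS {j : ℤ} {x : ℂ} {t : ℝ} (h : x ∈ SS j) (hx : (x, t) ∈ XX) :
    0 < |UU j x - round (UU j x)| := by
  rw [wall0_mem_SS] at h
  rcases (abs_nonneg (UU j x - round (UU j x))).lt_or_eq with h0 | h0
  · exact h0
  · exfalso
    have h1 : UU j x - round (UU j x) = 0 := abs_eq_zero.1 h0.symm
    have h2 : VV j x - round (VV j x) = 0 := by
      rw [← h0] at h
      exact abs_nonpos_iff.1 (by linarith)
    obtain ⟨c, hc⟩ := exists_cor_of_int j (sub_eq_zero.1 h1) (sub_eq_zero.1 h2)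
    exact hx c hc

theorem fract_pos_of_mem_SS {j : ℤ} {x : ℂ} {t : ℝ} (h : x ∈ SS j) (hx : (x, t) ∈ XX) :
    0 < Int.fract (UU j x) := by
  have h0 := wall0_pos_of_mem_SS h hx
  rw [abs_sub_round_eq_min] at h0
  exact h0.trans_le (min_le_left _ _)
theorem abs_le_of_mem_SS {j : ℤ} {x : ℂ} (h : x ∈ SS j) : |VV j x - round (VV j x)| ≤ 1 / 8 := by
  rw [wall0_mem_SS] at h
  have := abs_sub_round (UU j x)
  linarith
/-- Walls of consecutive levels meet only at the corners. -/
theorem not_mem_SS_succ {j : ℤ} {x : ℂ} {t : ℝ} (hx : (x, t) ∈ XX) (h : x ∈ SS j) :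
    x ∉ SS (j + 1) := by
  intro h'
  have h0 := wall0_pos_of_mem_SS h hx
  rw [wall0_mem_SS] at h h'
  have hu := abs_sub_round (UU j x)
  have h1 := round_le (UU (j + 1) x) (round (UU j x) + 2 * round (VV j x))
  generalize round (VV (j + 1) x) = m at h'
  have h2 := h'.trans (div_le_div_of_nonneg_right h1 (by norm_num))
  rw [UU_succ, VV_succ] at h2
  generalize round (UU j x) = a at *
  generalize round (VV j x) = b at *
  generalize UU j x = U at *
  generalize VV j x = V at *
  push_cast at h2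
  obtain ⟨u, rfl⟩ : ∃ u, U = u + a := ⟨U - a, by ring⟩
  obtain ⟨v, rfl⟩ : ∃ v, V = v + b := ⟨V - b, by ring⟩
  obtain ⟨k, rfl⟩ : ∃ k, m = k + a + b := ⟨m - a - b, by ring⟩
  have e1 : u + a - a = u := by ring
  have e2 : v + b - b = v := by ring
  have e3 : u + a + (v + b) - ((k + a + b : ℤ) : ℝ) = u + v - k := by
    push_cast
    ring
  have e4 : u + a + 2 * (v + b) - (a + 2 * b) = u + 2 * v := by ring
  rw [e1] at h h0 hu
  rw [e2] at h
  rw [e3, e4] at h2
  have h3 : |u + 2 * v| ≤ |u| + 2 * |v| := by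
    have := abs_add_le u (2 * v)
    rwa [abs_mul, abs_two] at this
  have h4 : |u + v| ≤ |u| + |v| := abs_add_le u v
  have h5 : |u| ≤ |u + v| + |v| := by
    have := abs_sub (u + v) v
    rwa [add_sub_cancel_right] at this
  rcases eq_or_ne k 0 with rfl | hk
  · rw [Int.cast_zero, sub_zero] at h2
    linarith
  · have h6 : (1 : ℝ) ≤ |(k : ℝ)| := by exact_mod_cast Int.one_le_abs hk
    have h7 : |(k : ℝ)| ≤ |u + v| + |u + v - k| := by
      have := abs_sub (u + v) (u + v - k)
      rwa [sub_sub_cancel] at this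
    linarith

end Pool.Agent.Zig
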