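import Pool.Agent.Lib.MP_d77862_gt.Wall0

noncomputable section

namespace Pool.Agent.Zig

open Set Filter Topology Complex Real

/-! The weights of the walls. -/

theorem WW_nonneg (x0 : ℂ) (j : ℤ) (x : ℂ) : 0 ≤ WW x0 j x := by
  unfold WW
  split_ifs
  · exact clamp_nonneg _
  · exact le_rfl

theorem WW_le_one (x0 : ℂ) (j : ℤ) (x : ℂ) : WW x0 j x ≤ 1 := by
  unfold WW
  split_ifs
  · exact clamp_le_one _
  · exact zero_le_one

theorem wall1_WW_of_mem {x0 : ℂ} {j : ℤ} (h : x0 ∈ SS j) :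
    WW x0 j = sgm j ⌊UU j x0⌋ (round (VV j x0)) := by
  funext x
  unfold WW
  rw [if_pos h]

theorem wall1_WW_of_not_mem {x0 : ℂ} {j : ℤ} (h : x0 ∉ SS j) : WW x0 j = fun _ => 0 := by
  funext x
  unfold WW
  rw [if_neg h]

/-- The argument of the clamp. -/
def wall1_arg (j a b : ℤ) (x : ℂ) : ℝ :=
  1 / 2 + 2 * (-1) ^ (j + 1 + a) * (VV j x - b) / min (UU j x - a) (a + 1 - UU j x)

theorem wall1_sgm (j a b : ℤ) (x : ℂ) : sgm j a b x = clamp (wall1_arg j a b x) := rfl

theorem wall1_cont_arg (j a b : ℤ) {x : ℂ} (h1 : (a : ℝ) < UU j x) (h2 : UU j x < a + 1) :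
    ContinuousAt (wall1_arg j a b) x := by
  have hU := (continuous_UU j).continuousAt (x := x)
  have hV := (continuous_VV j).continuousAt (x := x)
  unfold wall1_arg
  refine continuousAt_const.add (ContinuousAt.div
    (continuousAt_const.mul (hV.sub continuousAt_const))
    ((hU.sub continuousAt_const).min (continuousAt_const.sub hU)) ?_)
  have : 0 < min (UU j x - a) (a + 1 - UU j x) := lt_min (by linarith) (by linarith)
  exact this.ne'

theorem wall1_round_eq {v : ℝ} {b : ℤ} (h : |v - b| < 1 / 2) : round v = b := by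
  rw [round_eq, Int.floor_eq_iff]
  have := abs_lt.mp h
  constructor <;> linarith [this.1, this.2]

theorem wall1_near {x0 : ℂ} {t : ℝ} (hx : (x0, t) ∈ XX) {j : ℤ} (h : x0 ∈ SS j) :
    ∀ᶠ x in 𝓝 x0, (⌊UU j x0⌋ : ℝ) < UU j x ∧ UU j x < ⌊UU j x0⌋ + 1 ∧
      |VV j x - round (VV j x0)| < 1 / 2 := by
  have h1 : (⌊UU j x0⌋ : ℝ) < UU j x0 := by
    have := fract_pos_of_mem_SS h hx
    rw [Int.fract] at this
    linarith
  have h2 : UU j x0 < ⌊UU j x0⌋ + 1 := Int.lt_floor_add_one _
  have h3 : |VV j x0 - round (VV j x0)| < 1 / 2 := by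
    have := abs_le_of_mem_SS h
    linarith
  have hU := (continuous_UU j).continuousAt (x := x0)
  have hV := (continuous_VV j).continuousAt (x := x0)
  have e1 : ∀ᶠ x in 𝓝 x0, (⌊UU j x0⌋ : ℝ) < UU j x :=
    ContinuousAt.eventually_lt continuousAt_const hU h1
  have e2 : ∀ᶠ x in 𝓝 x0, UU j x < ⌊UU j x0⌋ + 1 :=
    ContinuousAt.eventually_lt hU continuousAt_const h2
  have e3 : ∀ᶠ x in 𝓝 x0, |VV j x - round (VV j x0)| < 1 / 2 :=
    ContinuousAt.eventually_lt (f := fun x => |VV j x - round (VV j x0)|)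
      (hV.sub continuousAt_const).abs continuousAt_const h3
  filter_upwards [e1, e2, e3] with x a b c
  exact ⟨a, b, c⟩

theorem eventually_continuousAt_WW {x0 : ℂ} {t : ℝ} (hx : (x0, t) ∈ XX) (j : ℤ) :
    ∀ᶠ x in 𝓝 x0, ContinuousAt (WW x0 j) x := by
  by_cases h : x0 ∈ SS j
  · rw [wall1_WW_of_mem h]
    filter_upwards [wall1_near hx h] with x hh
    exact continuous_clamp.continuousAt.comp (wall1_cont_arg j _ _ hh.1 hh.2.1)
  · rw [wall1_WW_of_not_mem h]
    exact Eventually.of_forall fun _ => continuousAt_const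

theorem wall1_sign (k : ℤ) : ((-1 : ℝ) ^ k = 1) ∨ ((-1 : ℝ) ^ k = -1) := by
  rcases Int.even_or_odd k with h | h
  · exact Or.inl h.neg_one_zpow
  · exact Or.inr h.neg_one_zpow

theorem wall1_arg_out (j a b : ℤ) {x : ℂ} (h1 : (a : ℝ) < UU j x) (h2 : UU j x < a + 1)
    (h3 : min (UU j x - a) (a + 1 - UU j x) / 4 < |VV j x - b|) :
    wall1_arg j a b x < 0 ∨ 1 < wall1_arg j a b x := by
  have hm : 0 < min (UU j x - a) (a + 1 - UU j x) := lt_min (by linarith) (by linarith)
  unfold wall1_arg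
  set m := min (UU j x - a) (a + 1 - UU j x)
  set w := VV j x - b
  have key : ∀ y : ℝ, m / 4 < |y| → 1 / 2 + 2 * y / m < 0 ∨ 1 < 1 / 2 + 2 * y / m := by
    intro y hy
    rcases le_or_gt 0 y with h0 | h0
    · right
      rw [abs_of_nonneg h0] at hy
      have : 1 / 2 < 2 * y / m := by
        rw [lt_div_iff₀ hm]
        linarith
      linarith
    · left
      rw [abs_of_neg h0] at hy
      have : 2 * y / m < -(1 / 2) := by
        rw [div_lt_iff₀ hm]
        linarith
      linarith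
  rcases wall1_sign (j + 1 + a) with hs | hs
  · rw [hs, mul_one]
    exact key w h3
  · rw [hs]
    have := key (-w) (by rwa [abs_neg])
    have e : 2 * (-1) * w / m = 2 * (-w) / m := by ring
    rw [e]
    exact this

/-- Change of base point: the weights agree near `x1`, or `x1` is outside the wall and the weight
is locally `1`. -/
theorem eventually_WW_base {x0 : ℂ} {t : ℝ} (hx : (x0, t) ∈ XX) (j : ℤ) :
    ∀ᶠ x1 in 𝓝 x0,
      ((x1 ∈ SS j → round (VV j x1) = round (VV j x0)) ∧ ∀ᶠ x in 𝓝 x1, WW x0 j x = WW x1 j x) ∨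
        ∀ᶠ x in 𝓝 x1, WW x0 j x = 1 ∧ WW x1 j x = 0 := by
  by_cases h : x0 ∈ SS j
  · filter_upwards [wall1_near hx h] with x1 hh
    obtain ⟨h1, h2, h3⟩ := hh
    have hfl : ⌊UU j x1⌋ = ⌊UU j x0⌋ := Int.floor_eq_iff.mpr ⟨h1.le, h2⟩
    have hrd : round (VV j x1) = round (VV j x0) := wall1_round_eq h3
    by_cases h' : x1 ∈ SS j
    · left
      refine ⟨fun _ => hrd, Eventually.of_forall fun x => ?_⟩
      rw [wall1_WW_of_mem h, wall1_WW_of_mem h', hfl, hrd]
    · have h4 : min (UU j x1 - ⌊UU j x0⌋) (⌊UU j x0⌋ + 1 - UU j x1) / 4 <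
          |VV j x1 - round (VV j x0)| := by
        have := h'
        simp only [SS, mem_ofPred_eq, not_le] at this
        rw [Int.fract, hfl, hrd] at this
        have e : (1 : ℝ) - (UU j x1 - ⌊UU j x0⌋) = ⌊UU j x0⌋ + 1 - UU j x1 := by ring
        rwa [e] at this
      have hc := wall1_cont_arg j ⌊UU j x0⌋ (round (VV j x0)) h1 h2
      rw [wall1_WW_of_mem h, wall1_WW_of_not_mem h']
      rcases wall1_arg_out j _ _ h1 h2 h4 with h5 | h5
      · left
        refine ⟨fun hc' => absurd hc' h', ?_⟩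
        filter_upwards [ContinuousAt.eventually_lt hc continuousAt_const h5] with x hx'
        rw [wall1_sgm]
        exact clamp_of_nonpos hx'.le
      · right
        filter_upwards [ContinuousAt.eventually_lt continuousAt_const hc h5] with x hx'
        refine ⟨?_, rfl⟩
        rw [wall1_sgm]
        exact clamp_of_one_le hx'.le
  · filter_upwards [(isClosed_SS j).isOpen_compl.mem_nhds h] with x1 h1
    left
    refine ⟨fun hc => absurd hc h1, Eventually.of_forall fun x => ?_⟩
    rw [wall1_WW_of_not_mem h, wall1_WW_of_not_mem h1]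

/-- The coordinates of the image of a point. -/
theorem wall1_coord {n : ℤ} (e : ℤˣ) {c : ℤ × ℤ} (h : Adm n c) (j : ℤ) :
    ∃ a b : ℤ, Even a ∧ Even (b - n) ∧ ∀ (x : ℂ) (t : ℝ),
      UU (j - 2 * n) (act n e c (x, t)).1 = ((e : ℤ) : ℝ) * UU j x + a ∧
      VV (j - 2 * n) (act n e c (x, t)).1 = ((e : ℤ) : ℝ) * VV j x + b := by
  obtain ⟨a, b, ha, hb, pa, pb⟩ := UV_cor (j - 2 * n) c
  obtain ⟨h1, h2⟩ := h
  refine ⟨a, b, ?_, ?_, fun x t => ?_⟩
  · have := pa.add h1
    simpa using this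
  · have h3 : Even ((j - 2 * n) * c.1) := h1.mul_left _
    have := (pb.add h3).add h2
    have e' : b - c.2 - (j - 2 * n) * c.1 + (j - 2 * n) * c.1 + (c.2 - n) = b - n := by ring
    rwa [e'] at this
  · have e1 : (act n e c (x, t)).1 = ((((e : ℤ) : ℝ)) : ℂ) * DD n x + cor c := by
      simp [act]
    rw [e1, UU_add, VV_add, UU_real_mul, VV_real_mul, UU_DD, VV_DD, ha, hb]
    exact ⟨rfl, rfl⟩

theorem wall1_dist_neg (v : ℝ) : |-v - round (-v)| = |v - round v| := by
  apply le_antisymm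
  · have := round_le (-v) (-round v)
    have e : |-v - ((-round v : ℤ) : ℝ)| = |v - round v| := by
      rw [← abs_neg]
      congr 1
      push_cast
      ring
    rwa [e] at this
  · have := round_le v (-round (-v))
    have e : |v - ((-round (-v) : ℤ) : ℝ)| = |-v - round (-v)| := by
      rw [← abs_neg]
      congr 1
      push_cast
      ring
    rwa [e] at this

theorem wall1_dist_add (v : ℝ) (b : ℤ) : |v + b - round (v + b)| = |v - round v| := by
  rw [round_add_intCast]
  congr 1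
  push_cast
  ring

theorem wall1_mem_SS (j : ℤ) (x : ℂ) :
    x ∈ SS j ↔ |VV j x - round (VV j x)| ≤ |UU j x - round (UU j x)| / 4 := by
  rw [abs_sub_round_eq_min (UU j x)]
  rfl

/-- Equivariance of the walls. -/
theorem SS_act {n : ℤ} (e : ℤˣ) {c : ℤ × ℤ} (h : Adm n c) (j : ℤ) (x : ℂ) (t : ℝ) :
    (act n e c (x, t)).1 ∈ SS (j - 2 * n) ↔ x ∈ SS j := by
  obtain ⟨a, b, -, -, hab⟩ := wall1_coord e h j
  rw [wall1_mem_SS, wall1_mem_SS, (hab x t).1, (hab x t).2, wall1_dist_add, wall1_dist_add]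
  rcases Int.units_eq_one_or e with he | he
  · subst he
    simp
  · subst he
    have e1 : ∀ y : ℝ, (((-1 : ℤˣ) : ℤ) : ℝ) * y = -y := by
      intro y
      simp
    rw [e1, e1, wall1_dist_neg, wall1_dist_neg]

theorem WW_act {n : ℤ} (e : ℤˣ) {c : ℤ × ℤ} (h : Adm n c) (j : ℤ) {x0 : ℂ} {t : ℝ}
    (hx : (x0, t) ∈ XX) (x : ℂ) :
    WW (act n e c (x0, t)).1 (j - 2 * n) (act n e c (x, t)).1 = WW x0 j x := by
  by_cases h0 : x0 ∈ SS j
  · have h0' := (SS_act e h j x0 t).mpr h0
    obtain ⟨a, b, pa, -, hab⟩ := wall1_coord e h j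
    rw [wall1_WW_of_mem h0, wall1_WW_of_mem h0']
    obtain ⟨h1, h2, h3⟩ := (wall1_near hx h0).self_of_nhds
    unfold sgm
    rw [(hab x0 t).1, (hab x0 t).2, (hab x t).1, (hab x t).2]
    set a0 := ⌊UU j x0⌋
    set b0 := round (VV j x0)
    obtain ⟨k, hk⟩ := pa
    rcases Int.units_eq_one_or e with he | he
    · subst he
      have e1 : ∀ y : ℝ, (((1 : ℤˣ) : ℤ) : ℝ) * y = y := by
        intro y
        simp
      simp only [e1]
      rw [Int.floor_add_intCast, round_add_intCast]
      have es : (-1 : ℝ) ^ (j - 2 * n + 1 + (a0 + a)) = (-1) ^ (j + 1 + a0) := by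
        have : j - 2 * n + 1 + (a0 + a) = (j + 1 + a0) + 2 * (k - n) := by
          rw [hk]
          ring
        rw [this, zpow_add₀ (by norm_num : (-1 : ℝ) ≠ 0), (even_two_mul _).neg_one_zpow, mul_one]
      rw [es]
      congr 3
      · push_cast
        ring
      · congr 1 <;> push_cast <;> ring
    · subst he
      have e1 : ∀ y : ℝ, (((-1 : ℤˣ) : ℤ) : ℝ) * y = -y := by
        intro y
        simp
      simp only [e1]
      have f1 : ⌊-UU j x0 + a⌋ = a - a0 - 1 := by
        rw [Int.floor_eq_iff]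
        push_cast
        constructor <;> linarith
      have f2 : round (-VV j x0 + b) = b - b0 := by
        apply wall1_round_eq
        rw [← abs_neg]
        convert h3 using 2
        push_cast
        ring
      rw [f1, f2]
      have es : (-1 : ℝ) ^ (j - 2 * n + 1 + (a - a0 - 1)) = -(-1) ^ (j + 1 + a0) := by
        have : j - 2 * n + 1 + (a - a0 - 1) = (j + 1 + a0) + (2 * (k - n - a0 - 1) + 1) := by
          rw [hk]
          ring
        rw [this, zpow_add₀ (by norm_num : (-1 : ℝ) ≠ 0), (odd_two_mul_add_one _).neg_one_zpow]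
        ring
      rw [es, min_comm]
      congr 3
      · push_cast
        ring
      · congr 1 <;> push_cast <;> ring
  · have h0' := (SS_act e h j x0 t).not.mpr h0
    rw [wall1_WW_of_not_mem h0, wall1_WW_of_not_mem h0']

theorem row_act {n : ℤ} (e : ℤˣ) {c : ℤ × ℤ} (h : Adm n c) {j : ℤ} {x0 : ℂ} (t : ℝ)
    (hx : x0 ∈ SS j) :
    Even (round (VV (j - 2 * n) (act n e c (x0, t)).1) - round (VV j x0) - n) := by
  obtain ⟨a, b, -, pb, hab⟩ := wall1_coord e h j
  rw [(hab x0 t).2]
  have h3 : |VV j x0 - round (VV j x0)| < 1 / 2 := by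
    have := abs_le_of_mem_SS hx
    linarith
  rcases Int.units_eq_one_or e with he | he
  · subst he
    have e1 : (((1 : ℤˣ) : ℤ) : ℝ) * VV j x0 = VV j x0 := by simp
    rw [e1, round_add_intCast]
    have e2 : round (VV j x0) + b - round (VV j x0) - n = b - n := by ring
    rwa [e2]
  · subst he
    have e1 : (((-1 : ℤˣ) : ℤ) : ℝ) * VV j x0 = -VV j x0 := by simp
    have f2 : round (-VV j x0 + b) = b - round (VV j x0) := by
      apply wall1_round_eq
      rw [← abs_neg]
      convert h3 using 2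
      push_cast
      ring
    rw [e1, f2]
    have e2 : b - round (VV j x0) - round (VV j x0) - n = b - n - 2 * round (VV j x0) := by ring
    rw [e2]
    exact pb.sub (even_two_mul _)

end Pool.Agent.Zig
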