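import Pool.Agent.Lib.MP_d77862_gt.Wall1

noncomputable section

namespace Pool.Agent.Zig

open Set Filter Topology Complex Real

/-! The walls near a corner. -/

theorem wall2_U (j : ℤ) (θ : ℝ) : UU j (dir θ) =
    (Real.exp (j * lg) * Real.cos θ + (-1) ^ j * Real.exp (-(j * lg)) * Real.sin θ) / 2 := by
  rw [UU, dir_re, dir_im]

theorem wall2_V (j : ℤ) (θ : ℝ) : VV j (dir θ) =
    (Real.exp (j * lg) * Real.cos θ - (-1) ^ j * Real.exp (-(j * lg)) * Real.sin θ) /
      (2 * √2) := by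
  rw [VV, dir_re, dir_im]

theorem wall2_cont {j : ℤ} {θ : ℝ} (h : UU j (dir θ) ≠ 0) :
    ContinuousAt (fun θ => 1 / 2 - 2 * (-1) ^ j * VV j (dir θ) / UU j (dir θ)) θ := by
  have hU : Continuous fun θ => UU j (dir θ) := (continuous_UU j).comp continuous_dir
  have hV : Continuous fun θ => VV j (dir θ) := (continuous_VV j).comp continuous_dir
  exact continuousAt_const.sub ((continuousAt_const.mul hV.continuousAt).div hU.continuousAt h)

theorem wall2_sj_zero {j : ℤ} {θ : ℝ} (h : UU j (dir θ) ≠ 0)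
    (h1 : 1 / 2 - 2 * (-1) ^ j * VV j (dir θ) / UU j (dir θ) < 0) :
    ∀ᶠ θ' in 𝓝 θ, sj j θ' = 0 := by
  filter_upwards [(wall2_cont h).eventually (gt_mem_nhds h1)] with θ' h'
  exact clamp_of_nonpos h'.le

theorem wall2_sj_one {j : ℤ} {θ : ℝ} (h : UU j (dir θ) ≠ 0)
    (h1 : 1 < 1 / 2 - 2 * (-1) ^ j * VV j (dir θ) / UU j (dir θ)) :
    ∀ᶠ θ' in 𝓝 θ, sj j θ' = 1 := by
  filter_upwards [(wall2_cont h).eventually (lt_mem_nhds h1)] with θ' h'
  exact clamp_of_one_le h'.le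

theorem wall2_sqrt : (1 : ℝ) < √2 ∧ √2 < 3 / 2 := by
  constructor
  · exact Real.lt_sqrt_of_sq_lt (by norm_num)
  · exact (Real.sqrt_lt' (by norm_num)).2 (by norm_num)

theorem wall2_ratio_sin {j : ℤ} {θ : ℝ} (hs : Real.sin θ = 0) (hc : Real.cos θ ≠ 0) :
    UU j (dir θ) ≠ 0 ∧ ∀ c : ℝ, c * VV j (dir θ) / UU j (dir θ) = c / √2 := by
  have hA := (Real.exp_pos (j * lg)).ne'
  have h2 := wall0_sqrt_pos.ne'
  rw [wall2_U, wall2_V, hs]
  refine ⟨by simp [hc], fun c => ?_⟩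
  simp only [mul_zero, add_zero, sub_zero]
  field_simp

theorem wall2_ratio_cos {j : ℤ} {θ : ℝ} (hc : Real.cos θ = 0) (hs : Real.sin θ ≠ 0) :
    UU j (dir θ) ≠ 0 ∧ ∀ c : ℝ, c * VV j (dir θ) / UU j (dir θ) = -(c / √2) := by
  have hA := (Real.exp_pos (-(j * lg))).ne'
  have h2 := wall0_sqrt_pos.ne'
  have h3 : (-1 : ℝ) ^ j ≠ 0 := zpow_ne_zero _ (by norm_num)
  rw [wall2_U, wall2_V, hc]
  refine ⟨by simp [hs, h3], fun c => ?_⟩
  simp only [mul_zero, zero_add, zero_sub]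
  field_simp

theorem wall2_two_div : 1 / 2 < 2 / √2 := by
  have h := wall2_sqrt
  rw [lt_div_iff₀ wall0_sqrt_pos]
  linarith [h.2]

theorem sj_add_int_pi (j k : ℤ) (θ : ℝ) : sj j (θ + k * π) = sj j θ := by
  have e : dir (θ + k * π) = (((-1 : ℝ) ^ k : ℝ) : ℂ) * dir θ := by
    rw [dir_add_int_pi]
    push_cast
    rfl
  have h3 : (-1 : ℝ) ^ k ≠ 0 := zpow_ne_zero _ (by norm_num)
  unfold sj
  rw [e, UU_real_mul, VV_real_mul]
  congr 2
  rw [← mul_assoc, mul_comm (2 * (-1) ^ j), mul_assoc, mul_div_mul_left _ _ h3]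

theorem sj_ang (j n : ℤ) (θ : ℝ) : sj (j - 2 * n) (ang (LL * n) θ) = sj j θ := by
  have h1 := UU_DD j n (dir θ)
  have h2 := VV_DD j n (dir θ)
  rw [DD, Dg_dir, UU_real_mul] at h1
  rw [DD, Dg_dir, VV_real_mul] at h2
  have h3 : (-1 : ℝ) ^ (j - 2 * n) = (-1) ^ j := by
    rcases Int.even_or_odd j with h | h
    · rw [h.neg_one_zpow, (h.sub (even_two_mul n)).neg_one_zpow]
    · rw [h.neg_one_zpow, (h.sub_even (even_two_mul n)).neg_one_zpow]
  have h4 := (nrm_pos (LL * n) θ).ne'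
  unfold sj
  rw [← h1, ← h2, h3]
  congr 2
  rw [mul_left_comm _ (nrm _ _), mul_div_mul_left _ _ h4]

theorem wall2_pos {a b c s : ℝ} (ha : 0 < a) (hb : 0 < b) (hc : 0 ≤ c) (hs : 0 ≤ s)
    (h : s ^ 2 + c ^ 2 = 1) : 0 < a * c + b * s := by
  rcases hc.lt_or_eq with h1 | h1
  · have := mul_pos ha h1
    have := mul_nonneg hb.le hs
    linarith
  · rcases hs.lt_or_eq with h2 | h2
    · have := mul_pos hb h2
      rw [← h1]
      linarith
    · rw [← h1, ← h2] at h
      norm_num at h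

theorem continuousOn_sj_even {j : ℤ} (h : Even j) : ContinuousOn (sj j) (Icc 0 (π / 2)) := by
  intro θ hθ
  have hU : UU j (dir θ) ≠ 0 := by
    rw [wall2_U, h.neg_one_zpow, one_mul]
    have := wall2_pos (Real.exp_pos (j * lg)) (Real.exp_pos (-(j * lg)))
      (Real.cos_nonneg_of_mem_Icc ⟨by linarith [hθ.1, Real.pi_pos], hθ.2⟩)
      (Real.sin_nonneg_of_mem_Icc ⟨hθ.1, by linarith [hθ.2, Real.pi_pos]⟩)
      (Real.sin_sq_add_cos_sq θ)
    exact (half_pos this).ne'
  exact (continuous_clamp.continuousAt.comp (wall2_cont hU)).continuousWithinAt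

theorem continuousOn_sj_odd {j : ℤ} (h : Odd j) : ContinuousOn (sj j) (Icc (π / 2) π) := by
  intro θ hθ
  have hU : UU j (dir θ) ≠ 0 := by
    rw [wall2_U, h.neg_one_zpow]
    have hc : 0 ≤ -Real.cos θ := by
      have := Real.cos_nonpos_of_pi_div_two_le_of_le hθ.1 (by linarith [hθ.2, Real.pi_pos])
      linarith
    have := wall2_pos (Real.exp_pos (j * lg)) (Real.exp_pos (-(j * lg))) hc
      (Real.sin_nonneg_of_mem_Icc ⟨by linarith [hθ.1, Real.pi_pos], hθ.2⟩)
      (by rw [neg_sq]; exact Real.sin_sq_add_cos_sq θ)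
    intro h0
    linarith
  exact (continuous_clamp.continuousAt.comp (wall2_cont hU)).continuousWithinAt

theorem sj_even_zero {j : ℤ} (h : Even j) : ∀ᶠ θ in 𝓝 (0 : ℝ), sj j θ = 0 := by
  obtain ⟨h1, h2⟩ := wall2_ratio_sin (j := j) Real.sin_zero (by simp)
  refine wall2_sj_zero h1 ?_
  rw [h2, h.neg_one_zpow, mul_one]
  linarith [wall2_two_div]

theorem sj_even_half {j : ℤ} (h : Even j) : ∀ᶠ θ in 𝓝 (π / 2), sj j θ = 1 := by
  obtain ⟨h1, h2⟩ := wall2_ratio_cos (j := j) Real.cos_pi_div_two (by simp)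
  refine wall2_sj_one h1 ?_
  rw [h2, h.neg_one_zpow, mul_one]
  linarith [wall2_two_div]

theorem sj_odd_half {j : ℤ} (h : Odd j) : ∀ᶠ θ in 𝓝 (π / 2), sj j θ = 0 := by
  obtain ⟨h1, h2⟩ := wall2_ratio_cos (j := j) Real.cos_pi_div_two (by simp)
  refine wall2_sj_zero h1 ?_
  rw [h2, h.neg_one_zpow, mul_neg, mul_one, neg_div, neg_neg]
  linarith [wall2_two_div]

theorem sj_odd_pi {j : ℤ} (h : Odd j) : ∀ᶠ θ in 𝓝 π, sj j θ = 1 := by
  obtain ⟨h1, h2⟩ := wall2_ratio_sin (j := j) Real.sin_pi (by simp)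
  refine wall2_sj_one h1 ?_
  rw [h2, h.neg_one_zpow, mul_neg, mul_one, neg_div]
  linarith [wall2_two_div]

theorem wall2_small {j : ℤ} {r θ t : ℝ} (hr : 0 < r) (h1 : r * nrm (LL * t) θ < eps)
    (ht : t ∈ slab j) : |r * UU j (dir θ)| < 1 / 4 ∧ |r * VV j (dir θ)| < 1 / 4 := by
  have hs := wall2_sqrt
  have hb := norm_DD_le t (j / 2) (r * dir θ)
  rw [norm_DD_polar t r θ hr.le] at hb
  have he : Real.exp (LL * |(j : ℝ) / 2 - t|) ≤ 1 + √2 := by
    rw [← exp_lg]
    apply Real.exp_le_exp.2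
    have : |(j : ℝ) / 2 - t| ≤ 1 / 2 := by
      rw [abs_le]
      constructor <;> linarith [ht.1, ht.2]
    have h0 := lg_pos
    unfold LL
    nlinarith
  have hn : ‖DD (j / 2) (r * dir θ)‖ < 1 / 4 := by
    have h0 : 0 ≤ r * nrm (LL * t) θ := (mul_pos hr (nrm_pos _ _)).le
    have h2 : Real.exp (LL * |(j : ℝ) / 2 - t|) * (r * nrm (LL * t) θ) ≤
        (5 / 2) * (r * nrm (LL * t) θ) := mul_le_mul_of_nonneg_right (by linarith [hs.2]) h0
    unfold eps at h1
    linarith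
  have e : LL * ((j : ℝ) / 2) = j * lg := by
    unfold LL
    ring
  have hre := (Complex.abs_re_le_norm (DD (j / 2) (r * dir θ))).trans_lt hn
  have him := (Complex.abs_im_le_norm (DD (j / 2) (r * dir θ))).trans_lt hn
  simp only [DD, Dg, e] at hre him
  rw [← UU_real_mul, ← VV_real_mul, UU, VV]
  set a := Real.exp (j * lg) * ((r : ℂ) * dir θ).re
  have hb' : |(-1) ^ j * Real.exp (-(j * lg)) * ((r : ℂ) * dir θ).im| < 1 / 4 := by
    rw [mul_assoc, abs_mul]
    rcases wall1_sign j with h | h <;> rw [h] <;> simpa using him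
  set b := (-1) ^ j * Real.exp (-(j * lg)) * ((r : ℂ) * dir θ).im
  have ha := abs_lt.1 hre
  have hb2 := abs_lt.1 hb'
  constructor
  · rw [abs_lt]
    constructor <;> linarith [ha.1, ha.2, hb2.1, hb2.2]
  · rw [abs_div, abs_of_pos (by linarith [hs.1] : (0 : ℝ) < 2 * √2),
      div_lt_iff₀ (by linarith [hs.1])]
    have : |a - b| < 1 / 2 := by
      rw [abs_lt]
      constructor <;> linarith [ha.1, ha.2, hb2.1, hb2.2]
    linarith [hs.1]

theorem wall2_mem_iff (c : ℤ × ℤ) {j : ℤ} {r θ t : ℝ} (hr : 0 < r)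
    (h1 : r * nrm (LL * t) θ < eps) (ht : t ∈ slab j) :
    cor c + r * dir θ ∈ SS j ↔ |VV j (dir θ)| ≤ |UU j (dir θ)| / 4 := by
  obtain ⟨a, b, ha, hb, -, -⟩ := UV_cor j c
  obtain ⟨hu, hv⟩ := wall2_small hr h1 ht
  rw [wall0_mem_SS, UU_add, VV_add, UU_real_mul, VV_real_mul, ha, hb,
    wall1_round_eq (v := a + r * UU j (dir θ)) (b := a) (by simpa using hu.trans (by norm_num)),
    wall1_round_eq (v := b + r * VV j (dir θ)) (b := b) (by simpa using hv.trans (by norm_num)),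
    add_sub_cancel_left, add_sub_cancel_left, abs_mul, abs_mul, abs_of_pos hr, mul_div_assoc,
    mul_le_mul_iff_right₀ hr]

theorem wall2_prod (j : ℤ) (θ : ℝ) : (-1) ^ j * (Real.cos θ * Real.sin θ) =
    UU j (dir θ) ^ 2 - 2 * VV j (dir θ) ^ 2 := by
  have h2 := wall0_sqrt_sq
  have h0 := wall0_sqrt_pos.ne'
  have he : Real.exp (j * lg) * Real.exp (-(j * lg)) = 1 := by
    rw [← Real.exp_add]
    simp
  rw [wall2_U, wall2_V, div_pow, div_pow, mul_pow 2 √2, sq √2, h2]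
  linear_combination (-((-1) ^ j * (Real.cos θ * Real.sin θ))) * he

theorem wall2_ne {j : ℤ} {θ : ℝ} (hU : UU j (dir θ) = 0) : VV j (dir θ) ≠ 0 := by
  intro hV
  have h0 := wall0_sqrt_pos.ne'
  rw [wall2_U] at hU
  rw [wall2_V, div_eq_zero_iff] at hV
  have hV' := hV.resolve_right (by positivity)
  have hc : Real.cos θ = 0 := by
    have : Real.exp (j * lg) * Real.cos θ = 0 := by linarith
    exact (mul_eq_zero.1 this).resolve_left (Real.exp_pos _).ne'
  have hs : Real.sin θ = 0 := by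
    have : (-1) ^ j * Real.exp (-(j * lg)) * Real.sin θ = 0 := by linarith
    exact (mul_eq_zero.1 this).resolve_left
      (mul_ne_zero (zpow_ne_zero _ (by norm_num)) (Real.exp_pos _).ne')
  have := Real.sin_sq_add_cos_sq θ
  rw [hc, hs] at this
  norm_num at this

theorem wall2_U_ne {j : ℤ} {θ : ℝ} (h : |VV j (dir θ)| ≤ |UU j (dir θ)| / 4) :
    UU j (dir θ) ≠ 0 := by
  intro hU
  rw [hU] at h
  exact wall2_ne hU (abs_nonpos_iff.1 (by simpa using h))

/-- Near a base corner, at a height of the slab `j`, the wall of level `j` is a cone contained in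
the open quadrants of the parity of `j`. -/
theorem quadrant_of_mem_SS (i : Fin 2) {j : ℤ} {r θ t : ℝ} (hr : 0 < r)
    (h1 : r * nrm (LL * t) θ < eps) (ht : t ∈ slab j) (h : cor (bc i) + r * dir θ ∈ SS j) :
    0 < (-1) ^ j * (Real.cos θ * Real.sin θ) := by
  rw [wall2_mem_iff _ hr h1 ht] at h
  have hU := abs_pos.2 (wall2_U_ne h)
  rw [wall2_prod, ← sq_abs (UU _ _), ← sq_abs (VV _ _)]
  have := abs_nonneg (VV j (dir θ))
  nlinarith

/-- Inside the cone the weight is the angular progress (or one minus it), and the row has the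
parity of `j * i`. -/
theorem WW_cusp_mem (i : Fin 2) {j : ℤ} {r θ t : ℝ} (hr : 0 < r)
    (h1 : r * nrm (LL * t) θ < eps) (ht : t ∈ slab j) (h : cor (bc i) + r * dir θ ∈ SS j) :
    Even (round (VV j (cor (bc i) + r * dir θ)) - j * (i : ℕ)) ∧
      ∀ᶠ a : ℝ × ℝ in 𝓝 (r, θ),
        WW (cor (bc i) + r * dir θ) j (cor (bc i) + a.1 * dir a.2) =
          if i = 0 then sj j a.2 else 1 - sj j a.2 := by
  obtain ⟨a, b, ha, hb, pa, pb⟩ := UV_cor j (bc i)
  obtain ⟨hu, hv⟩ := wall2_small hr h1 ht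
  have hU := wall2_U_ne ((wall2_mem_iff _ hr h1 ht).1 h)
  have hround : round (VV j (cor (bc i) + r * dir θ)) = b := by
    rw [VV_add, VV_real_mul, hb]
    exact wall1_round_eq (by simpa using hv.trans (by norm_num))
  refine ⟨by rw [hround]; simpa [bc] using pb, ?_⟩
  rw [wall1_WW_of_mem h, hround]
  have hc : Continuous fun a : ℝ × ℝ => a.1 * UU j (dir a.2) :=
    continuous_fst.mul ((continuous_UU j).comp (continuous_dir.comp continuous_snd))
  have hfin : ∀ x : ℝ, clamp (1 / 2 - (-1) ^ a * x) =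
      if i = 0 then clamp (1 / 2 - x) else 1 - clamp (1 / 2 - x) := by
    intro x
    fin_cases i
    · have : Even a := by simpa [bc] using pa
      simp [this.neg_one_zpow]
    · have : Odd a := by
        have h' : Even (a - 1) := by simpa [bc] using pa
        exact (Int.even_sub_one.1 h') |> Int.not_even_iff_odd.1
      rw [this.neg_one_zpow, if_neg (by simp), ← clamp_one_sub]
      congr 1
      ring
  have hz : ∀ k l : ℤ, (-1 : ℝ) ^ (k + l) = (-1) ^ k * (-1) ^ l := fun k l =>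
    zpow_add₀ (by norm_num) k l
  have hab := abs_lt.1 hu
  have e1 : ∀ᶠ a : ℝ × ℝ in 𝓝 (r, θ), 0 < a.1 := continuous_fst.continuousAt.eventually
    (lt_mem_nhds hr)
  rcases lt_or_gt_of_ne (mul_ne_zero hr.ne' hU) with hneg | hpos
  · have hfl : ⌊UU j (cor (bc i) + r * dir θ)⌋ = a - 1 := by
      rw [UU_add, UU_real_mul, ha, Int.floor_eq_iff]
      push_cast
      constructor <;> linarith [hab.1]
    rw [hfl]
    filter_upwards [e1, hc.continuousAt.eventually (gt_mem_nhds hneg),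
      hc.continuousAt.eventually (lt_mem_nhds hab.1)] with x hx h2 h3
    have hU' : UU j (dir x.2) ≠ 0 := fun h0 => by simp [h0] at h2
    unfold sgm sj
    rw [UU_add, VV_add, UU_real_mul, VV_real_mul, ha, hb, ← hfin, min_eq_right (by
      push_cast
      linarith), show j + 1 + (a - 1) = j + a by ring, hz]
    congr 1
    push_cast
    have : (a : ℝ) - 1 + 1 - (a + x.1 * UU j (dir x.2)) = -(x.1 * UU j (dir x.2)) := by ring
    rw [this]
    field_simp
    ring
  · have hfl : ⌊UU j (cor (bc i) + r * dir θ)⌋ = a := by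
      rw [UU_add, UU_real_mul, ha, Int.floor_eq_iff]
      constructor <;> linarith [hab.2]
    rw [hfl]
    filter_upwards [e1, hc.continuousAt.eventually (lt_mem_nhds hpos),
      hc.continuousAt.eventually (gt_mem_nhds hab.2)] with x hx h2 h3
    have hU' : UU j (dir x.2) ≠ 0 := fun h0 => by simp [h0] at h2
    unfold sgm sj
    rw [UU_add, VV_add, UU_real_mul, VV_real_mul, ha, hb, ← hfin, min_eq_left (by linarith),
      hz, hz]
    congr 1
    have : (a : ℝ) + x.1 * UU j (dir x.2) - a = x.1 * UU j (dir x.2) := by ring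
    rw [this]
    field_simp
    ring

/-- Outside the cone, in a closed quadrant of the parity of `j`, the progress is locally
constant. -/
theorem sj_cusp_not_mem (i : Fin 2) {j : ℤ} {r θ t : ℝ} (hr : 0 < r)
    (h1 : r * nrm (LL * t) θ < eps) (ht : t ∈ slab j) (h : cor (bc i) + r * dir θ ∉ SS j)
    (hq : 0 ≤ (-1) ^ j * (Real.cos θ * Real.sin θ)) :
    (∀ᶠ θ' in 𝓝 θ, sj j θ' = 0) ∨ ∀ᶠ θ' in 𝓝 θ, sj j θ' = 1 := by
  rw [wall2_mem_iff _ hr h1 ht, not_le] at h
  rw [wall2_prod] at hq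
  have hU : UU j (dir θ) ≠ 0 := by
    intro hU
    have := wall2_ne hU
    rw [hU] at hq
    have := sq_pos_of_ne_zero this
    nlinarith
  have hx : 1 / 2 < |2 * (-1) ^ j * VV j (dir θ) / UU j (dir θ)| := by
    rw [abs_div, lt_div_iff₀ (abs_pos.2 hU), abs_mul, abs_mul]
    have : |(-1 : ℝ) ^ j| = 1 := by rcases wall1_sign j with h | h <;> simp [h]
    rw [this, abs_two]
    linarith
  rcases lt_abs.1 hx with h' | h'
  · exact Or.inl (wall2_sj_zero hU (by linarith))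
  · exact Or.inr (wall2_sj_one hU (by linarith))

end Pool.Agent.Zig
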