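import Pool.Agent.Lib.MP_d77862_gt.Wall3a

noncomputable section

namespace Pool.Agent.Zig

open Set Filter Topology Complex Real

/-! The local first integrals, continued. -/

variable {σ : Fin 2 → ℝ} (Y : Key σ)

theorem wall3_WW_zero {x0 : ℂ} {j : ℤ} (h : x0 ∉ SS j) (x : ℂ) : WW x0 j x = 0 := by
  unfold WW
  rw [if_neg h]

theorem wall3_slab (p : ℂ × ℝ) : ∀ᶠ q in 𝓝 p, ∀ j, q.2 ∈ slab j → p.2 ∈ slab j :=
  continuous_snd.continuousAt.eventually (eventually_slab p.2)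

theorem Key.wall3_KK_eq {p : ℂ × ℝ} (hp : p ∈ XX) :
    ∃ o : ℤ, (o = 0 ∨ o = 1) ∧ p ∈ OO o ∧ Y.KK p = Y.Kp o p.1 := by
  by_cases h0 : p ∈ OO 0
  · refine ⟨0, Or.inl rfl, h0, ?_⟩
    funext w
    unfold Key.KK
    rw [if_pos h0]
  · refine ⟨1, Or.inr rfl, (mem_OO_or hp).resolve_left h0, ?_⟩
    funext w
    unfold Key.KK
    rw [if_neg h0]

/-- If no wall of parity `o` is active at `p`, the first integral is the height. -/
theorem Key.Kp_eq_height {o o' : ℤ} (h : Odd (o - o')) {p : ℂ × ℝ} (hp : p ∈ OO o') :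
    ∀ᶠ w in 𝓝 p, Y.Kp o p.1 w = w.2 := by
  filter_upwards [wall3_slab p] with w hw
  have hodd : Odd (jj o w.2 - o') := by
    have h1 := (even_jj o w.2).add_odd h
    have h2 : jj o w.2 - o + (o - o') = jj o w.2 - o' := by ring
    rwa [h2] at h1
  have hn := hp _ hodd (hw _ (mem_slab_jj o w.2))
  unfold Key.Kp glue
  simp only [wall3_WW_zero hn, zero_mul, add_zero]

theorem Key.Kp_compat (o : ℤ) {p : ℂ × ℝ} (hp : p ∈ XX) :
    ∀ᶠ q in 𝓝 p, ∃ g : ℝ → ℝ, Function.Injective g ∧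
      ∀ᶠ w in 𝓝 q, Y.Kp o p.1 w = g (Y.Kp o q.1 w) := by
  classical
  have hx : (p.1, p.2) ∈ XX := hp
  have h1 := (eventually_all_finite (finite_slab p.2)).2
    (fun j _ => eventually_WW_base hx j)
  have h2 := continuous_fst.continuousAt.eventually h1
  filter_upwards [h2, wall3_slab p] with q hq hs
  let G : ℤ → ℝ → ℝ := fun j t =>
    if (∀ᶠ x in 𝓝 q.1, WW p.1 j x = 1 ∧ WW q.1 j x = 0) then
      Y.hh j (round (VV j p.1)) t else t
  have hG : Good o G := by
    intro j _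
    by_cases hc : (∀ᶠ x in 𝓝 q.1, WW p.1 j x = 1 ∧ WW q.1 j x = 0)
    · have e : G j = Y.hh j (round (VV j p.1)) := by
        funext t
        simp only [G, if_pos hc]
      rw [e]
      exact ⟨(Y.hh j _).strictMono, Y.hh_fix j _⟩
    · have e : G j = id := by
        funext t
        simp only [G, if_neg hc, id]
      rw [e]
      exact ⟨strictMono_id, rfl, rfl⟩
  refine ⟨glue o G, hG.strictMono.injective, ?_⟩
  have key := eventually_glue_eq (l := 𝓝 q.1) (o := o) (t0 := q.2)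
    (f := fun z j t => t + WW p.1 j z * (Y.hh j (round (VV j p.1)) t - t))
    (f' := fun z j s => G j (s + WW q.1 j z * (Y.hh j (round (VV j q.1)) s - s))) (by
      intro j _ hj
      by_cases hc : (∀ᶠ x in 𝓝 q.1, WW p.1 j x = 1 ∧ WW q.1 j x = 0)
      · filter_upwards [hc] with z hz t
        simp only [G, if_pos hc, hz.1, hz.2, zero_mul, add_zero, one_mul]
        ring
      · obtain ⟨hr, hw⟩ := (hq j (hs j hj)).resolve_right hc
        filter_upwards [hw] with z hz t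
        simp only [G, if_neg hc]
        by_cases hm : q.1 ∈ SS j
        · rw [hr hm, hz]
        · rw [hz, wall3_WW_zero hm]
          ring)
  rw [← nhds_prod_eq] at key
  filter_upwards [key] with w hw
  unfold Key.Kp
  rw [(Y.good_Kp o q.1 w.1).glue_glue G w.2]
  exact hw

theorem Key.KK_of_mem {o : ℤ} (ho : o = 0 ∨ o = 1) {p : ℂ × ℝ} (hp : p ∈ OO o) :
    ∀ᶠ w in 𝓝 p, Y.KK p w = Y.Kp o p.1 w := by
  rcases ho with rfl | rfl
  · refine Eventually.of_forall fun w => ?_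
    unfold Key.KK
    rw [if_pos hp]
  · by_cases h0 : p ∈ OO 0
    · filter_upwards [Y.Kp_eq_height (o := 0) (o' := 1) (by decide) hp,
        Y.Kp_eq_height (o := 1) (o' := 0) (by decide) h0] with w h1 h2
      unfold Key.KK
      rw [if_pos h0, h1, h2]
    · refine Eventually.of_forall fun w => ?_
      unfold Key.KK
      rw [if_neg h0]

theorem Key.wall3_Kp_cont (o : ℤ) {p : ℂ × ℝ} (hp : p ∈ XX) :
    ∀ᶠ q in 𝓝 p, ContinuousAt (Y.Kp o p.1) q := by
  have hx : (p.1, p.2) ∈ XX := hp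
  have h1 := (eventually_all_finite (finite_slab p.2)).2
    (fun j _ => eventually_continuousAt_WW hx j)
  have h2 := continuous_fst.continuousAt.eventually h1
  filter_upwards [h2, wall3_slab p] with q hq hs
  have key := continuousWithinAt_glue (T := ℂ) (o := o) (S := univ)
    (f := fun z j t => t + WW p.1 j z * (Y.hh j (round (VV j p.1)) t - t))
    (fun z _ => Y.good_Kp o p.1 z) (z0 := q.1) (mem_univ _) (t0 := q.2) (by
      intro j _ hj
      have c1 : ContinuousAt (fun a : ℂ × ℝ => WW p.1 j a.1) (q.1, q.2) :=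
        ContinuousAt.comp (f := fun a : ℂ × ℝ => a.1) (g := WW p.1 j) (hq j (hs j hj))
          continuous_fst.continuousAt
      have c2 : Continuous (fun a : ℂ × ℝ => Y.hh j (round (VV j p.1)) a.2 - a.2) :=
        ((Y.hh j (round (VV j p.1))).continuous.comp continuous_snd).sub continuous_snd
      exact (continuous_snd.continuousAt.add (c1.mul c2.continuousAt)).continuousWithinAt)
  rw [univ_prod_univ, continuousWithinAt_univ] at key
  exact key

theorem Key.KK_cont : ∀ p ∈ XX, ∀ᶠ q in 𝓝 p, ContinuousAt (Y.KK p) q := by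
  intro p hp
  obtain ⟨o, -, -, e⟩ := Y.wall3_KK_eq hp
  rw [e]
  exact Y.wall3_Kp_cont o hp

theorem Key.KK_mono (p : ℂ × ℝ) (x : ℂ) : StrictMono fun t => Y.KK p (x, t) := by
  by_cases h0 : p ∈ OO 0
  · have e : (fun t => Y.KK p (x, t)) = fun t => Y.Kp 0 p.1 (x, t) := by
      funext t
      unfold Key.KK
      rw [if_pos h0]
    rw [e]
    exact (Y.good_Kp 0 p.1 x).strictMono
  · have e : (fun t => Y.KK p (x, t)) = fun t => Y.Kp 1 p.1 (x, t) := by
      funext t
      unfold Key.KK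
      rw [if_neg h0]
    rw [e]
    exact (Y.good_Kp 1 p.1 x).strictMono

theorem Key.KK_compat : ∀ p ∈ XX, ∀ᶠ q in 𝓝 p, ∃ g : ℝ → ℝ, Function.Injective g ∧
    ∀ᶠ w in 𝓝 q, Y.KK p w = g (Y.KK q w) := by
  intro p hp
  obtain ⟨o, ho, hO, e⟩ := Y.wall3_KK_eq hp
  rw [e]
  filter_upwards [Y.Kp_compat o hp, (isOpen_OO o).mem_nhds hO] with q hq hqO
  obtain ⟨g, hg, hw⟩ := hq
  refine ⟨g, hg, ?_⟩
  filter_upwards [hw, Y.KK_of_mem ho hqO] with w h1 h2
  rw [h1, h2]

theorem Key.wall3_Kp_inv {n : ℤ} (e : ℤˣ) {c : ℤ × ℤ} (h : Adm n c) (o : ℤ) {p : ℂ × ℝ}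
    (hp : p ∈ XX) (w : ℂ × ℝ) :
    Y.Kp o (act n e c p).1 (act n e c w) = Y.Kp o p.1 w - n := by
  have hx : (p.1, p.2) ∈ XX := hp
  have e2 : (act n e c w).2 = w.2 - n := rfl
  have hW : WW (act n e c p).1 (jj o w.2 - 2 * n) (act n e c w).1 = WW p.1 (jj o w.2) w.1 :=
    WW_act e h (jj o w.2) hx w.1
  unfold Key.Kp glue
  simp only [e2, jj_sub_int, hW]
  by_cases hm : p.1 ∈ SS (jj o w.2)
  · have hr : Even (round (VV (jj o w.2 - 2 * n) (act n e c p).1) -
        round (VV (jj o w.2) p.1) - n) := row_act e h p.2 hm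
    have hj : Even (jj o w.2 - 2 * n - jj o w.2) := ⟨-n, by ring⟩
    rw [Y.hh_congr hj hr]
    ring
  · rw [wall3_WW_zero hm]
    ring

theorem Key.KK_inv : ∀ n e c, Adm n c → ∀ p ∈ XX, ∀ᶠ w in 𝓝 p,
    Y.KK (act n e c p) (act n e c w) = Y.KK p w - n := by
  intro n e c h p hp
  refine Eventually.of_forall fun w => ?_
  unfold Key.KK
  by_cases h0 : p ∈ OO 0
  · rw [if_pos h0, if_pos ((act_mem_OO e h 0 p).2 h0)]
    exact Y.wall3_Kp_inv e h 0 hp w
  · rw [if_neg h0, if_neg (fun h' => h0 ((act_mem_OO e h 0 p).1 h'))]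
    exact Y.wall3_Kp_inv e h 1 hp w

end Pool.Agent.Zig
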