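import Pool.Agent.Lib.MP_d77862_gt.Wall1
import Pool.Agent.Lib.MP_d77862_gt.KeyL

noncomputable section

namespace Pool.Agent.Zig

open Set Filter Topology Complex Real

/-! The local first integrals. -/

/-- Conjugate by an integer translation. -/
def sh (h : ℝ ≃o ℝ) (n : ℤ) : ℝ ≃o ℝ :=
  (OrderIso.subRight (n : ℝ)).trans (h.trans (OrderIso.addRight (n : ℝ)))

theorem sh_apply (h : ℝ ≃o ℝ) (n : ℤ) (t : ℝ) : sh h n t = h (t - n) + n := rfl

variable {σ : Fin 2 → ℝ} (Y : Key σ)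

/-- The holonomy across a wall of level `j` in row `b`. -/
def Key.hh (j b : ℤ) : ℝ ≃o ℝ := sh (if Even j then Y.a else Y.b) b

/-- The first integral of parity `o` seen from `x0`. -/
def Key.Kp (o : ℤ) (x0 : ℂ) (w : ℂ × ℝ) : ℝ :=
  glue o (fun j t => t + WW x0 j w.1 * (Y.hh j (round (VV j x0)) t - t)) w.2

/-- Points at which no wall of parity other than `o` is active. -/
def OO (o : ℤ) : Set (ℂ × ℝ) := {p | ∀ j, Odd (j - o) → p.2 ∈ slab j → p.1 ∉ SS j}

/-- The local first integral at `p`. -/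
def Key.KK (p w : ℂ × ℝ) : ℝ := by
  classical exact if p ∈ OO 0 then Y.Kp 0 p.1 w else Y.Kp 1 p.1 w

theorem wall3a_add_even {h : ℝ → ℝ} (h2 : ∀ t, h (t + 2) = h t + 2) (k : ℤ) (t : ℝ) :
    h (t + 2 * k) = h t + 2 * k := by
  induction k using Int.induction_on generalizing t with
  | zero => simp
  | succ n ih =>
    have := h2 (t + 2 * ((n : ℤ) : ℝ))
    rw [ih] at this
    push_cast at this ⊢
    rw [show t + 2 * ((n : ℝ) + 1) = t + 2 * (n : ℝ) + 2 by ring, this]; ring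
  | pred n ih =>
    have := h2 (t + 2 * ((-(n : ℤ) - 1 : ℤ) : ℝ))
    have e := ih t
    push_cast at this e ⊢
    rw [show t + 2 * (-(n : ℝ) - 1) + 2 = t + 2 * -(n : ℝ) by ring, e] at this
    linarith

theorem wall3a_two (j : ℤ) (t : ℝ) :
    (if Even j then Y.a else Y.b) (t + 2) = (if Even j then Y.a else Y.b) t + 2 := by
  split_ifs
  · exact Y.a2 t
  · exact Y.b2 t

theorem Key.hh_add_two (j b : ℤ) (t : ℝ) : Y.hh j b (t + 2) = Y.hh j b t + 2 := by
  rw [Key.hh, sh_apply, sh_apply, show t + 2 - (b : ℝ) = t - b + 2 by ring, wall3a_two]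
  ring
theorem Key.hh_congr {j j' b b' n : ℤ} (hj : Even (j' - j)) (hb : Even (b' - b - n)) (t : ℝ) :
    Y.hh j' b' (t - n) = Y.hh j b t - n := by
  have hjj : (if Even j' then Y.a else Y.b) = if Even j then Y.a else Y.b := by
    rw [Int.even_sub] at hj
    simp only [hj]
  obtain ⟨k, hk⟩ := hb
  have hb' : (b' : ℝ) = b + n + 2 * k := by
    have : b' = b + n + 2 * k := by omega
    exact_mod_cast this
  rw [Key.hh, Key.hh, sh_apply, sh_apply, hjj, hb']
  have := wall3a_add_even (h := fun s => (if Even j then Y.a else Y.b) s) (wall3a_two Y j)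
    (-(n + k)) (t - b)
  push_cast at this
  rw [show t - (n : ℝ) - (b + n + 2 * k) = t - b + 2 * -((n : ℝ) + k) by ring, this]
  ring
theorem Key.hh_fix (j b : ℤ) :
    Y.hh j b (((j : ℝ) - 1) / 2) = ((j : ℝ) - 1) / 2 ∧
      Y.hh j b (((j : ℝ) + 1) / 2) = ((j : ℝ) + 1) / 2 := by
  rw [Key.hh, sh_apply, sh_apply]
  rcases Int.even_or_odd' j with ⟨k, rfl | rfl⟩
  · rw [if_pos (even_two_mul k)]
    have e1 := Y.afix (k - 1 - b)
    have e2 := Y.afix (k - b)
    push_cast at e1 e2 ⊢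
    rw [show (2 * (k : ℝ) - 1) / 2 - b = k - 1 - b + 1 / 2 by ring,
      show (2 * (k : ℝ) + 1) / 2 - b = k - b + 1 / 2 by ring, e1, e2]
    constructor <;> ring
  · rw [if_neg (Int.not_even_iff_odd.2 (odd_two_mul_add_one k))]
    have e1 := Y.bfix (k - b)
    have e2 := Y.bfix (k + 1 - b)
    push_cast at e1 e2 ⊢
    rw [show (2 * (k : ℝ) + 1 - 1) / 2 - b = k - b by ring,
      show (2 * (k : ℝ) + 1 + 1) / 2 - b = k + 1 - b by ring, e1, e2]
    constructor <;> ring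
theorem Key.good_Kp (o : ℤ) (x0 x : ℂ) :
    Good o fun j t => t + WW x0 j x * (Y.hh j (round (VV j x0)) t - t) := by
  intro j _
  refine ⟨strictMono_interp _ (WW_nonneg x0 j x) (WW_le_one x0 j x), ?_, ?_⟩
  · simp only [(Y.hh_fix j (round (VV j x0))).1, sub_self, mul_zero, add_zero]
  · simp only [(Y.hh_fix j (round (VV j x0))).2, sub_self, mul_zero, add_zero]
theorem isOpen_OO (o : ℤ) : IsOpen (OO o) := by
  rw [isOpen_iff_mem_nhds]
  intro p hp
  have h1 : ∀ᶠ q : ℂ × ℝ in 𝓝 p, ∀ j, q.2 ∈ slab j → p.2 ∈ slab j :=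
    (continuous_snd.tendsto p).eventually (eventually_slab p.2)
  have h2 : ∀ᶠ q : ℂ × ℝ in 𝓝 p, ∀ j ∈ {j | p.2 ∈ slab j}, Odd (j - o) → q.1 ∉ SS j := by
    rw [eventually_all_finite (finite_slab p.2)]
    intro j hj
    by_cases ho : Odd (j - o)
    · have : ∀ᶠ x in 𝓝 p.1, x ∉ SS j := (isClosed_SS j).isOpen_compl.mem_nhds (hp j ho hj)
      exact ((continuous_fst.tendsto p).eventually this).mono fun q hq _ => hq
    · exact Eventually.of_forall fun q h => absurd h ho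
  filter_upwards [h1, h2] with q a b
  exact fun j ho hj => b j (a j hj) ho
theorem mem_OO_or {p : ℂ × ℝ} (hp : p ∈ XX) : p ∈ OO 0 ∨ p ∈ OO 1 := by
  by_contra hc
  rw [not_or] at hc
  obtain ⟨h0, h1⟩ := hc
  simp only [OO, mem_ofPred_eq, not_forall, not_not] at h0 h1
  obtain ⟨j, ho, hs, hS⟩ := h0
  obtain ⟨j', ho', hs', hS'⟩ := h1
  have hodd : Odd (j - j') := by
    obtain ⟨a, ha⟩ := ho
    obtain ⟨b, hb⟩ := ho'
    exact ⟨a - b - 1, by omega⟩
  have hp' : (p.1, p.2) ∈ XX := hp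
  rcases abs_sub_eq_one_of_slab hs hs' hodd with rfl | rfl
  · exact not_mem_SS_succ hp' hS hS'
  · exact not_mem_SS_succ hp' hS' hS
theorem act_mem_OO {n : ℤ} (e : ℤˣ) {c : ℤ × ℤ} (h : Adm n c) (o : ℤ) (p : ℂ × ℝ) :
    act n e c p ∈ OO o ↔ p ∈ OO o := by
  obtain ⟨x, t⟩ := p
  have e2 : (act n e c (x, t)).2 = t - n := rfl
  constructor
  · intro hp j ho hj hS
    refine hp (j - 2 * n) ?_ ?_ ((SS_act e h j x t).2 hS)
    · obtain ⟨a, ha⟩ := ho
      exact ⟨a - n, by omega⟩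
    · rw [e2]; exact (mem_slab_sub_int j n t).2 hj
  · intro hp j ho hj hS
    obtain ⟨i, rfl⟩ : ∃ i, j = i - 2 * n := ⟨j + 2 * n, by ring⟩
    refine hp i ?_ ?_ ((SS_act e h i x t).1 hS)
    · obtain ⟨a, ha⟩ := ho
      exact ⟨a + n, by omega⟩
    · rw [e2] at hj; exact (mem_slab_sub_int i n t).1 hj

end Pool.Agent.Zig
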