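import Pool.Agent.Lib.MP_d77862_gt.Wall2
import Pool.Agent.Lib.MP_d77862_gt.Wall3

noncomputable section

namespace Pool.Agent.Zig

open Set Filter Topology Complex Real

/-! The filling data defined by the walls. -/

variable {σ : Fin 2 → ℝ} (Y : Key σ)

/-- The isotopy from the identity to `h` (cusp `0`) or to `h⁻¹` (cusp `1`). -/
def Lc (i : Fin 2) (h : ℝ ≃o ℝ) (s t : ℝ) : ℝ :=
  if i = 0 then t + s * (h t - t) else h.symm (t + (1 - s) * (h t - t))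

/-- Holonomy accumulated in the quadrant `[0, π / 2]`. -/
def Key.Ee (i : Fin 2) (θ t : ℝ) : ℝ :=
  glue 0 (fun j s => Lc i (Y.hh j (j * (i : ℕ))) (sj j (min θ (π / 2))) s) t

/-- Holonomy accumulated in the quadrant `[π / 2, π]`. -/
def Key.Eo (i : Fin 2) (θ t : ℝ) : ℝ :=
  glue 1 (fun j s => Lc i (Y.hh j (j * (i : ℕ))) (sj j (max θ (π / 2))) s) t

/-- The coordinate along the new core. -/
def Key.BW (i : Fin 2) (θ t : ℝ) : ℝ :=
  Y.C i (Y.Ee i (θ - π * (⌊θ / π⌋ : ℤ)) (Y.Eo i (θ - π * (⌊θ / π⌋ : ℤ)) t)) +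
    σ i * (⌊θ / π⌋ : ℤ)

theorem Lc_zero (i : Fin 2) (h : ℝ ≃o ℝ) (t : ℝ) : Lc i h 0 t = t := by
  unfold Lc
  split_ifs
  · simp
  · simp

theorem Lc_one (i : Fin 2) (h : ℝ ≃o ℝ) (t : ℝ) :
    Lc i h 1 t = if i = 0 then h t else h.symm t := by
  unfold Lc
  split_ifs
  · simp
  · simp

theorem wall4_Lc_fix (i : Fin 2) (h : ℝ ≃o ℝ) (s : ℝ) {x : ℝ} (hx : h x = x) :
    Lc i h s x = x := by
  unfold Lc
  split_ifs
  · simp [hx]
  · rw [hx, sub_self, mul_zero, add_zero, OrderIso.symm_apply_eq, hx]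

theorem wall4_Lc_mono (i : Fin 2) (h : ℝ ≃o ℝ) {s : ℝ} (h0 : 0 ≤ s) (h1 : s ≤ 1) :
    StrictMono (Lc i h s) := by
  unfold Lc
  split_ifs
  · exact strictMono_interp h h0 h1
  · exact h.symm.strictMono.comp (strictMono_interp h (by linarith) (by linarith))

theorem wall4_Lc_cont (i : Fin 2) (h : ℝ ≃o ℝ) :
    Continuous fun a : ℝ × ℝ => Lc i h a.1 a.2 := by
  have h1 : Continuous h := h.continuous
  have h2 : Continuous h.symm := h.symm.continuous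
  unfold Lc
  split_ifs
  · fun_prop
  · fun_prop

theorem wall4_Lc_shift (i : Fin 2) {h h' : ℝ ≃o ℝ} (hh : ∀ t, h' (t + 2) = h t + 2)
    (s t : ℝ) : Lc i h' s (t + 2) = Lc i h s t + 2 := by
  unfold Lc
  split_ifs
  · rw [hh]; ring
  · rw [OrderIso.symm_apply_eq, hh, hh, OrderIso.apply_symm_apply]; ring

theorem wall4_sj_mem (j : ℤ) (θ : ℝ) : 0 ≤ sj j θ ∧ sj j θ ≤ 1 :=
  ⟨clamp_nonneg _, clamp_le_one _⟩

theorem Key.good_Lc (i : Fin 2) (o : ℤ) (s : ℤ → ℝ) (hs : ∀ j, 0 ≤ s j ∧ s j ≤ 1) :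
    Good o fun j t => Lc i (Y.hh j (j * (i : ℕ))) (s j) t := by
  intro j _
  exact ⟨wall4_Lc_mono i _ (hs j).1 (hs j).2, wall4_Lc_fix i _ _ (Y.hh_fix j _).1,
    wall4_Lc_fix i _ _ (Y.hh_fix j _).2⟩

theorem Key.continuousOn_Ee (i : Fin 2) :
    ContinuousOn (fun a : ℝ × ℝ => Y.Ee i a.1 a.2) (Icc 0 π ×ˢ univ) := by
  rintro ⟨θ0, t0⟩ hp
  refine continuousWithinAt_glue (T := ℝ) (o := 0)
    (f := fun θ j s => Lc i (Y.hh j (j * (i : ℕ))) (sj j (min θ (π / 2))) s)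
    (fun θ _ => Y.good_Lc i 0 _ fun j => wall4_sj_mem j _) hp.1 ?_
  intro j hj _
  have hj' : Even j := by simpa using hj
  have h1 : ContinuousOn (fun a : ℝ × ℝ => sj j (min a.1 (π / 2))) (Icc 0 π ×ˢ univ) := by
    refine (continuousOn_sj_even hj').comp (f := fun a : ℝ × ℝ => min a.1 (π / 2))
      (by fun_prop) ?_
    intro a ha
    exact ⟨le_min ha.1.1 (by positivity), min_le_right _ _⟩
  have h2 := (wall4_Lc_cont i (Y.hh j (j * (i : ℕ)))).comp_continuousOn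
    (h1.prodMk continuousOn_snd)
  exact h2 _ hp

theorem Key.continuousOn_Eo (i : Fin 2) :
    ContinuousOn (fun a : ℝ × ℝ => Y.Eo i a.1 a.2) (Icc 0 π ×ˢ univ) := by
  rintro ⟨θ0, t0⟩ hp
  refine continuousWithinAt_glue (T := ℝ) (o := 1)
    (f := fun θ j s => Lc i (Y.hh j (j * (i : ℕ))) (sj j (max θ (π / 2))) s)
    (fun θ _ => Y.good_Lc i 1 _ fun j => wall4_sj_mem j _) hp.1 ?_
  intro j hj _
  have hj' : Odd j := by
    obtain ⟨m, hm⟩ := hj
    exact ⟨m, by omega⟩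
  have h1 : ContinuousOn (fun a : ℝ × ℝ => sj j (max a.1 (π / 2))) (Icc 0 π ×ˢ univ) := by
    refine (continuousOn_sj_odd hj').comp (f := fun a : ℝ × ℝ => max a.1 (π / 2))
      (by fun_prop) ?_
    intro a ha
    exact ⟨le_max_right _ _, max_le ha.1.2 (by linarith [pi_pos])⟩
  have h2 := (wall4_Lc_cont i (Y.hh j (j * (i : ℕ)))).comp_continuousOn
    (h1.prodMk continuousOn_snd)
  exact h2 _ hp

theorem wall4_even_jj (t : ℝ) : Even (jj 0 t) := by simpa using even_jj 0 t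

theorem wall4_odd_jj (t : ℝ) : Odd (jj 1 t) := by
  obtain ⟨m, hm⟩ := even_jj 1 t
  exact ⟨m, by omega⟩

theorem Key.E_zero (i : Fin 2) (t : ℝ) : Y.Ee i 0 (Y.Eo i 0 t) = t := by
  have h1 : Y.Eo i 0 t = t := by
    unfold Key.Eo glue
    have : max (0 : ℝ) (π / 2) = π / 2 := max_eq_right (by positivity)
    simp only [this]
    rw [(sj_odd_half (wall4_odd_jj t)).self_of_nhds, Lc_zero]
  rw [h1]
  unfold Key.Ee glue
  have : min (0 : ℝ) (π / 2) = 0 := min_eq_left (by positivity)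
  simp only [this]
  rw [(sj_even_zero (wall4_even_jj t)).self_of_nhds, Lc_zero]

theorem Key.wall4_hh_eq {j j' b b' : ℤ} (hj : Even (j' - j)) (hb : Even (b' - b)) :
    Y.hh j' b' = Y.hh j b := by
  ext t
  have := Y.hh_congr (n := 0) hj (by simpa using hb) t
  simpa using this

theorem Key.wall4_Eo_pi (i : Fin 2) (t : ℝ) :
    Y.Eo i π t = if i = 0 then Y.b t else Y.b.symm (t - 1) + 1 := by
  unfold Key.Eo glue
  have : max π (π / 2) = π := max_eq_left (by linarith [pi_pos])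
  simp only [this]
  have ho := wall4_odd_jj t
  rw [(sj_odd_pi ho).self_of_nhds, Lc_one]
  obtain ⟨m, hm⟩ := ho
  split_ifs with hi
  · subst hi
    rw [Y.wall4_hh_eq (j := 1) (b := 0) ⟨m, by omega⟩ (by simp)]
    simp [Key.hh, sh_apply]
  · have hi1 : i = 1 := by
      fin_cases i
      · exact absurd rfl hi
      · rfl
    subst hi1
    rw [Y.wall4_hh_eq (j := 1) (b := 1) ⟨m, by omega⟩ ⟨m, by simp; omega⟩,
      OrderIso.symm_apply_eq]
    simp [Key.hh, sh_apply]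

theorem Key.wall4_Ee_pi (i : Fin 2) (t : ℝ) :
    Y.Ee i π t = if i = 0 then Y.a t else Y.a.symm t := by
  unfold Key.Ee glue
  have : min π (π / 2) = π / 2 := min_eq_right (by linarith [pi_pos])
  simp only [this]
  have ho := wall4_even_jj t
  rw [(sj_even_half ho).self_of_nhds, Lc_one,
    Y.wall4_hh_eq (j := 0) (b := 0) (by simpa using ho) (by simpa using ho.mul_right _)]
  split_ifs with hi
  · simp [Key.hh, sh_apply]
  · rw [OrderIso.symm_apply_eq]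
    simp [Key.hh, sh_apply]

theorem Key.E_pi (i : Fin 2) (t : ℝ) : Y.C i (Y.Ee i π (Y.Eo i π t)) = Y.C i t + σ i := by
  rw [Y.wall4_Ee_pi, Y.wall4_Eo_pi]
  fin_cases i
  · simpa using Y.h0 t
  · simpa using Y.h1 t

theorem Key.BW_cont (i : Fin 2) : Continuous fun a : ℝ × ℝ => Y.BW i a.1 a.2 := by
  have hC : Continuous (Y.C i) := (Y.C i).continuous
  have hmap : MapsTo (fun a : ℝ × ℝ => π * a.2) (univ ×ˢ Icc (0 : ℝ) 1) (Icc 0 π) := by
    intro a ha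
    exact ⟨mul_nonneg pi_pos.le ha.2.1, by nlinarith [pi_pos, ha.2.2]⟩
  have h1 : ContinuousOn (fun a : ℝ × ℝ => Y.Eo i (π * a.2) a.1) (univ ×ˢ Icc (0 : ℝ) 1) :=
    (Y.continuousOn_Eo i).comp (f := fun a : ℝ × ℝ => (π * a.2, a.1)) (by fun_prop)
      fun a ha => ⟨hmap ha, mem_univ _⟩
  have h2 : ContinuousOn (fun a : ℝ × ℝ => Y.Ee i (π * a.2) (Y.Eo i (π * a.2) a.1))
      (univ ×ˢ Icc (0 : ℝ) 1) :=
    (Y.continuousOn_Ee i).comp (f := fun a : ℝ × ℝ => (π * a.2, Y.Eo i (π * a.2) a.1))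
      (ContinuousOn.prodMk (by fun_prop) h1) fun a ha => ⟨hmap ha, mem_univ _⟩
  have h3 : ContinuousOn (Function.uncurry fun t u : ℝ =>
      Y.C i (Y.Ee i (π * u) (Y.Eo i (π * u) t)) - σ i * u) (univ ×ˢ Icc (0 : ℝ) 1) :=
    (hC.comp_continuousOn h2).sub (by fun_prop)
  have h4 := h3.comp_fract' (fun t => by
    simp only [mul_zero, mul_one, sub_zero]
    rw [Y.E_zero, Y.E_pi]; ring)
  have h5 := (h4.comp (f := fun a : ℝ × ℝ => (a.2, a.1 / π)) (by fun_prop)).add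
    (g := fun a : ℝ × ℝ => σ i * (a.1 / π)) (by fun_prop)
  refine h5.congr fun a => ?_
  have e : π * Int.fract (a.1 / π) = a.1 - π * (⌊a.1 / π⌋ : ℤ) := by
    rw [Int.fract, mul_sub, mul_div_cancel₀ _ pi_pos.ne']
  change Y.C i (Y.Ee i (π * Int.fract (a.1 / π)) (Y.Eo i (π * Int.fract (a.1 / π)) a.2)) -
    σ i * Int.fract (a.1 / π) + σ i * (a.1 / π) = _
  rw [e, Key.BW, Int.fract]
  ring

theorem Key.BW_mono (i : Fin 2) (θ : ℝ) : StrictMono (Y.BW i θ) := by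
  intro t t' h
  unfold Key.BW
  have h1 : StrictMono (Y.Eo i (θ - π * (⌊θ / π⌋ : ℤ))) :=
    (Y.good_Lc i 1 _ fun j => wall4_sj_mem j _).strictMono
  have h2 : StrictMono (Y.Ee i (θ - π * (⌊θ / π⌋ : ℤ))) :=
    (Y.good_Lc i 0 _ fun j => wall4_sj_mem j _).strictMono
  have := (Y.C i).strictMono (h2 (h1 h))
  linarith

theorem Key.BW_mu (i : Fin 2) (θ t : ℝ) : Y.BW i (θ + π) t = Y.BW i θ t + σ i := by
  unfold Key.BW
  have e : ⌊(θ + π) / π⌋ = ⌊θ / π⌋ + 1 := by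
    rw [add_div, div_self pi_pos.ne', Int.floor_add_one]
  have e2 : θ + π - π * ((⌊θ / π⌋ + 1 : ℤ) : ℝ) = θ - π * (⌊θ / π⌋ : ℤ) := by
    push_cast; ring
  rw [e, e2]
  push_cast; ring

theorem wall4_jj_add_two (o : ℤ) (t : ℝ) : jj o (t + 2) = jj o t + 4 := by
  have := jj_sub_int o (-2) t
  have e : t - ((-2 : ℤ) : ℝ) = t + 2 := by push_cast; ring
  rw [e] at this
  omega

theorem wall4_sj_ang (j : ℤ) (θ : ℝ) : sj (j + 4) (ang (-(2 * LL)) θ) = sj j θ := by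
  have := sj_ang j (-2) θ
  have e : LL * ((-2 : ℤ) : ℝ) = -(2 * LL) := by push_cast; ring
  have e2 : j - 2 * (-2) = j + 4 := by ring
  rwa [e, e2] at this

theorem Key.wall4_hh_shift (i : Fin 2) (j : ℤ) (t : ℝ) :
    Y.hh (j + 4) ((j + 4) * (i : ℕ)) (t + 2) = Y.hh j (j * (i : ℕ)) t + 2 := by
  have := Y.hh_congr (j := j) (j' := j + 4) (b := j * (i : ℕ)) (b' := (j + 4) * (i : ℕ))
    (n := -2) ⟨2, by ring⟩ ⟨2 * (i : ℕ) + 1, by ring⟩ t
  have e : t - ((-2 : ℤ) : ℝ) = t + 2 := by push_cast; ring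
  rw [e] at this
  rw [this]; push_cast; ring

theorem wall4_ang_half (s : ℝ) : ang s (π / 2) = π / 2 := by
  simpa using ang_int_half_pi s 1

theorem Key.wall4_Ee_del (i : Fin 2) (θ t : ℝ) :
    Y.Ee i (ang (-(2 * LL)) θ) (t + 2) = Y.Ee i θ t + 2 := by
  unfold Key.Ee glue
  have e : min (ang (-(2 * LL)) θ) (π / 2) = ang (-(2 * LL)) (min θ (π / 2)) := by
    rw [(strictMono_ang _).monotone.map_min, wall4_ang_half]
  simp only [e, wall4_jj_add_two, wall4_sj_ang]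
  exact wall4_Lc_shift i (Y.wall4_hh_shift i _) _ _

theorem Key.wall4_Eo_del (i : Fin 2) (θ t : ℝ) :
    Y.Eo i (ang (-(2 * LL)) θ) (t + 2) = Y.Eo i θ t + 2 := by
  unfold Key.Eo glue
  have e : max (ang (-(2 * LL)) θ) (π / 2) = ang (-(2 * LL)) (max θ (π / 2)) := by
    rw [(strictMono_ang _).monotone.map_max, wall4_ang_half]
  simp only [e, wall4_jj_add_two, wall4_sj_ang]
  exact wall4_Lc_shift i (Y.wall4_hh_shift i _) _ _

theorem Key.BW_del (i : Fin 2) (θ t : ℝ) :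
    Y.BW i (ang (-(2 * LL)) θ) (t + 2) = Y.BW i θ t + 2 := by
  unfold Key.BW
  have e : ang (-(2 * LL)) θ - π * (⌊θ / π⌋ : ℤ) = ang (-(2 * LL)) (θ - π * (⌊θ / π⌋ : ℤ)) := by
    have := ang_add_int_pi (-(2 * LL)) θ (-⌊θ / π⌋)
    have e1 : θ + ((-⌊θ / π⌋ : ℤ) : ℝ) * π = θ - π * (⌊θ / π⌋ : ℤ) := by push_cast; ring
    rw [e1] at this
    rw [this]; push_cast; ring
  rw [floor_ang, e, Y.wall4_Eo_del, Y.wall4_Ee_del, Y.C2]
  ring

end Pool.Agent.Zig
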