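import Pool.Agent.Lib.MP_d77862_gt.Wall4

noncomputable section

namespace Pool.Agent.Zig

open Set Filter Topology Complex Real

/-! Near the corners the core coordinate is a first integral of the foliation. -/

variable {σ : Fin 2 → ℝ} (Y : Key σ)

/-- The glued isotopy at the angle `φ`. -/
def Key.wall5E (i : Fin 2) (o : ℤ) (φ t : ℝ) : ℝ :=
  glue o (fun j s => Lc i (Y.hh j (j * (i : ℕ))) (sj j φ) s) t

theorem Key.wall5_Ee (i : Fin 2) (φ t : ℝ) : Y.Ee i φ t = Y.wall5E i 0 (min φ (π / 2)) t := rfl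

theorem Key.wall5_Eo (i : Fin 2) (φ t : ℝ) : Y.Eo i φ t = Y.wall5E i 1 (max φ (π / 2)) t := rfl

theorem Key.wall5_mono (i : Fin 2) (o : ℤ) (φ : ℝ) : StrictMono (Y.wall5E i o φ) :=
  (Y.good_Lc i o (fun j => sj j φ) fun _ => ⟨clamp_nonneg _, clamp_le_one _⟩).strictMono

theorem Key.wall5_id (i : Fin 2) (o : ℤ) (φ t : ℝ) (h : ∀ j, Even (j - o) → sj j φ = 0) :
    Y.wall5E i o φ t = t := by
  unfold Key.wall5E glue
  beta_reduce
  rw [h _ (even_jj o t), Lc_zero]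

theorem Key.wall5_per (i : Fin 2) (o k : ℤ) (φ t : ℝ) :
    Y.wall5E i o (φ - π * k) t = Y.wall5E i o φ t := by
  have h : ∀ j, sj j (φ - π * k) = sj j φ := fun j => by
    rw [← sj_add_int_pi j k (φ - π * k)]
    congr 1
    ring
  unfold Key.wall5E
  simp only [h]

theorem wall5_odd {j : ℤ} (h : Even (j - 1)) : Odd j := by
  obtain ⟨m, hm⟩ := h
  exact ⟨m, by omega⟩

theorem wall5_even {j : ℤ} (h : Even (j - 0)) : Even j := by simpa using h

theorem Key.wall5_Eo_le (i : Fin 2) {φ : ℝ} (h : φ ≤ π / 2) (t : ℝ) : Y.Eo i φ t = t := by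
  rw [Y.wall5_Eo, max_eq_right h]
  exact Y.wall5_id i 1 _ t fun j hj => (sj_odd_half (wall5_odd hj)).self_of_nhds

theorem Key.wall5_Ee_ge (i : Fin 2) {φ : ℝ} (h : π / 2 ≤ φ) (t : ℝ) :
    Y.Ee i φ t = Y.wall5E i 0 (π / 2) t := by
  rw [Y.wall5_Ee, min_eq_right h]

theorem Key.wall5_loc (i : Fin 2) (o : ℤ) (φ0 t c : ℝ)
    (h : ∀ j, Even (j - o) → ∀ᶠ φ in 𝓝 φ0, sj j φ = c) {T : Type} {l : Filter T}
    {m n : T → ℝ} (hm : Tendsto m l (𝓝 φ0)) (hn : Tendsto n l (𝓝 t)) :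
    ∀ᶠ a in l, Y.wall5E i o (m a) (n a) = Y.wall5E i o φ0 (n a) := by
  have h1 := eventually_glue_eq (l := 𝓝 φ0) (o := o) (t0 := t)
    (f := fun φ j s => Lc i (Y.hh j (j * (i : ℕ))) (sj j φ) s)
    (f' := fun _ j s => Lc i (Y.hh j (j * (i : ℕ))) (sj j φ0) s) (fun j hj _ => by
      filter_upwards [h j hj] with φ hφ s
      rw [hφ, (h j hj).self_of_nhds])
  exact (hm.prodMk hn).eventually h1

theorem wall5_sign {j o : ℤ} (h : Even (j - o)) : (-1 : ℝ) ^ j = (-1) ^ o := by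
  have : j = (j - o) + o := by ring
  rw [this, zpow_add₀ (by norm_num), h.neg_one_zpow, one_mul]

theorem wall5_sign' {j o : ℤ} (h : Odd (j - o)) : (-1 : ℝ) ^ j = -(-1) ^ o := by
  have : j = (j - o) + o := by ring
  rw [this, zpow_add₀ (by norm_num), h.neg_one_zpow, neg_one_mul]

theorem wall5_OO (i : Fin 2) {r θ t : ℝ} (hr : 0 < r) (h1 : r * nrm (LL * t) θ < eps) (o : ℤ)
    (hq : 0 ≤ (-1) ^ o * (Real.cos θ * Real.sin θ)) :
    (cor (bc i) + r * dir θ, t) ∈ OO o := by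
  intro j hj ht hS
  have := quadrant_of_mem_SS i hr h1 ht hS
  rw [wall5_sign' hj] at this
  linarith

theorem wall5_tendsto (i : Fin 2) (r θ t : ℝ) :
    Tendsto (fun a : ℝ × ℝ × ℝ => (cor (bc i) + a.1 * dir a.2.1, a.2.2)) (𝓝 (r, θ, t))
      (𝓝 (cor (bc i) + r * dir θ, t)) := by
  have hd := continuous_dir
  have : Continuous fun a : ℝ × ℝ × ℝ => (cor (bc i) + a.1 * dir a.2.1, a.2.2) := by fun_prop
  exact this.tendsto (r, θ, t)

theorem Key.wall5_key (i : Fin 2) {r θ t : ℝ} (hr : 0 < r) (h1 : r * nrm (LL * t) θ < eps)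
    (o : ℤ) (ho : o = 0 ∨ o = 1) (hq : 0 ≤ (-1) ^ o * (Real.cos θ * Real.sin θ)) :
    ∃ G : ℝ → ℝ, StrictMono G ∧ ∀ᶠ a : ℝ × ℝ × ℝ in 𝓝 (r, θ, t),
      Y.wall5E i o a.2.1 a.2.2 =
        G (Y.KK (cor (bc i) + r * dir θ, t) (cor (bc i) + a.1 * dir a.2.1, a.2.2)) := by
  set x0 := cor (bc i) + r * dir θ with hx0
  have hc : ∀ j : ℤ, ∃ c : ℝ, (0 ≤ c ∧ c ≤ 1) ∧ (Even (j - o) → t ∈ slab j →
      ∀ᶠ a : ℝ × ℝ in 𝓝 (r, θ), ∀ s, Lc i (Y.hh j (j * (i : ℕ))) (sj j a.2) s =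
        Lc i (Y.hh j (j * (i : ℕ))) c (s + WW x0 j (cor (bc i) + a.1 * dir a.2) *
          (Y.hh j (round (VV j x0)) s - s))) := by
    intro j
    by_cases hj : Even (j - o) ∧ t ∈ slab j
    swap
    · exact ⟨0, ⟨le_rfl, zero_le_one⟩, fun h h' => absurd ⟨h, h'⟩ hj⟩
    obtain ⟨hj, ht⟩ := hj
    by_cases hS : x0 ∈ SS j
    · obtain ⟨hrow, hW⟩ := WW_cusp_mem i hr h1 ht hS
      have hh : ∀ s, Y.hh j (round (VV j x0)) s = Y.hh j (j * (i : ℕ)) s := fun s => by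
        have := Y.hh_congr (j := j) (j' := j) (b := j * (i : ℕ)) (b' := round (VV j x0)) (n := 0)
          (by simp) (by simpa using hrow) s
        simpa using this
      by_cases hi : i = 0
      · refine ⟨0, ⟨le_rfl, zero_le_one⟩, fun _ _ => ?_⟩
        filter_upwards [hW] with a ha s
        rw [Lc_zero, ha, hh, if_pos hi, Lc, if_pos hi]
      · refine ⟨1, ⟨zero_le_one, le_rfl⟩, fun _ _ => ?_⟩
        filter_upwards [hW] with a ha s
        rw [Lc_one, ha, hh, if_neg hi, if_neg hi, Lc, if_neg hi]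
    · have hW : ∀ x, WW x0 j x = 0 := fun x => by
        unfold WW
        rw [if_neg hS]
      have hs : Tendsto (fun a : ℝ × ℝ => a.2) (𝓝 (r, θ)) (𝓝 θ) :=
        continuous_snd.tendsto (r, θ)
      rcases sj_cusp_not_mem i hr h1 ht hS (by rw [wall5_sign hj]; exact hq) with h | h
      · refine ⟨0, ⟨le_rfl, zero_le_one⟩, fun _ _ => ?_⟩
        filter_upwards [hs.eventually h] with a ha s
        rw [ha, hW, zero_mul, add_zero]
      · refine ⟨1, ⟨zero_le_one, le_rfl⟩, fun _ _ => ?_⟩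
        filter_upwards [hs.eventually h] with a ha s
        rw [ha, hW, zero_mul, add_zero]
  choose c hc0 hc using hc
  have hG := Y.good_Lc i o c hc0
  refine ⟨_, hG.strictMono, ?_⟩
  have h2 := eventually_glue_eq (l := 𝓝 (r, θ)) (o := o) (t0 := t)
    (f := fun (a : ℝ × ℝ) j s => Lc i (Y.hh j (j * (i : ℕ))) (sj j a.2) s)
    (f' := fun (a : ℝ × ℝ) j s => Lc i (Y.hh j (j * (i : ℕ))) (c j)
      (s + WW x0 j (cor (bc i) + a.1 * dir a.2) * (Y.hh j (round (VV j x0)) s - s))) hc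
  have ht1 : Tendsto (fun a : ℝ × ℝ × ℝ => (a.1, a.2.1)) (𝓝 (r, θ, t)) (𝓝 (r, θ)) :=
    (by fun_prop : Continuous fun a : ℝ × ℝ × ℝ => (a.1, a.2.1)).tendsto (r, θ, t)
  have ht2 : Tendsto (fun a : ℝ × ℝ × ℝ => a.2.2) (𝓝 (r, θ, t)) (𝓝 t) :=
    (by fun_prop : Continuous fun a : ℝ × ℝ × ℝ => a.2.2).tendsto (r, θ, t)
  filter_upwards [(ht1.prodMk ht2).eventually h2, (wall5_tendsto i r θ t).eventually
    (Y.KK_of_mem ho (wall5_OO i hr h1 o hq))] with a ha hK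
  rw [hK]
  unfold Key.Kp
  rw [(Y.good_Kp o x0 _).glue_glue]
  exact ha

theorem wall5_floor {k : ℤ} {θ : ℝ} (h0 : 0 ≤ θ - π * k) (h1 : θ - π * k < π) :
    ⌊θ / π⌋ = k := by
  rw [Int.floor_eq_iff, le_div_iff₀ Real.pi_pos, div_lt_iff₀ Real.pi_pos]
  constructor <;> linarith

theorem wall5_cs (k : ℤ) (θ : ℝ) :
    Real.cos θ * Real.sin θ = Real.cos (θ - π * k) * Real.sin (θ - π * k) := by
  have h : Real.sin (2 * θ) = Real.sin (2 * (θ - π * k)) := by
    rw [← Real.sin_add_int_mul_two_pi (2 * (θ - π * k)) k]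
    congr 1
    ring
  rw [Real.sin_two_mul, Real.sin_two_mul] at h
  linarith

theorem Key.wall5_height (i : Fin 2) {r θ t : ℝ} (hr : 0 < r) (h1 : r * nrm (LL * t) θ < eps)
    (hq : Real.cos θ * Real.sin θ = 0) : ∀ᶠ a : ℝ × ℝ × ℝ in 𝓝 (r, θ, t),
      Y.KK (cor (bc i) + r * dir θ, t) (cor (bc i) + a.1 * dir a.2.1, a.2.2) = a.2.2 := by
  filter_upwards [(wall5_tendsto i r θ t).eventually
    (Y.KK_of_mem (Or.inl rfl) (wall5_OO i hr h1 0 (by simp [hq]))),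
    (wall5_tendsto i r θ t).eventually (Y.Kp_eq_height (o := 0) (o' := 1) (by decide)
      (wall5_OO i hr h1 1 (by simp [hq])))] with a h h'
  rw [h, h']

theorem Key.BW_cusp (i : Fin 2) (r θ t : ℝ) (hr : 0 < r) (h1 : r * nrm (LL * t) θ < eps) :
    ∃ g : ℝ → ℝ, Function.Injective g ∧ ∀ᶠ a : ℝ × ℝ × ℝ in 𝓝 (r, θ, t),
      Y.BW i a.2.1 a.2.2 =
        g (Y.KK (cor (bc i) + r * dir θ, t) (cor (bc i) + a.1 * dir a.2.1, a.2.2)) := by
  obtain ⟨k, hk⟩ : ∃ k, k = ⌊θ / π⌋ := ⟨_, rfl⟩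
  have hpi := Real.pi_pos
  have h0 : 0 ≤ θ - π * k := by
    have := Int.floor_le (θ / π)
    rw [← hk, le_div_iff₀ hpi] at this
    linarith
  have h2 : θ - π * k < π := by
    have := Int.lt_floor_add_one (θ / π)
    rw [← hk, div_lt_iff₀ hpi] at this
    linarith
  have hcs := wall5_cs k θ
  have hφ : Tendsto (fun a : ℝ × ℝ × ℝ => a.2.1 - π * k) (𝓝 (r, θ, t)) (𝓝 (θ - π * k)) :=
    (by fun_prop : Continuous fun a : ℝ × ℝ × ℝ => a.2.1 - π * k).tendsto (r, θ, t)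
  have ht : Tendsto (fun a : ℝ × ℝ × ℝ => a.2.2) (𝓝 (r, θ, t)) (𝓝 t) :=
    (by fun_prop : Continuous fun a : ℝ × ℝ × ℝ => a.2.2).tendsto (r, θ, t)
  have hinj : ∀ G : ℝ → ℝ, StrictMono G →
      Function.Injective fun s => Y.C i (G s) + σ i * (k : ℝ) := fun G hG =>
    (((Y.C i).strictMono.comp hG).add_const _).injective
  rcases h0.eq_or_lt with h0 | h0
  · -- the angle is a multiple of `π`
    rw [← h0] at hcs hφ
    refine ⟨_, hinj id strictMono_id, ?_⟩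
    have hφ' : Tendsto (fun a : ℝ × ℝ × ℝ => a.2.1 - π * k + π) (𝓝 (r, θ, t)) (𝓝 π) := by
      simpa using hφ.add_const π
    filter_upwards [Y.wall5_height i hr h1 (by simpa using hcs),
      Y.wall5_loc i 0 0 t 0 (fun j hj => sj_even_zero (wall5_even hj)) hφ ht,
      Y.wall5_loc i 1 π t 1 (fun j hj => sj_odd_pi (wall5_odd hj)) hφ' ht,
      hφ.eventually (Ioo_mem_nhds (show -(π / 2) < 0 by linarith) (show 0 < π / 2 by linarith))]
      with a hK he ho hI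
    rw [hK]
    obtain ⟨hI1, hI2⟩ := hI
    unfold Key.BW
    rcases le_or_gt 0 (a.2.1 - π * k) with h | h
    · rw [wall5_floor h (by linarith), Y.wall5_Eo_le i hI2.le, Y.wall5_Ee, min_eq_left hI2.le, he,
        Y.wall5_id i 0 0 _ fun j hj => (sj_even_zero (wall5_even hj)).self_of_nhds]
      rfl
    · have e : a.2.1 - π * ((k - 1 : ℤ) : ℝ) = a.2.1 - π * k + π := by
        push_cast
        ring
      rw [wall5_floor (k := k - 1) (by rw [e]; linarith) (by rw [e]; linarith), e,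
        Y.wall5_Ee_ge i (by linarith), Y.wall5_Eo, max_eq_left (by linarith), ho]
      have hE := Y.E_pi i a.2.2
      rw [Y.wall5_Ee_ge i (by linarith), Y.wall5_Eo, max_eq_left (by linarith)] at hE
      rw [hE]
      push_cast
      simp only [id]
      ring
  rcases lt_trichotomy (θ - π * k) (π / 2) with h3 | h3 | h3
  · -- first quadrant
    obtain ⟨G, hG, hE⟩ := Y.wall5_key i hr h1 0 (Or.inl rfl) (by
      rw [hcs, zpow_zero, one_mul]
      exact mul_nonneg (Real.cos_nonneg_of_neg_pi_div_two_le_of_le (by linarith) h3.le)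
        (Real.sin_nonneg_of_nonneg_of_le_pi h0.le h2.le))
    refine ⟨_, hinj G hG, ?_⟩
    filter_upwards [hE, hφ.eventually (Ioo_mem_nhds h0 h3)] with a ha hI
    obtain ⟨hI1, hI2⟩ := hI
    unfold Key.BW
    rw [wall5_floor hI1.le (by linarith), Y.wall5_Eo_le i hI2.le, Y.wall5_Ee,
      min_eq_left hI2.le, Y.wall5_per, ha]
  · -- the angle is an odd multiple of `π / 2`
    rw [h3] at hcs hφ
    refine ⟨_, hinj _ (Y.wall5_mono i 0 (π / 2)), ?_⟩
    have hmax : Tendsto (fun a : ℝ × ℝ × ℝ => max (a.2.1 - π * k) (π / 2)) (𝓝 (r, θ, t))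
        (𝓝 (π / 2)) := by
      simpa using hφ.max (tendsto_const_nhds (x := π / 2))
    have hmin : Tendsto (fun a : ℝ × ℝ × ℝ => min (a.2.1 - π * k) (π / 2)) (𝓝 (r, θ, t))
        (𝓝 (π / 2)) := by
      simpa using hφ.min (tendsto_const_nhds (x := π / 2))
    filter_upwards [Y.wall5_height i hr h1 (by simpa using hcs),
      Y.wall5_loc i 0 (π / 2) t 1 (fun j hj => sj_even_half (wall5_even hj)) hmin ht,
      Y.wall5_loc i 1 (π / 2) t 0 (fun j hj => sj_odd_half (wall5_odd hj)) hmax ht,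
      hφ.eventually (Ioo_mem_nhds (show 0 < π / 2 by linarith) (show π / 2 < π by linarith))]
      with a hK he ho hI
    obtain ⟨hI1, hI2⟩ := hI
    unfold Key.BW
    rw [hK, wall5_floor hI1.le hI2, Y.wall5_Eo, ho,
      Y.wall5_id i 1 (π / 2) _ fun j hj => (sj_odd_half (wall5_odd hj)).self_of_nhds,
      Y.wall5_Ee, he]
  · -- second quadrant
    obtain ⟨G, hG, hE⟩ := Y.wall5_key i hr h1 1 (Or.inr rfl) (by
      rw [hcs, zpow_one]
      have := mul_nonneg (neg_nonneg.2 (Real.cos_nonpos_of_pi_div_two_le_of_le h3.le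
        (by linarith))) (Real.sin_nonneg_of_nonneg_of_le_pi h0.le h2.le)
      linarith)
    refine ⟨_, hinj _ ((Y.wall5_mono i 0 (π / 2)).comp hG), ?_⟩
    filter_upwards [hE, hφ.eventually (Ioo_mem_nhds h3 h2)] with a ha hI
    obtain ⟨hI1, hI2⟩ := hI
    unfold Key.BW
    rw [wall5_floor (by linarith) hI2, Y.wall5_Ee_ge i hI1.le, Y.wall5_Eo,
      max_eq_left hI1.le, Y.wall5_per, ha]
    rfl

/-- Filling data with a transverse foliation for all small slopes of opposite signs. -/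
theorem exists_leaf (P Q u v : Fin 2 → ℤ) (hP : ∀ i, 0 < P i)
    (hdet : ∀ i, u i * P i - v i * Q i = 1) (hQ : Q 0 * Q 1 < 0) (hs : ∀ i, 2 * |Q i| < P i) :
    ∃ E : Fin 2 → End, (∀ i, (E i).P = P i ∧ (E i).Q = Q i ∧ (E i).u = u i ∧ (E i).v = v i) ∧
      Nonempty (Leaf E) := by
  have hPr : ∀ i, (0 : ℝ) < P i := fun i => by exact_mod_cast hP i
  obtain ⟨Y⟩ := exists_key (σ := fun i => 2 * (Q i : ℝ) / P i) (by
    have h : ((Q 0 : ℝ) * Q 1) < 0 := by exact_mod_cast hQ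
    have h0 := hPr 0
    have h1 := hPr 1
    have : 2 * (Q 0 : ℝ) / P 0 * (2 * (Q 1 : ℝ) / P 1) = (4 * (Q 0 * Q 1)) / (P 0 * P 1) := by
      field_simp
      ring
    rw [this]
    exact div_neg_of_neg_of_pos (by linarith) (mul_pos h0 h1)) (by
    intro i
    have h : (2 * |(Q i : ℝ)|) < P i := by exact_mod_cast hs i
    rw [abs_div, abs_mul, abs_of_pos (hPr i), abs_two, div_lt_one (hPr i)]
    exact h)
  refine ⟨fun i => ⟨Y.BW i, P i, Q i, u i, v i, hP i, hdet i, Y.BW_cont i, Y.BW_mono i,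
    Y.BW_mu i, Y.BW_del i⟩, fun i => ⟨rfl, rfl, rfl, rfl⟩,
    ⟨⟨Y.KK, Y.KK_cont, Y.KK_mono, Y.KK_compat, Y.KK_inv, fun i r θ t hr h1 => ?_⟩⟩⟩
  exact Y.BW_cusp i r θ t hr h1

end Pool.Agent.Zig
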